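import Pool.Agent.Bs2.Dich

/-!
# From a function to a system
-/

set_option autoImplicit false

open Set Filter Topology TopologicalSpace
open scoped Classical

namespace Pool.Agent.Bs2

/-- `S` can be separated from `T` by a countable union of `G_δ` sets. -/
def SepX {X : Type} [TopologicalSpace X] (S T : Set X) : Prop := ∃ Θ, Sig3 Θ ∧ S ⊆ Θ ∧ ∀ x ∈ Θ, x ∉ T

/-- MODULE a1 (size 1; all theorems of this section). -/
theorem SepX.iUnion {X : Type} [TopologicalSpace X] {S : ℕ → Set X} {T : Set X} (h : ∀ n, SepX (S n) T) :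
    SepX (⋃ n, S n) T := by
  choose Θ h1 h2 h3 using h
  refine ⟨⋃ n, Θ n, Sig3.iUnion h1, iUnion_mono h2, fun x hx => ?_⟩
  obtain ⟨n, hn⟩ := mem_iUnion.1 hx
  exact h3 n x hn

/-- Countable unions of `G_δ` sets of a subspace are traces. -/
theorem Sig3.extend {X Z : Type} [TopologicalSpace X] [TopologicalSpace Z] {ι : X → Z} (hι : IsEmbedding ι)
    {Θ : Set X} (h : Sig3 Θ) : ∃ Θ' : Set Z, Sig3 Θ' ∧ ι ⁻¹' Θ' = Θ := by
  obtain ⟨G, hG, rfl⟩ := h
  have key : ∀ n, ∃ G' : Set Z, IsGδ G' ∧ ι ⁻¹' G' = G n := by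
    intro n
    obtain ⟨O, hO, hGO⟩ := (hG n).eq_iInter_nat
    have h2 : ∀ m, ∃ O' : Set Z, IsOpen O' ∧ ι ⁻¹' O' = O m := fun m => hι.isInducing.isOpen_iff.1 (hO m)
    choose O' hO' hOO using h2
    refine ⟨⋂ m, O' m, IsGδ.iInter_of_isOpen hO', ?_⟩
    rw [preimage_iInter, hGO]
    exact iInter_congr hOO
  choose G' hG' hGG using key
  refine ⟨⋃ n, G' n, ⟨G', hG', rfl⟩, ?_⟩
  rw [preimage_iUnion]
  exact iUnion_congr hGG

theorem Sig3.measurable {X : Type} [TopologicalSpace X] {Θ : Set X} (h : Sig3 Θ) : @MeasurableSet X (borel X) Θ := by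
  obtain ⟨G, hG, rfl⟩ := h
  let : MeasurableSpace X := borel X
  have : BorelSpace X := ⟨rfl⟩
  exact MeasurableSet.iUnion fun n => (hG n).measurableSet

/-- MODULE a2 (size 2): parametrisation.

Proof.  `borelize F.X`, `borelize F.Y`; the graph `{(x, F.f x) | x ∈ S}` is Borel in the Polish space `F.X × F.Y` (`measurableSet_graph`-type lemma, or preimage of the diagonal under `(x, y) ↦ (f x, y)` intersected with `S ×ˢ univ`), so analytic (`MeasurableSet.analyticSet`), nonempty, so the range of a continuous `g' : (ℕ → ℕ) → F.X × F.Y`; `g = fst ∘ g'`. -/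
theorem exists_param (F : BorelFn) {S : Set F.X} (hS : @MeasurableSet F.X (borel F.X) S) (hn : S.Nonempty) :
    ∃ g : NN → F.X, Continuous g ∧ range g = S ∧ Continuous fun z => F.f (g z) := by
  let : MeasurableSpace F.X := borel F.X
  have : BorelSpace F.X := ⟨rfl⟩
  let : MeasurableSpace F.Y := borel F.Y
  have : BorelSpace F.Y := ⟨rfl⟩
  have hf : Measurable F.f := measurable_of_isOpen F.borelf
  have hT : MeasureTheory.AnalyticSet ((fun x => (x, F.f x)) '' S) :=
    MeasurableSet.analyticSet_image hS (measurable_id.prodMk hf)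
  rw [MeasureTheory.AnalyticSet] at hT
  rcases hT with hT | ⟨g, hg, hgT⟩
  · obtain ⟨x, hx⟩ := hn
    have : (x, F.f x) ∈ (fun x => (x, F.f x)) '' S := mem_image_of_mem _ hx
    rw [hT] at this
    exact this.elim
  · have hgz : ∀ z, (g z).1 ∈ S ∧ F.f (g z).1 = (g z).2 := by
      intro z
      have hz : g z ∈ (fun x => (x, F.f x)) '' S := hgT ▸ mem_range_self z
      obtain ⟨x, hx, he⟩ := hz
      rw [← he]
      exact ⟨hx, rfl⟩
    refine ⟨fun z => (g z).1, continuous_fst.comp hg, ?_, ?_⟩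
    · ext x
      constructor
      · rintro ⟨z, rfl⟩
        exact (hgz z).1
      · intro hx
        have : (x, F.f x) ∈ range g := hgT ▸ mem_image_of_mem _ hx
        obtain ⟨z, hz⟩ := this
        exact ⟨z, congrArg Prod.fst hz⟩
    · have e : (fun z => F.f (g z).1) = fun z => (g z).2 := funext fun z => (hgz z).2
      rw [e]
      exact continuous_snd.comp hg

/-- MODULE a3 (size 2): codes.

Proof.  `k z = 0^(z 0) 1 0^(z 1) 1 ...` (`k z j = true` iff `j = z 0 + ... + z m + m` for some `m`): continuous, injective.  `O n = ⋃ z, {x | x i = a z i for i < n} ×ˢ {y | y j = k z j for j ≤ z 0 + ... + z n + n}`, open.  If `(x, y) ∈ O n` for all `n`: `y` has infinitely many ones, so `y = k z` for a unique `z`, and for each `n`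
there is `z'` which agrees with `z` up to `n` and `x i = a z' i` for `i < n`; by continuity of `a` at `z`: `x = a z`. -/
theorem exists_code (a : NN → CC) (ha : Continuous a) : ∃ (k : NN → CC) (O : ℕ → Set (CC × CC)), Continuous k ∧
    Function.Injective k ∧ (∀ n, IsOpen (O n)) ∧ (∀ z n, (a z, k z) ∈ O n) ∧
      ∀ x y, (∀ n, (x, y) ∈ O n) → ∃ z, a z = x := by
  let k : NN → CC := fun z i => decide (z (Nat.unpair i).1 = (Nat.unpair i).2)
  let N : NN → ℕ → ℕ := fun z n => (Finset.range n).sup fun m => Nat.pair m (z m)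
  have hkp : ∀ z m j, k z (Nat.pair m j) = decide (z m = j) := by
    intro z m j
    show decide (z (Nat.unpair (Nat.pair m j)).1 = (Nat.unpair (Nat.pair m j)).2) = _
    rw [Nat.unpair_pair]
  have hN : ∀ z n m, m < n → Nat.pair m (z m) ≤ N z n := fun z n m hm =>
    Finset.le_sup (f := fun m => Nat.pair m (z m)) (Finset.mem_range.2 hm)
  refine ⟨k, fun n => {p | ∃ z, (∀ i < n, p.1 i = a z i) ∧ ∀ i ≤ N z n, p.2 i = k z i}, ?_, ?_, ?_, ?_, ?_⟩
  · exact continuous_pi fun i =>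
      (continuous_of_discreteTopology (f := fun t : ℕ => decide (t = (Nat.unpair i).2))).comp (continuous_apply _)
  · intro z z' h
    funext m
    have h1 := congrFun h (Nat.pair m (z m))
    rw [hkp, hkp, decide_eq_true rfl] at h1
    exact (of_decide_eq_true h1.symm).symm
  · intro n
    have e : {p : CC × CC | ∃ z, (∀ i < n, p.1 i = a z i) ∧ ∀ i ≤ N z n, p.2 i = k z i} =
        ⋃ z, ((⋂ i ∈ Finset.range n, (fun p : CC × CC => p.1 i) ⁻¹' {a z i}) ∩
          ⋂ i ∈ Finset.range (N z n + 1), (fun p : CC × CC => p.2 i) ⁻¹' {k z i}) := by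
      ext p
      simp only [mem_ofPred_eq, mem_iUnion, mem_inter_iff, mem_iInter, Finset.mem_range, mem_preimage,
        mem_singleton_iff, Nat.lt_succ_iff]
    show IsOpen {p : CC × CC | ∃ z, (∀ i < n, p.1 i = a z i) ∧ ∀ i ≤ N z n, p.2 i = k z i}
    rw [e]
    refine isOpen_iUnion fun z => IsOpen.inter ?_ ?_
    · exact isOpen_biInter_finset fun i _ => (isOpen_discrete _).preimage ((continuous_apply i).comp continuous_fst)
    · exact isOpen_biInter_finset fun i _ => (isOpen_discrete _).preimage ((continuous_apply i).comp continuous_snd)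
  · exact fun z n => ⟨z, fun i _ => rfl, fun i _ => rfl⟩
  · intro x y h
    choose z h1 h2 using h
    have hy : ∀ n m, m < n → y (Nat.pair m (z n m)) = true := by
      intro n m hm
      have := h2 n _ (hN (z n) n m hm)
      rw [hkp, decide_eq_true rfl] at this
      exact this
    have hz : ∀ n n' m, m < n → m < n' → z n m = z n' m := by
      intro n n' m hm hm'
      rcases le_total (Nat.pair m (z n' m)) (Nat.pair m (z n m)) with hle | hle
      · have := h2 n _ (hle.trans (hN (z n) n m hm))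
        have h3 := hy n' m hm'
        have h4 : y (Nat.pair m (z n' m)) = k (z n) (Nat.pair m (z n' m)) := this
        rw [h3, hkp] at h4
        exact of_decide_eq_true h4.symm
      · have := h2 n' _ (hle.trans (hN (z n') n' m hm'))
        have h3 := hy n m hm
        have h4 : y (Nat.pair m (z n m)) = k (z n') (Nat.pair m (z n m)) := this
        rw [h3, hkp] at h4
        exact (of_decide_eq_true h4.symm).symm
    refine ⟨fun m => z (m + 1) m, funext fun i => ?_⟩
    have ht : Tendsto z atTop (𝓝 fun m => z (m + 1) m) := by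
      rw [tendsto_pi_nhds]
      intro m
      refine tendsto_const_nhds.congr' ?_
      filter_upwards [eventually_gt_atTop m] with n hn
      exact hz _ _ m (Nat.lt_succ_self m) hn
    have ht2 : Tendsto (fun n => a (z n) i) atTop (𝓝 (a (fun m => z (m + 1) m) i)) :=
      (tendsto_pi_nhds.1 ((ha.tendsto _).comp ht)) i
    have ht3 : Tendsto (fun n => a (z n) i) atTop (𝓝 (x i)) := by
      refine tendsto_const_nhds.congr' ?_
      filter_upwards [eventually_gt_atTop i] with n hn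
      exact h1 n i hn
    exact tendsto_nhds_unique ht2 ht3

/-- MODULE a4 (size 1): `CC × CC` is homeomorphic to `CC`. -/
theorem exists_homeo : Nonempty (CC × CC ≃ₜ CC) := by
  exact ⟨(Homeomorph.sumArrowHomeomorphProdArrow (ι := ℕ) (ι' := ℕ) (X := Bool)).symm.trans
    (Homeomorph.piCongrLeft (Y := fun _ : ℕ => Bool) Equiv.natSumNatEquivNat)⟩

/-- The relation between a system and a function; `i` is the type on the side of `A`. -/
structure Itf (F : BorelFn) (s : Sys) (A : Set F.X) (ιX : F.X → CC) (ιY : F.Y → CC) (i : Fin 3) : Prop where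
  ok : s.Ok
  star : s.Star ∨ ∃ y, ∀ e, s.h e = y
  b : ∀ e, ∃ x, x ∉ A ∧ ιX x = s.p 0 (s.b e) ∧ ιY (F.f x) = s.h e
  a : ∀ z, ∃ x, x ∈ A ∧ ιX x = s.p 0 (s.a z)
  a0 : i = 0 → ∃ y, ∀ z, ∀ x ∈ A, ιX x = s.p 0 (s.a z) → F.f x = y
  a1 : i = 1 → ∀ z, ∀ x ∈ A, ιX x = s.p 0 (s.a z) → ιY (F.f x) = s.p 1 (s.a z)
  a2 : i = 2 → ∀ z, ∀ x ∈ A, ιX x = s.p 0 (s.a z) → ιY (F.f x) = s.k z

section

variable {F : BorelFn} {A B : Set F.X} {ιX : F.X → CC} {ιY : F.Y → CC}

/-- MODULE a5 (size 2): type `0`.  `B ⊆ Aᶜ` the part of the complement which is used.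

Proof.  `A' = A ∩ f ⁻¹' {y}` and `B` are not empty (otherwise separable).  `exists_param` for `A'`: `g`, `a = ιX ∘ g`; for `B`: `g'`, `b = ιX ∘ g'`, `h = ιY ∘ f ∘ g'`; `exists_code a`: `k`, `O`; `p i = id`.  `nO`: `(b e, y)` in all `O n` gives `z` with `a z = b e`, impossible (`ιX` injective, `A' ∩ B = ∅`).
`pos`: a separating `Θ ⊆ CC` gives `ιX ⁻¹' Θ`.  `nk`: `k` injective, so `k ⁻¹' {y'}` has at most one element `z`: `Θ = {a z}` closed.  `np`: `{z | a z = y'}`: `Θ = {y'}` if `y'` is in the range of `a`, `Null` of the empty set otherwise.  `star`: from `hB`: for the first alternative and `y' ∈ CC`: if `y' = ιY y''`: `Sig3.extend` of the set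
separating `A` from `B ∩ f ⁻¹' {y''}`; if `y'` is not in the range of `ιY`: no `e` has `h e = y'`, `Θ = univ`. -/
theorem exists_itf0 (hX : IsEmbedding ιX) (hY : IsEmbedding ιY) (hA : @MeasurableSet F.X (borel F.X) A)
    (hBm : @MeasurableSet F.X (borel F.X) B) (hAB : ∀ x ∈ B, x ∉ A)
    (hB : (∀ y, SepX A (B ∩ F.f ⁻¹' {y})) ∨ ∃ y, ∀ x ∈ B, F.f x = y) {y : F.Y}
    (h : ¬ SepX (A ∩ F.f ⁻¹' {y}) B) : ∃ s, Itf F s A ιX ιY 0 := by
  have hAn : @MeasurableSet F.X (borel F.X) (A ∩ F.f ⁻¹' {y}) := by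
    have e : F.f ⁻¹' {y} = (F.f ⁻¹' {y}ᶜ)ᶜ := by
      rw [preimage_compl, compl_compl]
    rw [e]
    exact hA.inter (F.borelf _ isClosed_singleton.isOpen_compl).compl
  have hAne : (A ∩ F.f ⁻¹' {y}).Nonempty := by
    rw [nonempty_iff_ne_empty]
    intro he
    rw [he] at h
    exact h ⟨∅, Sig3.of_isOpen isOpen_empty, empty_subset _, fun x hx => absurd hx (notMem_empty x)⟩
  have hBne : B.Nonempty := by
    rw [nonempty_iff_ne_empty]
    rintro rfl
    exact h ⟨univ, Sig3.of_isOpen isOpen_univ, subset_univ _, fun x _ => notMem_empty x⟩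
  obtain ⟨g, hg, hgr, hfg⟩ := exists_param F hAn hAne
  obtain ⟨g', hg', hgr', hfg'⟩ := exists_param F hBm hBne
  have hgA : ∀ z, g z ∈ A ∧ F.f (g z) = y := fun z => by
    have : g z ∈ A ∩ F.f ⁻¹' {y} := hgr ▸ mem_range_self z
    exact this
  have hgB : ∀ e, g' e ∈ B := fun e => hgr' ▸ mem_range_self e
  have hne : ∀ z e, ιX (g z) ≠ ιX (g' e) := fun z e he =>
    hAB _ (hgB e) (hX.injective he ▸ (hgA z).1)
  obtain ⟨k, O, hk, hki, hO, hmO, hnO⟩ := exists_code (fun z => ιX (g z)) (hX.continuous.comp hg)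
  let s : Sys :=
    { a := fun z => ιX (g z)
      b := fun e => ιX (g' e)
      h := fun e => ιY (F.f (g' e))
      k := k
      p := fun _ => id
      O := O
      ca := hX.continuous.comp hg
      cb := hX.continuous.comp hg'
      ch := hY.continuous.comp hfg'
      ck := hk
      cp := fun _ => continuous_id
      oO := hO
      mO := hmO
      nO := fun e y' => by
        by_contra hcon
        push Not at hcon
        obtain ⟨z, hz⟩ := hnO _ _ hcon
        exact hne z e hz }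
  refine ⟨s, ⟨⟨?_, ?_, ?_⟩, ?_, ?_, ?_, ?_, ?_, ?_⟩⟩
  · rintro ⟨Θ', hΘ', h1, h2⟩
    refine h ⟨ιX ⁻¹' Θ', hΘ'.preimage hX.continuous, ?_, ?_⟩
    · intro x hx
      have hx' := hx
      rw [← hgr] at hx'
      obtain ⟨z, rfl⟩ := hx'
      exact h1 z (mem_univ z)
    · intro x hx hxB
      rw [← hgr'] at hxB
      obtain ⟨e, rfl⟩ := hxB
      exact h2 e (mem_univ _) hx
  · intro y'
    by_cases hy : ∃ z, k z = y'
    · obtain ⟨z, rfl⟩ := hy
      refine ⟨{s.a z}, Sig3.of_isClosed isClosed_singleton, fun z' hz' => ?_, fun e _ he => hne z e ?_⟩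
      · have : z' = z := hki hz'
        rw [this]
        exact mem_singleton _
      · exact (mem_singleton_iff.1 he).symm
    · have he : s.k ⁻¹' {y'} = ∅ := by
        rw [eq_empty_iff_forall_notMem]
        exact fun z hz => hy ⟨z, hz⟩
      rw [he]
      exact Sys.null_empty
  · intro i y'
    by_cases hy : ∃ z, s.a z = y'
    · obtain ⟨z, rfl⟩ := hy
      refine ⟨{s.a z}, Sig3.of_isClosed isClosed_singleton, fun z' hz' => hz', fun e _ he => hne z e ?_⟩
      exact (mem_singleton_iff.1 he).symm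
    · have he : (fun z => s.p i (s.a z)) ⁻¹' {y'} = ∅ := by
        rw [eq_empty_iff_forall_notMem]
        exact fun z hz => hy ⟨z, hz⟩
      rw [he]
      exact Sys.null_empty
  · rcases hB with hB | ⟨y₁, hy⟩
    · left
      intro y'
      by_cases hy : ∃ y₁, ιY y₁ = y'
      · obtain ⟨y₁, rfl⟩ := hy
        obtain ⟨Θ, hΘ, hST, hTT⟩ := hB y₁
        obtain ⟨Θ', hΘ', rfl⟩ := hΘ.extend hX
        exact ⟨Θ', hΘ', fun z _ => hST (hgA z).1, fun e he hb => hTT (g' e) hb ⟨hgB e, hY.injective he⟩⟩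
      · exact ⟨univ, Sig3.of_isOpen isOpen_univ, fun z _ => mem_univ _, fun e he => (hy ⟨_, he⟩).elim⟩
    · exact Or.inr ⟨ιY y₁, fun e => congrArg ιY (hy _ (hgB e))⟩
  · exact fun e => ⟨g' e, hAB _ (hgB e), rfl, rfl⟩
  · exact fun z => ⟨g z, (hgA z).1, rfl⟩
  · intro _
    refine ⟨y, fun z x _ hx => ?_⟩
    have : x = g z := hX.injective hx
    rw [this]
    exact (hgA z).2
  · exact fun e => absurd e (by decide)
  · exact fun e => absurd e (by decide)

/-- MODULE a6 (size 3): type `1`.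

Proof.  `c : CC × CC ≃ₜ CC`.  `exists_param` for `A`: `g`, `a z = c (ιX (g z), ιY (f (g z)))`.  `exists_param` for `B`: `g'`; `NN ≃ₜ NN × NN` (or `NN → CC` continuous surjection, `NN ≃ₜ NN × CC`-type: take `e ↦ (e even part, e odd part)` and a continuous surjection `NN → CC`, e.g. `n ↦ (e n ≠ 0)`): `b e = c (ιX (g' e₀), t e₁)`, `h e = ιY (f (g' e₀))`.
`p 0 = fst ∘ c.symm`, `p 1 = snd ∘ c.symm`; `exists_code a`.  `pos` is `h`.  `nk` as for type `0`.  `np 0 y`: the `z` with `ιX (g z) = y`: `Θ = c '' ({y} ×ˢ univ)`, closed, if `y = ιX x` with `x ∈ A`.  `np 1 y`: the `z` with `ιY (f (g z)) = y`: if `y = ιY y'` take the set separating `A ∩ f ⁻¹' {y'}` from `B` (`h0`), extended, preimage under `fst ∘ c.symm`.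
`star`: the same for `hB` (for `y`: `A` from `B ∩ f ⁻¹' {y'}`). -/
theorem exists_itf1 (hX : IsEmbedding ιX) (hY : IsEmbedding ιY) (hA : @MeasurableSet F.X (borel F.X) A)
    (hBm : @MeasurableSet F.X (borel F.X) B) (hAB : ∀ x ∈ B, x ∉ A)
    (hB : (∀ y, SepX A (B ∩ F.f ⁻¹' {y})) ∨ ∃ y, ∀ x ∈ B, F.f x = y)
    (h0 : ∀ y, SepX (A ∩ F.f ⁻¹' {y}) B)
    (h : ¬ ∃ Θ : Set (CC × CC), Sig3 Θ ∧ (∀ x ∈ A, (ιX x, ιY (F.f x)) ∈ Θ) ∧ ∀ x ∈ B, ∀ y, (ιX x, y) ∉ Θ) :
    ∃ s, Itf F s A ιX ιY 1 := by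
  have hAne : A.Nonempty := by
    rw [nonempty_iff_ne_empty]
    rintro rfl
    exact h ⟨∅, Sig3.of_isOpen isOpen_empty, fun x hx => absurd hx (notMem_empty x), fun x _ y => notMem_empty _⟩
  have hBne : B.Nonempty := by
    rw [nonempty_iff_ne_empty]
    rintro rfl
    exact h ⟨univ, Sig3.of_isOpen isOpen_univ, fun x _ => mem_univ _, fun x hx => absurd hx (notMem_empty x)⟩
  obtain ⟨c⟩ := exists_homeo
  obtain ⟨g, hg, hgr, hfg⟩ := exists_param F hA hAne
  obtain ⟨g', hg', hgr', hfg'⟩ := exists_param F hBm hBne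
  have hgA : ∀ z, g z ∈ A := fun z => hgr ▸ mem_range_self z
  have hgB : ∀ e, g' e ∈ B := fun e => hgr' ▸ mem_range_self e
  have hne : ∀ z e, ιX (g z) ≠ ιX (g' e) := fun z e he =>
    hAB _ (hgB e) (hX.injective he ▸ hgA z)
  let q : NN → NN := fun e i => e (2 * i)
  let t : NN → CC := fun e j => decide (e (2 * j + 1) ≠ 0)
  have hq : Continuous q := continuous_pi fun i => continuous_apply _
  have ht : Continuous t := continuous_pi fun j =>
    (continuous_of_discreteTopology (f := fun n : ℕ => decide (n ≠ 0))).comp (continuous_apply _)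
  have hqt : ∀ (e' : NN) (y : CC), ∃ e, q e = e' ∧ t e = y := by
    intro e' y
    refine ⟨fun n => if n % 2 = 0 then e' (n / 2) else if y (n / 2) then 1 else 0, ?_, ?_⟩
    · funext i
      show (if (2 * i) % 2 = 0 then e' (2 * i / 2) else if y (2 * i / 2) then 1 else 0) = e' i
      rw [if_pos (by omega), show 2 * i / 2 = i by omega]
    · funext j
      show decide ((if (2 * j + 1) % 2 = 0 then e' ((2 * j + 1) / 2) else if y ((2 * j + 1) / 2) then 1 else 0) ≠ 0) = y j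
      rw [if_neg (by omega), show (2 * j + 1) / 2 = j by omega]
      cases y j <;> simp
  have haC : Continuous fun z => c (ιX (g z), ιY (F.f (g z))) :=
    c.continuous.comp ((hX.continuous.comp hg).prodMk (hY.continuous.comp hfg))
  obtain ⟨k, O, hk, hki, hO, hmO, hnO⟩ := exists_code (fun z => c (ιX (g z), ιY (F.f (g z)))) haC
  have hc1 : Continuous fun w => (c.symm w).1 := continuous_fst.comp c.symm.continuous
  have hc2 : Continuous fun w => (c.symm w).2 := continuous_snd.comp c.symm.continuous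
  have hca : ∀ x y, c.symm (c (x, y)) = (x, y) := fun x y => c.symm_apply_apply (x, y)
  have hneb : ∀ z e, c (ιX (g z), ιY (F.f (g z))) ≠ c (ιX (g' (q e)), t e) := fun z e he =>
    hne z (q e) (congrArg Prod.fst (c.injective he))
  let s : Sys :=
    { a := fun z => c (ιX (g z), ιY (F.f (g z)))
      b := fun e => c (ιX (g' (q e)), t e)
      h := fun e => ιY (F.f (g' (q e)))
      k := k
      p := fun i w => if i = 0 then (c.symm w).1 else (c.symm w).2
      O := O
      ca := haC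
      cb := c.continuous.comp ((hX.continuous.comp (hg'.comp hq)).prodMk ht)
      ch := hY.continuous.comp (hfg'.comp hq)
      ck := hk
      cp := fun i => by
        by_cases hi : i = 0
        · simp only [hi, if_true]
          exact hc1
        · simp only [hi, if_false]
          exact hc2
      oO := hO
      mO := hmO
      nO := fun e y' => by
        by_contra hcon
        push Not at hcon
        obtain ⟨z, hz⟩ := hnO _ _ hcon
        exact hneb z e hz }
  have hp0 : ∀ w, s.p 0 w = (c.symm w).1 := fun w => by simp [s]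
  have hp1 : ∀ w, s.p 1 w = (c.symm w).2 := fun w => by simp [s]
  have hsa : ∀ z, s.a z = c (ιX (g z), ιY (F.f (g z))) := fun z => rfl
  have hsb : ∀ e, s.b e = c (ιX (g' (q e)), t e) := fun e => rfl
  have hsep : ∀ {S : Set F.X} {T : Set F.X} {Z : Set NN} {J : Set CC}, SepX S T → (∀ z ∈ Z, g z ∈ S) →
      (∀ e, ιY (F.f (g' (q e))) ∈ J → g' (q e) ∈ T) → s.Null J Z := by
    rintro S T Z J ⟨Θ, hΘ, hST, hTT⟩ hZ hJ
    obtain ⟨Θ', hΘ', rfl⟩ := hΘ.extend hX
    refine ⟨(fun w => (c.symm w).1) ⁻¹' Θ', hΘ'.preimage hc1, fun z hz => ?_, fun e he hb => ?_⟩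
    · show (c.symm (s.a z)).1 ∈ Θ'
      rw [hsa, hca]
      exact hST (hZ z hz)
    · have hb' : (c.symm (s.b e)).1 ∈ Θ' := hb
      rw [hsb, hca] at hb'
      exact hTT _ hb' (hJ e he)
  refine ⟨s, ⟨⟨?_, ?_, ?_⟩, ?_, ?_, ?_, ?_, ?_, ?_⟩⟩
  · rintro ⟨Θ', hΘ', h1, h2⟩
    refine h ⟨c ⁻¹' Θ', hΘ'.preimage c.continuous, ?_, ?_⟩
    · intro x hx
      rw [← hgr] at hx
      obtain ⟨z, rfl⟩ := hx
      exact h1 z (mem_univ z)
    · intro x hx y' hxy
      rw [← hgr'] at hx
      obtain ⟨e', rfl⟩ := hx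
      obtain ⟨e, he, hte⟩ := hqt e' y'
      apply h2 e (mem_univ _)
      rw [hsb, he, hte]
      exact hxy
  · intro y'
    by_cases hy : ∃ z, k z = y'
    · obtain ⟨z, rfl⟩ := hy
      refine ⟨{s.a z}, Sig3.of_isClosed isClosed_singleton, fun z' hz' => ?_, fun e _ he => hneb z e ?_⟩
      · have : z' = z := hki hz'
        rw [this]
        exact mem_singleton _
      · exact (mem_singleton_iff.1 he).symm
    · have he : s.k ⁻¹' {y'} = ∅ := by
        rw [eq_empty_iff_forall_notMem]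
        exact fun z hz => hy ⟨z, hz⟩
      rw [he]
      exact Sys.null_empty
  · intro i y'
    by_cases hy : ∃ z, s.p i (s.a z) = y'
    · obtain ⟨z, rfl⟩ := hy
      have hi : i = 0 ∨ i = 1 := by
        revert i
        decide
      rcases hi with rfl | rfl
      · refine ⟨(fun w => (c.symm w).1) ⁻¹' {ιX (g z)}, Sig3.of_isClosed (isClosed_singleton.preimage hc1),
          fun z' hz' => ?_, fun e _ he => hne z (q e) ?_⟩
        · have hz'' : s.p 0 (s.a z') = s.p 0 (s.a z) := hz'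
          rw [hp0, hp0, hsa z, hsa z', hca, hca] at hz''
          show (c.symm (s.a z')).1 = ιX (g z)
          rw [hsa z', hca]
          exact hz''
        · have he' : (c.symm (s.b e)).1 = ιX (g z) := he
          rw [hsb, hca] at he'
          exact he'.symm
      · refine hsep (h0 (F.f (g z))) (fun z' hz' => ⟨hgA z', ?_⟩) fun e _ => hgB _
        have hz'' : s.p 1 (s.a z') = s.p 1 (s.a z) := hz'
        rw [hp1, hp1, hsa, hsa, hca, hca] at hz''
        exact hY.injective hz''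
    · have he : (fun z => s.p i (s.a z)) ⁻¹' {y'} = ∅ := by
        rw [eq_empty_iff_forall_notMem]
        exact fun z hz => hy ⟨z, hz⟩
      rw [he]
      exact Sys.null_empty
  · rcases hB with hB | ⟨y₁, hy⟩
    · left
      intro y'
      by_cases hy : ∃ y₁, ιY y₁ = y'
      · obtain ⟨y₁, rfl⟩ := hy
        exact hsep (hB y₁) (fun z _ => hgA z) fun e he => ⟨hgB _, hY.injective he⟩
      · exact ⟨univ, Sig3.of_isOpen isOpen_univ, fun z _ => mem_univ _, fun e he => (hy ⟨_, he⟩).elim⟩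
    · exact Or.inr ⟨ιY y₁, fun e => congrArg ιY (hy _ (hgB _))⟩
  · intro e
    refine ⟨g' (q e), hAB _ (hgB _), ?_, rfl⟩
    rw [hp0, hsb, hca]
  · intro z
    refine ⟨g z, hgA z, ?_⟩
    rw [hp0, hsa, hca]
  · exact fun e => absurd e (by decide)
  · intro _ z x _ hx
    rw [hp0, hsa, hca] at hx
    rw [hp1, hsa, hca, hX.injective hx]
  · exact fun e => absurd e (by decide)

/-- MODULE a7 (size 3): type `2`.

Proof.  `Θ = ⋃ n, G n`, `A n = {x ∈ A | (ιX x, ιY (f x)) ∈ G n}` is Borel, some `A n` is not separable from `B` (`SepX.iUnion`, `h`).  `G n = ⋂ m, O m` with `O m` open.  `exists_param` for `A n`: `g`, `a = ιX ∘ g`, `k = ιY ∘ f ∘ g`; for `B`: `g'`, `b = ιX ∘ g'`, `h = ιY ∘ f ∘ g'`; `p i = id`.  `nO`: `(b e, y)` in all `O m` is in `G n ⊆ Θ`.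
`nk y`: `h0` (extended to `CC`); `np`: `Θ = {y}`.  `star` from `hB`. -/
theorem exists_itf2 (hX : IsEmbedding ιX) (hY : IsEmbedding ιY) (hA : @MeasurableSet F.X (borel F.X) A)
    (hBm : @MeasurableSet F.X (borel F.X) B) (hAB : ∀ x ∈ B, x ∉ A) (hs : ¬ SepX A B)
    (hB : (∀ y, SepX A (B ∩ F.f ⁻¹' {y})) ∨ ∃ y, ∀ x ∈ B, F.f x = y)
    (h0 : ∀ y, SepX (A ∩ F.f ⁻¹' {y}) B)
    (h : ∃ Θ : Set (CC × CC), Sig3 Θ ∧ (∀ x ∈ A, (ιX x, ιY (F.f x)) ∈ Θ) ∧ ∀ x ∈ B, ∀ y, (ιX x, y) ∉ Θ) :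
    ∃ s, Itf F s A ιX ιY 2 := by
  obtain ⟨Θ, ⟨G, hG, rfl⟩, hΘA, hΘB⟩ := h
  have hAU : A = ⋃ n, {x | x ∈ A ∧ (ιX x, ιY (F.f x)) ∈ G n} := by
    ext x
    rw [mem_iUnion]
    refine ⟨fun hx => ?_, fun ⟨n, hx⟩ => hx.1⟩
    obtain ⟨n, hn⟩ := mem_iUnion.1 (hΘA x hx)
    exact ⟨n, hx, hn⟩
  obtain ⟨n, hn⟩ : ∃ n, ¬ SepX {x | x ∈ A ∧ (ιX x, ιY (F.f x)) ∈ G n} B := by
    by_contra hcon
    push Not at hcon
    apply hs
    rw [hAU]
    exact SepX.iUnion hcon
  obtain ⟨O, hO, hOG⟩ := (hG n).eq_iInter_nat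
  have hAn : @MeasurableSet F.X (borel F.X) {x | x ∈ A ∧ (ιX x, ιY (F.f x)) ∈ G n} := by
    let : MeasurableSpace F.X := borel F.X
    have : BorelSpace F.X := ⟨rfl⟩
    let : MeasurableSpace F.Y := borel F.Y
    have : BorelSpace F.Y := ⟨rfl⟩
    have hf : Measurable F.f := measurable_of_isOpen F.borelf
    have hm : Measurable fun x => (ιX x, ιY (F.f x)) :=
      hX.continuous.measurable.prodMk (hY.continuous.measurable.comp hf)
    exact hA.inter (hm (hG n).measurableSet)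
  have hAne : {x | x ∈ A ∧ (ιX x, ιY (F.f x)) ∈ G n}.Nonempty := by
    rw [nonempty_iff_ne_empty]
    intro he
    rw [he] at hn
    exact hn ⟨∅, Sig3.of_isOpen isOpen_empty, empty_subset _, fun x hx => absurd hx (notMem_empty x)⟩
  have hBne : B.Nonempty := by
    rw [nonempty_iff_ne_empty]
    rintro rfl
    exact hn ⟨univ, Sig3.of_isOpen isOpen_univ, subset_univ _, fun x _ => notMem_empty x⟩
  obtain ⟨g, hg, hgr, hfg⟩ := exists_param F hAn hAne
  obtain ⟨g', hg', hgr', hfg'⟩ := exists_param F hBm hBne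
  have hgA : ∀ z, g z ∈ A ∧ (ιX (g z), ιY (F.f (g z))) ∈ G n := fun z => by
    have : g z ∈ {x | x ∈ A ∧ (ιX x, ιY (F.f x)) ∈ G n} := hgr ▸ mem_range_self z
    exact this
  have hgB : ∀ e, g' e ∈ B := fun e => hgr' ▸ mem_range_self e
  have hne : ∀ z e, ιX (g z) ≠ ιX (g' e) := fun z e he =>
    hAB _ (hgB e) (hX.injective he ▸ (hgA z).1)
  let s : Sys :=
    { a := fun z => ιX (g z)
      b := fun e => ιX (g' e)
      h := fun e => ιY (F.f (g' e))
      k := fun z => ιY (F.f (g z))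
      p := fun _ => id
      O := O
      ca := hX.continuous.comp hg
      cb := hX.continuous.comp hg'
      ch := hY.continuous.comp hfg'
      ck := hY.continuous.comp hfg
      cp := fun _ => continuous_id
      oO := hO
      mO := fun z m => by
        have := (hgA z).2
        rw [hOG] at this
        exact mem_iInter.1 this m
      nO := fun e y => by
        by_contra hcon
        push Not at hcon
        refine hΘB (g' e) (hgB e) y (mem_iUnion.2 ⟨n, ?_⟩)
        rw [hOG]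
        exact mem_iInter.2 hcon }
  have hsep : ∀ {S : Set F.X} {T : Set F.X} {Z : Set NN} {J : Set CC}, SepX S T → (∀ z ∈ Z, g z ∈ S) →
      (∀ e, ιY (F.f (g' e)) ∈ J → g' e ∈ T) → s.Null J Z := by
    rintro S T Z J ⟨Θ, hΘ, hST, hTT⟩ hZ hJ
    obtain ⟨Θ', hΘ', rfl⟩ := hΘ.extend hX
    exact ⟨Θ', hΘ', fun z hz => hST (hZ z hz), fun e he hb => hTT (g' e) hb (hJ e he)⟩
  refine ⟨s, ⟨⟨?_, ?_, ?_⟩, ?_, ?_, ?_, ?_, ?_, ?_⟩⟩
  · rintro ⟨Θ', hΘ', h1, h2⟩
    refine hn ⟨ιX ⁻¹' Θ', hΘ'.preimage hX.continuous, ?_, ?_⟩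
    · intro x hx
      have hx' := hx
      rw [← hgr] at hx'
      obtain ⟨z, rfl⟩ := hx'
      exact h1 z (mem_univ z)
    · intro x hx hxB
      rw [← hgr'] at hxB
      obtain ⟨e, rfl⟩ := hxB
      exact h2 e (mem_univ _) hx
  · intro y
    by_cases hy : ∃ y', ιY y' = y
    · obtain ⟨y', rfl⟩ := hy
      exact hsep (h0 y') (fun z hz => ⟨(hgA z).1, hY.injective hz⟩) fun e _ => hgB e
    · have he : s.k ⁻¹' {y} = ∅ := by
        rw [eq_empty_iff_forall_notMem]
        exact fun z hz => hy ⟨_, hz⟩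
      rw [he]
      exact Sys.null_empty
  · intro i y
    by_cases hy : ∃ z, s.a z = y
    · obtain ⟨z, rfl⟩ := hy
      refine ⟨{s.a z}, Sig3.of_isClosed isClosed_singleton, fun z' hz' => hz', fun e _ he => hne z e ?_⟩
      exact (mem_singleton_iff.1 he).symm
    · have he : (fun z => s.p i (s.a z)) ⁻¹' {y} = ∅ := by
        rw [eq_empty_iff_forall_notMem]
        exact fun z hz => hy ⟨z, hz⟩
      rw [he]
      exact Sys.null_empty
  · rcases hB with hB | ⟨y, hy⟩
    · left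
      intro y
      by_cases hy : ∃ y', ιY y' = y
      · obtain ⟨y', rfl⟩ := hy
        exact hsep (hB y') (fun z _ => (hgA z).1) fun e he => ⟨hgB e, hY.injective he⟩
      · exact ⟨univ, Sig3.of_isOpen isOpen_univ, fun z _ => mem_univ _, fun e he => (hy ⟨_, he⟩).elim⟩
    · exact Or.inr ⟨ιY y, fun e => congrArg ιY (hy _ (hgB e))⟩
  · exact fun e => ⟨g' e, hAB _ (hgB e), rfl, rfl⟩
  · exact fun z => ⟨g z, (hgA z).1, rfl⟩
  · exact fun e => absurd e (by decide)
  · exact fun e => absurd e (by decide)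
  · intro _ z x _ hx
    have : x = g z := hX.injective hx
    rw [this]

/-- MODULE a8 (size 1).

Proof.  `B = Aᶜ` or `Aᶜ ∩ f ⁻¹' {y}` if `A` is not separable from the latter for some `y`; `SepX A Aᶜ` would make `A` a countable union of `G_δ` sets. -/
theorem exists_itf (hX : IsEmbedding ιX) (hY : IsEmbedding ιY) {V : Set F.Y} (hV : IsClopen V)
    (h : ¬ Sig3 (F.f ⁻¹' V)) : ∃ i s, Itf F s (F.f ⁻¹' V) ιX ιY i := by
  have hA : @MeasurableSet F.X (borel F.X) (F.f ⁻¹' V) := F.borelf V hV.isOpen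
  obtain ⟨B, hBm, hAB, hs, hB⟩ : ∃ B : Set F.X, @MeasurableSet F.X (borel F.X) B ∧ (∀ x ∈ B, x ∉ F.f ⁻¹' V) ∧
      ¬ SepX (F.f ⁻¹' V) B ∧ ((∀ y, SepX (F.f ⁻¹' V) (B ∩ F.f ⁻¹' {y})) ∨ ∃ y, ∀ x ∈ B, F.f x = y) := by
    by_cases hy : ∀ y, SepX (F.f ⁻¹' V) ((F.f ⁻¹' V)ᶜ ∩ F.f ⁻¹' {y})
    · refine ⟨(F.f ⁻¹' V)ᶜ, hA.compl, fun x hx => hx, ?_, Or.inl hy⟩
      rintro ⟨Θ, hΘ, h1, h2⟩
      apply h
      have e : Θ = F.f ⁻¹' V := Subset.antisymm (fun x hx => not_not.1 (h2 x hx)) h1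
      rw [← e]
      exact hΘ
    · push Not at hy
      obtain ⟨y, hy⟩ := hy
      refine ⟨(F.f ⁻¹' V)ᶜ ∩ F.f ⁻¹' {y}, hA.compl.inter ?_, fun x hx => hx.1, hy, Or.inr ⟨y, fun x hx => hx.2⟩⟩
      have e : F.f ⁻¹' {y} = (F.f ⁻¹' {y}ᶜ)ᶜ := by
        rw [preimage_compl, compl_compl]
      rw [e]
      exact (F.borelf _ isClosed_singleton.isOpen_compl).compl
  by_cases h0 : ∀ y, SepX (F.f ⁻¹' V ∩ F.f ⁻¹' {y}) B
  · by_cases hΘ : ∃ Θ : Set (CC × CC), Sig3 Θ ∧ (∀ x ∈ F.f ⁻¹' V, (ιX x, ιY (F.f x)) ∈ Θ) ∧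
        ∀ x ∈ B, ∀ y, (ιX x, y) ∉ Θ
    · exact ⟨2, exists_itf2 hX hY hA hBm hAB hs hB h0 hΘ⟩
    · exact ⟨1, exists_itf1 hX hY hA hBm hAB hB h0 hΘ⟩
  · push Not at h0
    obtain ⟨y, hy⟩ := h0
    exact ⟨0, exists_itf0 hX hY hA hBm hAB hB hy⟩

end

end Pool.Agent.Bs2
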