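import Pool.Agent.Bs2.Sep

/-!
# Baire class 2
-/

set_option autoImplicit false

open Set Filter Topology TopologicalSpace

namespace Pool.Agent.Bs2

section

variable {X Y : Type} [TopologicalSpace X] [TopologicalSpace Y]

omit [TopologicalSpace X] in
private theorem b1_lim {f : X → Y} {g : ℕ → X → Y} (hg : ∀ x, Tendsto (fun n => g n x) atTop (𝓝 (f x))) {V : Set Y}
    (hV : IsClopen V) : f ⁻¹' V = ⋃ N, ⋂ n ∈ {n : ℕ | N ≤ n}, g n ⁻¹' V := by
  ext x
  simp only [mem_preimage, mem_iUnion, mem_iInter, mem_ofPred_eq]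
  constructor
  · intro hx
    have h1 : ∀ᶠ n in atTop, g n x ∈ V := (hg x).eventually (hV.isOpen.mem_nhds hx)
    exact eventually_atTop.1 h1
  · rintro ⟨N, hN⟩
    exact hV.isClosed.mem_of_tendsto (hg x) (eventually_atTop.2 ⟨N, hN⟩)

private theorem b1_zero {α : Ordinal.{0}} {f : X → Y} (h : BaireClass α f) (hα : α = 0) : Continuous f := by
  cases h with
  | zero h => exact h
  | lim g β hβ _ _ => exact absurd (hβ 0) (by simp [hα])

private theorem b1_one_F {α : Ordinal.{0}} {f : X → Y} (h : BaireClass α f) (hα : α ≤ 1) {V : Set Y}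
    (hV : IsClopen V) : ∃ F : ℕ → Set X, (∀ n, IsClosed (F n)) ∧ f ⁻¹' V = ⋃ n, F n := by
  cases h with
  | zero h => exact ⟨fun _ => f ⁻¹' V, fun _ => hV.isClosed.preimage h, (iUnion_const _).symm⟩
  | lim g β hβ hg hl =>
    refine ⟨fun N => ⋂ n ∈ {n : ℕ | N ≤ n}, g n ⁻¹' V, fun N => ?_, b1_lim hl hV⟩
    refine isClosed_biInter fun n _ => hV.isClosed.preimage (b1_zero (hg n) ?_)
    have := (hβ n).trans_le hα
    exact Order.lt_one_iff.1 this

private theorem b1_one_G {α : Ordinal.{0}} {f : X → Y} (h : BaireClass α f) (hα : α ≤ 1) {V : Set Y}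
    (hV : IsClopen V) : IsGδ (f ⁻¹' V) := by
  obtain ⟨F, hF, hE⟩ := b1_one_F h hα hV.compl
  have : f ⁻¹' V = ⋂ n, (F n)ᶜ := by
    rw [← compl_iUnion, ← hE]; simp
  rw [this]
  exact .iInter_of_isOpen fun n => (hF n).isOpen_compl

private theorem b1_two {α : Ordinal.{0}} {f : X → Y} (h : BaireClass α f) (hα : α ≤ 2) {V : Set Y} (hV : IsClopen V) :
    Sig3 (f ⁻¹' V) := by
  cases h with
  | zero h => exact Sig3.of_isOpen (hV.isOpen.preimage h)
  | lim g β hβ hg hl =>
    refine ⟨fun N => ⋂ n ∈ {n : ℕ | N ≤ n}, g n ⁻¹' V, fun N => ?_, b1_lim hl hV⟩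
    refine IsGδ.biInter (to_countable _) fun n _ => b1_one_G (hg n) ?_ hV
    have h1 := (hβ n).trans_le hα
    rw [← one_add_one_eq_two] at h1
    exact Order.lt_add_one_iff.1 h1

/-- MODULE b1 (size 1).

Proof.  If `f = lim g n`, each `g n` of class `β n < 2`, so `β n = 0` or `1` (or `≤ 1`).  Continuous functions: `g ⁻¹' V` clopen.  Class `≤ 1`: `g ⁻¹' V = ⋃ N, ⋂ n ≥ N, (g n) ⁻¹' V` is
a countable union of closed sets, and the complement too (`Vᶜ` clopen), so it is `G_δ`.  Class `≤ 2`: `⋃ N, ⋂ n ≥ N, (g n) ⁻¹' V` with `G_δ` sets `(g n) ⁻¹' V`.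
(Prove first: class `α` with `α < 2`, i.e. `α ≤ 1`: preimages of clopen sets are `G_δ` and countable unions of closed sets.) -/
theorem sig3_of_baireClass {f : X → Y} (h : BaireClass 2 f) {V : Set Y} (hV : IsClopen V) : Sig3 (f ⁻¹' V) :=
  b1_two h le_rfl hV

/-- Open sets in a space with a basis of clopen sets. -/
theorem sig3_of_baireClass_open [SecondCountableTopology Y] (hY : IsTopologicalBasis {U : Set Y | IsClopen U})
    {f : X → Y} (h : BaireClass 2 f) {V : Set Y} (hV : IsOpen V) : Sig3 (f ⁻¹' V) := by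
  obtain ⟨S, hS, hVS⟩ := hY.open_eq_sUnion hV
  obtain ⟨T, hT, hTS, hTe⟩ := isOpen_sUnion_countable S fun s hs => (hS hs).isOpen
  have : Countable T := hT.to_subtype
  have e : f ⁻¹' V = ⋃ t : T, f ⁻¹' t.1 := by
    rw [hVS, ← hTe, sUnion_eq_iUnion, preimage_iUnion]
  rw [e]
  exact Sig3.iUnion fun t => sig3_of_baireClass h (hS (hTS t.2))

private theorem b2_seq [SecondCountableTopology X] (hX : IsTopologicalBasis {U : Set X | IsClopen U}) {O : Set X}
    (hO : IsOpen O) : ∃ C : ℕ → Set X, (∀ m, IsClopen (C m)) ∧ Monotone C ∧ O = ⋃ m, C m := by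
  obtain ⟨S, hS, hVS⟩ := hX.open_eq_sUnion hO
  obtain ⟨T, hT, hTS, hTe⟩ := isOpen_sUnion_countable S fun s hs => (hS hs).isOpen
  obtain ⟨c, hc⟩ := (hT.insert ∅).exists_eq_range (insert_nonempty _ _)
  have hcc : ∀ j, IsClopen (c j) := by
    intro j
    have : c j ∈ insert ∅ T := hc ▸ mem_range_self j
    rcases this with h | h
    · rw [h]; exact isClopen_empty
    · exact hS (hTS h)
  refine ⟨fun m => ⋃ j ∈ {j : ℕ | j ≤ m}, c j, fun m => (finite_le_nat m).isClopen_biUnion fun j _ => hcc j, ?_, ?_⟩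
  · intro m m' h
    exact biUnion_subset_biUnion_left fun j (hj : j ≤ m) => hj.trans h
  · rw [hVS, ← hTe]
    ext x
    simp only [mem_sUnion, mem_iUnion, mem_ofPred_eq]
    constructor
    · rintro ⟨t, ht, hx⟩
      have : t ∈ range c := hc ▸ mem_insert_of_mem _ ht
      obtain ⟨j, rfl⟩ := this
      exact ⟨j, j, le_rfl, hx⟩
    · rintro ⟨_, j, _, hx⟩
      have : c j ∈ insert ∅ T := hc ▸ mem_range_self j
      rcases this with h | h
      · rw [h] at hx; exact hx.elim
      · exact ⟨c j, h, hx⟩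

/-- MODULE b2 (size 1): a `G_δ` set in a space with a countable clopen basis is the upper limit of clopen sets.

Proof.  `G = ⋂ n, O n` with `O n` open decreasing, `O n = ⋃ m, C n m` with `C n m` clopen increasing in `m` (`C n m` possibly empty).  For `k` let `c k x = #{n < k | x ∈ C n k, and x ∈ C i k for all i ≤ n}` =
the largest `n ≤ k` with `x ∈ C i k` for all `i < n`; it is nondecreasing in `k` and unbounded iff `x ∈ G`.  Let `D k = {x | c (k+1) x ≠ c k x}`: clopen, and `x ∈ D k` infinitely often iff `x ∈ G`. -/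
theorem exists_limsup [SecondCountableTopology X] (hX : IsTopologicalBasis {U : Set X | IsClopen U}) {G : Set X}
    (hG : IsGδ G) : ∃ D : ℕ → Set X, (∀ k, IsClopen (D k)) ∧ ∀ x, x ∈ G ↔ ∃ᶠ k in atTop, x ∈ D k := by
  obtain ⟨O, hO, rfl⟩ := hG.eq_iInter_nat
  choose C hC hm hU using fun n => b2_seq hX (hO n)
  let P : ℕ → ℕ → Set X := fun n k => ⋂ i ∈ {i : ℕ | i < n}, C i k
  have hP : ∀ n k, IsClopen (P n k) := fun n k => (finite_lt_nat n).isClopen_biInter fun i _ => hC i k
  have mP : ∀ n k x, x ∈ P n k ↔ ∀ i < n, x ∈ C i k := by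
    intro n k x; simp [P]
  have monP : ∀ n k k' x, k ≤ k' → x ∈ P n k → x ∈ P n k' := by
    intro n k k' x h hx
    rw [mP] at hx ⊢
    exact fun i hi => hm i h (hx i hi)
  refine ⟨fun k => ⋃ n ∈ {n : ℕ | n ≤ k + 1}, P n (k + 1) \ (if n ≤ k then P n k else ∅), fun k => ?_, fun x => ?_⟩
  · refine (finite_le_nat (k + 1)).isClopen_biUnion fun n _ => (hP _ _).diff ?_
    split_ifs
    exacts [hP _ _, isClopen_empty]
  · have key : ∀ k, x ∈ (⋃ n ∈ {n : ℕ | n ≤ k + 1}, P n (k + 1) \ (if n ≤ k then P n k else ∅)) ↔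
        ∃ n ≤ k + 1, x ∈ P n (k + 1) ∧ ¬ (n ≤ k ∧ x ∈ P n k) := by
      intro k
      simp only [mem_iUnion, mem_ofPred_eq, Set.mem_sdiff, exists_prop]
      refine exists_congr fun n => and_congr_right fun _ => and_congr_right fun _ => not_congr ?_
      split_ifs with h <;> simp [h]
    simp only [key, frequently_atTop]
    constructor
    · intro hx K
      have hx' : ∀ i, ∃ m, x ∈ C i m := by
        intro i
        have := mem_iInter.1 hx i
        rw [hU i] at this
        simpa using this
      choose m hm' using hx'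
      have hex : ∃ k, K + 1 ≤ k ∧ x ∈ P (K + 1) k := by
        refine ⟨(Finset.range (K + 1)).sup m + (K + 1), by omega, ?_⟩
        rw [mP]
        intro i hi
        refine hm i ?_ (hm' i)
        have := Finset.le_sup (f := m) (Finset.mem_range.2 hi)
        omega
      classical
      obtain ⟨h1, h2⟩ := Nat.find_spec hex
      obtain ⟨k, hk⟩ : ∃ k, Nat.find hex = k + 1 := ⟨Nat.find hex - 1, by omega⟩
      rw [hk] at h1 h2
      refine ⟨k, by omega, K + 1, h1, h2, fun h3 => ?_⟩
      exact Nat.find_min hex (m := k) (by omega) h3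
    · intro h
      by_contra hx
      rw [mem_iInter, not_forall] at hx
      obtain ⟨n, hn⟩ := hx
      have hn' : ∀ m > n, ∀ k, x ∉ P m k := by
        intro m hm1 k hk
        rw [mP] at hk
        apply hn
        rw [hU n]
        exact mem_iUnion.2 ⟨k, hk n hm1⟩
      have : ∀ j, ∃ K, (∀ k, x ∉ P j k) ∨ x ∈ P j K := by
        intro j
        by_cases hj : ∃ K, x ∈ P j K
        · exact ⟨hj.choose, .inr hj.choose_spec⟩
        · exact ⟨0, .inl (not_exists.1 hj)⟩
      choose K hK using this
      obtain ⟨k, hk, j, _, h2, h3⟩ := h ((Finset.range (n + 1)).sup K + n)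
      have hjn : j ≤ n := by
        by_contra hc
        exact hn' j (not_le.1 hc) _ h2
      have hjK := Finset.le_sup (f := K) (Finset.mem_range.2 (show j < n + 1 by omega))
      rcases hK j with h4 | h4
      · exact h4 _ h2
      · exact h3 ⟨by omega, monP _ _ _ _ (by omega) h4⟩

private theorem b4_seq [SecondCountableTopology X] (hX : IsTopologicalBasis {U : Set X | IsClopen U}) :
    ∃ U : ℕ → Set X, (∀ i, IsClopen (U i)) ∧ ∀ W, IsOpen W → ∀ x ∈ W, ∃ i, x ∈ U i ∧ U i ⊆ W := by
  have h1 : ∀ V ∈ countableBasis X, ∃ C : ℕ → Set X, (∀ m, IsClopen (C m)) ∧ V = ⋃ m, C m := by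
    intro V hV
    obtain ⟨C, hC, _, hE⟩ := b2_seq hX (isOpen_of_mem_countableBasis hV)
    exact ⟨C, hC, hE⟩
  choose C hC hE using h1
  have hcount : (⋃ V : countableBasis X, range (C V.1 V.2)).Countable := by
    have : Countable (countableBasis X) := (countable_countableBasis X).to_subtype
    exact countable_iUnion fun V => countable_range _
  obtain ⟨U, hU⟩ := (hcount.insert ∅).exists_eq_range (insert_nonempty _ _)
  refine ⟨U, fun i => ?_, fun W hW x hx => ?_⟩
  · have : U i ∈ insert ∅ (⋃ V : countableBasis X, range (C V.1 V.2)) := hU ▸ mem_range_self i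
    rcases this with h | h
    · rw [h]; exact isClopen_empty
    · obtain ⟨V, m, h⟩ := mem_iUnion.1 h
      rw [← h]; exact hC _ _ _
  · obtain ⟨V, hV, hxV, hVW⟩ := (isBasis_countableBasis X).exists_subset_of_mem_open hx hW
    rw [hE V hV] at hxV
    obtain ⟨m, hm⟩ := mem_iUnion.1 hxV
    have : C V hV m ∈ insert ∅ (⋃ V : countableBasis X, range (C V.1 V.2)) :=
      mem_insert_of_mem _ (mem_iUnion.2 ⟨⟨V, hV⟩, m, rfl⟩)
    rw [hU] at this
    obtain ⟨i, hi⟩ := this
    refine ⟨i, by rw [hi]; exact hm, ?_⟩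
    rw [hi]
    refine subset_trans ?_ hVW
    conv_rhs => rw [hE V hV]
    exact subset_iUnion _ m

private noncomputable def b3_ch (S : Set Y) (y : Y) : Y := by
  classical
  exact if h : S.Nonempty then h.some else y

private noncomputable def b3_pt [Nonempty Y] (V : Bool → ℕ → Set Y) (δ : ℕ → Bool) : ℕ → Y
  | 0 => Classical.arbitrary Y
  | m + 1 => b3_ch {y | ∀ i < m + 1, y ∈ V (δ i) i} (b3_pt V δ m)

omit [TopologicalSpace Y] in
private theorem b3_mem [Nonempty Y] (V : Bool → ℕ → Set Y) (δ : ℕ → Bool) {m : ℕ}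
    (hm : {y | ∀ i < m, y ∈ V (δ i) i}.Nonempty) :
    ∀ n, m ≤ n → ∀ i < m, b3_pt V δ n ∈ V (δ i) i := by
  intro n hn
  induction n with
  | zero => intro i hi; omega
  | succ n ih =>
    intro i hi
    unfold b3_pt b3_ch
    split_ifs with h
    · exact h.some_mem i (by omega)
    · rcases Nat.lt_or_ge n m with h1 | h1
      · obtain rfl : m = n + 1 := by omega
        exact absurd hm h
      · exact ih h1 i hi

omit [TopologicalSpace Y] in
private theorem b3_congr [Nonempty Y] (V : Bool → ℕ → Set Y) {δ δ' : ℕ → Bool} :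
    ∀ n, (∀ i < n, δ i = δ' i) → b3_pt V δ n = b3_pt V δ' n := by
  intro n hn
  induction n with
  | zero => rfl
  | succ n ih =>
    have h1 : {y | ∀ i < n + 1, y ∈ V (δ i) i} = {y | ∀ i < n + 1, y ∈ V (δ' i) i} := by
      ext y
      exact forall₂_congr fun i hi => by rw [hn i hi]
    unfold b3_pt
    rw [h1, ih fun i hi => hn i (by omega)]

private noncomputable def b3_d (E : Bool → ℕ → Set X) : ℕ → X → Bool
  | 0, _ => true
  | t + 1, x => by
    classical
    exact if x ∈ E true t then true else if x ∈ E false t then false else b3_d E t x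

private theorem b3_dcont {E : Bool → ℕ → Set X} (hE : ∀ e t, IsClopen (E e t)) (t : ℕ) : Continuous (b3_d E t) := by
  induction t with
  | zero => exact continuous_const
  | succ t ih =>
    rw [continuous_iff_continuousAt]
    intro x
    have h1 : ∀ e, ∀ᶠ y in 𝓝 x, (y ∈ E e t ↔ x ∈ E e t) := by
      intro e
      by_cases hx : x ∈ E e t
      · filter_upwards [(hE e t).isOpen.mem_nhds hx] with y hy
        simp [hx, hy]
      · filter_upwards [(hE e t).compl.isOpen.mem_nhds hx] with y hy
        simp [hx, (show y ∉ E e t from hy)]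
    have h2 : ∀ᶠ y in 𝓝 x, b3_d E t y = b3_d E t x :=
      (ih.tendsto x).eventually ((isOpen_discrete {b3_d E t x}).mem_nhds rfl)
    refine tendsto_const_nhds.congr' ?_
    filter_upwards [h1 true, h1 false, h2] with y a b c
    unfold b3_d
    by_cases ha : x ∈ E true t
    · rw [if_pos ha, if_pos (a.2 ha)]
    · rw [if_neg ha, if_neg (fun h => ha (a.1 h))]
      by_cases hb : x ∈ E false t
      · rw [if_pos hb, if_pos (b.2 hb)]
      · rw [if_neg hb, if_neg (fun h => hb (b.1 h)), c]

omit [TopologicalSpace X] in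
private theorem b3_dlim {E : Bool → ℕ → Set X} {x : X} (hx : ∀ e, (∃ᶠ t in atTop, x ∈ E e t) → ¬ ∃ᶠ t in atTop, x ∈ E (!e) t) :
    ∃ e, (∀ᶠ t in atTop, b3_d E t x = e) ∧ ∀ e', (∃ᶠ t in atTop, x ∈ E e' t) → e' = e := by
  by_cases h : ∃ e, ∃ᶠ t in atTop, x ∈ E e t
  · obtain ⟨e, he⟩ := h
    have h1 := hx e he
    refine ⟨e, ?_, fun e' he' => ?_⟩
    · rw [not_frequently, eventually_atTop] at h1
      obtain ⟨T, hT⟩ := h1
      obtain ⟨t0, ht0, h2⟩ := frequently_atTop.1 he T
      refine eventually_atTop.2 ⟨t0 + 1, fun t ht => ?_⟩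
      induction t, ht using Nat.le_induction with
      | base =>
        have h3 := hT t0 ht0
        unfold b3_d
        cases e <;> simp_all
      | succ t ht ih =>
        have h3 := hT t (by omega)
        unfold b3_d
        cases e <;> simp_all
    · by_contra hc
      have : e' = !e := by cases e <;> cases e' <;> simp_all
      exact h1 (this ▸ he')
  · push Not at h
    have h1 := h true
    have h2 := h false
    obtain ⟨T, hT⟩ := eventually_atTop.1 (h1.and h2)
    refine ⟨b3_d E T x, eventually_atTop.2 ⟨T, fun t ht => ?_⟩, fun e' he' => absurd he' (by simpa using h e')⟩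
    induction t, ht using Nat.le_induction with
    | base => rfl
    | succ t ht ih =>
      have h3 := hT t ht
      rw [← ih]
      conv_lhs => unfold b3_d
      simp [h3.1, h3.2]

/-- MODULE b3 (size 3): the converse.

Proof.  `U : ℕ → Set Y` a countable basis of clopen sets of `Y` (if `Y` is empty then `X` is empty and everything is continuous).  By `h` and `exists_limsup` there are clopen sets `D i e j k` of `X` (`e : Bool`) such that
`f x ∈ U i` iff `∃ j, ∃ᶠ k, x ∈ D i true j k` and `f x ∉ U i` iff `∃ j, ∃ᶠ k, x ∈ D i false j k`.  Let `N n t i e x = sup over j ≤ n of #{k ≤ t | x ∈ D i e j k}`, `d n t i x = true` iff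
`N n t i false x ≤ N n t i true x`, and let `g n t x` be a fixed point of `⋂ i < m, U i ^ (d n t i x)` with `m ≤ n` maximal such that this set is nonempty.
`g n t x` depends on finitely many clopen conditions on `x`, so `g n t` is continuous (locally constant).  For fixed `n`, `x`: for each `i` the numbers `N n t i e x` are nondecreasing in `t` and for at
most one `e` unbounded (both unbounded would give `f x ∈ U i` and `f x ∉ U i`), so `d n t i x` is constant for large `t`: `g n t x → g n x`, class 1.  For fixed `i` and `x` and `n` large (`n ≥ j` of the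
witness for the right `e`) the limit of `d n t i x` is right.  So if `f x ∈ U i` then `g n x ∈ U i` for large `n` (the sets with right decisions contain `f x`, so `m > i`). Hence
`g n x → f x`: class 2. -/
theorem baireClass_two [SecondCountableTopology X] [SecondCountableTopology Y]
    (hX : IsTopologicalBasis {U : Set X | IsClopen U}) (hY : IsTopologicalBasis {U : Set Y | IsClopen U}) {f : X → Y}
    (h : ∀ V : Set Y, IsClopen V → Sig3 (f ⁻¹' V)) : BaireClass 2 f := by
  rcases isEmpty_or_nonempty Y with hYe | hYn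
  · have : IsEmpty X := ⟨fun x => hYe.false (f x)⟩
    exact .lim (fun _ => f) (fun _ => 0) (fun _ => two_pos) (fun _ => .zero (continuous_of_const fun x => (this.false x).elim))
      fun x => tendsto_const_nhds
  obtain ⟨U, hU, hB⟩ := b4_seq hY
  let V : Bool → ℕ → Set Y := fun e i => if e then U i else (U i)ᶜ
  have hV : ∀ e i, IsClopen (V e i) := by
    intro e i
    cases e
    · exact (hU i).compl
    · exact hU i
  have hVn : ∀ e i y, y ∈ V e i → y ∉ V (!e) i := by
    intro e i y hy
    cases e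
    · exact hy
    · exact fun h => h hy
  have hVe : ∀ i y, ∃ e, y ∈ V e i := by
    intro i y
    by_cases hy : y ∈ U i
    · exact ⟨true, hy⟩
    · exact ⟨false, hy⟩
  choose G hG hGe using fun e i => h (V e i) (hV e i)
  choose D hD hDe using fun e i j => exists_limsup hX (hG e i j)
  have hf : ∀ e i x, f x ∈ V e i ↔ ∃ j, ∃ᶠ k in atTop, x ∈ D e i j k := by
    intro e i x
    have : f x ∈ V e i ↔ x ∈ ⋃ j, G e i j := by rw [← hGe e i]; rfl
    rw [this, mem_iUnion]
    exact exists_congr fun j => hDe e i j x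
  let E : ℕ → ℕ → Bool → ℕ → Set X := fun n i e k => ⋃ j ∈ {j : ℕ | j ≤ n}, D e i j k
  have hE : ∀ n i e k, IsClopen (E n i e k) := fun n i e k => (finite_le_nat n).isClopen_biUnion fun j _ => hD e i j k
  have hE1 : ∀ n i e x, (∃ᶠ k in atTop, x ∈ E n i e k) → f x ∈ V e i := by
    intro n i e x hx
    rw [hf]
    by_contra hc
    push Not at hc
    have : ∀ᶠ k in atTop, ∀ j ∈ {j : ℕ | j ≤ n}, x ∉ D e i j k :=
      (eventually_all_finite (finite_le_nat n)).2 fun j _ => by simpa using hc j
    refine hx (this.mono fun k hk h1 => ?_)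
    simp only [E, mem_iUnion] at h1
    obtain ⟨j, hj, h2⟩ := h1
    exact hk j hj h2
  have hE2 : ∀ i e x, f x ∈ V e i → ∃ J, ∀ n ≥ J, ∃ᶠ k in atTop, x ∈ E n i e k := by
    intro i e x hx
    obtain ⟨j, hj⟩ := (hf e i x).1 hx
    exact ⟨j, fun n hn => hj.mono fun k hk => mem_biUnion (show j ∈ {j : ℕ | j ≤ n} from hn) hk⟩
  have hEx : ∀ n i x e, (∃ᶠ k in atTop, x ∈ E n i e k) → ¬ ∃ᶠ k in atTop, x ∈ E n i (!e) k :=
    fun n i x e h1 h2 => hVn _ _ _ (hE1 _ _ _ _ h1) (hE1 _ _ _ _ h2)
  choose d hd1 hd2 using fun n i x => b3_dlim (E := E n i) (x := x) (hEx n i x)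
  refine .lim (fun n x => b3_pt V (fun i => d n i x) n) (fun _ => 1) (fun _ => one_lt_two) (fun n => ?_) fun x => ?_
  · refine .lim (fun t x => b3_pt V (fun i => b3_d (E n i) t x) n) (fun _ => 0) (fun _ => one_pos)
      (fun t => .zero ?_) fun x => ?_
    · rw [continuous_iff_continuousAt]
      intro x
      have h1 : ∀ᶠ y in 𝓝 x, ∀ i ∈ {i : ℕ | i < n}, b3_d (E n i) t y = b3_d (E n i) t x :=
        (eventually_all_finite (finite_lt_nat n)).2 fun i _ =>
          ((b3_dcont (hE n i) t).tendsto x).eventually ((isOpen_discrete {b3_d (E n i) t x}).mem_nhds rfl)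
      refine tendsto_const_nhds.congr' (h1.mono fun y hy => ?_)
      exact b3_congr V n fun i hi => (hy i hi).symm
    · have h1 : ∀ᶠ t in atTop, ∀ i ∈ {i : ℕ | i < n}, b3_d (E n i) t x = d n i x :=
        (eventually_all_finite (finite_lt_nat n)).2 fun i _ => hd1 n i x
      refine tendsto_const_nhds.congr' (h1.mono fun t ht => ?_)
      exact b3_congr V n fun i hi => (ht i hi).symm
  · rw [tendsto_nhds]
    intro W hW hx
    obtain ⟨i, hi, hiW⟩ := hB W hW _ hx
    choose r hr using fun i => hVe i (f x)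
    choose J hJ using fun i => hE2 i (r i) x (hr i)
    refine eventually_atTop.2 ⟨(Finset.range (i + 1)).sup J + (i + 1), fun n hn => ?_⟩
    have h1 : ∀ k < i + 1, d n k x = r k := by
      intro k hk
      have := Finset.le_sup (f := J) (Finset.mem_range.2 hk)
      exact (hd2 n k x (r k) (hJ k n (by omega))).symm
    have h2 : {y | ∀ k < i + 1, y ∈ V (d n k x) k}.Nonempty := ⟨f x, fun k hk => by rw [h1 k hk]; exact hr k⟩
    have h3 := b3_mem V (fun k => d n k x) h2 n (by omega) i (by omega)
    have h4 : r i = true := by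
      by_contra hc
      have h5 := hr i
      simp only [Bool.not_eq_true] at hc
      rw [hc] at h5
      exact h5 hi
    rw [h1 i (by omega), h4] at h3
    exact hiW h3

/-- MODULE b4 (size 1): a second countable `T₀` space with a basis of clopen sets embeds in the Cantor space, with a given clopen set as the preimage
of a clopen set.

Proof.  `U i` a countable basis of clopen sets; `ι x = (x ∈ V, x ∈ U 0, x ∈ U 1, ...)`. -/
theorem exists_emb [T2Space X] [SecondCountableTopology X] (hX : IsTopologicalBasis {U : Set X | IsClopen U})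
    {V : Set X} (hV : IsClopen V) :
    ∃ ι : X → CC, IsEmbedding ι ∧ ∃ V' : Set CC, IsClopen V' ∧ ι ⁻¹' V' = V := by
  obtain ⟨U, hU, hB⟩ := b4_seq hX
  let ι : X → CC := fun x i => match i with
    | 0 => V.boolIndicator x
    | i + 1 => (U i).boolIndicator x
  have hc : Continuous ι := by
    refine continuous_pi fun i => ?_
    cases i with
    | zero => exact (continuous_boolIndicator_iff_isClopen V).2 hV
    | succ i => exact (continuous_boolIndicator_iff_isClopen _).2 (hU i)
  have hU' : ∀ i x, ι x (i + 1) = true ↔ x ∈ U i := fun i x => (mem_iff_boolIndicator _ _).symm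
  refine ⟨ι, ⟨isInducing_iff_nhds.2 fun x => le_antisymm (hc.tendsto x).le_comap ?_, ?_⟩, {y | y 0 = true}, ?_, ?_⟩
  · intro W hW
    obtain ⟨W', hW', hWo, hx⟩ := mem_nhds_iff.1 hW
    obtain ⟨i, hi, hiW⟩ := hB W' hWo x hx
    refine ⟨{y | y (i + 1) = true}, ?_, ?_⟩
    · refine IsOpen.mem_nhds ?_ ((hU' i x).2 hi)
      exact (isOpen_discrete ({true} : Set Bool)).preimage (show Continuous fun y : CC => y (i + 1) from continuous_apply (i + 1))
    · intro y hy
      exact hW' (hiW ((hU' i y).1 hy))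
  · intro x y hxy
    by_contra hne
    obtain ⟨W, W', hW, hW', hx, hy, hd⟩ := t2_separation hne
    obtain ⟨i, hi, hiW⟩ := hB W hW x hx
    have h1 := (hU' i x).2 hi
    rw [hxy] at h1
    exact hd.le_bot ⟨hiW ((hU' i y).1 h1), hy⟩
  · exact (isClopen_discrete ({true} : Set Bool)).preimage (show Continuous fun y : CC => y 0 from continuous_apply 0)
  · ext x
    exact (mem_iff_boolIndicator _ _).symm

end

end Pool.Agent.Bs2
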