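import Pool.Agent.Bs2.Defs

/-!
# The tree
-/

set_option autoImplicit false

open Set Filter Topology TopologicalSpace

namespace Pool.Agent.Bs2

/-- MODULE t1 (size 2; all theorems of this section; inductions on the list). -/
theorem anc_suffix (u : List ℕ) (i : ℕ) : anc u i <:+ u := by
  induction u with
  | nil => exact List.suffix_rfl
  | cons p u ih =>
    unfold anc
    split_ifs
    · exact List.suffix_rfl
    · exact ih.trans (List.suffix_cons p u)

theorem lv_anc {u : List ℕ} (h : Nd u) {i : ℕ} (hi : i ≤ lv u) : lv (anc u i) = i := by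
  induction u with
  | nil => simp only [lv, Nat.le_zero] at hi; subst hi; rfl
  | cons p u ih =>
    unfold anc
    split_ifs with hp
    · simp only [lv] at hi ⊢; omega
    · exact ih h.2 ((not_lt.1 hp).trans h.1)

theorem lv_anc_le (u : List ℕ) (i : ℕ) : lv (anc u i) ≤ i := by
  induction u with
  | nil => exact Nat.zero_le _
  | cons p u ih =>
    unfold anc
    split_ifs with hp
    · exact hp
    · exact ih

private theorem t1_suf {u w : List ℕ} (h : Nd u) (hw : w <:+ u) : Nd w := by
  induction u with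
  | nil =>
    rw [List.suffix_nil] at hw
    subst hw
    trivial
  | cons p u ih =>
    rcases List.suffix_cons_iff.1 hw with rfl | hw'
    · exact h
    · exact ih h.2 hw'

theorem Nd.anc {u : List ℕ} (h : Nd u) (i : ℕ) : Nd (anc u i) := by
  exact t1_suf h (anc_suffix u i)

theorem Nd.of_suffix {u w : List ℕ} (h : Nd u) (hw : w <:+ u) : Nd w := by
  exact t1_suf h hw

theorem anc_self {u : List ℕ} {i : ℕ} (h : lv u ≤ i) : anc u i = u := by
  cases u with
  | nil => rfl
  | cons p u =>
    unfold anc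
    exact if_pos h

theorem anc_anc (u : List ℕ) {i j : ℕ} (h : i ≤ j) : anc (anc u j) i = anc u i := by
  induction u with
  | nil => rfl
  | cons p u ih =>
    by_cases hp : p < j
    · have : anc (p :: u) j = p :: u := by conv_lhs => unfold anc; rw [if_pos hp]
      rw [this]
    · have h1 : anc (p :: u) j = anc u j := by conv_lhs => unfold anc; rw [if_neg hp]
      have h2 : anc (p :: u) i = anc u i := by conv_lhs => unfold anc; rw [if_neg (by omega)]
      rw [h1, h2]
      exact ih

theorem pd_suffix (u : List ℕ) : pd u <:+ u := by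
  cases u with
  | nil => exact List.suffix_rfl
  | cons p u => exact (anc_suffix u p).trans (List.suffix_cons p u)

theorem pd_length {v : List ℕ} (h : v ≠ []) : (pd v).length < v.length := by
  cases v with
  | nil => exact absurd rfl h
  | cons p u => exact Nat.lt_succ_of_le (anc_suffix u p).length_le

theorem lv_pd {v : List ℕ} (h : Nd v) (hv : v ≠ []) : lv v = lv (pd v) + 1 := by
  cases v with
  | nil => exact absurd rfl hv
  | cons p u =>
    show p + 1 = lv (anc u p) + 1
    rw [lv_anc h.2 h.1]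

/-- The predecessor of the previous sibling. -/
theorem pd_anc_succ {u : List ℕ} (h : Nd u) {p : ℕ} (hp : p < lv u) : pd (anc u (p + 1)) = anc u p := by
  have h1 : lv (anc u (p + 1)) = p + 1 := lv_anc h hp
  have h2 : anc (anc u (p + 1)) p = anc u p := anc_anc u (Nat.le_succ p)
  rw [← h2]
  cases hw : anc u (p + 1) with
  | nil => rw [hw] at h1; simp [lv] at h1
  | cons q w =>
    rw [hw] at h1
    simp only [lv] at h1
    have : q = p := by omega
    subst this
    conv_rhs => unfold anc
    rw [if_neg (lt_irrefl q)]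
    rfl

theorem anc_ne_nil {u : List ℕ} (h : Nd u) {p : ℕ} (hp : p < lv u) : anc u (p + 1) ≠ [] := by
  intro h0
  have h1 : lv (anc u (p + 1)) = p + 1 := lv_anc h hp
  rw [h0] at h1
  simp [lv] at h1

/-- MODULE t2 (size 2; all theorems of this section): true predecessors. -/
theorem Tp.refl (u : List ℕ) : Tp u u := by
  exact anc_self le_rfl

theorem Tp.trans {s t u : List ℕ} (h : Tp s t) (h' : Tp t u) : Tp s u := by
  unfold Tp at *
  rcases le_or_gt (lv s) (lv t) with hl | hl
  · rw [← anc_anc u hl, h', h]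
  · rw [anc_self hl.le] at h
    subst h
    exact absurd hl (lt_irrefl _)

theorem Tp.suffix {s u : List ℕ} (h : Tp s u) : s <:+ u := by
  unfold Tp at h
  have := anc_suffix u (lv s)
  rwa [h] at this

theorem tp_anc {u : List ℕ} (h : Nd u) {i : ℕ} (hi : i ≤ lv u) : Tp (anc u i) u := by
  unfold Tp
  rw [lv_anc h hi]

theorem tp_pd {v : List ℕ} (h : Nd v) : Tp (pd v) v := by
  cases v with
  | nil => exact Tp.refl _
  | cons p u =>
    show anc (p :: u) (lv (anc u p)) = anc u p
    rw [lv_anc h.2 h.1]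
    conv_lhs => unfold anc
    rw [if_neg (lt_irrefl p)]

theorem tp_nil {v : List ℕ} : Tp [] v ↔ True := by
  simp only [iff_true]
  show anc v 0 = []
  induction v with
  | nil => rfl
  | cons p u ih =>
    unfold anc
    rw [if_neg (Nat.not_lt_zero p)]
    exact ih

/-- `s` is a true predecessor of `v ≠ []` iff `s = v` or `s` is a true predecessor of `pd v`. -/
theorem tp_iff {s v : List ℕ} (h : Nd v) (hv : v ≠ []) : Tp s v ↔ s = v ∨ Tp s (pd v) := by
  constructor
  · intro hs
    cases v with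
    | nil => exact absurd rfl hv
    | cons p u =>
      by_cases hp : p < lv s
      · left
        have : anc (p :: u) (lv s) = s := hs
        unfold anc at this
        rw [if_pos hp] at this
        exact this.symm
      · right
        have h1 : anc (p :: u) (lv s) = s := hs
        unfold anc at h1
        rw [if_neg hp] at h1
        show anc (anc u p) (lv s) = s
        rw [anc_anc u (not_lt.1 hp), h1]
  · rintro (rfl | hs)
    · exact Tp.refl _
    · exact hs.trans (tp_pd h)

/-- If `s` is a true predecessor of `u` and `s ≠ u` then there is exactly one `t` with `pd t = s`, `t ≠ []` which is a true predecessor of `u`. -/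
theorem Tp.next {s u : List ℕ} (h : Nd u) (hs : Tp s u) (hne : s ≠ u) : ∃ t, t ≠ [] ∧ pd t = s ∧ Tp t u := by
  have hl : lv s < lv u := by
    by_contra hcon
    have h1 : anc u (lv s) = s := hs
    rw [anc_self (not_lt.1 hcon)] at h1
    exact hne h1.symm
  refine ⟨anc u (lv s + 1), anc_ne_nil h hl, ?_, tp_anc h hl⟩
  rw [pd_anc_succ h hl]
  exact hs

theorem Tp.unique {s t u : List ℕ} (h : Nd u) (hs : Tp s u) (ht : Tp t u) (hl : lv s = lv t) : s = t := by
  have h1 : anc u (lv s) = s := hs
  have h2 : anc u (lv t) = t := ht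
  rw [← h1, ← h2, hl]

private theorem t2_suf {s w : List ℕ} {i : ℕ} (hs : s <:+ w) (hl : lv s ≤ i) : s <:+ anc w i := by
  induction w with
  | nil => exact hs
  | cons p u ih =>
    unfold anc
    split_ifs with hp
    · exact hs
    · rcases List.suffix_cons_iff.1 hs with rfl | h1
      · simp only [lv] at hl
        omega
      · exact ih h1

private theorem t2_mono {w u : List ℕ} (h : w <:+ u) (i : ℕ) : anc w i <:+ anc u i :=
  t2_suf ((anc_suffix w i).trans h) (lv_anc_le w i)

/-- Two children (in the sense of `pd`) of the same node which are initial segments of the same node: comparable. If `s`, `s'` have the same `pd`, `s ≠ s'`, `s` an initial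
segment of `s'` (both nodes, not `[]`) then there is an immediate successor `v` of `s` on the way to `s'`. -/
theorem exists_imm {s s' : List ℕ} (h : Nd s') (hs : s ≠ []) (hp : pd s = pd s') (hss : s <:+ s') (hne : s ≠ s') :
    ∃ p u, p < lv u ∧ anc u (p + 1) = s ∧ p :: u <:+ s' ∧ pd (p :: u) = pd s := by
  obtain ⟨n, hn⟩ : ∃ n, s'.length = n := ⟨_, rfl⟩
  induction n using Nat.strong_induction_on generalizing s' with
  | _ n ih =>
    cases s' with
    | nil =>
      rw [List.suffix_nil] at hss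
      exact absurd hss hs
    | cons q w =>
      have hsw : s <:+ w := by
        rcases List.suffix_cons_iff.1 hss with h1 | h1
        · exact absurd h1 hne
        · exact h1
      have hq : q < lv w := by
        rcases lt_or_eq_of_le h.1 with h1 | h1
        · exact h1
        · exfalso
          have h2 : pd (q :: w) = w := by
            show anc w q = w
            exact anc_self h1.ge
          rw [h2] at hp
          have h3 := pd_length hs
          have h4 := hsw.length_le
          rw [hp] at h3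
          omega
      have hp1 : pd (anc w (q + 1)) = pd s := by
        rw [pd_anc_succ h.2 hq, hp]
        rfl
      by_cases he : anc w (q + 1) = s
      · exact ⟨q, w, hq, he, List.suffix_rfl, hp.symm⟩
      · have hlv : lv s = q + 1 := by
          rw [lv_pd (h.2.of_suffix hsw) hs, hp, ← lv_pd h (List.cons_ne_nil _ _)]
          rfl
        have h5 : s <:+ anc w (q + 1) := t2_suf hsw hlv.le
        obtain ⟨p, u, h6, h7, h8, h9⟩ := ih (anc w (q + 1)).length (by
          have := (anc_suffix w (q + 1)).length_le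
          rw [List.length_cons] at hn
          omega) (h.2.anc _) hp1.symm h5 (fun h => he h.symm) rfl
        exact ⟨p, u, h6, h7, h8.trans ((anc_suffix w (q + 1)).trans (List.suffix_cons q w)), h9⟩

/-- The first child of `r` is an initial segment of all children of `r`. -/
theorem first_suffix {v : List ℕ} (h : Nd v) (hv : v ≠ []) : lv (pd v) :: pd v <:+ v := by
  cases v with
  | nil => exact absurd rfl hv
  | cons p u =>
    have h0 : lv (pd (p :: u)) = p := lv_anc h.2 h.1
    rw [h0]
    show p :: anc u p <:+ p :: u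
    clear h0 hv
    obtain ⟨h1, h2⟩ := h
    induction u with
    | nil => exact List.suffix_rfl
    | cons x u ih =>
      by_cases hx : x < p
      · have : anc (x :: u) p = x :: u := by conv_lhs => unfold anc; rw [if_pos hx]
        rw [this]
      · have h3 : anc (x :: u) p = anc u p := by conv_lhs => unfold anc; rw [if_neg hx]
        rw [h3]
        rcases List.suffix_cons_iff.1 (ih ((not_lt.1 hx).trans h2.1) h2.2) with h4 | h4
        · have h5 : anc u p = u := by
            have := congrArg List.tail h4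
            simpa using this
          have h6 : lv u ≤ p := by
            rw [← h5]
            exact lv_anc_le u p
          have h7 : x = p := by
            have := h2.1
            omega
          rw [h5, h7]
          exact List.suffix_cons _ _
        · exact h4.trans ((List.suffix_cons x u).trans (List.suffix_cons p _))

/-- MODULE t3 (size 2; all theorems of this section): branches. -/
theorem nd_pre {x : ℕ → ℕ} (hx : x ∈ Tr) (n : ℕ) : Nd (pre x n) := by
  induction n with
  | zero => trivial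
  | succ n ih =>
    refine ⟨?_, ih⟩
    cases n with
    | zero => exact hx.1.le
    | succ m => exact hx.2 m

theorem length_pre (x : ℕ → ℕ) (n : ℕ) : (pre x n).length = n := by
  induction n with
  | zero => rfl
  | succ n ih => simp [pre, ih]

/-- The initial segments of `pre x n` are the `pre x m`, `m ≤ n`. -/
theorem suffix_pre_iff {x : ℕ → ℕ} {n : ℕ} {w : List ℕ} : w <:+ pre x n ↔ ∃ m ≤ n, w = pre x m := by
  induction n with
  | zero =>
    constructor
    · intro h
      exact ⟨0, le_rfl, List.suffix_nil.1 h⟩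
    · rintro ⟨m, hm, rfl⟩
      rw [Nat.le_zero.1 hm]
  | succ n ih =>
    show w <:+ x n :: pre x n ↔ _
    rw [List.suffix_cons_iff, ih]
    constructor
    · rintro (h | ⟨m, hm, h⟩)
      · exact ⟨n + 1, le_rfl, h⟩
      · exact ⟨m, hm.trans (Nat.le_succ n), h⟩
    · rintro ⟨m, hm, h⟩
      rcases Nat.le_succ_iff.1 hm with h1 | h1
      · exact Or.inr ⟨m, h1, h⟩
      · subst h1
        exact Or.inl h

theorem pre_inj {x y : ℕ → ℕ} {n : ℕ} (h : pre x n = pre y n) : ∀ i < n, x i = y i := by
  induction n with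
  | zero => intro i hi; exact absurd hi (Nat.not_lt_zero i)
  | succ n ih =>
    have h1 : x n :: pre x n = y n :: pre y n := h
    rw [List.cons.injEq] at h1
    intro i hi
    rcases Nat.lt_succ_iff_lt_or_eq.1 hi with h2 | h2
    · exact ih h1.2 i h2
    · subst h2
      exact h1.1

theorem pre_congr {x y : ℕ → ℕ} {n : ℕ} (h : ∀ i < n, x i = y i) : pre x n = pre y n := by
  induction n with
  | zero => rfl
  | succ n ih =>
    show x n :: pre x n = y n :: pre y n
    rw [h n (Nat.lt_succ_self n), ih fun i hi => h i (Nat.lt_succ_of_lt hi)]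

private theorem t3_const {u : List ℕ} (h : Nd u) {c : ℕ} (hc : c ≤ lv u) :
    ∃ x ∈ Tr, pre x u.length = u ∧ ∀ n, u.length ≤ n → x n = c := by
  induction u generalizing c with
  | nil =>
    have : c = 0 := Nat.le_zero.1 hc
    subst this
    exact ⟨fun _ => 0, ⟨rfl, fun _ => Nat.zero_le _⟩, rfl, fun _ _ => rfl⟩
  | cons p u ih =>
    obtain ⟨x, hx, hp, hn⟩ := ih h.2 h.1
    refine ⟨fun i => if i < u.length + 1 then x i else c, ⟨?_, ?_⟩, ?_, ?_⟩
    · simp [hx.1]
    · intro n
      simp only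
      by_cases h1 : n + 1 < u.length + 1
      · rw [if_pos h1, if_pos (by omega)]
        exact hx.2 n
      · rw [if_neg h1]
        by_cases h2 : n < u.length + 1
        · rw [if_pos h2, hn n (by omega)]
          exact hc
        · rw [if_neg h2]
          exact Nat.le_succ c
    · have e : pre (fun i => if i < u.length + 1 then x i else c) (u.length + 1) = pre x (u.length + 1) :=
        pre_congr fun i hi => if_pos hi
      rw [List.length_cons, e]
      show x u.length :: pre x u.length = p :: u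
      rw [hp, hn _ le_rfl]
    · intro n hn'
      rw [List.length_cons] at hn'
      exact if_neg (by omega)

/-- For every node `u` there is a branch `x` with `pre x u.length = u`. -/
theorem exists_branch {u : List ℕ} (h : Nd u) : ∃ x ∈ Tr, pre x u.length = u := by
  obtain ⟨x, hx, hp, -⟩ := t3_const h (Nat.zero_le (lv u))
  exact ⟨x, hx, hp⟩

theorem isClosed_Tr : IsClosed Tr := by
  have h : Tr = {x : ℕ → ℕ | x 0 = 0} ∩ ⋂ n, {x : ℕ → ℕ | x (n + 1) ≤ x n + 1} := by
    ext x
    simp [Tr]
  rw [h]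
  refine IsClosed.inter (isClosed_eq (continuous_apply 0) continuous_const) (isClosed_iInter fun n => ?_)
  exact isClosed_le (continuous_apply (n + 1)) (continuous_of_discreteTopology.comp (continuous_apply n) (g := fun k : ℕ => k + 1))

/-- `Tr` is a closed subset of the compact set of the `x` with `x n ≤ n`. -/
theorem isCompact_Tr : IsCompact Tr := by
  have h : IsCompact (Set.pi Set.univ fun n : ℕ => {k : ℕ | k ≤ n}) :=
    isCompact_univ_pi fun n => (Set.finite_le_nat n).isCompact
  refine h.of_isClosed_subset isClosed_Tr ?_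
  intro x hx n _
  show x n ≤ n
  induction n with
  | zero => exact hx.1.le
  | succ n ih => exact (hx.2 n).trans (Nat.succ_le_succ (ih (Set.mem_univ _)))

private theorem t4_lv {x : ℕ → ℕ} (hx : x ∈ Tr) (n : ℕ) : lv (Pool.Agent.Bs2.pd (pre x (n + 1))) = x n := by
  have h := lv_pd (nd_pre hx (n + 1)) (List.cons_ne_nil _ _)
  have h1 : lv (pre x (n + 1)) = x n + 1 := rfl
  omega

private theorem t4_preSuf (x : ℕ → ℕ) {n m : ℕ} (h : n ≤ m) : pre x n <:+ pre x m :=
  suffix_pre_iff.2 ⟨n, h, rfl⟩

private theorem t4_ge {x : ℕ → ℕ} {n i : ℕ} (h : i ≤ x n) : anc (pre x (n + 1)) i = anc (pre x n) i := by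
  show anc (x n :: pre x n) i = _
  conv_lhs => unfold anc
  rw [if_neg (not_lt.2 h)]

private theorem t4_lt {x : ℕ → ℕ} {n i : ℕ} (h : x n < i) : anc (pre x (n + 1)) i = pre x (n + 1) := by
  show anc (x n :: pre x n) i = _
  conv_lhs => unfold anc
  rw [if_pos h]
  rfl

private theorem t4_const {x : ℕ → ℕ} {N i : ℕ} (h : ∀ n, N ≤ n → i ≤ x n) :
    ∀ n, N ≤ n → anc (pre x n) i = anc (pre x N) i := by
  intro n hn
  induction n, hn using Nat.le_induction with
  | base => rfl
  | succ n hn ih => rw [t4_ge (h n hn), ih]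

private theorem t4_far {x : ℕ → ℕ} {n m i : ℕ} (h : x n < i) (hm : n + 1 ≤ m) :
    n + 1 ≤ (anc (pre x m) i).length := by
  have h1 := t2_mono (t4_preSuf x hm) i
  rw [t4_lt h] at h1
  have h2 := h1.length_le
  rwa [length_pre] at h2

private theorem t4_main {x : ℕ → ℕ} {r : List ℕ} (h : x ∈ Cel r) :
    pre x r.length = r ∧ (∀ n, r.length ≤ n → lv r ≤ x n) ∧ ∀ n, r.length ≤ n → anc (pre x n) (lv r) = r := by
  have hf : ∀ N, ∃ n, N ≤ n ∧ anc (pre x n) (lv r) = r ∧ x n = lv r := by
    intro N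
    obtain ⟨n, hn, h1⟩ := (Filter.frequently_atTop.1 h.2) N
    have h2 : x n = lv r := by rw [← h1, t4_lv h.1]
    refine ⟨n, hn, ?_, h2⟩
    rw [← h2]
    exact h1
  have h2 : ∀ n, r.length ≤ n → lv r ≤ x n := by
    intro n hn
    by_contra hcon
    obtain ⟨m, hm, h3, -⟩ := hf (n + 1)
    have h4 := t4_far (not_le.1 hcon) hm
    rw [h3] at h4
    omega
  have h3 : anc (pre x r.length) (lv r) = r := by
    obtain ⟨n, hn, h4, -⟩ := hf r.length
    rw [← t4_const h2 n hn, h4]
  refine ⟨?_, h2, fun n hn => by rw [t4_const h2 n hn, h3]⟩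
  have h5 := anc_suffix (pre x r.length) (lv r)
  rw [h3] at h5
  exact (h5.eq_of_length (length_pre x _).symm).symm

/-- MODULE t4 (size 2; all theorems of this section): cells.

Proofs.  `lv (pd (pre x (n+1))) = x n` (`lv_pd`).  If `x n < m` infinitely often then `anc (pre x n) m` gets arbitrarily long, so a cell root `r` of `x` has `lv r` = the lim inf of `x`; `n ↦ anc (pre x n) m` is
monotone for `<:+`, so it is constant from some point on if it is `r` infinitely often. -/
theorem Cel.not_AA {x : ℕ → ℕ} {r : List ℕ} (h : x ∈ Cel r) : x ∉ AA := by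
  intro hA
  obtain ⟨N, hN⟩ := Filter.eventually_atTop.1 (hA.2.eventually_gt_atTop (lv r))
  obtain ⟨n, hn, h1⟩ := (Filter.frequently_atTop.1 h.2) N
  have h2 := hN n hn
  rw [← t4_lv h.1 n, h1] at h2
  exact lt_irrefl _ h2

theorem Cel.unique {x : ℕ → ℕ} {r r' : List ℕ} (h : x ∈ Cel r) (h' : x ∈ Cel r') : r = r' := by
  have key : ∀ {r r' : List ℕ}, x ∈ Cel r → x ∈ Cel r' → lv r ≤ lv r' := by
    intro r r' h h'
    obtain ⟨n, hn, h1⟩ := (Filter.frequently_atTop.1 h'.2) r.length
    have h2 := (t4_main h).2.1 n hn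
    rw [← t4_lv h.1 n, h1] at h2
    exact h2
  have hl : lv r = lv r' := le_antisymm (key h h') (key h' h)
  have h1 := (t4_main h).2.2 (max r.length r'.length) (le_max_left _ _)
  have h2 := (t4_main h').2.2 (max r.length r'.length) (le_max_right _ _)
  rw [← hl, h1] at h2
  exact h2

theorem exists_cel {x : ℕ → ℕ} (h : x ∈ Tr) (hA : x ∉ AA) : ∃ r, Nd r ∧ x ∈ Cel r := by
  classical
  have h1 : ∃ i, ∃ᶠ n in atTop, x n = i := by
    by_contra hcon
    push Not at hcon
    apply hA
    refine ⟨h, Filter.tendsto_atTop.2 fun b => ?_⟩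
    have h2 : ∀ i ∈ Finset.range b, ∀ᶠ n in atTop, x n ≠ i := fun i _ => by
      have := hcon i
      exact Filter.not_frequently.1 (by simpa using this)
    have h3 := (Filter.eventually_all_finset (Finset.range b)).2 h2
    filter_upwards [h3] with n hn
    by_contra hlt
    exact hn (x n) (Finset.mem_range.2 (not_le.1 hlt)) rfl
  have h2 : ∀ᶠ n in atTop, Nat.find h1 ≤ x n := by
    have h3 : ∀ i ∈ Finset.range (Nat.find h1), ∀ᶠ n in atTop, x n ≠ i := fun i hi =>
      Filter.not_frequently.1 (by simpa using Nat.find_min h1 (Finset.mem_range.1 hi))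
    filter_upwards [(Filter.eventually_all_finset (Finset.range (Nat.find h1))).2 h3] with n hn
    by_contra hlt
    exact hn (x n) (Finset.mem_range.2 (not_le.1 hlt)) rfl
  obtain ⟨N, hN⟩ := Filter.eventually_atTop.1 h2
  refine ⟨anc (pre x N) (Nat.find h1), (nd_pre h N).anc _, h, ?_⟩
  refine Filter.frequently_atTop.2 fun M => ?_
  obtain ⟨n, hn, h4⟩ := (Filter.frequently_atTop.1 (Nat.find_spec h1)) (max N M)
  refine ⟨n, (le_max_right _ _).trans hn, ?_⟩
  show anc (pre x n) (x n) = _
  rw [h4]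
  exact t4_const hN n ((le_max_left _ _).trans hn)

theorem Cel.nd {x : ℕ → ℕ} {r : List ℕ} (h : x ∈ Cel r) : Nd r := by
  rw [← (t4_main h).1]
  exact nd_pre h.1 _

/-- The root is an initial segment and the next value is `lv r` (the first child). -/
theorem Cel.first {x : ℕ → ℕ} {r : List ℕ} (h : x ∈ Cel r) : pre x (r.length + 1) = lv r :: r := by
  obtain ⟨h1, h2, -⟩ := t4_main h
  show x r.length :: pre x r.length = lv r :: r
  rw [h1]
  have h3 := (nd_pre h.1 (r.length + 1)).1
  rw [h1] at h3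
  rw [le_antisymm h3 (h2 _ le_rfl)]

/-- The previous visit: if `pre x (n+1)` is a child of `r` but not the first one then its previous sibling is `pre x (n'+1)` for some `n' < n`. -/
theorem prev_visit {x : ℕ → ℕ} (hx : x ∈ Tr) {n : ℕ} (h : x n < lv (pre x n)) :
    ∃ n' < n, anc (pre x n) (x n + 1) = pre x (n' + 1) ∧ pd (pre x (n' + 1)) = pd (pre x (n + 1)) := by
  have h1 := anc_ne_nil (nd_pre hx n) h
  obtain ⟨m, hm, h2⟩ := suffix_pre_iff.1 (anc_suffix (pre x n) (x n + 1))
  cases m with
  | zero => exact absurd h2 h1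
  | succ m =>
    refine ⟨m, hm, h2, ?_⟩
    rw [← h2, pd_anc_succ (nd_pre hx n) h]
    rfl

/-- The next visit. -/
theorem Cel.next_visit {x : ℕ → ℕ} {r : List ℕ} (h : x ∈ Cel r) {n' : ℕ} (hn : pd (pre x (n' + 1)) = r) :
    ∃ n, n' < n ∧ pd (pre x (n + 1)) = r ∧ x n < lv (pre x n) ∧ anc (pre x n) (x n + 1) = pre x (n' + 1) := by
  classical
  obtain ⟨h1, h2, -⟩ := t4_main h
  have hex : ∃ n, n' < n ∧ Pool.Agent.Bs2.pd (pre x (n + 1)) = r := by
    obtain ⟨n, hn', h3⟩ := (Filter.frequently_atTop.1 h.2) (n' + 1)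
    exact ⟨n, hn', h3⟩
  have hlen : r.length ≤ n' := by
    have h3 := pd_length (v := pre x (n' + 1)) (List.cons_ne_nil _ _)
    rw [hn, length_pre] at h3
    omega
  obtain ⟨n, ⟨h3, h4⟩, hmin⟩ : ∃ n, (n' < n ∧ Pool.Agent.Bs2.pd (pre x (n + 1)) = r) ∧
      ∀ m, n' < m → m < n → Pool.Agent.Bs2.pd (pre x (m + 1)) ≠ r :=
    ⟨Nat.find hex, Nat.find_spec hex, fun m hm hm' hp => Nat.find_min hex hm' ⟨hm, hp⟩⟩
  have hxn : x n = lv r := by rw [← t4_lv h.1 n, h4]
  have hxn' : x n' = lv r := by rw [← t4_lv h.1 n', hn]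
  have hmid : ∀ m, n' < m → m < n → lv r + 1 ≤ x m := by
    intro m hm hm'
    rcases (h2 m (by omega)).lt_or_eq with h5 | h5
    · exact h5
    · exfalso
      apply hmin m hm hm'
      show anc (pre x m) (x m) = r
      rw [← h5]
      exact (t4_main h).2.2 m (by omega)
  have hanc : ∀ m, n' + 1 ≤ m → m ≤ n → anc (pre x m) (lv r + 1) = pre x (n' + 1) := by
    intro m hm
    induction m, hm using Nat.le_induction with
    | base => intro _; exact t4_lt (by omega)
    | succ m hm ih =>
      intro hm'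
      rw [t4_ge (hmid m (by omega) (by omega)), ih (by omega)]
  refine ⟨n, h3, h4, ?_, ?_⟩
  · obtain ⟨m, rfl⟩ : ∃ m, n = m + 1 := ⟨n - 1, by omega⟩
    show x (m + 1) < x m + 1
    have := h2 m (by omega)
    omega
  · rw [hxn]
    exact hanc n h3 le_rfl

/-- A child of `r` which is an initial segment of `x ∈ Cel r` is a visit (trivial), and a child `v` of `r` has `lv v = lv r + 1`.  If `r` is a true predecessor of the root `r'` of `x` and `r ≠ r'` then
`Tp.next` gives the next one. Here: if `x ∈ Cel r'` then all true predecessors of `r'` are initial segments of `x`. -/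
theorem Cel.pre_of_tp {x : ℕ → ℕ} {r t : List ℕ} (h : x ∈ Cel r) (ht : Tp t r) : pre x t.length = t := by
  have h1 := (t4_main h).1
  have h2 := ht.suffix
  rw [← h1] at h2
  obtain ⟨m, -, h3⟩ := suffix_pre_iff.1 h2
  have h4 : t.length = m := by rw [h3, length_pre]
  rw [h4, ← h3]

/-- MODULE t5 (size 2; all theorems of this section): the branches which tend to infinity.

Proofs.  For `x ∈ AA` and `i` let `N` be such that `x n ≥ i` for `n ≥ N`: `anc (pre x n) i` is constant for `n ≥ N`, and it is `pre x (m + 1)`, `m` the last time with `x m < i` (or `[]` if `i = 0`). -/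
theorem exists_stab {x : ℕ → ℕ} (h : x ∈ AA) (i : ℕ) : ∃ st, Stab x i st := by
  obtain ⟨N, hN⟩ := Filter.eventually_atTop.1 (h.2.eventually_ge_atTop i)
  exact ⟨anc (pre x N) i, Filter.eventually_atTop.2 ⟨N, fun n hn => t4_const hN n hn⟩⟩

theorem Stab.unique {x : ℕ → ℕ} {i : ℕ} {st st' : List ℕ} (h : Stab x i st) (h' : Stab x i st') : st = st' := by
  obtain ⟨n, h1, h2⟩ := (Filter.Eventually.and h h').exists
  rw [← h1, ← h2]

theorem Stab.nd {x : ℕ → ℕ} {i : ℕ} {st : List ℕ} (hx : x ∈ Tr) (h : Stab x i st) : Nd st := by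
  obtain ⟨n, h1⟩ := Filter.Eventually.exists h
  rw [← h1]
  exact (nd_pre hx n).anc i

private theorem t5_lvge {x : ℕ → ℕ} (h : Tendsto x atTop atTop) (i : ℕ) :
    ∀ᶠ n in atTop, i ≤ Pool.Agent.Bs2.lv (Pool.Agent.Bs2.pre x n) := by
  obtain ⟨N, hN⟩ := Filter.eventually_atTop.1 (h.eventually_ge_atTop i)
  refine Filter.eventually_atTop.2 ⟨N + 1, fun n hn => ?_⟩
  obtain ⟨m, rfl⟩ : ∃ m, n = m + 1 := ⟨n - 1, by omega⟩
  exact (hN m (by omega)).trans (Nat.le_succ _)

theorem Stab.lv {x : ℕ → ℕ} {i : ℕ} {st : List ℕ} (hx : x ∈ AA) (h : Stab x i st) : lv st = i := by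
  obtain ⟨n, h1, h2⟩ := (Filter.Eventually.and h ((t5_lvge hx.2 i))).exists
  rw [← h1]
  exact lv_anc (nd_pre hx.1 n) h2

theorem Stab.pre {x : ℕ → ℕ} {i : ℕ} {st : List ℕ} (h : Stab x i st) : Pool.Agent.Bs2.pre x st.length = st := by
  obtain ⟨n, h1⟩ := Filter.Eventually.exists h
  have h2 := anc_suffix (Pool.Agent.Bs2.pre x n) i
  rw [h1] at h2
  obtain ⟨m, -, h3⟩ := suffix_pre_iff.1 h2
  have h4 : st.length = m := by rw [h3, length_pre]
  rw [h4, ← h3]

theorem Stab.pd {x : ℕ → ℕ} {i : ℕ} {st st' : List ℕ} (hx : x ∈ AA) (h : Stab x i st) (h' : Stab x (i + 1) st') :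
    st' ≠ [] ∧ Pool.Agent.Bs2.pd st' = st := by
  have hl := h'.lv hx
  refine ⟨fun h0 => by rw [h0] at hl; simp [Pool.Agent.Bs2.lv] at hl, ?_⟩
  obtain ⟨n, ⟨h1, h2⟩, h3⟩ := ((Filter.Eventually.and h h').and (t5_lvge hx.2 (i + 1))).exists
  rw [← h1, ← h2]
  exact pd_anc_succ (nd_pre hx.1 n) h3

theorem stab_zero {x : ℕ → ℕ} (hx : x ∈ Tr) : Stab x 0 [] := by
  refine Filter.Eventually.of_forall fun n => ?_
  exact tp_nil.2 trivial

/-- `Stab x i st` for `x ∈ AA` says that `st` (of level `i`) is an initial segment of `x` and all later values are `≥ i`. -/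
theorem stab_iff {x : ℕ → ℕ} (hx : x ∈ AA) {st : List ℕ} (hst : Nd st) (hp : Pool.Agent.Bs2.pre x st.length = st) :
    Stab x (Pool.Agent.Bs2.lv st) st ↔ ∀ n, st.length ≤ n → Pool.Agent.Bs2.lv st ≤ x n := by
  constructor
  · intro h n hn
    by_contra hcon
    obtain ⟨m, h1, h2⟩ := (Filter.Eventually.and h (Filter.eventually_ge_atTop (n + 1))).exists
    have h3 := t4_far (not_le.1 hcon) h2
    rw [h1] at h3
    omega
  · intro h
    refine Filter.eventually_atTop.2 ⟨st.length, fun n hn => ?_⟩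
    rw [t4_const h n hn, hp]
    exact anc_self le_rfl

/-- the closed sets of the proof -/
private def t6_Y (r : List ℕ) : Set (ℕ → ℕ) := {x | x ∈ Tr ∧ pre x r.length = r ∧ ∀ n, r.length ≤ n → lv r ≤ x n}

private theorem t6_closed (r : List ℕ) : IsClosed (t6_Y r) := by
  have h : t6_Y r = Tr ∩ ({x : ℕ → ℕ | pre x r.length = r} ∩ ⋂ n, {x : ℕ → ℕ | r.length ≤ n → lv r ≤ x n}) := by
    ext x
    constructor
    · intro hx
      exact ⟨hx.1, hx.2.1, Set.mem_iInter.2 hx.2.2⟩
    · intro hx
      exact ⟨hx.1, hx.2.1, Set.mem_iInter.1 hx.2.2⟩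
  rw [h]
  refine isClosed_Tr.inter (IsClosed.inter ?_ (isClosed_iInter fun n => ?_))
  · by_cases he : ∃ y : ℕ → ℕ, pre y r.length = r
    · obtain ⟨y, hy⟩ := he
      have h2 : {x : ℕ → ℕ | pre x r.length = r} = ⋂ i : {i : ℕ // i < r.length}, {x : ℕ → ℕ | x i = y i} := by
        ext x
        constructor
        · intro hx
          exact Set.mem_iInter.2 fun i => pre_inj (Eq.trans hx hy.symm) i i.2
        · intro hx
          exact Eq.trans (pre_congr fun i hi => Set.mem_iInter.1 hx ⟨i, hi⟩) hy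
      rw [h2]
      exact isClosed_iInter fun i => isClosed_eq (continuous_apply _) continuous_const
    · have h2 : {x : ℕ → ℕ | pre x r.length = r} = ∅ := by
        ext x
        exact ⟨fun hx => he ⟨x, hx⟩, fun hx => absurd hx (Set.notMem_empty x)⟩
      rw [h2]
      exact isClosed_empty
  · by_cases hn : r.length ≤ n
    · simp only [hn, forall_true_left]
      exact isClosed_le continuous_const (continuous_apply n)
    · simp [hn]

private theorem t6_ne {r : List ℕ} (h : Nd r) : (t6_Y r).Nonempty := by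
  obtain ⟨x, hx, hp, hn⟩ := t3_const h le_rfl
  exact ⟨x, hx, hp, fun n hn' => (hn n hn').ge⟩

/-- open sets contain cylinders -/
private theorem t6_cyl {O : Set (ℕ → ℕ)} (hO : IsOpen O) {z : ℕ → ℕ} (hz : z ∈ O) :
    ∃ m, ∀ w : ℕ → ℕ, (∀ i < m, w i = z i) → w ∈ O := by
  obtain ⟨I, u, hu, hsub⟩ := isOpen_pi_iff.1 hO z hz
  refine ⟨I.sup id + 1, fun w hw => hsub ?_⟩
  intro i hi
  have h1 : i ≤ I.sup id := Finset.le_sup (f := id) hi
  rw [hw i (by omega)]
  exact (hu i hi).2

/-- the main step -/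
private theorem t6_step {G : Set (ℕ → ℕ)} (hG : IsGδ G) (h : ∀ x ∈ Tr, x ∈ G → x ∈ AA) {r : List ℕ} (hr : Nd r) :
    ∃ r', Nd r' ∧ lv r' = lv r + 1 ∧ t6_Y r' ⊆ t6_Y r ∧ ∀ x ∈ t6_Y r', x ∉ G := by
  by_contra hcon
  push Not at hcon
  obtain ⟨O, hO, hGO⟩ := (isGδ_iff_eq_iInter_nat).1 hG
  -- a point of `Y r` and a length
  have next : ∀ (k : ℕ) (y : ℕ → ℕ) (n : ℕ), y ∈ t6_Y r → r.length ≤ n →
      ∃ (z : ℕ → ℕ) (m : ℕ), z ∈ t6_Y r ∧ n < m ∧ (∀ i < n, z i = y i) ∧ z n = lv r ∧
        ∀ w : ℕ → ℕ, (∀ i < m, w i = z i) → w ∈ O k := by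
    intro k y n hy hn
    have hsub : t6_Y (lv r :: pre y n) ⊆ t6_Y r := by
      intro z hz
      obtain ⟨h1, h2, h3⟩ := hz
      rw [List.length_cons, length_pre] at h2 h3
      have h2' : z n :: pre z n = lv r :: pre y n := h2
      rw [List.cons.injEq] at h2'
      refine ⟨h1, ?_, fun m hm => ?_⟩
      · exact Eq.trans (pre_congr fun i hi => pre_inj h2'.2 i (by omega)) hy.2.1
      · rcases lt_trichotomy m n with h4 | h4 | h4
        · rw [pre_inj h2'.2 m h4]
          exact hy.2.2 m hm
        · rw [h4, h2'.1]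
        · have := h3 m h4
          have h5 : lv (lv r :: pre y n) = lv r + 1 := rfl
          omega
    have hnd : Nd (lv r :: pre y n) := by
      refine ⟨?_, nd_pre hy.1 n⟩
      rcases hn.eq_or_lt with h4 | h4
      · rw [← h4, hy.2.1]
      · obtain ⟨m, rfl⟩ : ∃ m, n = m + 1 := ⟨n - 1, by omega⟩
        show lv r ≤ y m + 1
        have := hy.2.2 m (by omega)
        omega
    obtain ⟨z, hz, hzG⟩ := hcon (lv r :: pre y n) hnd rfl hsub
    have hzO : z ∈ O k := by
      rw [hGO] at hzG
      exact Set.mem_iInter.1 hzG k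
    obtain ⟨m, hm⟩ := t6_cyl (hO k) hzO
    have h2 := hz.2.1
    rw [List.length_cons, length_pre] at h2
    have h2' : z n :: pre z n = lv r :: pre y n := h2
    rw [List.cons.injEq] at h2'
    refine ⟨z, max m (n + 1), hsub hz, by omega, pre_inj h2'.2, h2'.1, fun w hw => hm w fun i hi => hw i (by omega)⟩
  choose Z M hZ1 hZ2 hZ3 hZ4 hZ5 using next
  obtain ⟨y0, hy0⟩ := t6_ne hr
  let St : Type := {q : (ℕ → ℕ) × ℕ // q.1 ∈ t6_Y r ∧ r.length ≤ q.2}
  let f : ℕ → St → St := fun k q => ⟨(Z k q.1.1 q.1.2 q.2.1 q.2.2, M k q.1.1 q.1.2 q.2.1 q.2.2),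
    hZ1 k q.1.1 q.1.2 q.2.1 q.2.2, (q.2.2.trans (hZ2 k q.1.1 q.1.2 q.2.1 q.2.2).le)⟩
  let sq : ℕ → St := fun k => Nat.rec ⟨(y0, r.length), hy0, le_rfl⟩ (fun k q => f k q) k
  have hsq : ∀ k, sq (k + 1) = f k (sq k) := fun k => rfl
  have hlt : ∀ k, (sq k).1.2 < (sq (k + 1)).1.2 := fun k => by
    rw [hsq]
    exact hZ2 k _ _ _ _
  have hagr : ∀ k, ∀ i < (sq k).1.2, (sq (k + 1)).1.1 i = (sq k).1.1 i := fun k => by
    rw [hsq]
    exact hZ3 k _ _ _ _
  have hval : ∀ k, (sq (k + 1)).1.1 (sq k).1.2 = lv r := fun k => by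
    rw [hsq]
    exact hZ4 k _ _ _ _
  have hop : ∀ k, ∀ w : ℕ → ℕ, (∀ i < (sq (k + 1)).1.2, w i = (sq (k + 1)).1.1 i) → w ∈ O k := fun k => by
    rw [hsq]
    exact hZ5 k _ _ _ _
  have hmono : StrictMono fun k => (sq k).1.2 := strictMono_nat_of_lt_succ hlt
  have hagr2 : ∀ k j, k ≤ j → ∀ i < (sq k).1.2, (sq j).1.1 i = (sq k).1.1 i := by
    intro k j hkj
    induction j, hkj using Nat.le_induction with
    | base => intro i _; rfl
    | succ j hj ih =>
      intro i hi
      rw [hagr j i (hi.trans_le (hmono.monotone hj)), ih i hi]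
  have hidx : ∀ i, i < (sq (i + 1)).1.2 := fun i => (hmono.le_apply (x := i + 1)).trans_lt' (Nat.lt_succ_self i)
  let w : ℕ → ℕ := fun i => (sq (i + 1)).1.1 i
  have hw : ∀ k, ∀ i < (sq k).1.2, w i = (sq k).1.1 i := by
    intro k i hi
    rcases le_total (i + 1) k with h1 | h1
    · exact (hagr2 (i + 1) k h1 i (hidx i)).symm
    · exact hagr2 k (i + 1) h1 i hi
  have hwG : w ∈ G := by
    rw [hGO]
    exact Set.mem_iInter.2 fun k => hop k w (hw (k + 1))
  have hwT : w ∈ Tr := by
    refine ⟨?_, fun n => ?_⟩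
    · exact (sq 1).2.1.1.1
    · have h1 : w (n + 1) = (sq (n + 2)).1.1 (n + 1) := rfl
      have h2 : w n = (sq (n + 2)).1.1 n := hw (n + 2) n ((Nat.lt_succ_self n).trans (hidx (n + 1)))
      rw [h1, h2]
      exact (sq (n + 2)).2.1.1.2 n
  have hwA := h w hwT hwG
  obtain ⟨N, hN⟩ := Filter.eventually_atTop.1 (hwA.2.eventually_gt_atTop (lv r))
  have h1 := hN (sq N).1.2 (hmono.le_apply)
  rw [hw (N + 1) _ (hlt N), hval N] at h1
  exact lt_irrefl _ h1

/-- MODULE t6 (size 2): `AA` is not a countable union of `G_δ` sets.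

Proof.  Let `Y r = {x ∈ Tr | pre x r.length = r ∧ ∀ n ≥ r.length, lv r ≤ x n}` for a node `r`: a nonempty compact set, and `Y r ∩ {x | ∃ᶠ n, x n = lv r}` (contained in `Cel r`, so disjoint from `AA`)
is a dense `G_δ` of `Y r` (a finite initial segment of a point of `Y r` can be continued by the value `lv r` for ever).  If `G` is `G_δ` and `G ∩ Tr ⊆ AA` then `G ∩ Y r` is not dense in any
open part of `Y r` (Baire category in the compact space `Y r`), so there is `x ∈ Y r` and `n` such that no point of `Y r ∩ G` agrees with `x` below `n`; `r' = lv r :: pre x n` (`n > r.length`)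
is a node with `lv r' = lv r + 1` and `Y r' ⊆ Y r` has no point of `G`.  Iterating over `G 0, G 1, ..` we get a branch `x ∈ ⋂ Y (r n)` with `lv (r n) = n`, so `x ∈ AA`, but `x ∉ G n` for all `n`. -/
theorem AA_not_sig3 (G : Set (ℕ → ℕ)) (hG : Sig3 G) (h : ∀ x ∈ Tr, x ∈ G ↔ x ∈ AA) : False := by
  obtain ⟨G', hG', rfl⟩ := hG
  have hstep : ∀ n : ℕ, ∀ r : {r : List ℕ // Nd r}, ∃ r' : {r : List ℕ // Nd r},
      lv r'.1 = lv r.1 + 1 ∧ t6_Y r'.1 ⊆ t6_Y r.1 ∧ ∀ x ∈ t6_Y r'.1, x ∉ G' n := by
    intro n r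
    obtain ⟨r', h1, h2, h3, h4⟩ := t6_step (hG' n)
      (fun x hx hxG => (h x hx).1 (Set.mem_iUnion.2 ⟨n, hxG⟩)) r.2
    exact ⟨⟨r', h1⟩, h2, h3, h4⟩
  choose F hF1 hF2 hF3 using hstep
  let R : ℕ → {r : List ℕ // Nd r} := fun n => Nat.rec ⟨[], trivial⟩ (fun n r => F n r) n
  have hR : ∀ n, R (n + 1) = F n (R n) := fun n => rfl
  have hlv : ∀ n, lv (R n).1 = n := by
    intro n
    induction n with
    | zero => rfl
    | succ n ih => rw [hR, hF1, ih]
  obtain ⟨x, hx⟩ := IsCompact.nonempty_iInter_of_sequence_nonempty_isCompact_isClosed (fun n => t6_Y (R n).1)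
    (fun n => by rw [hR]; exact hF2 n _) (fun n => t6_ne (R n).2)
    (isCompact_Tr.of_isClosed_subset (t6_closed _) fun x hx => hx.1) (fun n => t6_closed _)
  rw [Set.mem_iInter] at hx
  have hA : x ∈ AA := by
    refine ⟨(hx 0).1, Filter.tendsto_atTop.2 fun b => ?_⟩
    refine Filter.eventually_atTop.2 ⟨(R b).1.length, fun n hn => ?_⟩
    have := (hx b).2.2 n hn
    rwa [hlv] at this
  obtain ⟨n, hn⟩ := Set.mem_iUnion.1 ((h x hA.1).2 hA)
  have := hx (n + 1)
  rw [hR] at this
  exact hF3 n _ x this hn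

end Pool.Agent.Bs2
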