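import Pool.Agent.Bs2.Good
import Pool.Agent.Bs2.Tree

/-!
# The cascade lemma
-/

set_option autoImplicit false

open Set Filter Topology TopologicalSpace
open scoped Classical

namespace Pool.Agent.Bs2

variable {s : Sys} {c : Cfg} {o : Opt}

/-- MODULE c1 (size 2; all theorems of this section; `rw [Sys.Tc]`, `rw [TO]` unfold the recursions; inductions on the length). -/
theorem Tc_nil (E : List ℕ → Set NN) : s.Tc E [] = univ := by
  rw [Sys.Tc]

theorem Tc_cons (E : List ℕ → Set NN) (p : ℕ) (u : List ℕ) :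
    s.Tc E (p :: u) = s.a ⁻¹' closure (s.b '' E (p :: u)) ∩ s.Tc E (anc u p) := by
  rw [Sys.Tc]

theorem isClosed_Tc (E : List ℕ → Set NN) (u : List ℕ) : IsClosed (s.Tc E u) := by
  induction hn : u.length using Nat.strong_induction_on generalizing u with
  | _ n ih =>
    cases u with
    | nil => rw [Tc_nil]; exact isClosed_univ
    | cons p u =>
      rw [Tc_cons]
      refine (isClosed_closure.preimage s.ca).inter (ih _ ?_ _ rfl)
      rw [← hn]
      exact Nat.lt_succ_of_le (anc_len u p)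

theorem Tc_sub {E : List ℕ → Set NN} {u w : List ℕ} (h : Nd u) (hw : Tp w u) (hne : w ≠ []) :
    s.Tc E u ⊆ s.a ⁻¹' closure (s.b '' E w) := by
  induction hn : u.length using Nat.strong_induction_on generalizing u with
  | _ n ih =>
    cases u with
    | nil => exact absurd (List.suffix_nil.1 hw.suffix) hne
    | cons p u =>
      rcases (tp_iff h (List.cons_ne_nil p u)).1 hw with h1 | h1
      · rw [Tc_cons, h1]
        exact inter_subset_left
      · rw [Tc_cons]
        have h2 : (anc u p).length < n := by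
          rw [← hn]
          exact Nat.lt_succ_of_le (anc_len u p)
        exact inter_subset_right.trans (ih _ h2 (Nd.anc h.2 p) h1 rfl)

/-- `Tc E u` depends only on the `E w`, `w ≠ []` an initial segment of `u`. -/
theorem Tc_mono {E E' : List ℕ → Set NN} {u : List ℕ} (h : ∀ w, w <:+ u → w ≠ [] → E w ⊆ E' w) :
    s.Tc E u ⊆ s.Tc E' u := by
  induction hn : u.length using Nat.strong_induction_on generalizing u with
  | _ n ih =>
    cases u with
    | nil => rw [Tc_nil, Tc_nil]
    | cons p u =>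
      rw [Tc_cons, Tc_cons]
      have h2 : (anc u p).length < n := by
        rw [← hn]
        exact Nat.lt_succ_of_le (anc_len u p)
      refine inter_subset_inter (preimage_mono (closure_mono (image_mono
        (h _ List.suffix_rfl (List.cons_ne_nil p u))))) (ih _ h2 (fun w hw hne => h w ?_ hne) rfl)
      exact hw.trans ((anc_suffix u p).trans (List.suffix_cons p u))

theorem Tc_congr {E E' : List ℕ → Set NN} {u : List ℕ} (h : ∀ w, w <:+ u → w ≠ [] → E w = E' w) :
    s.Tc E u = s.Tc E' u := by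
  exact Subset.antisymm (Tc_mono fun w hw hne => (h w hw hne).subset)
    (Tc_mono fun w hw hne => (h w hw hne).symm.subset)

theorem TO_nil : TO s c o [] = univ := by
  rw [TO]

theorem TO_cons (p : ℕ) (u : List ℕ) :
    TO s c o (p :: u) = s.a ⁻¹' closure (s.b '' (shr s c o).E (p :: u)) ∩ TO s c o (anc u p) := by
  rw [TO]
  rfl

theorem isClosed_TO (u : List ℕ) : IsClosed (TO s c o u) := by
  induction hn : u.length using Nat.strong_induction_on generalizing u with
  | _ n ih =>
    cases u with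
    | nil => rw [TO_nil]; exact isClosed_univ
    | cons p u =>
      rw [TO_cons]
      refine (isClosed_closure.preimage s.ca).inter (ih _ ?_ _ rfl)
      rw [← hn]
      exact Nat.lt_succ_of_le (anc_len u p)

theorem Tc_shr (u : List ℕ) : s.Tc (shr s c o).E u = TO s c o u := by
  induction hn : u.length using Nat.strong_induction_on generalizing u with
  | _ n ih =>
    cases u with
    | nil => rw [TO_nil, Tc_nil]
    | cons p u =>
      have h2 : (anc u p).length < n := by
        rw [← hn]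
        exact Nat.lt_succ_of_le (anc_len u p)
      rw [TO_cons, Tc_cons, ih _ h2 _ rfl]

/-- MODULE c2 (size 1).  Proof.  Induction on `B`: for `insert k B` take the `W'` of `B`; `E ∩ W'` is closed and nonempty and contained in `E ∩ W`, so it is not good for `(R k, J k)`;
`exists_null_piece`, and `Null.mono` for the other indices. -/
theorem exists_kill {E W : Set NN} (hE : IsClosed E) (hW : IsClopen W) (hn : (E ∩ W).Nonempty) (B : Finset ℕ)
    {R : ℕ → Set NN} {J : ℕ → Set CC} (h : ∀ k ∈ B, ∀ F ⊆ E ∩ W, ¬ s.Good (R k) (J k) F) :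
    ∃ W', IsClopen W' ∧ W' ⊆ W ∧ (E ∩ W').Nonempty ∧ ∀ k ∈ B, s.Null (J k) (s.rs (R k) (E ∩ W')) := by
  induction B using Finset.induction_on with
  | empty => exact ⟨W, hW, Subset.rfl, hn, fun k hk => absurd hk (Finset.notMem_empty k)⟩
  | insert k B hkB ih =>
    obtain ⟨W', hW', hWW, hn', hN⟩ := ih fun k' hk' => h k' (Finset.mem_insert_of_mem hk')
    have hcl : IsClosed (E ∩ W') := hE.inter hW'.isClosed
    have hng : ¬ s.Good (R k) (J k) (E ∩ W') :=
      h k (Finset.mem_insert_self k B) _ (inter_subset_inter_right _ hWW)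
    obtain ⟨V, hV, hVn, hVN⟩ := Sys.exists_null_piece hcl hn' hng
    refine ⟨W' ∩ V, hW'.inter hV, inter_subset_left.trans hWW, ?_, ?_⟩
    · rwa [← inter_assoc]
    · intro k' hk'
      rw [← inter_assoc]
      rcases Finset.mem_insert.1 hk' with rfl | hk'
      · exact hVN
      · exact (hN k' hk').mono Subset.rfl (Sys.rs_mono Subset.rfl inter_subset_left)

/-- MODULE c3 (size 1).  Proof.  `S = ⋃ (i, j) ∈ B × B, i ≠ j, S ∩ T i ∩ T j` because every point of `S` misses at most `m` of the at least `m + 2` sets `T i`; each of these sets is null for `J i` and for `J j`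
(`Null.mono`), so for `J₀` (`null_of_cover`).  Finite unions: `null_biUnion`. -/
theorem null_of_pairs {B : Finset ℕ} {m : ℕ} (hB : m + 2 ≤ B.card) {T : ℕ → Set NN} {J : ℕ → Set CC} {J₀ : Set CC}
    {S : Set NN} (hm : ∀ z ∈ S, (B.filter fun i => z ∉ T i).card ≤ m) (hn : ∀ i ∈ B, s.Null (J i) (S ∩ T i))
    (hJ : ∀ i ∈ B, ∀ j ∈ B, i ≠ j → J₀ ⊆ J i ∪ J j) : s.Null J₀ S := by
  have hcov : S ⊆ ⋃ q ∈ (B ×ˢ B).filter (fun q : ℕ × ℕ => q.1 ≠ q.2), S ∩ T q.1 ∩ T q.2 := by
    intro z hz
    have h1 := hm z hz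
    have h2 := Finset.card_filter_add_card_filter_not (s := B) (fun i => z ∈ T i)
    have h3 : 1 < (B.filter fun i => z ∈ T i).card := by
      have h1' : (B.filter fun i => ¬ z ∈ T i).card ≤ m := h1
      omega
    obtain ⟨i, hi, j, hj, hij⟩ := Finset.one_lt_card.1 h3
    rw [Finset.mem_filter] at hi hj
    simp only [mem_iUnion]
    refine ⟨(i, j), ?_, ⟨hz, hi.2⟩, hj.2⟩
    exact Finset.mem_filter.2 ⟨Finset.mem_product.2 ⟨hi.1, hj.1⟩, hij⟩
  refine Sys.Null.mono (Sys.null_biUnion _ fun q hq => ?_) Subset.rfl hcov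
  rw [Finset.mem_filter, Finset.mem_product] at hq
  refine Sys.null_of_cover ((hn q.1 hq.1.1).mono Subset.rfl inter_subset_left)
    ((hn q.2 hq.1.2).mono Subset.rfl ?_) (hJ q.1 hq.1.1 q.2 hq.1.2 hq.2)
  exact inter_subset_inter_left _ inter_subset_left

/-- MODULE c4 (size 2).

Proof.  Let `B` be the set of the `i ∈ I` with `e ∉ mx ..`, and `B'` the `i ∈ B` with `e ∈ kE i`; `B \ B'` has at most one element (`hk2`), so if `B.card ≥ m + 3` then `B'.card ≥ m + 2`.  For `i ∈ B'`
`not_mem_mx` gives a clopen `W i ∋ e` such that `E ∩ kE i ∩ W i` has no good subset; `W = ⋂ i ∈ B', kE i ∩ W i` is clopen and contains `e`.  `exists_kill`: clopen `W' ⊆ W`, `P = E ∩ W'` nonempty, `rs (R i) P` null for `J i`, `i ∈ B'`.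
`null_of_pairs` for `S = rs R₀ P`, `T = R`, `B'` (`S ∩ R i ⊆ rs (R i) P`): `rs R₀ P` is `J₀`-null, contradiction with `hE`. -/
theorem mult_e {R₀ E : Set NN} {J₀ : Set CC} (hE : s.Good R₀ J₀ E) {I : Finset ℕ} {kE R : ℕ → Set NN}
    {J : ℕ → Set CC} {m : ℕ} (hk : ∀ i ∈ I, IsClopen (kE i)) (hk2 : ∀ i ∈ I, ∀ j ∈ I, i ≠ j → kE i ∪ kE j = univ)
    (hJ : ∀ i ∈ I, ∀ j ∈ I, i ≠ j → J₀ ⊆ J i ∪ J j) (hm : ∀ z ∈ R₀, (I.filter fun i => z ∉ R i).card ≤ m)
    {e : NN} (he : e ∈ E) : (I.filter fun i => e ∉ s.mx (R i) (J i) (E ∩ kE i)).card ≤ m + 2 := by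
  by_contra hcon
  have hB3 : m + 3 ≤ (I.filter fun i => e ∉ s.mx (R i) (J i) (E ∩ kE i)).card := by omega
  set B := I.filter fun i => e ∉ s.mx (R i) (J i) (E ∩ kE i) with hBdef
  have hBI : ∀ i ∈ B, i ∈ I := fun i hi => (Finset.mem_filter.1 hi).1
  have h1 : (B.filter fun i => ¬ e ∈ kE i).card ≤ 1 := by
    refine Finset.card_le_one.2 fun i hi j hj => ?_
    rw [Finset.mem_filter] at hi hj
    by_contra hij
    have h2 : e ∈ kE i ∪ kE j := by
      rw [hk2 i (hBI i hi.1) j (hBI j hj.1) hij]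
      exact mem_univ e
    exact h2.elim hi.2 hj.2
  have h2 := Finset.card_filter_add_card_filter_not (s := B) (fun i => e ∈ kE i)
  have hB' : m + 2 ≤ (B.filter fun i => e ∈ kE i).card := by omega
  set B' := B.filter fun i => e ∈ kE i with hB'def
  have hB'B : ∀ i ∈ B', i ∈ B := fun i hi => (Finset.mem_filter.1 hi).1
  have hW : ∀ i : ℕ, ∃ W, i ∈ B' → IsClopen W ∧ e ∈ W ∧ ∀ F ⊆ (E ∩ kE i) ∩ W, ¬ s.Good (R i) (J i) F := by
    intro i
    by_cases hi : i ∈ B'
    · obtain ⟨W, hW⟩ := Sys.not_mem_mx (Finset.mem_filter.1 (hB'B i hi)).2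
      exact ⟨W, fun _ => hW⟩
    · exact ⟨univ, fun h => absurd h hi⟩
  choose W hW using hW
  have hclo : IsClopen (⋂ i ∈ B', kE i ∩ W i) :=
    isClopen_biInter_finset fun i hi => (hk i (hBI i (hB'B i hi))).inter (hW i hi).1
  have heW : e ∈ ⋂ i ∈ B', kE i ∩ W i :=
    mem_iInter₂.2 fun i hi => ⟨(Finset.mem_filter.1 hi).2, (hW i hi).2.1⟩
  obtain ⟨W', hW'c, hW's, hW'n, hW'N⟩ := exists_kill (s := s) hE.1 hclo ⟨e, he, heW⟩ B' (R := R) (J := J) (by
    intro i hi F hF
    refine (hW i hi).2.2 F (hF.trans ?_)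
    rw [inter_assoc]
    exact inter_subset_inter_right _ (biInter_subset_of_mem hi))
  refine hE.2.2 W' hW'c.isOpen hW'n ?_
  refine null_of_pairs hB' (T := R) (J := J) ?_ ?_ ?_
  · intro z hz
    refine (Finset.card_le_card ?_).trans (hm z (Sys.rs_sub hz))
    intro i hi
    rw [Finset.mem_filter] at hi ⊢
    exact ⟨hBI i (hB'B i hi.1), hi.2⟩
  · intro i hi
    refine (hW'N i hi).mono Subset.rfl ?_
    rintro z ⟨hz1, hz2⟩
    exact ⟨hz2, hz1.2⟩
  · intro i hi j hj hij
    exact hJ i (hBI i (hB'B i hi)) j (hBI j (hB'B j hj)) hij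

/-- MODULE c5 (size 1).  Proof.  If the set `B` on the left has at least `M + 1` elements then every `e ∈ E` is in some `F i`, `i ∈ B`, so `b '' E ⊆ ⋃ i ∈ B, b '' F i` and the closure of the finite union is the union of the closures. -/
theorem mult_z {E : Set NN} {I : Finset ℕ} {F : ℕ → Set NN} {M : ℕ}
    (h : ∀ e ∈ E, (I.filter fun i => e ∉ F i).card ≤ M) {z : NN} (hz : s.a z ∈ closure (s.b '' E)) :
    (I.filter fun i => s.a z ∉ closure (s.b '' F i)).card ≤ M := by
  by_contra hcon
  have hB1 : M + 1 ≤ (I.filter fun i => s.a z ∉ closure (s.b '' F i)).card := by omega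
  have hcov : s.b '' E ⊆ ⋃ i ∈ (I.filter fun i => s.a z ∉ closure (s.b '' F i)), s.b '' F i := by
    rintro y ⟨e, he, rfl⟩
    by_contra hne
    simp only [mem_iUnion, not_exists] at hne
    have h1 := h e he
    have h2 : (I.filter fun i => s.a z ∉ closure (s.b '' F i)).card ≤ (I.filter fun i => e ∉ F i).card := by
      refine Finset.card_le_card fun i hi => ?_
      refine Finset.mem_filter.2 ⟨(Finset.mem_filter.1 hi).1, fun hei => ?_⟩
      exact hne i hi ⟨e, hei, rfl⟩
    omega
  have h3 := closure_mono hcov hz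
  rw [Finset.closure_biUnion] at h3
  simp only [mem_iUnion] at h3
  obtain ⟨i, hi, h4⟩ := h3
  exact (Finset.mem_filter.1 hi).2 h4

private theorem c6_suffix_mem (hc : Dyn s c) {v w : List ℕ} (hv : v ∈ c.S) (hw : w <:+ v) : w ∈ c.S := by
  induction v with
  | nil =>
    rw [List.suffix_nil.1 hw]
    exact hv
  | cons p u ih =>
    rcases List.suffix_cons_iff.1 hw with rfl | hw
    · exact hv
    · exact ih (hc.tl p u hv) hw

private theorem c6_pd_mem (hc : Dyn s c) {v : List ℕ} (hv : v ∈ c.S) : pd v ∈ c.S :=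
  c6_suffix_mem hc hv (pd_suffix v)

private theorem c6_E (hc : Dyn s c) {I : Finset ℕ} {o : ℕ → Opt} (hf : Fam c I o) {v : List ℕ} (hv : v ∈ c.S)
    (hne : v ≠ [])
    (ih : ∀ z ∈ s.Tc c.E (pd v), (I.filter fun i => z ∉ TO s c (o i) (pd v)).card ≤ tb (lv (pd v)))
    {e : NN} (he : e ∈ c.E v) :
    (I.filter fun i => e ∉ (shr s c (o i)).E v).card ≤ tb (lv (pd v)) + 3 := by
  obtain ⟨R', hR'⟩ : ∃ R' : ℕ → Set NN, ∀ i, R' i = c.R (pd v) ∩ (o i).kR (pd v) ∩ TO s c (o i) (pd v) :=
    ⟨fun i => c.R (pd v) ∩ (o i).kR (pd v) ∩ TO s c (o i) (pd v), fun i => rfl⟩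
  have h1 := mult_e (s := s) (hc.good v hv hne) (I := I) (kE := fun i => (o i).kE v)
    (R := R') (J := fun i => (o i).JR (pd v))
    (m := tb (lv (pd v)) + 1) (fun i hi => hf.kEc i hi v) (fun i hi j hj hij => hf.mE i hi j hj hij v)
    (fun i hi j hj hij => hf.mJR i hi j hj hij v hv hne) (by
      intro z hz
      have hz2 := ih z ((hc.root v hv hne).2.1 hz)
      have hk : (I.filter fun i => z ∉ (o i).kR (pd v)).card ≤ 1 := by
        refine Finset.card_le_one.2 fun i hi j hj => ?_
        rw [Finset.mem_filter] at hi hj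
        by_contra hij
        have h2 : z ∈ (o i).kR (pd v) ∪ (o j).kR (pd v) := by
          rw [hf.mR i hi.1 j hj.1 hij (pd v)]
          exact mem_univ z
        exact h2.elim hi.2 hj.2
      have hsub : (I.filter fun i => z ∉ R' i) ⊆
          (I.filter fun i => z ∉ TO s c (o i) (pd v)) ∪ (I.filter fun i => z ∉ (o i).kR (pd v)) := by
        intro i hi
        rw [Finset.mem_filter, hR'] at hi
        rw [Finset.mem_union, Finset.mem_filter, Finset.mem_filter]
        by_cases h3 : z ∈ TO s c (o i) (pd v)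
        · right
          exact ⟨hi.1, fun h4 => hi.2 ⟨⟨hz, h4⟩, h3⟩⟩
        · left
          exact ⟨hi.1, h3⟩
      refine (Finset.card_le_card hsub).trans ((Finset.card_union_le _ _).trans ?_)
      exact Nat.add_le_add hz2 hk) he
  have h2 : (I.filter fun i => e ∉ (shr s c (o i)).E v) ⊆
      (I.filter fun i => e ∉ s.mx (R' i) ((o i).JR (pd v)) (c.E v ∩ (o i).kE v)) := by
    intro i hi
    rw [Finset.mem_filter] at hi ⊢
    refine ⟨hi.1, ?_⟩
    rw [hR']
    exact hi.2
  exact (Finset.card_le_card h2).trans h1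

private theorem c6_main (hc : Dyn s c) {I : Finset ℕ} {o : ℕ → Opt} (hf : Fam c I o) (n : ℕ) :
    ∀ u : List ℕ, u.length = n → u ∈ c.S → ∀ z ∈ s.Tc c.E u,
      (I.filter fun i => z ∉ TO s c (o i) u).card ≤ tb (lv u) := by
  induction n using Nat.strong_induction_on with
  | _ n ih =>
    intro u hun hu z hz
    cases u with
    | nil =>
      have h0 : (I.filter fun i => z ∉ TO s c (o i) []) = ∅ := by
        refine Finset.filter_eq_empty_iff.2 fun i _ => ?_
        rw [TO_nil]
        exact not_not_intro (mem_univ z)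
      rw [h0]
      exact Nat.zero_le _
    | cons p u =>
      have hlen : (anc u p).length < n := by
        rw [← hun]
        exact Nat.lt_succ_of_le (anc_len u p)
      have hr : anc u p ∈ c.S := c6_suffix_mem hc hu ((anc_suffix u p).trans (List.suffix_cons p u))
      have hne : p :: u ≠ [] := List.cons_ne_nil p u
      have hpd : pd (p :: u) = anc u p := rfl
      rw [Tc_cons] at hz
      have ih1 := ih _ hlen (anc u p) rfl hr
      have hE : ∀ e ∈ c.E (p :: u), (I.filter fun i => e ∉ (shr s c (o i)).E (p :: u)).card ≤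
          tb (lv (anc u p)) + 3 := by
        intro e he
        have h1 := c6_E hc hf hu hne (by rw [hpd]; exact ih1) he
        rwa [hpd] at h1
      have h2 := mult_z hE hz.1
      have h3 := ih1 z hz.2
      have hsub : (I.filter fun i => z ∉ TO s c (o i) (p :: u)) ⊆
          (I.filter fun i => s.a z ∉ closure (s.b '' (shr s c (o i)).E (p :: u))) ∪
            (I.filter fun i => z ∉ TO s c (o i) (anc u p)) := by
        intro i hi
        rw [Finset.mem_filter, TO_cons] at hi
        rw [Finset.mem_union, Finset.mem_filter, Finset.mem_filter]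
        by_cases h4 : z ∈ TO s c (o i) (anc u p)
        · left
          exact ⟨hi.1, fun h5 => hi.2 ⟨h5, h4⟩⟩
        · right
          exact ⟨hi.1, h4⟩
      have hlv : lv (p :: u) = lv (anc u p) + 1 := by
        have h5 := lv_pd (hc.nd _ hu) hne
        rwa [hpd] at h5
      have htb : tb (lv (p :: u)) = 2 * tb (lv (anc u p)) + 3 := by
        rw [hlv]
        rfl
      rw [htb]
      exact (Finset.card_le_card hsub).trans ((Finset.card_union_le _ _).trans (by omega))

/-- MODULE c6 (size 2): multiplicities; both statements together by induction on the length of the node.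

Proof.  `[]`: `TO = univ`, `tb 0 = 0`.  `p :: u ∈ S`, `r = anc u p = pd (p :: u) ∈ S` (an initial segment of `u ∈ S`, `hc.tl`), `lv (p :: u) = lv r + 1`.  A point `z ∈ c.R r ⊆ Tc c.E r` (`hc.root`) misses at most one `kR` and at most
`tb (lv r)` of the `TO .. r` (induction), so at most `m = tb (lv r) + 1` of the `R i = c.R r ∩ (o i).kR r ∩ TO s c (o i) r`; `mult_e` gives the second statement with `m + 2 = tb (lv r) + 3`.  `mult_z`: `z ∈ a ⁻¹' closure (b '' c.E (p :: u))` misses at most
`tb (lv r) + 3` of the closures, together with `tb (lv r)` for `TO .. r`: `2 * tb (lv r) + 3 = tb (lv r + 1)`. -/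
theorem mult_TO (hc : Dyn s c) {I : Finset ℕ} {o : ℕ → Opt} (hf : Fam c I o) {u : List ℕ} (hu : u ∈ c.S) {z : NN}
    (hz : z ∈ s.Tc c.E u) : (I.filter fun i => z ∉ TO s c (o i) u).card ≤ tb (lv u) := by
  exact c6_main hc hf _ u rfl hu z hz

theorem mult_E (hc : Dyn s c) {I : Finset ℕ} {o : ℕ → Opt} (hf : Fam c I o) {v : List ℕ} (hv : v ∈ c.S) (hne : v ≠ [])
    {e : NN} (he : e ∈ c.E v) : (I.filter fun i => e ∉ (shr s c (o i)).E v).card ≤ tb (lv (pd v)) + 3 := by
  exact c6_E hc hf hv hne (fun z hz => c6_main hc hf _ _ rfl (c6_pd_mem hc hv) z hz) he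

/-- MODULE c7 (size 2): validity of the shrunk configuration. `Tc_shr`, `mx_good`, `perf_ker`, `isClosed_TO`. -/
theorem dyn_shr (hc : Dyn s c) (hkR : ∀ r, IsClosed (o.kR r)) (hkE : ∀ v, IsClosed (o.kE v))
    (hJR : ∀ v ∈ c.S, v ≠ [] → IsClopen (o.JR (pd v)))
    (hJD : ∀ p u, u ∈ c.S → p ≤ lv u → p :: u ∉ c.S → IsClopen (o.JD (p :: u)))
    (hE : ∀ v ∈ c.S, v ≠ [] → ((shr s c o).E v).Nonempty)
    (hD : ∀ p u, u ∈ c.S → p ≤ lv u → p :: u ∉ c.S → ¬ s.Null (o.JD (p :: u)) (c.D (p :: u) ∩ TO s c o u)) :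
    Dyn s (shr s c o) := by
  refine ⟨hc.nil, hc.nd, hc.tl, ?_, ?_, ?_⟩
  · intro v hv hne
    exact Sys.mx_good (hE v hv hne)
  · intro v hv hne
    refine ⟨((hc.root v hv hne).1.inter (hkR _)).inter (isClosed_TO _), ?_, hJR v hv hne⟩
    rw [Tc_shr]
    exact inter_subset_right
  · intro p u hu hp hpu
    refine ⟨Sys.perf_ker ((hc.slot p u hu hp hpu).1.1.inter (isClosed_TO _)) (hD p u hu hp hpu), ?_,
      hJD p u hu hp hpu⟩
    rw [Tc_shr]
    exact Sys.ker_sub.trans inter_subset_right

/-- The shrunk sets are smaller. -/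
theorem shr_E_sub (hc : Dyn s c) (hkE : ∀ v, IsClosed (o.kE v)) {v : List ℕ} (hv : v ∈ c.S) (hne : v ≠ []) :
    (shr s c o).E v ⊆ c.E v ∩ o.kE v := by
  exact Sys.mx_sub ((hc.good v hv hne).1.inter (hkE v))

theorem stc_shr (hc : Dyn s c) (hst : Stc s c) (hkE : ∀ v, IsClosed (o.kE v)) : Stc s (shr s c o) := by
  refine ⟨?_, hst.e2, hst.e3, hst.d1, ?_, ?_, hst.d4, hst.d5, hst.dj, hst.q1, hst.q2, ?_⟩
  · intro v hv hne
    exact ⟨(shr_E_sub hc hkE hv hne).trans (inter_subset_left.trans (hst.e1 v hv hne).1), (hst.e1 v hv hne).2⟩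
  · intro u hu p hp hpu
    exact Sys.ker_sub.trans (inter_subset_left.trans (hst.d2 u hu p hp hpu))
  · intro v hv hne
    exact inter_subset_left.trans (inter_subset_left.trans (hst.d3 v hv hne))
  · intro v hv hne
    exact (hst.q3 v hv hne).mono_left (inter_subset_left.trans inter_subset_left)

/-- MODULE c8 (size 2): the cascade lemma.

Proof.  `M = ∑ v ∈ S, (tb (lv (pd v)) + 3) + ∑ v ∈ S, (lv v + 1) * (tb (lv v) + 1)`.  For `v ∈ S`, `v ≠ []` take `e ∈ c.E v`: the `i ∈ I` with `(shr s c (o i)).E v = ∅` are at most `tb (lv (pd v)) + 3` (`mult_E`).  For a slot `p :: u` let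
`B` be the set of the `i ∈ I` with `c.D (p :: u) ∩ TO s c (o i) u` null for `(o i).JD (p :: u)`: if `B.card ≥ tb (lv u) + 2` then `null_of_pairs` (with `mult_TO`; `B ⊆ I`) makes `c.D (p :: u)` null, which is wrong
(`Perf.not_null`); so `B.card ≤ tb (lv u) + 1`.  If `I.card > M` some `i ∈ I` is in none of these sets: `dyn_shr`. -/
theorem cascade (hc : Dyn s c) :
    ∃ M : ℕ, ∀ (I : Finset ℕ) (o : ℕ → Opt), Fam c I o → M < I.card → ∃ i ∈ I, Dyn s (shr s c (o i)) := by
  refine ⟨∑ v ∈ c.S, (tb (lv (pd v)) + 3) + ∑ v ∈ c.S, (lv v + 1) * (tb (lv v) + 1), ?_⟩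
  intro I o hf hM
  by_contra hcon
  push Not at hcon
  set B1 : List ℕ → Finset ℕ := fun v => if v = [] then ∅ else I.filter fun i => (shr s c (o i)).E v = ∅ with hB1
  set B2 : List ℕ → ℕ → Finset ℕ := fun u p => if p :: u ∈ c.S then ∅ else
    I.filter fun i => s.Null ((o i).JD (p :: u)) (c.D (p :: u) ∩ TO s c (o i) u) with hB2
  have hsub : I ⊆ (c.S.biUnion B1) ∪ (c.S.biUnion fun u => (Finset.range (lv u + 1)).biUnion (B2 u)) := by
    intro i hi
    by_contra hin
    rw [Finset.mem_union, not_or] at hin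
    refine hcon i hi (dyn_shr hc (hf.kRc i hi) (fun v => (hf.kEc i hi v).isClosed) (hf.cJR i hi) (hf.cJD i hi)
      ?_ ?_)
    · intro v hv hne
      rw [nonempty_iff_ne_empty]
      intro h0
      refine hin.1 (Finset.mem_biUnion.2 ⟨v, hv, ?_⟩)
      rw [hB1]
      simp only [if_neg hne]
      exact Finset.mem_filter.2 ⟨hi, h0⟩
    · intro p u hu hp hpu h0
      refine hin.2 (Finset.mem_biUnion.2 ⟨u, hu, Finset.mem_biUnion.2 ⟨p, Finset.mem_range.2 (Nat.lt_succ_of_le hp), ?_⟩⟩)
      rw [hB2]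
      simp only [if_neg hpu]
      exact Finset.mem_filter.2 ⟨hi, h0⟩
  have hb1 : (c.S.biUnion B1).card ≤ ∑ v ∈ c.S, (tb (lv (pd v)) + 3) := by
    refine Finset.card_biUnion_le.trans (Finset.sum_le_sum fun v hv => ?_)
    rw [hB1]
    by_cases hne : v = []
    · simp only [if_pos hne, Finset.card_empty]
      exact Nat.zero_le _
    · simp only [if_neg hne]
      obtain ⟨e, he⟩ := (hc.good v hv hne).2.1
      refine (Finset.card_le_card ?_).trans (mult_E hc hf hv hne he)
      intro i hi
      rw [Finset.mem_filter] at hi ⊢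
      refine ⟨hi.1, ?_⟩
      rw [hi.2]
      exact notMem_empty e
  have hb2 : (c.S.biUnion fun u => (Finset.range (lv u + 1)).biUnion (B2 u)).card ≤
      ∑ v ∈ c.S, (lv v + 1) * (tb (lv v) + 1) := by
    refine Finset.card_biUnion_le.trans (Finset.sum_le_sum fun u hu => ?_)
    have h1 : ∑ p ∈ Finset.range (lv u + 1), (tb (lv u) + 1) = (lv u + 1) * (tb (lv u) + 1) := by
      rw [Finset.sum_const, Finset.card_range, smul_eq_mul]
    rw [← h1]
    refine Finset.card_biUnion_le.trans (Finset.sum_le_sum fun p hp => ?_)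
    rw [hB2]
    by_cases hpu : p :: u ∈ c.S
    · simp only [if_pos hpu, Finset.card_empty]
      exact Nat.zero_le _
    · simp only [if_neg hpu]
      have hp' : p ≤ lv u := Nat.lt_succ_iff.1 (Finset.mem_range.1 hp)
      by_contra hbig
      have hbig' : tb (lv u) + 2 ≤ (I.filter fun i => s.Null ((o i).JD (p :: u))
        (c.D (p :: u) ∩ TO s c (o i) u)).card := by omega
      have hslot := hc.slot p u hu hp' hpu
      refine hslot.1.not_null (null_of_pairs hbig' (T := fun i => TO s c (o i) u)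
        (J := fun i => (o i).JD (p :: u)) ?_ ?_ ?_)
      · intro z hz
        refine (Finset.card_le_card ?_).trans (mult_TO hc hf hu (hslot.2.1 hz))
        intro i hi
        rw [Finset.mem_filter] at hi ⊢
        exact ⟨(Finset.mem_filter.1 hi.1).1, hi.2⟩
      · intro i hi
        exact (Finset.mem_filter.1 hi).2
      · intro i hi j hj hij
        exact hf.mJD i (Finset.mem_filter.1 hi).1 j (Finset.mem_filter.1 hj).1 hij p u hu hp' hpu
  have h2 := (Finset.card_le_card hsub).trans ((Finset.card_union_le _ _).trans (Nat.add_le_add hb1 hb2))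
  omega

/-- MODULE c9 (size 2): an option which does not touch the sets below `r` does not change `Tc` at `r`.  Induction along `pd`: for `w ≠ []` a true predecessor of `r` (`w ∈ S`), `pd w ≠ r`, so
`(shr s c o).E w = mx (c.R (pd w) ∩ univ ∩ TO (pd w)) (c.JR (pd w)) (c.E w ∩ univ) = mx (c.R (pd w)) .. = c.E w` (`hc.root`: `c.R (pd w) ⊆ Tc = TO`; `Good.mx_eq`). -/
theorem TO_eq (hc : Dyn s c) {r : List ℕ} (hr : r ∈ c.S)
    (h : ∀ w, Tp w r → w ≠ r → o.kR w = univ ∧ o.JR w = c.JR w) (h' : ∀ w, Tp w r → w ≠ [] → o.kE w = univ) :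
    TO s c o r = s.Tc c.E r := by
  induction hn : r.length using Nat.strong_induction_on generalizing r with
  | _ n ih =>
    cases r with
    | nil => rw [TO_nil, Tc_nil]
    | cons p u =>
      have hlen : (anc u p).length < n := by
        rw [← hn]
        exact Nat.lt_succ_of_le (anc_len u p)
      have hne : p :: u ≠ [] := List.cons_ne_nil p u
      have hpd : pd (p :: u) = anc u p := rfl
      have hr' : anc u p ∈ c.S := by
        rw [← hpd]
        exact c6_pd_mem hc hr
      have htp : Tp (anc u p) (p :: u) := by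
        rw [← hpd]
        exact tp_pd (hc.nd _ hr)
      have hnn : anc u p ≠ p :: u := by
        intro h1
        rw [h1, hn] at hlen
        exact lt_irrefl _ hlen
      have ih1 : TO s c o (anc u p) = s.Tc c.E (anc u p) := by
        refine ih _ hlen hr' ?_ ?_ rfl
        · intro w hw hne'
          refine h w (hw.trans htp) ?_
          rintro rfl
          have h2 := hw.suffix.length_le
          rw [hn] at h2
          omega
        · intro w hw hne'
          exact h' w (hw.trans htp) hne'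
      have hE : (shr s c o).E (p :: u) = c.E (p :: u) := by
        have h1 : (shr s c o).E (p :: u) = s.mx (c.R (anc u p) ∩ o.kR (anc u p) ∩ TO s c o (anc u p))
          (o.JR (anc u p)) (c.E (p :: u) ∩ o.kE (p :: u)) := rfl
        have h3 := (hc.root _ hr hne).2.1
        rw [hpd] at h3
        have h4 := hc.good _ hr hne
        rw [hpd] at h4
        rw [h1, (h _ htp hnn).1, (h _ htp hnn).2, h' _ (Tp.refl _) hne, inter_univ, inter_univ, ih1,
          inter_eq_left.2 h3]
        exact h4.mx_eq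
      rw [TO_cons, Tc_cons, hE, ih1]

end Pool.Agent.Bs2
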