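import Pool.Agent.Bs2.Stmt

/-!
# Systems

The tree of finite sequences, the systems and the separation ideals.
-/

set_option autoImplicit false

open Set Filter Topology TopologicalSpace

namespace Pool.Agent.Bs2

/-! ### auxiliary definitions -/

/-- The Baire space. -/
abbrev NN := ℕ → ℕ

/-- The Cantor space. -/
abbrev CC := ℕ → Bool

/-- Countable unions of `G_δ` sets. -/
def Sig3 {Z : Type} [TopologicalSpace Z] (S : Set Z) : Prop :=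
  ∃ G : ℕ → Set Z, (∀ n, IsGδ (G n)) ∧ S = ⋃ n, G n

/-- All elements of `S` agree below `n`. -/
def Agr {α : Type} (n : ℕ) (S : Set (ℕ → α)) : Prop := ∀ x ∈ S, ∀ y ∈ S, ∀ i < n, x i = y i

/-! ### the tree; a node is the reversed list of the values -/

/-- The level of a node. -/
def lv : List ℕ → ℕ
  | [] => 0
  | p :: _ => p + 1

/-- The longest initial segment of level at most `i`. -/
def anc : List ℕ → ℕ → List ℕ
  | [], _ => []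
  | p :: u, i => if p < i then p :: u else anc u i

/-- The true predecessor. -/
def pd : List ℕ → List ℕ
  | [] => []
  | p :: u => anc u p

/-- The nodes of the tree. -/
def Nd : List ℕ → Prop
  | [] => True
  | p :: u => p ≤ lv u ∧ Nd u

/-- The initial segment of length `n` (reversed). -/
def pre (x : ℕ → ℕ) : ℕ → List ℕ
  | 0 => []
  | n + 1 => x n :: pre x n

/-- The branches of the tree. -/
def Tr : Set (ℕ → ℕ) := {x | x 0 = 0 ∧ ∀ n, x (n + 1) ≤ x n + 1}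

/-- The branches which tend to infinity. -/
def AA : Set (ℕ → ℕ) := {x | x ∈ Tr ∧ Tendsto x atTop atTop}

/-- The cell of the root `r`. -/
def Cel (r : List ℕ) : Set (ℕ → ℕ) := {x | x ∈ Tr ∧ ∃ᶠ n in atTop, pd (pre x (n + 1)) = r}

/-- The true predecessor of level `i` of the branch `x` is `s`. -/
def Stab (x : ℕ → ℕ) (i : ℕ) (s : List ℕ) : Prop := ∀ᶠ n in atTop, anc (pre x n) i = s

/-- `s` is a true predecessor of `u` (or `u`). -/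
def Tp (s u : List ℕ) : Prop := anc u (lv s) = s

theorem anc_len (u : List ℕ) (i : ℕ) : (anc u i).length ≤ u.length := by
  induction u with
  | nil => exact le_rfl
  | cons p u ih =>
    unfold anc
    split_ifs
    · exact le_rfl
    · exact ih.trans (Nat.le_succ _)

/-! ### systems -/

/-- A system. -/
structure Sys where
  a : NN → CC
  b : NN → CC
  h : NN → CC
  k : NN → CC
  p : Fin 2 → CC → CC
  O : ℕ → Set (CC × CC)
  ca : Continuous a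
  cb : Continuous b
  ch : Continuous h
  ck : Continuous k
  cp : ∀ i, Continuous (p i)
  oO : ∀ n, IsOpen (O n)
  mO : ∀ z n, (a z, k z) ∈ O n
  nO : ∀ e y, ∃ n, (b e, y) ∉ O n

namespace Sys

variable (s : Sys)

/-- `S` is `J`-null. -/
def Null (J : Set CC) (S : Set NN) : Prop :=
  ∃ Θ : Set CC, Sig3 Θ ∧ (∀ z ∈ S, s.a z ∈ Θ) ∧ ∀ e, s.h e ∈ J → s.b e ∉ Θ

/-- The general assumptions. -/
structure Ok : Prop where
  pos : ¬ s.Null univ univ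
  nk : ∀ y, s.Null univ (s.k ⁻¹' {y})
  np : ∀ i y, s.Null univ ((fun z => s.p i (s.a z)) ⁻¹' {y})

/-- `h` has null fibres. -/
def Star : Prop := ∀ y, s.Null {y} univ

/-- The part of `R` accumulated by `b '' P`. -/
def rs (R P : Set NN) : Set NN := R ∩ s.a ⁻¹' closure (s.b '' P)

/-- Good sets. -/
def Good (R : Set NN) (J : Set CC) (E : Set NN) : Prop :=
  IsClosed E ∧ E.Nonempty ∧ ∀ W, IsOpen W → (E ∩ W).Nonempty → ¬ s.Null J (s.rs R (E ∩ W))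

/-- Perfect sets. -/
def Perf (J : Set CC) (D : Set NN) : Prop :=
  IsClosed D ∧ D.Nonempty ∧ ∀ W, IsOpen W → (D ∩ W).Nonempty → ¬ s.Null J (D ∩ W)

/-- The largest good subset. -/
def mx (R : Set NN) (J : Set CC) (E : Set NN) : Set NN := closure (⋃₀ {F | F ⊆ E ∧ s.Good R J F})

/-- The perfect kernel. -/
def ker (J : Set CC) (D : Set NN) : Set NN :=
  {z | z ∈ D ∧ ∀ W, IsOpen W → z ∈ W → ¬ s.Null J (D ∩ W)}

/-- The points accumulated by all the `E w`, `w ≠ []` a true predecessor of the node. -/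
def Tc (E : List ℕ → Set NN) : List ℕ → Set NN
  | [] => univ
  | p :: u => s.a ⁻¹' closure (s.b '' E (p :: u)) ∩ Tc E (anc u p)
termination_by v => v.length
decreasing_by exact Nat.lt_succ_of_le (anc_len u p)

end Sys

/-- Configurations. -/
structure Cfg where
  S : Finset (List ℕ)
  E : List ℕ → Set NN
  R : List ℕ → Set NN
  D : List ℕ → Set NN
  JR : List ℕ → Set CC
  JD : List ℕ → Set CC
  U : List ℕ → ℕ → Set CC
  Dh : List ℕ → ℕ → Set NN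
  Eh : List ℕ → Set NN
  Q : List ℕ → Set CC

/-- Dynamic part of the validity of a configuration. -/
structure Dyn (s : Sys) (c : Cfg) : Prop where
  nil : [] ∈ c.S
  nd : ∀ v ∈ c.S, Nd v
  tl : ∀ p u, p :: u ∈ c.S → u ∈ c.S
  good : ∀ v ∈ c.S, v ≠ [] → s.Good (c.R (pd v)) (c.JR (pd v)) (c.E v)
  root : ∀ v ∈ c.S, v ≠ [] → IsClosed (c.R (pd v)) ∧ c.R (pd v) ⊆ s.Tc c.E (pd v) ∧ IsClopen (c.JR (pd v))
  slot : ∀ p u, u ∈ c.S → p ≤ lv u → p :: u ∉ c.S →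
    s.Perf (c.JD (p :: u)) (c.D (p :: u)) ∧ c.D (p :: u) ⊆ s.Tc c.E u ∧ IsClopen (c.JD (p :: u))

/-- Static part. -/
structure Stc (s : Sys) (c : Cfg) : Prop where
  e1 : ∀ v ∈ c.S, v ≠ [] → c.E v ⊆ c.Eh v ∧ IsClosed (c.Eh v) ∧ (c.Eh v).Nonempty ∧ Agr v.length (c.Eh v)
  e2 : ∀ p u, p :: u ∈ c.S → ∀ e ∈ c.Eh (p :: u), s.b e ∈ c.U u p
  e3 : ∀ p u, p :: u ∈ c.S → p < lv u → c.Eh (p :: u) ⊆ c.Eh (anc u (p + 1))
  d1 : ∀ u ∈ c.S, ∀ p ≤ lv u, IsClosed (c.Dh u p) ∧ (c.Dh u p).Nonempty ∧ Agr u.length (c.Dh u p) ∧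
    IsClopen (c.U u p) ∧ Agr u.length (c.U u p) ∧ ∀ z ∈ c.Dh u p, s.a z ∈ c.U u p
  d2 : ∀ u ∈ c.S, ∀ p ≤ lv u, p :: u ∉ c.S → c.D (p :: u) ⊆ c.Dh u p
  d3 : ∀ v ∈ c.S, v ≠ [] → c.R (pd v) ⊆ c.Dh (pd v) (lv (pd v))
  d4 : ∀ p u, p :: u ∈ c.S → ∀ q ≤ p + 1, c.U (p :: u) q ⊆ c.U u p
  d5 : ∀ v ∈ c.S, v ≠ [] → ∀ q ≤ lv v, c.Dh v q ⊆ c.Dh (pd v) (lv (pd v)) ∧ ∀ z ∈ c.Dh v q, s.k z ∈ c.Q v
  dj : ∀ u ∈ c.S, ∀ p q, p ≤ lv u → q ≤ lv u → p ≠ q → ∀ i, ∀ y ∈ c.U u p, ∀ y' ∈ c.U u q, s.p i y ≠ s.p i y'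
  q1 : ∀ v ∈ c.S, v ≠ [] → IsClopen (c.Q v) ∧ Agr v.length (c.Q v)
  q2 : ∀ v ∈ c.S, ∀ v' ∈ c.S, v ≠ [] → v' ≠ [] → pd v = pd v' → v ≠ v' → Disjoint (c.Q v) (c.Q v')
  q3 : ∀ v ∈ c.S, v ≠ [] → Disjoint (c.R (pd v)) (s.k ⁻¹' c.Q v)

/-- The configuration `c'` arises from `c` by adding the node `v`. -/
structure Ext (c c' : Cfg) (v : List ℕ) : Prop where
  S : c'.S = insert v c.S
  E : ∀ w ∈ c.S, w ≠ [] → c'.E w ⊆ c.E w
  R : ∀ w ∈ c.S, w ≠ [] → c'.R (pd w) ⊆ c.R (pd w)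
  JR : ∀ w ∈ c.S, w ≠ [] → c'.JR (pd w) = c.JR (pd w)
  D : ∀ p u, u ∈ c.S → p ≤ lv u → p :: u ∉ c.S → p :: u ≠ v → c'.D (p :: u) ⊆ c.D (p :: u)
  JD : ∀ p u, u ∈ c.S → p ≤ lv u → p :: u ∉ c.S → p :: u ≠ v → c'.JD (p :: u) = c.JD (p :: u)
  U : ∀ w ∈ c.S, c'.U w = c.U w
  Dh : ∀ w ∈ c.S, c'.Dh w = c.Dh w
  Eh : ∀ w ∈ c.S, c'.Eh w = c.Eh w
  Q : ∀ w ∈ c.S, c'.Q w = c.Q w

/-- Options for shrinking a configuration. -/
structure Opt where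
  kR : List ℕ → Set NN
  kE : List ℕ → Set NN
  JR : List ℕ → Set CC
  JD : List ℕ → Set CC

/-- The sets `Tc` of the shrunk configuration. -/
def TO (s : Sys) (c : Cfg) (o : Opt) : List ℕ → Set NN
  | [] => univ
  | p :: u => s.a ⁻¹' closure (s.b '' s.mx (c.R (anc u p) ∩ o.kR (anc u p) ∩ TO s c o (anc u p)) (o.JR (anc u p))
      (c.E (p :: u) ∩ o.kE (p :: u))) ∩ TO s c o (anc u p)
termination_by v => v.length
decreasing_by all_goals exact Nat.lt_succ_of_le (anc_len u p)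

/-- The shrunk configuration. -/
def shr (s : Sys) (c : Cfg) (o : Opt) : Cfg :=
  { c with
    E := fun v => s.mx (c.R (pd v) ∩ o.kR (pd v) ∩ TO s c o (pd v)) (o.JR (pd v)) (c.E v ∩ o.kE v)
    R := fun r => c.R r ∩ o.kR r ∩ TO s c o r
    D := fun v => s.ker (o.JD v) (c.D v ∩ TO s c o v.tail)
    JR := o.JR
    JD := o.JD }

/-- A family of pairwise disjoint options. -/
structure Fam (c : Cfg) (I : Finset ℕ) (o : ℕ → Opt) : Prop where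
  kRc : ∀ i ∈ I, ∀ r, IsClosed ((o i).kR r)
  kEc : ∀ i ∈ I, ∀ v, IsClopen ((o i).kE v)
  mR : ∀ i ∈ I, ∀ j ∈ I, i ≠ j → ∀ r, (o i).kR r ∪ (o j).kR r = univ
  mE : ∀ i ∈ I, ∀ j ∈ I, i ≠ j → ∀ v, (o i).kE v ∪ (o j).kE v = univ
  cJR : ∀ i ∈ I, ∀ v ∈ c.S, v ≠ [] → IsClopen ((o i).JR (pd v))
  mJR : ∀ i ∈ I, ∀ j ∈ I, i ≠ j → ∀ v ∈ c.S, v ≠ [] → c.JR (pd v) ⊆ (o i).JR (pd v) ∪ (o j).JR (pd v)
  cJD : ∀ i ∈ I, ∀ p u, u ∈ c.S → p ≤ lv u → p :: u ∉ c.S → IsClopen ((o i).JD (p :: u))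
  mJD : ∀ i ∈ I, ∀ j ∈ I, i ≠ j → ∀ p u, u ∈ c.S → p ≤ lv u → p :: u ∉ c.S →
    c.JD (p :: u) ⊆ (o i).JD (p :: u) ∪ (o j).JD (p :: u)

/-- The multiplicity bounds. -/
def tb : ℕ → ℕ
  | 0 => 0
  | n + 1 => 2 * tb n + 3

end Pool.Agent.Bs2
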