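import Pool.Agent.Bs2.Good

/-!
# Dichotomies
-/

set_option autoImplicit false

open Set Filter Topology TopologicalSpace

namespace Pool.Agent.Bs2

/-- There is a good cell with values in `Η` which is good for the complement of `Η`. `C` is a property of the cell. -/
def Av (s : Sys) (C : Set NN → Prop) (D : Set NN) (J : Set CC) : Prop :=
  ∃ Η E, IsClopen Η ∧ Η ⊆ J ∧ (∀ e ∈ E, s.h e ∈ Η) ∧ C E ∧ s.Good D (J \ Η) E

/-- `h` is constant on `E`. -/
def Cst (s : Sys) (E : Set NN) : Prop := ∃ y, ∀ e ∈ E, s.h e = y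

/-- No condition. -/
def Top (_ : Set NN) : Prop := True

/-- There is a constant cell with value in `J`. -/
def CCn (s : Sys) (D : Set NN) (J : Set CC) : Prop := ∃ y ∈ J, ∃ E, (∀ e ∈ E, s.h e = y) ∧ s.Good D J E

/-- Splittable cells. -/
def Spl (s : Sys) (R : Set NN) (J : Set CC) (E : Set NN) : Prop :=
  ∃ Q E' H, IsClopen Q ∧ E' ⊆ E ∧ IsClopen H ∧ (∀ e ∈ E', s.h e ∈ H) ∧ s.Good (R \ s.k ⁻¹' Q) J E' ∧
    ¬ s.Null (J \ H) (s.rs (R ∩ s.k ⁻¹' Q) E')

/-- `P` holds for all positive pairs below `(D₀, J₀)`. -/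
def Bel (s : Sys) (P : Set NN → Set CC → Prop) (D₀ : Set NN) (J₀ : Set CC) : Prop :=
  ∀ D J, IsClosed D → D ⊆ D₀ → IsClopen J → J ⊆ J₀ → ¬ s.Null J D → P D J

/-- Two disjoint clopen sets. -/
def Two (s : Sys) (D : Set NN) (J : Set CC) : Prop :=
  ∃ K K', IsClopen K ∧ IsClopen K' ∧ K ⊆ J ∧ K' ⊆ J ∧ Disjoint K K' ∧ ¬ s.Null K D ∧ ¬ s.Null K' D

/-- All good cells are splittable. -/
def ASpl (s : Sys) (R : Set NN) (J : Set CC) : Prop := ∀ E, (∀ e ∈ E, s.h e ∈ J) → s.Good R J E → Spl s R J E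

/-- There is an unsplittable good cell below. -/
def USpl (s : Sys) (D : Set NN) (J : Set CC) : Prop :=
  ∃ R J' E, IsClosed R ∧ R ⊆ D ∧ IsClopen J' ∧ J' ⊆ J ∧ (∀ e ∈ E, s.h e ∈ J') ∧ s.Good R J' E ∧ ¬ Spl s R J' E

/-- The cases of the dichotomies. -/
inductive Cse (s : Sys) (D : Set NN) (J : Set CC) : Prop
  | b2 : Bel s (Av s (Cst s)) D J → Cse s D J
  | b3 : Bel s (Av s Top) D J → Bel s (fun D J => ¬ Av s (Cst s) D J) D J → Cse s D J
  | b4 : Bel s (fun D J => ¬ Av s Top D J) D J → Bel s (CCn s) D J → Cse s D J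
  | b5 : Bel s (fun D J => ¬ Av s Top D J) D J → Bel s (fun D J => ¬ CCn s D J) D J → Bel s (ASpl s) D J →
      Cse s D J
  | b7 : Bel s (fun D J => ¬ Av s Top D J) D J → Bel s (USpl s) D J → Cse s D J

variable {s : Sys} {D D₀ D' : Set NN} {J J₀ J' : Set CC}

/-- MODULE e1 (size 2; all theorems up to `dich`): monotonicity and the dichotomy. -/
theorem Av.mono {C : Set NN → Prop} (h : Av s C D J) (hD : D ⊆ D') (hJ : J ⊆ J') : Av s C D' J' := by
  obtain ⟨H, E, h1, h2, h3, h4, h5⟩ := h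
  exact ⟨H, E, h1, h2.trans hJ, h3, h4, h5.mono hD (sdiff_subset_sdiff_left hJ)⟩

theorem CCn.mono (h : CCn s D J) (hD : D ⊆ D') (hJ : J ⊆ J') : CCn s D' J' := by
  obtain ⟨y, h1, E, h2, h3⟩ := h
  exact ⟨y, hJ h1, E, h2, h3.mono hD hJ⟩

theorem Bel.mono {P : Set NN → Set CC → Prop} (h : Bel s P D' J') (hD : D ⊆ D') (hJ : J ⊆ J') : Bel s P D J := by
  intro D₁ J₁ h1 h2 h3 h4 h5
  exact h D₁ J₁ h1 (h2.trans hD) h3 (h4.trans hJ) h5

/-- If a monotone property fails at one positive pair below every positive pair below `(D₀, J₀)` ... : for a monotone `P` either `Bel s P` at some positive pair, or below every positive pair there is a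
positive pair with `Bel s (¬ P)`. -/
theorem bel_or {P : Set NN → Set CC → Prop}
    (hP : ∀ D J D' J', P D J → D ⊆ D' → J ⊆ J' → P D' J') (D₀ : Set NN) (J₀ : Set CC) :
    (∃ D J, IsClosed D ∧ D ⊆ D₀ ∧ IsClopen J ∧ J ⊆ J₀ ∧ ¬ s.Null J D ∧ Bel s P D J) ∨
    ∀ D J, IsClosed D → D ⊆ D₀ → IsClopen J → J ⊆ J₀ → ¬ s.Null J D →
      ∃ D' J', IsClosed D' ∧ D' ⊆ D ∧ IsClopen J' ∧ J' ⊆ J ∧ ¬ s.Null J' D' ∧ Bel s (fun D J => ¬ P D J) D' J' := by
  by_cases hc : ∀ D J, IsClosed D → D ⊆ D₀ → IsClopen J → J ⊆ J₀ → ¬ s.Null J D →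
      ∃ D' J', IsClosed D' ∧ D' ⊆ D ∧ IsClopen J' ∧ J' ⊆ J ∧ ¬ s.Null J' D' ∧ Bel s (fun D J => ¬ P D J) D' J'
  · exact Or.inr hc
  · left
    push Not at hc
    obtain ⟨D, J, h1, h2, h3, h4, h5, h6⟩ := hc
    refine ⟨D, J, h1, h2, h3, h4, h5, ?_⟩
    intro D' J' h7 h8 h9 h10 h11
    have h12 := h6 D' J' h7 h8 h9 h10 h11
    by_contra hP'
    apply h12
    intro D'' J'' _ h13 _ h14 _ hP''
    exact hP' (hP D'' J'' D' J' hP'' h13 h14)

/-- The dichotomy.

Proof.  Start with `(univ, univ)` (`s.Ok.pos`).  `bel_or` for `Av s Top`.  First alternative: `bel_or` for `Av s (Cst s)` below the pair: `b2`, or `b3` (apply the second alternative to the pair itself).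
Second alternative: get a pair `(D₁, J₁)` with `¬ Av s Top` below; `bel_or` for `CCn s` below it: `b4`, or density of `¬ CCn`.  If there is a positive pair below `(D₁, J₁)` with `Bel s (ASpl s)` then choose below it one with `Bel ¬ CCn`: `b5`.
Otherwise for every positive pair `(D, J)` below `(D₁, J₁)` there is a positive pair below it where `ASpl` fails: `USpl s D J`: `b7`. -/
theorem dich (hs : s.Ok) : ∃ D J, IsClosed D ∧ IsClopen J ∧ ¬ s.Null J D ∧ Cse s D J := by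
  rcases bel_or (s := s) (P := Av s Top) (fun D J D' J' h hD hJ => h.mono hD hJ) univ univ with
    ⟨D, J, h1, -, h3, -, h5, h6⟩ | hd
  · rcases bel_or (s := s) (P := Av s (Cst s)) (fun D J D' J' h hD hJ => h.mono hD hJ) D J with
      ⟨D', J', g1, -, g3, -, g5, g6⟩ | hd'
    · exact ⟨D', J', g1, g3, g5, Cse.b2 g6⟩
    · obtain ⟨D', J', g1, g2, g3, g4, g5, g6⟩ := hd' D J h1 subset_rfl h3 subset_rfl h5
      exact ⟨D', J', g1, g3, g5, Cse.b3 (h6.mono g2 g4) g6⟩
  · obtain ⟨D₁, J₁, h1, -, h3, -, h5, h6⟩ := hd univ univ isClosed_univ subset_rfl isClopen_univ subset_rfl hs.pos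
    rcases bel_or (s := s) (P := CCn s) (fun D J D' J' h hD hJ => h.mono hD hJ) D₁ J₁ with
      ⟨D', J', g1, g2, g3, g4, g5, g6⟩ | hd'
    · exact ⟨D', J', g1, g3, g5, Cse.b4 (h6.mono g2 g4) g6⟩
    · by_cases hA : ∃ D J, IsClosed D ∧ D ⊆ D₁ ∧ IsClopen J ∧ J ⊆ J₁ ∧ ¬ s.Null J D ∧ Bel s (ASpl s) D J
      · obtain ⟨D, J, g1, g2, g3, g4, g5, g6⟩ := hA
        obtain ⟨D', J', k1, k2, k3, k4, k5, k6⟩ := hd' D J g1 g2 g3 g4 g5
        exact ⟨D', J', k1, k3, k5, Cse.b5 (h6.mono (k2.trans g2) (k4.trans g4)) k6 (g6.mono k2 k4)⟩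
      · refine ⟨D₁, J₁, h1, h3, h5, Cse.b7 h6 ?_⟩
        intro D J g1 g2 g3 g4 g5
        have g6 : ¬ Bel s (ASpl s) D J := fun hB => hA ⟨D, J, g1, g2, g3, g4, g5, hB⟩
        unfold Bel at g6
        push Not at g6
        obtain ⟨D', J', k1, k2, k3, k4, k5, k6⟩ := g6
        unfold ASpl at k6
        push Not at k6
        obtain ⟨E, m1, m2, m3⟩ := k6
        exact ⟨D', J', E, k1, k2, k3, k4, m1, m2, m3⟩

private theorem e2_good {R P : Set NN} {J K : Set CC} (hP : s.Good R J P) (h0 : s.Null K (s.rs R P)) :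
    s.Good R (J \ K) P := by
  refine ⟨hP.isClosed, hP.nonempty, fun W hW hne hnull => hP.2.2 W hW hne ?_⟩
  refine Sys.null_of_cover hnull (h0.mono subset_rfl (Sys.rs_mono subset_rfl inter_subset_left)) ?_
  intro y hy
  by_cases hk : y ∈ K
  · exact Or.inr hk
  · exact Or.inl ⟨hy, hk⟩

/-- MODULE e2 (size 1).  Proof.  Otherwise there is an open `W` with `E ∩ W` nonempty and `rs R (E ∩ W)` null for `J ∩ G`; take `W` clopen (`exists_null_piece` for `(R, J ∩ G)`).  `P = E ∩ W` is good for `(R, J)`, so good for `(R, J \ G)` (every piece `P'` has `rs R P'` not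
`J`-null, but `(J ∩ G)`-null), i.e. for `(R, J \ (J ∩ G))`: `Av s Top R J` with `Η = J ∩ G`; `R` is not `J`-null because `rs R E ⊆ R` is not. -/
theorem good_inter (hn : Bel s (fun D J => ¬ Av s Top D J) D₀ J₀) {R E : Set NN} {J G : Set CC} (hR : IsClosed R)
    (hRD : R ⊆ D₀) (hJ : IsClopen J) (hJJ : J ⊆ J₀) (hG : IsClopen G) (hE : s.Good R J E)
    (hh : ∀ e ∈ E, s.h e ∈ J ∩ G) : s.Good R (J ∩ G) E := by
  by_contra hcon
  obtain ⟨W, hW, hne, hnull⟩ := Sys.exists_null_piece hE.isClosed hE.nonempty hcon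
  refine hn R J hR hRD hJ hJJ (fun h0 => hE.pos (h0.mono subset_rfl Sys.rs_sub)) ?_
  have hP : s.Good R J (E ∩ W) := hE.piece hW hne
  exact ⟨J ∩ G, E ∩ W, hJ.inter hG, inter_subset_left, fun e he => hh e he.1, trivial,
    e2_good hP (hnull.mono subset_rfl subset_rfl)⟩

/-- MODULE e3 (size 2).  Proof.  Suppose not at `(D, J)`: for every clopen `K ⊆ J` one of `D` is `K`-null or `(J \ K)`-null (not both, `null_of_cover`).  For every `n` exactly one cylinder `C` of length `n` has `D` not `(J ∩ C)`-null (finitely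
many cylinders, `null_of_cover`; two of them would give `Two`); they are nested: a point `y ∈ J` (compactness / define `y n` by recursion) such that `D` is `(J ∩ C)`-null for all cylinders `C` not containing `y`, so `D` is `G'`-null for every clopen `G' ⊆ J` with
`y ∉ G'` (finite union of cylinders).  `exists_good_off` with `G = J`, `y`: `G' ⊆ J`, `y ∉ G'`, `F` good for `(D, J)` with `h '' F ⊆ G'`.  Every piece of `F` has `rs D piece` not `J`-null but `G'`-null, so not `(J \ G')`-null: `F` is good for `(D, J \ G')`, `Av s Top D J`. Contradiction. -/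
theorem two_of_not_av (hs : s.Star) (hn : Bel s (fun D J => ¬ Av s Top D J) D₀ J₀) : Bel s (Two s) D₀ J₀ := by
  intro D J h1 h2 h3 h4 h5
  by_contra hT
  have hdich : ∀ K, IsClopen K → K ⊆ J → s.Null K D ∨ s.Null (J \ K) D := by
    intro K hK hKJ
    by_contra hcon
    push Not at hcon
    exact hT ⟨K, J \ K, hK, h3.diff hK, hKJ, sdiff_subset, disjoint_sdiff_right, hcon.1, hcon.2⟩
  let I := {K : Set CC // IsClopen K ∧ K ⊆ J ∧ s.Null (J \ K) D}
  have hJI : IsClopen J ∧ J ⊆ J ∧ s.Null (J \ J) D :=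
    ⟨h3, subset_rfl, univ, Sig3.of_isOpen isOpen_univ, fun _ _ => mem_univ _, fun e he => by
      rw [sdiff_self] at he
      exact absurd he (notMem_empty _)⟩
  have : Nonempty I := ⟨⟨J, hJI⟩⟩
  obtain ⟨y, hy⟩ := IsCompact.nonempty_iInter_of_directed_nonempty_isCompact_isClosed
    (fun K : I => K.1) (fun K K' => ⟨⟨K.1 ∩ K'.1, K.2.1.inter K'.2.1, inter_subset_left.trans K.2.2.1,
      Sys.null_of_cover K.2.2.2 K'.2.2.2 (fun y hy => by
        by_cases hk : y ∈ K.1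
        · exact Or.inr ⟨hy.1, fun hk' => hy.2 ⟨hk, hk'⟩⟩
        · exact Or.inl ⟨hy.1, hk⟩)⟩, inter_subset_left, inter_subset_right⟩)
    (fun K => by
      by_contra hne
      rw [Set.not_nonempty_iff_eq_empty] at hne
      have h6 := K.2.2.2
      rw [hne, sdiff_empty] at h6
      exact h5 h6)
    (fun K => K.2.1.isClosed.isCompact) (fun K => K.2.1.isClosed)
  rw [mem_iInter] at hy
  obtain ⟨G', F, g1, g2, g3, g4, g5⟩ := Sys.exists_good_off h3 hs y h5
  have hN : s.Null G' D := by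
    rcases hdich G' g1 g2 with h6 | h6
    · exact h6
    · exact absurd (hy ⟨G', g1, g2, h6⟩) g3
  exact hn D J h1 h2 h3 h4 h5 ⟨G', F, g1, g2, g4, trivial, e2_good g5 (hN.mono subset_rfl Sys.rs_sub)⟩

/-- Arbitrarily many disjoint clopen sets; one can avoid a point. Induction with `Two`. -/
theorem exists_many (ht : Bel s (Two s) D₀ J₀) (hD : IsClosed D) (hDD : D ⊆ D₀) (hJ : IsClopen J) (hJJ : J ⊆ J₀)
    (h : ¬ s.Null J D) (m : ℕ) : ∃ K : ℕ → Set CC, (∀ q, IsClopen (K q) ∧ K q ⊆ J) ∧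
      (∀ q ≤ m, ¬ s.Null (K q) D) ∧ ∀ q q', q ≠ q' → Disjoint (K q) (K q') := by
  induction m generalizing J with
  | zero =>
    refine ⟨fun q => if q = 0 then J else ∅, fun q => ?_, fun q hq => ?_, fun q q' hqq => ?_⟩
    · by_cases hq : q = 0
      · simp only [hq, if_true]
        exact ⟨hJ, subset_rfl⟩
      · simp only [hq, if_false]
        exact ⟨isClopen_empty, empty_subset _⟩
    · have hq' : q = 0 := Nat.le_zero.1 hq
      subst hq'
      exact h
    · by_cases hq : q = 0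
      · have hq' : q' ≠ 0 := fun h => hqq (hq.trans h.symm)
        simp [hq']
      · simp [hq]
  | succ m ih =>
    obtain ⟨K₁, K₂, h1, h2, h3, h4, h5, h6, h7⟩ := ht D J hD hDD hJ hJJ h
    obtain ⟨K, g1, g2, g3⟩ := ih h2 (h4.trans hJJ) h7
    refine ⟨fun q => Nat.casesOn q K₁ K, fun q => ?_, fun q hq => ?_, fun q q' hqq => ?_⟩
    · cases q with
      | zero => exact ⟨h1, h3⟩
      | succ q => exact ⟨(g1 q).1, (g1 q).2.trans h4⟩
    · cases q with
      | zero => exact h6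
      | succ q => exact g2 q (Nat.le_of_succ_le_succ hq)
    · cases q with
      | zero =>
        cases q' with
        | zero => exact absurd rfl hqq
        | succ q' => exact h5.mono_right (g1 q').2
      | succ q =>
        cases q' with
        | zero => exact (h5.mono_right (g1 q).2).symm
        | succ q' => exact g3 q q' fun h => hqq (by rw [h])

theorem exists_off (ht : Bel s (Two s) D₀ J₀) (hD : IsClosed D) (hDD : D ⊆ D₀) (hJ : IsClopen J) (hJJ : J ⊆ J₀)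
    (h : ¬ s.Null J D) (y : CC) : ∃ K, IsClopen K ∧ K ⊆ J ∧ y ∉ K ∧ ¬ s.Null K D := by
  obtain ⟨K₁, K₂, h1, h2, h3, h4, h5, h6, h7⟩ := ht D J hD hDD hJ hJJ h
  by_cases hy : y ∈ K₁
  · exact ⟨K₂, h2, h4, fun hy' => Set.disjoint_left.1 h5 hy hy', h7⟩
  · exact ⟨K₁, h1, h3, hy, h6⟩

end Pool.Agent.Bs2
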