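import Pool.Agent.Bs2.Good

/-!
# The splitting lemma, disjoint options, slots
-/

set_option autoImplicit false

open Set Filter Topology TopologicalSpace

namespace Pool.Agent.Bs2.Sys

variable {s : Sys} {J : Set CC} {R E D : Set NN}

/-- MODULE f1 (size 2): one step of the proof of `fc`.

Proof.  `rs R E` is not null (`Good.pos`), so `rs (R ∩ k ⁻¹' Q) E` is not null.  The countably many boxes `C i ×ˢ C' j ⊆ O n` (`exists_cyl_seq Bool` twice), `C' j ⊆ Q`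
cover the `z ∈ R ∩ k ⁻¹' Q` (`s.mO z n`, `s.oO n`), so `exists_not_null` gives `U = C i`, `Q' = C' j` with `rs (R ∩ k ⁻¹' Q) E ∩ a ⁻¹' U ∩ k ⁻¹' Q'` not null; this is contained in
`rs (R ∩ k ⁻¹' Q') (E ∩ b ⁻¹' U)` (`mem_rs_piece`).  So `E₁ = E ∩ b ⁻¹' U` is nonempty (otherwise `rs .. = ∅`), good for `(R, J)` (`Good.piece`).  Let `E' = mx (R \ k ⁻¹' Q') J E₁`.  If `E'` is
nonempty and `rs (R ∩ k ⁻¹' Q') E'` is not null we have the first alternative (`mx_good`).  Otherwise `E' ≠ E₁` (if `E' = ∅`: `E₁` nonempty; if it is nonempty and equal to `E₁`: not null), take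
`e ∈ E₁ \ E'`, `not_mem_mx`: clopen `W ∋ e`, intersect with a cylinder (`exists_cyl`) so that `Agr n (E₁ ∩ W)`; `E₁ ∩ W` is not good for `(R \ k ⁻¹' Q', J)`,
`exists_null_piece` gives the clopen `W'`; take `W'' = b ⁻¹' U ∩ W ∩ W'` in the second alternative. -/
theorem fc_step (hE : s.Good R J E) {Q : Set CC} (hQ : IsClopen Q) (h0 : s.Null J (s.rs (R \ s.k ⁻¹' Q) E)) (n : ℕ) :
    (∃ Q' E', IsClopen Q' ∧ E' ⊆ E ∧ s.Good (R \ s.k ⁻¹' Q') J E' ∧ ¬ s.Null J (s.rs (R ∩ s.k ⁻¹' Q') E')) ∨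
    ∃ Q' W, IsClopen Q' ∧ Q' ⊆ Q ∧ IsClopen W ∧ (E ∩ W).Nonempty ∧ Agr n (E ∩ W) ∧
      s.Null J (s.rs (R \ s.k ⁻¹' Q') (E ∩ W)) ∧ ∀ e ∈ E ∩ W, ∀ y ∈ Q', (s.b e, y) ∈ s.O n := by
  classical
  obtain ⟨C, hC, hCB⟩ := exists_cyl_seq Bool
  have h1 : ¬ s.Null J (s.rs (R ∩ s.k ⁻¹' Q) E) := by
    intro h
    refine hE.pos ((h0.union h).mono Subset.rfl ?_)
    intro z hz
    by_cases hk : s.k z ∈ Q
    · exact .inr ⟨⟨hz.1, hk⟩, hz.2⟩
    · exact .inl ⟨⟨hz.1, hk⟩, hz.2⟩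
  let ι : Type := {ij : ℕ × ℕ // C ij.1 ×ˢ C ij.2 ⊆ s.O n ∧ C ij.2 ⊆ Q}
  have hcov : s.rs (R ∩ s.k ⁻¹' Q) E ⊆ ⋃ x : ι, (s.a ⁻¹' C x.1.1 ∩ s.k ⁻¹' C x.1.2) := by
    intro z hz
    obtain ⟨U, V, hU, hV, hzU, hzV, hUV⟩ := isOpen_prod_iff.1 (s.oO n) _ _ (s.mO z n)
    obtain ⟨i, hi, hiU, _⟩ := hCB U (s.a z) 0 hU hzU
    obtain ⟨j, hj, hjV, _⟩ := hCB (V ∩ Q) (s.k z) 0 (hV.inter hQ.isOpen) ⟨hzV, hz.1.2⟩
    refine mem_iUnion.2 ⟨⟨(i, j), ?_, fun y hy => (hjV hy).2⟩, hi, hj⟩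
    exact (prod_mono hiU fun y hy => (hjV hy).1).trans hUV
  obtain ⟨⟨⟨i, j⟩, hO, hjQ⟩, hx⟩ := exists_not_null h1 hcov
  simp only at hO hjQ hx
  have hbU : IsClopen (s.b ⁻¹' C i) := (hC i).preimage s.cb
  have h2 : ¬ s.Null J (s.rs (R ∩ s.k ⁻¹' C j) (E ∩ s.b ⁻¹' C i)) := by
    intro h
    refine hx (h.mono Subset.rfl ?_)
    rintro z ⟨hz, hza, hzk⟩
    exact mem_rs_piece (hC i).isOpen (show z ∈ s.rs (R ∩ s.k ⁻¹' C j) E from ⟨⟨hz.1.1, hzk⟩, hz.2⟩) hza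
  have hn : (E ∩ s.b ⁻¹' C i).Nonempty := by
    by_contra hc
    rw [not_nonempty_iff_eq_empty] at hc
    refine h2 (null_empty.mono Subset.rfl ?_)
    rintro z ⟨_, hz⟩
    rw [hc, image_empty, closure_empty] at hz
    exact hz
  have hG : s.Good R J (E ∩ s.b ⁻¹' C i) := hE.piece hbU hn
  set E₁ := E ∩ s.b ⁻¹' C i with hE₁
  by_cases hcase : (s.mx (R \ s.k ⁻¹' C j) J E₁).Nonempty ∧
      ¬ s.Null J (s.rs (R ∩ s.k ⁻¹' C j) (s.mx (R \ s.k ⁻¹' C j) J E₁))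
  · exact .inl ⟨C j, _, hC j, (mx_sub hG.isClosed).trans inter_subset_left, mx_good hcase.1, hcase.2⟩
  · right
    have hne : ∃ e ∈ E₁, e ∉ s.mx (R \ s.k ⁻¹' C j) J E₁ := by
      by_contra hc
      push Not at hc
      have heq : s.mx (R \ s.k ⁻¹' C j) J E₁ = E₁ := (mx_sub hG.isClosed).antisymm hc
      rw [heq] at hcase
      exact hcase ⟨hn, h2⟩
    obtain ⟨e, he, hem⟩ := hne
    obtain ⟨W, hW, heW, hWF⟩ := not_mem_mx hem
    obtain ⟨V, hV, hVW, heV, hVa⟩ := exists_cyl hW.isOpen heW n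
    obtain ⟨W', hW', hn', hnull⟩ := exists_null_piece (s := s) (R := R \ s.k ⁻¹' C j) (J := J)
      (hG.isClosed.inter hV.isClosed) ⟨e, he, heV⟩ (hWF _ (inter_subset_inter_right _ hVW))
    have hEq : E ∩ (s.b ⁻¹' C i ∩ V ∩ W') = E₁ ∩ V ∩ W' := by
      rw [hE₁]; simp only [inter_assoc]
    refine ⟨C j, s.b ⁻¹' C i ∩ V ∩ W', hC j, hjQ, (hbU.inter hV).inter hW', ?_, ?_, ?_, ?_⟩
    · rw [hEq]; exact hn'
    · intro x hx y hy
      exact hVa x hx.2.1.2 y hy.2.1.2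
    · rw [hEq]; exact hnull
    · intro x hx y hy
      exact hO ⟨hx.2.1.1, hy⟩

/-- MODULE f2 (size 2): the splitting lemma.

Proof.  Otherwise `fc_step` can be iterated (always the second alternative): `E n` good for `(R, J)` (`Good.piece`), decreasing, closed, nonempty, `Agr n (E (n + 1))`,
`Q n` clopen decreasing with `rs (R \ k ⁻¹' Q n) (E n)` null, starting with `E 0 = E`, `Q 0 = univ`, and `(b e, y) ∈ O n` for `e ∈ E (n + 1)`, `y ∈ Q (n + 1)`.  `Q n` is nonempty (otherwise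
`rs R (E n)` is null).  By compactness there is `y ∈ ⋂ Q n`, by `nested_ne` (shift by one) `e ∈ ⋂ E n`; contradiction with `s.nO e y`. -/
theorem fc (hE : s.Good R J E) : ∃ Q E', IsClopen Q ∧ E' ⊆ E ∧ s.Good (R \ s.k ⁻¹' Q) J E' ∧
    ¬ s.Null J (s.rs (R ∩ s.k ⁻¹' Q) E') := by
  classical
  by_contra hcon
  let σ : Type := {p : Set NN × Set CC // s.Good R J p.1 ∧ IsClopen p.2 ∧ s.Null J (s.rs (R \ s.k ⁻¹' p.2) p.1) ∧
    p.1 ⊆ E}
  have hstep : ∀ (n : ℕ) (p : σ), ∃ q : σ, q.1.1 ⊆ p.1.1 ∧ q.1.2 ⊆ p.1.2 ∧ Agr n q.1.1 ∧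
      ∀ e ∈ q.1.1, ∀ y ∈ q.1.2, (s.b e, y) ∈ s.O n := by
    rintro n ⟨⟨F, Q⟩, hF, hQ, h0, hFE⟩
    simp only at hF hQ h0 hFE
    rcases fc_step hF hQ h0 n with ⟨Q', E', h1, h2, h3, h4⟩ | ⟨Q', W, h1, h2, h3, h4, h5, h6, h7⟩
    · exact absurd ⟨Q', E', h1, h2.trans hFE, h3, h4⟩ hcon
    · exact ⟨⟨(F ∩ W, Q'), hF.piece h3 h4, h1, h6, inter_subset_left.trans hFE⟩, inter_subset_left, h2, h5, h7⟩
  choose nx hnx1 hnx2 hnx3 hnx4 using hstep
  let p₀ : σ := ⟨(E, univ), hE, isClopen_univ, null_empty.mono Subset.rfl (fun z hz => hz.1.2 trivial), Subset.rfl⟩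
  let S : ℕ → σ := fun n => Nat.rec p₀ (fun n p => nx n p) n
  have hS : ∀ n, S (n + 1) = nx n (S n) := fun _ => rfl
  have hQn : ∀ n, (S n).1.2.Nonempty := by
    intro n
    by_contra hc
    rw [not_nonempty_iff_eq_empty] at hc
    obtain ⟨h1, h2, h3, h4⟩ := (S n).2
    rw [hc, preimage_empty, sdiff_empty] at h3
    exact h1.pos h3
  obtain ⟨y, hy⟩ : (⋂ n, (S n).1.2).Nonempty := by
    refine IsCompact.nonempty_iInter_of_sequence_nonempty_isCompact_isClosed _ (fun n => ?_) hQn ?_ fun n => ?_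
    · rw [hS]; exact hnx2 n (S n)
    · exact (S 0).2.2.1.isClosed.isCompact
    · exact (S n).2.2.1.isClosed
  obtain ⟨x, hx⟩ := nested_ne (F := fun n => (S (n + 1)).1.1) (fun n => (S (n + 1)).2.1.isClosed)
    (fun n => (S (n + 1)).2.1.nonempty) (fun n => by simp only [hS (n + 1)]; exact hnx1 _ _)
    (fun n => by simp only [hS n]; exact hnx3 _ _)
  obtain ⟨n, hn⟩ := s.nO x y
  refine hn (hnx4 n (S n) x ?_ y ?_)
  · rw [← hS]; exact hx n
  · rw [← hS]; exact mem_iInter.1 hy (n + 1)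

/-- MODULE f3 (size 1).  Proof.  `F` is finite, `R ∩ k ⁻¹' F` is null (`s.Ok.nk`), so `T ∩ k ⁻¹' (Q \ F)` is not null and it is covered by the countably many
`T ∩ k ⁻¹' C`, `C ⊆ Q \ F` from `exists_cyl_seq`, so some clopen `C ⊆ Q \ F` has `T ∩ k ⁻¹' C` not null.  If every `y ∈ C` had a clopen neighbourhood `V` with
`T ∩ k ⁻¹' V` null then by compactness of `C` (or countability) `T ∩ k ⁻¹' C` would be null. -/
theorem exists_acc (hs : s.Ok) {T : Set NN} {Q : Set CC} (hQ : IsOpen Q) (h : ¬ s.Null J (T ∩ s.k ⁻¹' Q))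
    (F : Finset CC) : ∃ y ∈ Q, y ∉ F ∧ ∀ V, IsOpen V → y ∈ V → ¬ s.Null J (T ∩ s.k ⁻¹' V) := by
  by_contra hcon
  push Not at hcon
  refine h ?_
  have h1 : s.Null J (T ∩ s.k ⁻¹' (Q \ ↑F)) := by
    refine null_of_local fun z hz => ?_
    obtain ⟨V, hV, hzV, hn⟩ := hcon (s.k z) hz.2.1 hz.2.2
    exact ⟨s.k ⁻¹' V, hV.preimage s.ck, hzV, hn.mono Subset.rfl fun w hw => ⟨hw.1.1, hw.2⟩⟩
  have h2 : s.Null J (⋃ y ∈ F, s.k ⁻¹' {y}) := null_biUnion F fun y _ => (hs.nk y).mono (subset_univ _) Subset.rfl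
  refine (h1.union h2).mono Subset.rfl fun z hz => ?_
  by_cases hzF : s.k z ∈ F
  · exact .inr (mem_biUnion (show s.k z ∈ (↑F : Set CC) from hzF) rfl)
  · exact .inl ⟨hz.1, hz.2, hzF⟩

private theorem f4_seq {α : Type} [Nonempty α] (m : ℕ) (P : ℕ → α → Prop) (bad : α → α → Prop)
    (h : ∀ q < m, ∀ F : Finset α, ∃ z, P q z ∧ ∀ z' ∈ F, ¬ bad z z') :
    ∃ z : ℕ → α, ∀ q < m, P q (z q) ∧ ∀ q' < q, ¬ bad (z q) (z q') := by
  classical
  induction m with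
  | zero => exact ⟨fun _ => Classical.arbitrary α, fun q hq => absurd hq (Nat.not_lt_zero q)⟩
  | succ m ih =>
    obtain ⟨z, hz⟩ := ih fun q hq => h q (by omega)
    obtain ⟨w, hw, hwF⟩ := h m (by omega) ((Finset.range m).image z)
    refine ⟨Function.update z m w, fun q hq => ?_⟩
    rcases eq_or_ne q m with rfl | hqm
    · refine ⟨by simpa using hw, fun q' hq' => ?_⟩
      rw [Function.update_self, Function.update_of_ne (by omega)]
      exact hwF _ (Finset.mem_image_of_mem _ (Finset.mem_range.2 hq'))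
    · obtain ⟨h1, h2⟩ := hz q (by omega)
      rw [Function.update_of_ne hqm]
      refine ⟨h1, fun q' hq' => ?_⟩
      rw [Function.update_of_ne (by omega)]
      exact h2 q' hq'

private theorem f4_sep (N n : ℕ) (R : ℕ → ℕ → Prop) (S : ℕ → ℕ → ℕ → Prop) (h : ∀ i j, R i j → ∃ k, S i j k) :
    ∃ m, n ≤ m ∧ ∀ i < N, ∀ j < N, R i j → ∃ k < m, S i j k := by
  classical
  let f : ℕ × ℕ → ℕ := fun x => if hx : R x.1 x.2 then (h _ _ hx).choose + 1 else 0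
  refine ⟨max n ((Finset.range N ×ˢ Finset.range N).sup f), le_max_left _ _, fun i hi j hj hij => ?_⟩
  refine ⟨(h _ _ hij).choose, ?_, (h _ _ hij).choose_spec⟩
  have h1 : f (i, j) = (h _ _ hij).choose + 1 := dif_pos hij
  have h2 : f (i, j) ≤ (Finset.range N ×ˢ Finset.range N).sup f :=
    Finset.le_sup (Finset.mem_product.2 ⟨Finset.mem_range.2 hi, Finset.mem_range.2 hj⟩)
  have h3 := le_max_right n ((Finset.range N ×ˢ Finset.range N).sup f)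
  omega

/-- MODULE f4 (size 2): disjoint options.

Proof.  Choose `y i ∈ Q i` with `exists_acc` one after the other (`F` = the previous ones; e.g. by induction on `N` in the form `Fin N`, or choose for every finite
`F` and use strong recursion) for `T = rs R (E i)` (`rs_inter_left`), so the `y i` are different.  There is `m ≥ n` such that the `y i` differ pairwise below `m`; `Q' i = Q i ∩ {y | y
agrees with y i below m}`. -/
theorem disj (hs : s.Ok) {N : ℕ} (n : ℕ) {R : Set NN} {E : Fin N → Set NN} {Q J : Fin N → Set CC}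
    (hQ : ∀ i, IsClopen (Q i)) (h : ∀ i, ¬ s.Null (J i) (s.rs (R ∩ s.k ⁻¹' Q i) (E i))) :
    ∃ Q' : Fin N → Set CC, (∀ i, IsClopen (Q' i) ∧ Q' i ⊆ Q i ∧ Agr n (Q' i) ∧
      ¬ s.Null (J i) (s.rs (R ∩ s.k ⁻¹' Q' i) (E i))) ∧ ∀ i j, i ≠ j → Disjoint (Q' i) (Q' j) := by
  have h' : ∀ i, ¬ s.Null (J i) (s.rs R (E i) ∩ s.k ⁻¹' Q i) := by
    intro i
    rw [← rs_inter_left]
    exact h i
  let P : ℕ → CC → Prop := fun q y => ∀ hq : q < N, y ∈ Q ⟨q, hq⟩ ∧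
    ∀ V, IsOpen V → y ∈ V → ¬ s.Null (J ⟨q, hq⟩) (s.rs R (E ⟨q, hq⟩) ∩ s.k ⁻¹' V)
  obtain ⟨y, hy⟩ := f4_seq N P (· = ·) fun q hq F => by
    obtain ⟨y, h1, h2, h3⟩ := exists_acc hs (hQ ⟨q, hq⟩).isOpen (h' ⟨q, hq⟩) F
    exact ⟨y, fun _ => ⟨h1, h3⟩, fun z hz hyz => h2 (hyz ▸ hz)⟩
  obtain ⟨m, hnm, hm⟩ := f4_sep N n (fun i j => ∃ k, y i k ≠ y j k) (fun i j k => y i k ≠ y j k) fun i j h => h
  have hne : ∀ i < N, ∀ j < N, i ≠ j → y i ≠ y j := by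
    intro i hi j hj hij
    rcases lt_or_gt_of_ne hij with h1 | h1
    · exact fun h2 => (hy j hj).2 i h1 h2.symm
    · exact fun h2 => (hy i hi).2 j h1 h2
  choose V hV hVQ hyV hVm using fun i : Fin N =>
    exists_cyl (hQ i).isOpen (((hy i i.2).1 i.2).1) m
  refine ⟨V, fun i => ⟨hV i, hVQ i, fun a ha b hb k hk => hVm i a ha b hb k (by omega), ?_⟩, fun i j hij => ?_⟩
  · rw [rs_inter_left]
    exact ((hy i i.2).1 i.2).2 _ (hV i).isOpen (hyV i)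
  · rw [Set.disjoint_left]
    intro a ha hb
    have hne' := hne i i.2 j j.2 (fun h => hij (Fin.ext h))
    obtain ⟨k, hk, hkk⟩ := hm i i.2 j j.2 (Function.ne_iff.1 hne')
    exact hkk ((hVm i _ (hyV i) a ha k hk).trans (hVm j a hb _ (hyV j) k hk))

/-- MODULE f5 (size 2): slots.

Proof.  For `q ≤ m` let `K q`-perfect kernel `D q = ker (K q) D` (`perf_ker`).  Choose points `z q ∈ D q` one after the other such that the `p i (a (z q))`, `q ≤ m`, are pairwise different for each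
`i` : the set of the `z ∈ D q` which have the same `p i (a z)` as a previous `z q'` is null (`s.Ok.np`, finite union), `D q` is not.  The maps `p i` are continuous: there is `N ≥ n` such that for the cylinders
`U q = V ∩ {y | y agrees with a (z q) below N}` the sets `p i '' U q`, `q ≤ m`, are pairwise disjoint (for `q ≠ q'` separate `p i (a (z q))` and `p i (a (z q'))` by a coordinate).  `D' q = D q ∩ W`, `W` a clopen
neighbourhood of `z q` with `Agr n W`, `W ⊆ a ⁻¹' U q` (`exists_cyl`); a nonempty clopen piece of a perfect set is perfect. -/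
theorem slots (hs : s.Ok) (hD : IsClosed D) (m n : ℕ) {K : ℕ → Set CC}
    (hK : ∀ q ≤ m, IsClopen (K q) ∧ ¬ s.Null (K q) D) {V : Set CC} (hV : IsClopen V) (hDV : ∀ z ∈ D, s.a z ∈ V) :
    ∃ (D' : ℕ → Set NN) (U : ℕ → Set CC), (∀ q ≤ m, s.Perf (K q) (D' q) ∧ D' q ⊆ D ∧ Agr n (D' q) ∧
      IsClopen (U q) ∧ U q ⊆ V ∧ Agr n (U q) ∧ ∀ z ∈ D' q, s.a z ∈ U q) ∧
      ∀ q ≤ m, ∀ q' ≤ m, q ≠ q' → ∀ i, ∀ y ∈ U q, ∀ y' ∈ U q', s.p i y ≠ s.p i y' := by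
  have hperf : ∀ q ≤ m, s.Perf (K q) (s.ker (K q) D) := fun q hq => perf_ker hD (hK q hq).2
  obtain ⟨z, hz⟩ := f4_seq (m + 1) (fun q z => q ≤ m → z ∈ s.ker (K q) D)
    (fun z z' => ∃ i, s.p i (s.a z) = s.p i (s.a z')) fun q hq F => by
    have hq' : q ≤ m := by omega
    have h1 : s.Null (K q) (⋃ z' ∈ F, ⋃ i : Fin 2, (fun z => s.p i (s.a z)) ⁻¹' {s.p i (s.a z')}) :=
      null_biUnion F fun z' _ => null_iUnion fun i => (hs.np i _).mono (subset_univ _) Subset.rfl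
    by_contra hc
    push Not at hc
    refine (hperf q hq').not_null (h1.mono Subset.rfl fun w hw => ?_)
    obtain ⟨z', hz', i, hi⟩ := hc w fun _ => hw
    exact mem_biUnion (show z' ∈ (↑F : Set NN) from hz') (mem_iUnion.2 ⟨i, hi⟩)
  have hne : ∀ q < m + 1, ∀ q' < m + 1, q ≠ q' → ∀ i, s.p i (s.a (z q)) ≠ s.p i (s.a (z q')) := by
    intro q hq q' hq' hqq i
    rcases lt_or_gt_of_ne hqq with h1 | h1
    · exact fun h2 => (hz q' hq').2 q h1 ⟨i, h2.symm⟩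
    · exact fun h2 => (hz q hq).2 q' h1 ⟨i, h2⟩
  have hsep : ∀ i : Fin 2, ∃ N, ∀ q < m + 1, ∀ q' < m + 1, q ≠ q' →
      ∃ k < N, s.p i (s.a (z q)) k ≠ s.p i (s.a (z q')) k := by
    intro i
    obtain ⟨N, _, hN⟩ := f4_sep (m + 1) 0 (fun q q' => s.p i (s.a (z q)) ≠ s.p i (s.a (z q')))
      (fun q q' k => s.p i (s.a (z q)) k ≠ s.p i (s.a (z q')) k) fun q q' h => Function.ne_iff.1 h
    exact ⟨N, fun q hq q' hq' hqq => hN q hq q' hq' (hne q hq q' hq' hqq i)⟩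
  choose N hN using hsep
  choose A hA _ hAm hAN using fun (q : ℕ) (i : Fin 2) =>
    exists_cyl (α := Bool) isOpen_univ (mem_univ (s.p i (s.a (z q)))) (N i)
  have hUW : ∀ q, ∃ (U : Set CC) (W : Set NN), q ≤ m → IsClopen U ∧ U ⊆ V ∩ ⋂ i, s.p i ⁻¹' A q i ∧ s.a (z q) ∈ U ∧
      Agr n U ∧ IsClopen W ∧ W ⊆ s.a ⁻¹' U ∧ z q ∈ W ∧ Agr n W := by
    intro q
    by_cases hq : q ≤ m
    · have hzq : z q ∈ D := ker_sub ((hz q (by omega)).1 hq)
      obtain ⟨U, u1, u2, u3, u4⟩ := exists_cyl (W := V ∩ ⋂ i, s.p i ⁻¹' A q i)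
        (hV.isOpen.inter (isOpen_iInter_of_finite fun i => (hA q i).isOpen.preimage (s.cp i)))
        (x := s.a (z q)) ⟨hDV _ hzq, mem_iInter.2 fun i => hAm q i⟩ n
      obtain ⟨W, w1, w2, w3, w4⟩ := exists_cyl (W := s.a ⁻¹' U) (u1.isOpen.preimage s.ca) (x := z q) u3 n
      exact ⟨U, W, fun _ => ⟨u1, u2, u3, u4, w1, w2, w3, w4⟩⟩
    · exact ⟨∅, ∅, fun h => absurd h hq⟩
  choose U W hUW using hUW
  refine ⟨fun q => s.ker (K q) D ∩ W q, U, fun q hq => ?_, fun q hq q' hq' hqq i y hy y' hy' he => ?_⟩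
  · obtain ⟨u1, u2, u3, u4, w1, w2, w3, w4⟩ := hUW q hq
    refine ⟨⟨(isClosed_ker hD).inter w1.isClosed, ⟨z q, (hz q (by omega)).1 hq, w3⟩, fun T hT hn => ?_⟩,
      inter_subset_left.trans ker_sub, fun a ha b hb => w4 a ha.2 b hb.2, u1, u2.trans inter_subset_left, u4,
      fun a ha => w2 ha.2⟩
    rw [inter_assoc] at hn ⊢
    exact (hperf q hq).2.2 _ (w1.isOpen.inter hT) hn
  · obtain ⟨k, hk, hkk⟩ := hN i q (by omega) q' (by omega) hqq
    have h1 := mem_iInter.1 ((hUW q hq).2.1 hy).2 i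
    have h2 := mem_iInter.1 ((hUW q' hq').2.1 hy').2 i
    apply hkk
    rw [← hAN q i _ h1 _ (hAm q i) k hk, he]
    exact hAN q' i _ h2 _ (hAm q' i) k hk

end Pool.Agent.Bs2.Sys
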