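import Pool.Agent.Bs2.VarA

/-!
# The constructions `b4`, `b5`, `b7`
-/

set_option autoImplicit false

open Set Filter Topology TopologicalSpace
open scoped Classical

namespace Pool.Agent.Bs2

variable {s : Sys} {D₀ : Set NN} {J₀ : Set CC}

/-- The `J`'s of the configuration are given by the labels `G`. -/
def Loc (c : Cfg) (G : List ℕ → Set CC) : Prop :=
  (∀ v ∈ c.S, v ≠ [] → c.JR (pd v) = G (pd v)) ∧ ∀ p u, u ∈ c.S → p ≤ lv u → p :: u ∉ c.S → c.JD (p :: u) = G u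

private theorem v4z_suffix {c : Cfg} (hc : Dyn s c) : ∀ {v w : List ℕ}, w <:+ v → v ∈ c.S → w ∈ c.S := by
  intro v
  induction v with
  | nil =>
    intro w h hv
    rw [List.suffix_nil] at h
    rw [h]
    exact hv
  | cons p u ih =>
    intro w h hv
    rcases List.suffix_cons_iff.1 h with h | h
    · rw [h]
      exact hv
    · exact ih h (hc.tl p u hv)

private theorem v4z_loc {c c' : Cfg} {p : ℕ} {u : List ℕ} {E' : Set NN} {K : ℕ → Set CC} {G G' : List ℕ → Set CC}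
    (h : Res s c c' p u E' K) (hc : Dyn s c) (hu : u ∈ c.S) (hv : p :: u ∉ c.S) (hg : Loc c G)
    (hG : ∀ w, w ≠ p :: u → G' w = G w) (hK : ∀ q, K q = G' (p :: u))
    (hJ : c'.JR (anc u p) = G (anc u p)) : Loc c' G' := by
  have hin : ∀ w ∈ c.S, G' w = G w := fun w hw => hG w fun e => hv (e ▸ hw)
  refine ⟨?_, ?_⟩
  · intro v hvS hne
    rw [h.ext.S, Finset.mem_insert] at hvS
    rcases hvS with rfl | hvS
    · rw [hin _ (v4z_suffix hc (anc_suffix u p) hu : pd (p :: u) ∈ c.S)]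
      exact hJ
    · rw [h.ext.JR v hvS hne, hin _ (v4z_suffix hc (pd_suffix v) hvS)]
      exact hg.1 v hvS hne
  · intro q u' hu' hq hqu
    rw [h.ext.S, Finset.mem_insert] at hu'
    rcases hu' with rfl | hS
    · rw [h.JD q hq]
      exact hK q
    · have hne : q :: u' ≠ p :: u := by
        intro e
        exact hqu (by rw [h.ext.S, e]; exact Finset.mem_insert_self _ _)
      have hnS : q :: u' ∉ c.S := fun e => hqu (by rw [h.ext.S]; exact Finset.mem_insert_of_mem e)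
      rw [h.ext.JD q u' hS hq hnS hne, hin _ hS]
      exact hg.2 q u' hS hq hnS

/-- MODULE v4z (size 1; both theorems): bookkeeping; `G'` is `G` with the new value `Jn` at `p :: u`. -/
theorem Res.loc_cont {c c' : Cfg} {p : ℕ} {u : List ℕ} {E' : Set NN} {K : ℕ → Set CC} {G G' : List ℕ → Set CC}
    (h : Res s c c' p u E' K) (hc : Dyn s c) (hu : u ∈ c.S) (hp : p < lv u) (hv : p :: u ∉ c.S) (hg : Loc c G)
    (hG : ∀ w, w ≠ p :: u → G' w = G w) (hK : ∀ q, K q = G' (p :: u)) : Loc c' G' := by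
  refine v4z_loc h hc hu hv hg hG hK ?_
  have hnu := hc.nd u hu
  have h1 := anc_ne_nil hnu hp
  have h2 : anc u (p + 1) ∈ c.S := v4z_suffix hc (anc_suffix u (p + 1)) hu
  rw [← pd_anc_succ hnu hp, h.ext.JR _ h2 h1]
  exact hg.1 _ h2 h1

theorem Res.loc_root {c c' : Cfg} {u : List ℕ} {E' : Set NN} {K : ℕ → Set CC} {G G' : List ℕ → Set CC}
    (h : Res s c c' (lv u) u E' K) (hc : Dyn s c) (hu : u ∈ c.S) (hv : lv u :: u ∉ c.S) (hg : Loc c G)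
    (hG : ∀ w, w ≠ lv u :: u → G' w = G w) (hK : ∀ q, K q = G' (lv u :: u)) (hJ : c'.JR u = G u) : Loc c' G' := by
  refine v4z_loc h hc hu hv hg hG hK ?_
  rw [anc_self le_rfl]
  exact hJ

/-! ### `b4` -/

/-- Configurations in the case `b4`. -/
structure Va4 (s : Sys) (D₀ : Set NN) (J₀ : Set CC) (c : Cfg) (G : List ℕ → Set CC) (y : List ℕ → CC) : Prop where
  dyn : Dyn s c
  stc : Stc s c
  loc : Loc c G
  blw : Blw c D₀
  g0 : G [] = J₀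
  gc : ∀ v ∈ c.S, IsClopen (G v) ∧ G v ⊆ J₀
  val : ∀ v ∈ c.S, v ≠ [] → (∀ e ∈ c.Eh v, s.h e = y v) ∧ y v ∉ G v ∧ ∀ g ∈ G v, ∀ i < v.length, g i = y v i
  mem : ∀ v ∈ c.S, v ≠ [] → y v ∈ G (pd v) ∧ G v ⊆ G (pd v)
  same : ∀ v ∈ c.S, ∀ v' ∈ c.S, v ≠ [] → v' ≠ [] → pd v = pd v' → y v = y v'
  disj : ∀ v ∈ c.S, ∀ v' ∈ c.S, v ≠ [] → v' ≠ [] → pd v = pd v' → v ≠ v' → Disjoint (G v) (G v')

/-- MODULE v4a (size 2): the common part of both steps.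

Proof.  `y ∈ G'`; `hh`: `h '' E₀ ⊆ J ∩ G'`; `good_inter`: `E₀` is good for `(R, J ∩ G')`; `fc`: `Q`, `E'` good for `(R \ k ⁻¹' Q, J ∩ G')` so for `J`; `rs (R ∩ k ⁻¹' Q) E'` is not `(J ∩ G')`-null; `exists_off` (`two_of_not_av`). -/
theorem cell4 (hst : s.Star) (hn : Bel s (fun D J => ¬ Av s Top D J) D₀ J₀) {R E₀ : Set NN} {J G' : Set CC}
    (hR : IsClosed R) (hRD : R ⊆ D₀) (hJ : IsClopen J) (hJJ : J ⊆ J₀) (hG : IsClopen G') (hE : s.Good R J E₀) {y : CC}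
    (hy : y ∈ J ∩ G') (hh : ∀ e ∈ E₀, s.h e = y) :
    ∃ Q E' Jn, IsClopen Q ∧ IsClopen Jn ∧ E' ⊆ E₀ ∧ Jn ⊆ J ∩ G' ∧ y ∉ Jn ∧ s.Good (R \ s.k ⁻¹' Q) J E' ∧
      ¬ s.Null Jn (s.rs (R ∩ s.k ⁻¹' Q) E') := by
  have hg := good_inter hn hR hRD hJ hJJ hG hE (fun e he => by rw [hh e he]; exact hy)
  obtain ⟨Q, E', hQ, hE', hgE', hpos⟩ := Sys.fc hg
  have hcl : IsClosed (s.rs (R ∩ s.k ⁻¹' Q) E') := Sys.isClosed_rs (hR.inter (hQ.1.preimage s.ck))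
  obtain ⟨K, hK, hKJ, hyK, hKn⟩ := exists_off (two_of_not_av hst hn) hcl
    (Sys.rs_sub.trans (inter_subset_left.trans hRD)) (hJ.inter hG) (inter_subset_left.trans hJJ) hpos y
  exact ⟨Q, E', K, hQ, hK, hE', hKJ, hyK, hgE'.mono subset_rfl inter_subset_left, hKn⟩

/-- MODULE v4b (size 2): `p < lv u`.

Proof.  `w = anc u (p + 1)`, `r = anc u p = pd w`, `c.JR r = G r`.  `exists_piece` (`n = u.length + 1`): `E₀`, `h = y w` on it.  `G' = {g | g agrees with y w below n} \ ⋃ (v' ∈ S, v' ≠ [], pd v' = r), G v'` is clopen and contains `y w` (`same`, `val`).  `cell4`, `cont` with all `Η i = ∅`,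
`Φ _ E' Jn = (E' ⊆ c.E w ∧ Jn ⊆ G r ∩ G' ∧ y w ∉ Jn ∧ IsClopen Jn)`, `Ψ Jn K = ∀ q, K q = Jn`.  Labels `G (p :: u) = Jn`, `y (p :: u) = y w`. -/
theorem step4a (hs : s.Ok) (hst : s.Star) (hn : Bel s (fun D J => ¬ Av s Top D J) D₀ J₀) {c : Cfg}
    {G : List ℕ → Set CC} {y : List ℕ → CC} (h : Va4 s D₀ J₀ c G y) {p : ℕ} {u : List ℕ} (hu : u ∈ c.S)
    (hp : p < lv u) (hv : p :: u ∉ c.S) :
    ∃ c' G' y', Va4 s D₀ J₀ c' G' y' ∧ Keep c c' (p :: u) ∧ ∀ w ∈ c.S, G' w = G w ∧ y' w = y w := by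
  have hc := h.dyn
  have hst' := h.stc
  have hnu := hc.nd u hu
  have hpw : pd (anc u (p + 1)) = anc u p := pd_anc_succ hnu hp
  have hwne : anc u (p + 1) ≠ [] := anc_ne_nil hnu hp
  have hwS : anc u (p + 1) ∈ c.S := v4z_suffix hc (anc_suffix u (p + 1)) hu
  have hrS : anc u p ∈ c.S := v4z_suffix hc (anc_suffix u p) hu
  obtain ⟨w, hw⟩ : ∃ w, w = anc u (p + 1) := ⟨_, rfl⟩
  rw [← hw] at hpw hwne hwS
  have hJR : c.JR (anc u p) = G (anc u p) := by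
    rw [← hpw]
    exact h.loc.1 _ hwS hwne
  obtain ⟨E₀, hE₀, hg₀, hb₀, ha₀, -⟩ := exists_piece hc hst' hu hp hv (u.length + 1)
  rw [← hw] at hE₀
  rw [hJR] at hg₀
  obtain ⟨w1, w2, w3⟩ := h.val w hwS hwne
  have hE₀h : ∀ e ∈ E₀, s.h e = y w := fun e he => w1 e ((hst'.e1 w hwS hwne).1 (hE₀ he))
  obtain ⟨V, hVc, -, hyV, hVa⟩ := exists_cyl isOpen_univ (mem_univ (y w)) (u.length + 1)
  obtain ⟨Sb, hSb⟩ : ∃ Sb : Finset (List ℕ), Sb = c.S.filter (fun v' => v' ≠ [] ∧ pd v' = anc u p) := ⟨_, rfl⟩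
  have hSbc : IsClopen (⋃ v' ∈ Sb, G v') := by
    refine isClopen_biUnion_finset fun v' hv' => ?_
    rw [hSb, Finset.mem_filter] at hv'
    exact (h.gc v' hv'.1).1
  obtain ⟨G₂, hG₂⟩ : ∃ G₂ : Set CC, G₂ = V \ ⋃ v' ∈ Sb, G v' := ⟨_, rfl⟩
  have hG₂c : IsClopen G₂ := by rw [hG₂]; exact hVc.diff hSbc
  have hyG₂ : y w ∈ G₂ := by
    rw [hG₂]
    refine ⟨hyV, fun hm => ?_⟩
    obtain ⟨v', hv', hm'⟩ := mem_iUnion₂.1 hm
    rw [hSb, Finset.mem_filter] at hv'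
    obtain ⟨hv'S, hv'n, hv'p⟩ := hv'
    rw [h.same w hwS v' hv'S hwne hv'n (by rw [hpw, hv'p])] at hm'
    exact (h.val v' hv'S hv'n).2.1 hm'
  have hyG : y w ∈ G (anc u p) := by
    rw [← hpw]
    exact (h.mem w hwS hwne).1
  have hRD : c.R (anc u p) ⊆ D₀ := by
    rw [← hpw]
    exact h.blw.2.1 w hwS hwne
  have hRc : IsClosed (c.R (anc u p)) := by
    rw [← hpw]
    exact (hc.root w hwS hwne).1
  obtain ⟨Q, E', Jn', hQ, hJn'c, hE', hJn's, hyJn', hgE', hpos⟩ := cell4 hst hn hRc hRD (h.gc _ hrS).1 (h.gc _ hrS).2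
    hG₂c hg₀ ⟨hyG, hyG₂⟩ hE₀h
  obtain ⟨Η, E₁, Jn, K, c', hΦ, hΨ, hR, -, hDh⟩ := cont hs hc hst' hu hp hv
    (fun _ E' Jn => E' ⊆ c.E w ∧ Jn ⊆ G (anc u p) ∩ G₂ ∧ y w ∉ Jn ∧ IsClopen Jn)
    (fun Jn K => ∀ q, K q = Jn)
    (fun N => ⟨fun _ => ∅, fun _ => isClopen_empty, fun _ _ _ => disjoint_bot_left, fun _ =>
      ⟨E', Q, Jn', ⟨hE'.trans hE₀, hJn's, hyJn', hJn'c⟩, hQ, hJn'c, by rw [← hw]; exact hE'.trans hE₀,
        fun e he => hb₀ e (hE' he), fun x hx y hy => ha₀ x (hE' hx) y (hE' hy), by rw [hJR]; exact hgE', hpos⟩⟩)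
    (fun _ _ Jn D hΦ hJn _ _ hD => ⟨fun _ => Jn, fun _ => rfl, fun _ _ => ⟨hJn, hD⟩⟩)
  obtain ⟨hE₁, hJn, hyJn, hJnc⟩ := hΦ
  have hvu : ∀ {v : List ℕ}, v ∈ c.S → v ≠ p :: u := fun hvS h => hv (h ▸ hvS)
  have hRR : c'.R (anc u p) ⊆ D₀ := by
    rw [← hpw]
    exact (hR.ext.R w hwS hwne).trans (by rw [hpw]; exact hRD)
  -- the labels
  obtain ⟨G', hG'⟩ : ∃ G' : List ℕ → Set CC, G' = fun v => if v = p :: u then Jn else G v := ⟨_, rfl⟩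
  obtain ⟨y', hy'⟩ : ∃ y' : List ℕ → CC, y' = fun v => if v = p :: u then y w else y v := ⟨_, rfl⟩
  have eG0 : ∀ v, v ≠ p :: u → G' v = G v := fun v hvS => by rw [hG']; exact if_neg hvS
  have eG : ∀ v ∈ c.S, G' v = G v := fun v hvS => eG0 v (hvu hvS)
  have ey : ∀ v ∈ c.S, y' v = y v := fun v hvS => by rw [hy']; exact if_neg (hvu hvS)
  have eG1 : G' (p :: u) = Jn := by rw [hG']; exact if_pos rfl
  have ey1 : y' (p :: u) = y w := by rw [hy']; exact if_pos rfl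
  have hmem : ∀ {v : List ℕ}, v ∈ c'.S → v = p :: u ∨ v ∈ c.S := fun hvS => by
    rwa [hR.ext.S, Finset.mem_insert] at hvS
  have hpdS : ∀ v ∈ c.S, pd v ∈ c.S := fun v hvS => v4z_suffix hc (pd_suffix v) hvS
  have hpn : G' (pd (p :: u)) = G (anc u p) := eG _ hrS
  have hnew : ∀ v ∈ c.S, v ≠ [] → pd v = anc u p → Disjoint Jn (G v) := by
    intro v hvS hne hpv
    refine disjoint_left.2 fun g hg hg' => ?_
    have h1 := (hJn hg).2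
    rw [hG₂] at h1
    refine h1.2 (mem_iUnion₂.2 ⟨v, ?_, hg'⟩)
    rw [hSb, Finset.mem_filter]
    exact ⟨hvS, hne, hpv⟩
  refine ⟨c', G', y', ⟨hR.dyn, hR.stc, hR.loc_cont hc hu hp hv h.loc eG0 (fun q => by rw [hΨ q, eG1]),
    hR.blw h.blw (fun q hq => (hDh q hq).trans hRD) hRR, ?_, ?_, ?_, ?_, ?_, ?_⟩, hR.ext.keep,
    fun v hvS => ⟨eG v hvS, ey v hvS⟩⟩
  · rw [eG [] hc.nil]
    exact h.g0
  · intro v hvS
    rcases hmem hvS with rfl | hvS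
    · rw [eG1]
      exact ⟨hJnc, fun g hg => (h.gc _ hrS).2 (hJn hg).1⟩
    · rw [eG v hvS]
      exact h.gc v hvS
  · intro v hvS hne
    rcases hmem hvS with rfl | hvS
    · rw [eG1, ey1, hR.Eh]
      refine ⟨fun e he => w1 e ((hst'.e1 w hwS hwne).1 (hE₁ he)), hyJn, fun g hg i hi => ?_⟩
      have h1 := (hJn hg).2
      rw [hG₂] at h1
      exact hVa g h1.1 (y w) hyV i hi
    · rw [eG v hvS, ey v hvS, hR.ext.Eh v hvS]
      exact h.val v hvS hne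
  · intro v hvS hne
    rcases hmem hvS with rfl | hvS
    · rw [eG1, ey1, hpn]
      exact ⟨hyG, fun g hg => (hJn hg).1⟩
    · rw [eG v hvS, ey v hvS, eG _ (hpdS v hvS)]
      exact h.mem v hvS hne
  · have key : ∀ v ∈ c'.S, v ≠ [] → ∃ v₁ ∈ c.S, v₁ ≠ [] ∧ pd v₁ = pd v ∧ y' v = y v₁ := by
      intro v hvS hne
      rcases hmem hvS with rfl | hvS
      · exact ⟨w, hwS, hwne, hpw, ey1⟩
      · exact ⟨v, hvS, hne, rfl, ey v hvS⟩
    intro v hvS v' hvS' hne hne' hpd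
    obtain ⟨v₁, a1, a2, a3, a4⟩ := key v hvS hne
    obtain ⟨v₂, b1, b2, b3, b4⟩ := key v' hvS' hne'
    rw [a4, b4]
    exact h.same v₁ a1 v₂ b1 a2 b2 (by rw [a3, b3, hpd])
  · intro v hvS v' hvS' hne hne' hpd hvv
    rcases hmem hvS with rfl | hvS <;> rcases hmem hvS' with rfl | hvS'
    · exact absurd rfl hvv
    · rw [eG1, eG v' hvS']
      exact hnew v' hvS' hne' hpd.symm
    · rw [eG1, eG v hvS]
      exact (hnew v hvS hne hpd).symm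
    · rw [eG v hvS, eG v' hvS']
      exact h.disj v hvS v' hvS' hne hne' hpd hvv

/-- MODULE v4c (size 2): `p = lv u`.

Proof.  `R = c.D (lv u :: u)` is `G u`-perfect; `hC`: `y ∈ G u`, `E` good for `(R, G u)` with `h = y`; `exists_piece_root`; `cell4` with `G' = {g | g agrees with y below u.length + 1}`; `newr` with `J₀ = G u`.  No old `v ≠ []` has `pd v = u`. -/
theorem step4b (hs : s.Ok) (hst : s.Star) (hn : Bel s (fun D J => ¬ Av s Top D J) D₀ J₀) (hC : Bel s (CCn s) D₀ J₀)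
    {c : Cfg} {G : List ℕ → Set CC} {y : List ℕ → CC} (h : Va4 s D₀ J₀ c G y) {u : List ℕ} (hu : u ∈ c.S)
    (hv : lv u :: u ∉ c.S) :
    ∃ c' G' y', Va4 s D₀ J₀ c' G' y' ∧ Keep c c' (lv u :: u) ∧ ∀ w ∈ c.S, G' w = G w ∧ y' w = y w := by
  have hc := h.dyn
  have hst' := h.stc
  have hslot := hc.slot (lv u) u hu le_rfl hv
  have hDD : c.D (lv u :: u) ⊆ D₀ := h.blw.1 (lv u) u hu le_rfl hv
  have hJD : c.JD (lv u :: u) = G u := h.loc.2 (lv u) u hu le_rfl hv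
  rw [hJD] at hslot
  obtain ⟨y₀, hy₀, E, hEy, hE⟩ := hC (c.D (lv u :: u)) (G u) hslot.1.1 hDD (h.gc u hu).1 (h.gc u hu).2
    hslot.1.not_null
  obtain ⟨E₀, hE₀, hg₀, hb₀, ha₀, -⟩ := exists_piece_root hc hst' hu hv subset_rfl hE (u.length + 1)
  obtain ⟨V, hVc, -, hyV, hVa⟩ := exists_cyl isOpen_univ (mem_univ y₀) (u.length + 1)
  obtain ⟨Q, E', Jn, hQ, hJnc, hE', hJn, hyJn, hgE', hpos⟩ := cell4 hst hn hslot.1.1 hDD (h.gc u hu).1 (h.gc u hu).2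
    hVc hg₀ ⟨hy₀, hyV⟩ (fun e he => hEy e (hE₀ he))
  obtain ⟨K, c', hΨ, hR, hRu, hJ', hDh⟩ := newr hs hc hst' hu hv (fun Jn K => ∀ q, K q = Jn) hslot.1.1 subset_rfl
    (h.gc u hu).1 hQ hJnc (fun e he => hb₀ e (hE' he)) (fun x hx y hy => ha₀ x (hE' hx) y (hE' hy))
    hgE' hpos (fun D _ _ hD => ⟨fun _ => Jn, fun _ => rfl, fun _ _ => ⟨hJnc, hD⟩⟩)
  have hvu : ∀ {v : List ℕ}, v ∈ c.S → v ≠ lv u :: u := fun hvS h => hv (h ▸ hvS)
  obtain ⟨-, -, hpd⟩ := dyn_setR hc hst' hv univ univ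
  obtain ⟨G', hG'⟩ : ∃ G' : List ℕ → Set CC, G' = fun v => if v = lv u :: u then Jn else G v := ⟨_, rfl⟩
  obtain ⟨y', hy'⟩ : ∃ y' : List ℕ → CC, y' = fun v => if v = lv u :: u then y₀ else y v := ⟨_, rfl⟩
  have eG0 : ∀ v, v ≠ lv u :: u → G' v = G v := fun v hvS => by rw [hG']; exact if_neg hvS
  have eG : ∀ v ∈ c.S, G' v = G v := fun v hvS => eG0 v (hvu hvS)
  have ey : ∀ v ∈ c.S, y' v = y v := fun v hvS => by rw [hy']; exact if_neg (hvu hvS)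
  have eG1 : G' (lv u :: u) = Jn := by rw [hG']; exact if_pos rfl
  have ey1 : y' (lv u :: u) = y₀ := by rw [hy']; exact if_pos rfl
  have hmem : ∀ {v : List ℕ}, v ∈ c'.S → v = lv u :: u ∨ v ∈ c.S := fun hvS => by
    rwa [hR.ext.S, Finset.mem_insert] at hvS
  have hpv : pd (lv u :: u) = u := anc_self le_rfl
  have hpdS : ∀ v ∈ c.S, pd v ∈ c.S := fun v hvS => v4z_suffix hc (pd_suffix v) hvS
  refine ⟨c', G', y', ⟨hR.dyn, hR.stc, hR.loc_root hc hu hv h.loc eG0 (fun q => by rw [hΨ q, eG1]) hJ',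
    hR.blw h.blw (fun q hq => (hDh q hq).trans hDD) ?_, ?_, ?_, ?_, ?_, ?_, ?_⟩, hR.ext.keep,
    fun v hvS => ⟨eG v hvS, ey v hvS⟩⟩
  · rw [anc_self le_rfl]
    exact hRu.trans hDD
  · rw [eG [] hc.nil]
    exact h.g0
  · intro v hvS
    rcases hmem hvS with rfl | hvS
    · rw [eG1]
      exact ⟨hJnc, fun g hg => (h.gc _ hu).2 (hJn hg).1⟩
    · rw [eG v hvS]
      exact h.gc v hvS
  · intro v hvS hne
    rcases hmem hvS with rfl | hvS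
    · rw [eG1, ey1, hR.Eh]
      exact ⟨fun e he => hEy e (hE₀ (hE' he)), hyJn, fun g hg i hi => hVa g (hJn hg).2 y₀ hyV i hi⟩
    · rw [eG v hvS, ey v hvS, hR.ext.Eh v hvS]
      exact h.val v hvS hne
  · intro v hvS hne
    rcases hmem hvS with rfl | hvS
    · rw [eG1, ey1, hpv, eG u hu]
      exact ⟨hy₀, fun g hg => (hJn hg).1⟩
    · rw [eG v hvS, ey v hvS, eG _ (hpdS v hvS)]
      exact h.mem v hvS hne
  · intro v hvS v' hvS' hne hne' hpp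
    rcases hmem hvS with rfl | hvS <;> rcases hmem hvS' with rfl | hvS'
    · rfl
    · exact absurd (hpp.symm.trans hpv) (hpd v' hvS' hne')
    · exact absurd (hpp.trans hpv) (hpd v hvS hne)
    · rw [ey v hvS, ey v' hvS']
      exact h.same v hvS v' hvS' hne hne' hpp
  · intro v hvS v' hvS' hne hne' hpp hvv
    rcases hmem hvS with rfl | hvS <;> rcases hmem hvS' with rfl | hvS'
    · exact absurd rfl hvv
    · exact absurd (hpp.symm.trans hpv) (hpd v' hvS' hne')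
    · exact absurd (hpp.trans hpv) (hpd v hvS hne)
    · rw [eG v hvS, eG v' hvS']
      exact h.disj v hvS v' hvS' hne hne' hpp hvv

theorem w_two {v v' : List ℕ} (hv : Nd v) (hv' : Nd v') : ∀ w ∈ ({v, v'} : Finset (List ℕ)), Nd w := by
  intro w hw
  rcases Finset.mem_insert.1 hw with rfl | hw
  · exact hv
  · rw [Finset.mem_singleton.1 hw]
    exact hv'

theorem w_loc {c : Cfg} {J : Set CC} {G : List ℕ → Set CC} (hS : c.S = {[]}) (hJ : c.JD [0] = J) (hG : G [] = J) :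
    Loc c G := by
  refine ⟨?_, ?_⟩
  · intro v hv hne
    exact (w_no hS hv hne).elim
  · intro p u hu hp _
    rw [hS] at hu
    obtain rfl := Finset.mem_singleton.1 hu
    obtain rfl : p = 0 := Nat.le_zero.1 hp
    rw [hJ, hG]

/-- MODULE w4 (size 1). -/
theorem var4 (hs : s.Ok) (hst : s.Star) (hD : IsClosed D₀) (hJ : IsClopen J₀) (h : ¬ s.Null J₀ D₀)
    (hn : Bel s (fun D J => ¬ Av s Top D J) D₀ J₀) (hC : Bel s (CCn s) D₀ J₀) :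
    ∃ U Dh Eh Q G y, Sch s U Dh Eh Q ∧ St4 s Eh G y := by
  obtain ⟨c, hS, hc, hst', hD0, hDh0, hJ0⟩ := exists_init hs hD hJ h
  obtain ⟨U, Dh, Eh, Q, L, hSch, hL⟩ := w_lim (s := s) (Γ := Cfg × (List ℕ → Set CC) × (List ℕ → CC))
    (Λ := Set CC × CC) (fun g => g.1) (fun g w => (g.2.1 w, g.2.2 w))
    (fun g => Va4 s D₀ J₀ g.1 g.2.1 g.2.2) (fun g h => ⟨h.dyn, h.stc⟩)
    (c, fun _ => J₀, fun _ _ => false) (by
      refine ⟨hc, hst', w_loc hS hJ0 rfl, w_blw hS hD0 hDh0, rfl, fun v _ => ⟨hJ, subset_rfl⟩,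
        fun v hv hne => (w_no hS hv hne).elim, fun v hv hne => (w_no hS hv hne).elim,
        fun v hv v' _ hne => (w_no hS hv hne).elim, fun v hv v' _ hne => (w_no hS hv hne).elim⟩) (by
      intro g hg p u hu hp hv
      rcases hp.lt_or_eq with hp | rfl
      · obtain ⟨c', G', y', k1, k2, k3⟩ := step4a hs hst hn hg hu hp hv
        exact ⟨(c', G', y'), k1, k2, fun w hw => Prod.ext (k3 w hw).1 (k3 w hw).2⟩
      · obtain ⟨c', G', y', k1, k2, k3⟩ := step4b hs hst hn hC hg hu hv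
        exact ⟨(c', G', y'), k1, k2, fun w hw => Prod.ext (k3 w hw).1 (k3 w hw).2⟩)
  have hE : ∀ {g : Cfg × (List ℕ → Set CC) × (List ℕ → CC)} {w : List ℕ},
      ((g.1).Eh w = Eh w ∧ (g.2.1 w, g.2.2 w) = L w) → (g.1).Eh w = Eh w ∧ g.2.1 w = (L w).1 ∧
        g.2.2 w = (L w).2 := fun h => ⟨h.1, congrArg Prod.fst h.2, congrArg Prod.snd h.2⟩
  refine ⟨U, Dh, Eh, Q, fun w => (L w).1, fun w => (L w).2, hSch, ?_, ?_, ?_, ?_⟩
  · intro v hv hne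
    obtain ⟨g, hg, hF, he⟩ := hL {v} (by simpa using hv)
    have hvS := hF (Finset.mem_singleton_self v)
    obtain ⟨e1, e2, e3⟩ := hE (he v hvS)
    obtain ⟨k1, k2, k3⟩ := hg.val v hvS hne
    have k4 := (hg.gc v hvS).1
    rw [e1, e3] at k1
    rw [e2, e3] at k2 k3
    rw [e2] at k4
    exact ⟨k1, k4, k2, k3⟩
  · intro v hv hne
    obtain ⟨g, hg, hF, he⟩ := hL {v, pd v} (w_two hv (hv.of_suffix (pd_suffix v)))
    have hvS := hF (Finset.mem_insert_self v _)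
    have hvS' := hF (Finset.mem_insert_of_mem (Finset.mem_singleton_self _))
    obtain ⟨-, e2, e3⟩ := hE (he v hvS)
    obtain ⟨-, e2', -⟩ := hE (he _ hvS')
    obtain ⟨k1, k2⟩ := hg.mem v hvS hne
    rw [e2', e3] at k1
    rw [e2, e2'] at k2
    exact ⟨k1, k2⟩
  · intro v v' hv hv' hne hne' hp
    obtain ⟨g, hg, hF, he⟩ := hL {v, v'} (w_two hv hv')
    have hvS := hF (Finset.mem_insert_self v _)
    have hvS' := hF (Finset.mem_insert_of_mem (Finset.mem_singleton_self v'))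
    obtain ⟨-, e2, e3⟩ := hE (he v hvS)
    obtain ⟨-, e2', e3'⟩ := hE (he v' hvS')
    have k1 := hg.same v hvS v' hvS' hne hne' hp
    rw [e3, e3'] at k1
    exact k1
  · intro v v' hv hv' hne hne' hp hvv
    obtain ⟨g, hg, hF, he⟩ := hL {v, v'} (w_two hv hv')
    have hvS := hF (Finset.mem_insert_self v _)
    have hvS' := hF (Finset.mem_insert_of_mem (Finset.mem_singleton_self v'))
    obtain ⟨-, e2, e3⟩ := hE (he v hvS)
    obtain ⟨-, e2', e3'⟩ := hE (he v' hvS')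
    have k := hg.disj v hvS v' hvS' hne hne' hp hvv
    rw [e2, e2'] at k
    exact k

/-! ### `b5` -/

/-- Configurations in the case `b5`. -/
structure Va5 (s : Sys) (D₀ : Set NN) (J₀ : Set CC) (c : Cfg) (G H M : List ℕ → Set CC) : Prop where
  dyn : Dyn s c
  stc : Stc s c
  loc : Loc c G
  blw : Blw c D₀
  g0 : G [] = J₀
  gc : ∀ v ∈ c.S, IsClopen (G v) ∧ G v ⊆ J₀
  val : ∀ v ∈ c.S, v ≠ [] → (∀ e ∈ c.Eh v, s.h e ∈ H v) ∧ IsClopen (H v) ∧ IsClopen (M v) ∧ Agr v.length (H v) ∧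
    H v ⊆ M v ∧ G v ⊆ M v ∧ Disjoint (H v) (G v) ∧ M v ⊆ G (pd v)
  next : ∀ p u, p :: u ∈ c.S → p < lv u → M (p :: u) ⊆ H (anc u (p + 1))
  sib : ∀ p u p' u', p :: u ∈ c.S → p' :: u' ∈ c.S → p < lv u → p' < lv u' → anc u (p + 1) = anc u' (p' + 1) →
    p :: u ≠ p' :: u' → Disjoint (M (p :: u)) (M (p' :: u'))
  dy : ∀ p u, p :: u ∈ c.S → p < lv u → Disjoint (c.E (anc u (p + 1))) (s.h ⁻¹' M (p :: u))

/-- MODULE v5a (size 1): the common part.  Proof.  `good_inter`: `E₀` is good for `(R, M)` (`J ∩ M = M`); `hS`: `Spl s R M E₀`: `Q`, `E'`, `H₁`; `H = H₁ ∩ M`, `M \ H = M \ H₁`. -/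
theorem cell5 (hn : Bel s (fun D J => ¬ Av s Top D J) D₀ J₀) (hS : Bel s (ASpl s) D₀ J₀) {R E₀ : Set NN} {J M : Set CC}
    (hR : IsClosed R) (hRD : R ⊆ D₀) (hJ : IsClopen J) (hJJ : J ⊆ J₀) (hM : IsClopen M) (hMJ : M ⊆ J)
    (hE : s.Good R J E₀) (hh : ∀ e ∈ E₀, s.h e ∈ M) :
    ∃ Q E' H, IsClopen Q ∧ IsClopen H ∧ H ⊆ M ∧ E' ⊆ E₀ ∧ (∀ e ∈ E', s.h e ∈ H) ∧ s.Good (R \ s.k ⁻¹' Q) J E' ∧
      ¬ s.Null (M \ H) (s.rs (R ∩ s.k ⁻¹' Q) E') := by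
  have hg := good_inter hn hR hRD hJ hJJ hM hE (fun e he => ⟨hMJ (hh e he), hh e he⟩)
  rw [inter_eq_self_of_subset_right hMJ] at hg
  have hsp : Spl s R M E₀ := hS R M hR hRD hM (hMJ.trans hJJ)
    (fun h0 => hg.pos (h0.mono subset_rfl Sys.rs_sub)) E₀ hh hg
  obtain ⟨Q, E', H₁, hQ, hE', hH₁, hEH, hgE', hpos⟩ := hsp
  refine ⟨Q, E', H₁ ∩ M, hQ, hH₁.inter hM, inter_subset_right, hE', fun e he => ⟨hEH e he, hh e (hE' he)⟩,
    hgE'.mono subset_rfl hMJ, ?_⟩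
  have e1 : M \ (H₁ ∩ M) = M \ H₁ := by
    ext y
    exact ⟨fun h => ⟨h.1, fun h' => h.2 ⟨h', h.1⟩⟩, fun h => ⟨h.1, fun h' => h.2 h'.1⟩⟩
  rw [e1]
  exact hpos

/-- MODULE v5b (size 3): `p < lv u`.

Proof.  `w = anc u (p + 1)`, `r = anc u p = pd w`, `c.JR r = G r`.  `exists_piece` (`n = u.length + 1`): `E₀`, values in `H w ⊆ M w ⊆ G r`.  No constant pieces: a constant piece `E₀ ∩ W` with value `y ∈ G r` is good for `(c.R r, G r)`: `CCn s (c.R r) (G r)`, against `hC`.  `exists_clopen_agr`: `H' ⊇ h '' E₀`, `H' ⊆ H w`, `Agr n H'`;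
`H'' = H' \ ⋃ (older siblings v'), M v'` still contains `h '' E₀` (`h.dy`).  `many_values`: `Η i`, replaced by `Η i ∩ H''`; `cell5` for `E₀ ∩ h ⁻¹' Η i`, `M = Η i`.  `cont` with `Φ Η E' Jn = (IsClopen Η ∧ Η ⊆ H'' ∧ ∃ H, IsClopen H ∧ H ⊆ Η ∧ (∀ e ∈ E', h e ∈ H) ∧ Jn = Η \ H)`, `Ψ Jn K = ∀ q, K q = Jn`.
Labels `M (p :: u) = Η`, `H (p :: u) = H`, `G (p :: u) = Jn`. -/
theorem step5a (hs : s.Ok) (hn : Bel s (fun D J => ¬ Av s Top D J) D₀ J₀)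
    (hC : Bel s (fun D J => ¬ CCn s D J) D₀ J₀) (hS : Bel s (ASpl s) D₀ J₀) {c : Cfg} {G H M : List ℕ → Set CC}
    (h : Va5 s D₀ J₀ c G H M) {p : ℕ} {u : List ℕ} (hu : u ∈ c.S) (hp : p < lv u) (hv : p :: u ∉ c.S) :
    ∃ c' G' H' M', Va5 s D₀ J₀ c' G' H' M' ∧ Keep c c' (p :: u) ∧
      ∀ w ∈ c.S, G' w = G w ∧ H' w = H w ∧ M' w = M w := by
  have hc := h.dyn
  have hst := h.stc
  have hnu := hc.nd u hu
  have hpw : pd (anc u (p + 1)) = anc u p := pd_anc_succ hnu hp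
  have hwne : anc u (p + 1) ≠ [] := anc_ne_nil hnu hp
  have hwS : anc u (p + 1) ∈ c.S := v4z_suffix hc (anc_suffix u (p + 1)) hu
  have hrS : anc u p ∈ c.S := v4z_suffix hc (anc_suffix u p) hu
  obtain ⟨w, hw⟩ : ∃ w, w = anc u (p + 1) := ⟨_, rfl⟩
  rw [← hw] at hpw hwne hwS
  have hJR : c.JR (anc u p) = G (anc u p) := by
    rw [← hpw]
    exact h.loc.1 _ hwS hwne
  obtain ⟨E₀, hE₀, hg₀, hb₀, ha₀, hh₀⟩ := exists_piece hc hst hu hp hv (u.length + 1)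
  rw [hJR] at hg₀
  rw [← hw] at hE₀
  obtain ⟨w1, w2, w3, w4, w5, w6, w7, w8⟩ := h.val w hwS hwne
  rw [hpw] at w8
  have hE₀H : s.h '' E₀ ⊆ H w := by
    rintro _ ⟨e, he, rfl⟩
    exact w1 e ((hst.e1 w hwS hwne).1 (hE₀ he))
  have hRD : c.R (anc u p) ⊆ D₀ := by
    rw [← hpw]
    exact h.blw.2.1 w hwS hwne
  have hRc : IsClosed (c.R (anc u p)) := by
    rw [← hpw]
    exact (hc.root w hwS hwne).1
  have hnc : ∀ W, IsClopen W → (E₀ ∩ W).Nonempty → ¬ Cst s (E₀ ∩ W) := by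
    rintro W hW hWn ⟨y, hy⟩
    have hgP := hg₀.piece hW hWn
    obtain ⟨e, he⟩ := hWn
    refine hC (c.R (anc u p)) (G (anc u p)) hRc hRD (h.gc _ hrS).1 (h.gc _ hrS).2
      (fun h0 => hgP.pos (h0.mono subset_rfl Sys.rs_sub)) ⟨y, ?_, E₀ ∩ W, hy, hgP⟩
    rw [← hy e he]
    exact w8 (w5 (hE₀H ⟨e, he.1, rfl⟩))
  obtain ⟨H₁, hH₁c, hH₁s, hH₁G, hH₁a⟩ := exists_clopen_agr hh₀ w2 hE₀H
  -- the older siblings with the same previous sibling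
  obtain ⟨Sb, hSb⟩ : ∃ Sb : Finset (List ℕ), Sb = c.S.filter
      (fun v' => ∃ p' u', v' = p' :: u' ∧ p' < lv u' ∧ anc u' (p' + 1) = w) := ⟨_, rfl⟩
  obtain ⟨H₂, hH₂⟩ : ∃ H₂ : Set CC, H₂ = H₁ \ ⋃ v' ∈ Sb, M v' := ⟨_, rfl⟩
  have hSbc : IsClopen (⋃ v' ∈ Sb, M v') := by
    refine isClopen_biUnion_finset fun v' hv' => ?_
    rw [hSb, Finset.mem_filter] at hv'
    obtain ⟨hv'S, p', u', e, -, -⟩ := hv'
    exact (h.val v' hv'S (by rw [e]; exact List.cons_ne_nil _ _)).2.2.1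
  have hH₂c : IsClopen H₂ := by rw [hH₂]; exact hH₁c.diff hSbc
  have hE₀H₂ : ∀ e ∈ E₀, s.h e ∈ H₂ := by
    intro e he
    rw [hH₂]
    refine ⟨hH₁s ⟨e, he, rfl⟩, ?_⟩
    intro hm
    obtain ⟨v', hv', hm'⟩ := mem_iUnion₂.1 hm
    rw [hSb, Finset.mem_filter] at hv'
    obtain ⟨hv'S, p', u', e', hp', ha'⟩ := hv'
    rw [e'] at hv'S hm'
    have hdy := h.dy p' u' hv'S hp'
    rw [ha'] at hdy
    exact disjoint_left.1 hdy (hE₀ he) hm'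
  have hH₂1 : H₂ ⊆ H₁ := by rw [hH₂]; exact sdiff_subset
  have hH₂G : H₂ ⊆ G (anc u p) := fun y hy => w8 (w5 (hH₁G (hH₂1 hy)))
  obtain ⟨Η, E₁, Jn, K, c', hΦ, hΨ, hR, hEw, hDh⟩ := cont hs hc hst hu hp hv
    (fun Η E' Jn => IsClopen Η ∧ Η ⊆ H₂ ∧ ∃ H', IsClopen H' ∧ H' ⊆ Η ∧ (∀ e ∈ E', s.h e ∈ H') ∧ Jn = Η \ H')
    (fun Jn K => ∀ q, K q = Jn)
    (fun N => by
      obtain ⟨Η, hΗc, hΗd, hΗn⟩ := many_values hg₀.nonempty hnc N
      refine ⟨fun i => Η i ∩ H₂, fun i => (hΗc i).inter hH₂c,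
        fun i j hij => (hΗd i j hij).mono inter_subset_left inter_subset_left, fun i => ?_⟩
      have hgi : s.Good (c.R (anc u p)) (G (anc u p)) (E₀ ∩ s.h ⁻¹' Η i) :=
        hg₀.piece ((hΗc i).preimage s.ch) (hΗn i)
      obtain ⟨Q, E', H', hQ, hH', hH'M, hE', hE'H, hgE', hpos⟩ := cell5 hn hS hRc hRD (h.gc _ hrS).1 (h.gc _ hrS).2
        ((hΗc i).inter hH₂c) (inter_subset_right.trans hH₂G) hgi (fun e he => ⟨he.2, hE₀H₂ e he.1⟩)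
      refine ⟨E', Q, (Η i ∩ H₂) \ H', ⟨(hΗc i).inter hH₂c, inter_subset_right, H', hH', hH'M, hE'H, rfl⟩,
        hQ, ((hΗc i).inter hH₂c).diff hH', ?_, fun e he => hb₀ e (hE' he).1,
        fun x hx y hy => ha₀ x (hE' hx).1 y (hE' hy).1, ?_, hpos⟩
      · rw [← hw]
        exact fun e he => hE₀ (hE' he).1
      · rw [hJR]
        exact hgE')
    (fun _ _ Jn D hΦ hJn _ _ hD => ⟨fun _ => Jn, fun _ => rfl, fun _ _ => ⟨hJn, hD⟩⟩)
  obtain ⟨hΗc, hΗ2, H₃, hH₃c, hH₃Η, hEH₃, hJn⟩ := hΦ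
  rw [← hw] at hEw
  have hvu : ∀ {v : List ℕ}, v ∈ c.S → v ≠ p :: u := fun hvS h => hv (h ▸ hvS)
  have hRR : c'.R (anc u p) ⊆ D₀ := by
    rw [← hpw]
    exact (hR.ext.R w hwS hwne).trans (by rw [hpw]; exact hRD)
  -- the labels
  obtain ⟨G', hG'⟩ : ∃ G' : List ℕ → Set CC, G' = fun v => if v = p :: u then Jn else G v := ⟨_, rfl⟩
  obtain ⟨H', hH'⟩ : ∃ H' : List ℕ → Set CC, H' = fun v => if v = p :: u then H₃ else H v := ⟨_, rfl⟩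
  obtain ⟨M', hM'⟩ : ∃ M' : List ℕ → Set CC, M' = fun v => if v = p :: u then Η else M v := ⟨_, rfl⟩
  have eG0 : ∀ v, v ≠ p :: u → G' v = G v := fun v hvS => by rw [hG']; exact if_neg hvS
  have eG : ∀ v ∈ c.S, G' v = G v := fun v hvS => eG0 v (hvu hvS)
  have eH : ∀ v ∈ c.S, H' v = H v := fun v hvS => by rw [hH']; exact if_neg (hvu hvS)
  have eM : ∀ v ∈ c.S, M' v = M v := fun v hvS => by rw [hM']; exact if_neg (hvu hvS)
  have eG1 : G' (p :: u) = Jn := by rw [hG']; exact if_pos rfl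
  have eH1 : H' (p :: u) = H₃ := by rw [hH']; exact if_pos rfl
  have eM1 : M' (p :: u) = Η := by rw [hM']; exact if_pos rfl
  have hmem : ∀ {v : List ℕ}, v ∈ c'.S → v = p :: u ∨ v ∈ c.S := fun hvS => by
    rwa [hR.ext.S, Finset.mem_insert] at hvS
  have hpdS : ∀ v ∈ c.S, pd v ∈ c.S := fun v hvS => v4z_suffix hc (pd_suffix v) hvS
  have hpn : G' (pd (p :: u)) = G (anc u p) := eG _ hrS
  have hJnΗ : Jn ⊆ Η := by rw [hJn]; exact sdiff_subset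
  have hnew : ∀ p' u', p' :: u' ∈ c.S → p' < lv u' → anc u' (p' + 1) = w → Disjoint Η (M (p' :: u')) := by
    intro p' u' hS hlt ha
    refine disjoint_left.2 fun y hy hy' => ?_
    have := hΗ2 hy
    rw [hH₂] at this
    refine this.2 (mem_iUnion₂.2 ⟨p' :: u', ?_, hy'⟩)
    rw [hSb, Finset.mem_filter]
    exact ⟨hS, p', u', rfl, hlt, ha⟩
  refine ⟨c', G', H', M', ⟨hR.dyn, hR.stc, hR.loc_cont hc hu hp hv h.loc eG0 (fun q => by rw [hΨ q, eG1]),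
    hR.blw h.blw (fun q hq => (hDh q hq).trans hRD) hRR, ?_, ?_, ?_, ?_, ?_, ?_⟩, hR.ext.keep,
    fun v hvS => ⟨eG v hvS, eH v hvS, eM v hvS⟩⟩
  · rw [eG [] hc.nil]
    exact h.g0
  · intro v hvS
    rcases hmem hvS with rfl | hvS
    · rw [eG1]
      refine ⟨by rw [hJn]; exact hΗc.diff hH₃c, fun g hg => (h.gc _ hrS).2 (hH₂G (hΗ2 (hJnΗ hg)))⟩
    · rw [eG v hvS]
      exact h.gc v hvS
  · intro v hvS hne
    rcases hmem hvS with rfl | hvS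
    · rw [eG1, eH1, eM1, hR.Eh, hpn]
      refine ⟨hEH₃, hH₃c, hΗc, ?_, hH₃Η, hJnΗ, ?_, hΗ2.trans hH₂G⟩
      · exact fun x hx y hy => hH₁a x (hH₂1 (hΗ2 (hH₃Η hx))) y (hH₂1 (hΗ2 (hH₃Η hy)))
      · rw [hJn]
        exact disjoint_sdiff_right
    · rw [eG v hvS, eH v hvS, eM v hvS, hR.ext.Eh v hvS, eG _ (hpdS v hvS)]
      exact h.val v hvS hne
  · intro p₁ u₁ h₁ hl₁
    by_cases e₁ : p₁ :: u₁ = p :: u
    · rw [e₁, eM1]
      obtain ⟨rfl, rfl⟩ := List.cons.inj e₁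
      rw [← hw, eH w hwS]
      exact hΗ2.trans (hH₂1.trans hH₁G)
    · have h₁' : p₁ :: u₁ ∈ c.S := (hmem h₁).resolve_left e₁
      have hu₁ : u₁ ∈ c.S := hc.tl p₁ u₁ h₁'
      rw [eM _ h₁', eH _ (v4z_suffix hc (anc_suffix _ _) hu₁)]
      exact h.next p₁ u₁ h₁' hl₁
  · intro p₁ u₁ p₂ u₂ h₁ h₂ hl₁ hl₂ ha hne
    by_cases e₁ : p₁ :: u₁ = p :: u
    · by_cases e₂ : p₂ :: u₂ = p :: u
      · exact absurd (e₁.trans e₂.symm) hne
      · have h₂' : p₂ :: u₂ ∈ c.S := (hmem h₂).resolve_left e₂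
        rw [e₁, eM1, eM _ h₂']
        refine hnew p₂ u₂ h₂' hl₂ ?_
        obtain ⟨rfl, rfl⟩ := List.cons.inj e₁
        rw [← ha, hw]
    · have h₁' : p₁ :: u₁ ∈ c.S := (hmem h₁).resolve_left e₁
      by_cases e₂ : p₂ :: u₂ = p :: u
      · rw [e₂, eM1, eM _ h₁']
        refine (hnew p₁ u₁ h₁' hl₁ ?_).symm
        obtain ⟨rfl, rfl⟩ := List.cons.inj e₂
        rw [ha, hw]
      · have h₂' : p₂ :: u₂ ∈ c.S := (hmem h₂).resolve_left e₂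
        rw [eM _ h₁', eM _ h₂']
        exact h.sib p₁ u₁ p₂ u₂ h₁' h₂' hl₁ hl₂ ha hne
  · intro p₁ u₁ h₁ hl₁
    by_cases e₁ : p₁ :: u₁ = p :: u
    · rw [e₁, eM1]
      obtain ⟨rfl, rfl⟩ := List.cons.inj e₁
      rw [← hw]
      exact disjoint_left.2 fun x hx hx' => hEw hx hx'
    · have h₁' : p₁ :: u₁ ∈ c.S := (hmem h₁).resolve_left e₁
      rw [eM _ h₁']
      have hu₁ : u₁ ∈ c.S := hc.tl p₁ u₁ h₁'
      have hw₁ : anc u₁ (p₁ + 1) ∈ c.S := v4z_suffix hc (anc_suffix _ _) hu₁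
      have hw₁n : anc u₁ (p₁ + 1) ≠ [] := anc_ne_nil (hc.nd _ hu₁) hl₁
      exact (h.dy p₁ u₁ h₁' hl₁).mono_left (hR.ext.E _ hw₁ hw₁n)

/-- MODULE v5c (size 2): `p = lv u`.

Proof.  `R = c.D (lv u :: u)` is `G u`-perfect, `exists_good`, `exists_piece_root`, `exists_clopen_agr` inside `G u`: `M`; `cell5`; `newr` with `J₀ = G u`, `Jn = M \ H`. -/
theorem step5b (hs : s.Ok) (hn : Bel s (fun D J => ¬ Av s Top D J) D₀ J₀) (hS : Bel s (ASpl s) D₀ J₀) {c : Cfg}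
    {G H M : List ℕ → Set CC} (h : Va5 s D₀ J₀ c G H M) {u : List ℕ} (hu : u ∈ c.S) (hv : lv u :: u ∉ c.S) :
    ∃ c' G' H' M', Va5 s D₀ J₀ c' G' H' M' ∧ Keep c c' (lv u :: u) ∧
      ∀ w ∈ c.S, G' w = G w ∧ H' w = H w ∧ M' w = M w := by
  have hc := h.dyn
  have hst := h.stc
  have hslot := hc.slot (lv u) u hu le_rfl hv
  have hDD : c.D (lv u :: u) ⊆ D₀ := h.blw.1 (lv u) u hu le_rfl hv
  have hJD : c.JD (lv u :: u) = G u := h.loc.2 (lv u) u hu le_rfl hv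
  rw [hJD] at hslot
  obtain ⟨E, hEG, hE⟩ := Sys.exists_good (h.gc u hu).1 hslot.1.not_null
  obtain ⟨E₀, hE₀, hg₀, hb₀, ha₀, hh₀⟩ := exists_piece_root hc hst hu hv subset_rfl hE (u.length + 1)
  have hE₀G : s.h '' E₀ ⊆ G u := by
    rintro _ ⟨e, he, rfl⟩
    exact hEG e (hE₀ he)
  obtain ⟨M₀, hM₀c, hM₀s, hM₀G, hM₀a⟩ := exists_clopen_agr hh₀ (h.gc u hu).1 hE₀G
  obtain ⟨Q, E', H₀, hQ, hH₀c, hH₀M, hE', hE'H, hgE', hpos⟩ := cell5 hn hS hslot.1.1 hDD (h.gc u hu).1 (h.gc u hu).2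
    hM₀c hM₀G hg₀ (fun e he => hM₀s ⟨e, he, rfl⟩)
  obtain ⟨K, c', hΨ, hR, hRu, hJ', hDh⟩ := newr hs hc hst hu hv (fun Jn K => ∀ q, K q = Jn) hslot.1.1 subset_rfl
    (h.gc u hu).1 hQ (hM₀c.diff hH₀c) (fun e he => hb₀ e (hE' he)) (fun x hx y hy => ha₀ x (hE' hx) y (hE' hy))
    hgE' hpos (fun D _ _ hD => ⟨fun _ => M₀ \ H₀, fun _ => rfl, fun _ _ => ⟨hM₀c.diff hH₀c, hD⟩⟩)
  have hvu : ∀ {v : List ℕ}, v ∈ c.S → v ≠ lv u :: u := fun hvS h => hv (h ▸ hvS)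
  obtain ⟨G', hG'⟩ : ∃ G' : List ℕ → Set CC, G' = fun v => if v = lv u :: u then M₀ \ H₀ else G v := ⟨_, rfl⟩
  obtain ⟨H', hH'⟩ : ∃ H' : List ℕ → Set CC, H' = fun v => if v = lv u :: u then H₀ else H v := ⟨_, rfl⟩
  obtain ⟨M', hM'⟩ : ∃ M' : List ℕ → Set CC, M' = fun v => if v = lv u :: u then M₀ else M v := ⟨_, rfl⟩
  have eG0 : ∀ v, v ≠ lv u :: u → G' v = G v := fun v hvS => by rw [hG']; exact if_neg hvS
  have eG : ∀ v ∈ c.S, G' v = G v := fun v hvS => eG0 v (hvu hvS)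
  have eH : ∀ v ∈ c.S, H' v = H v := fun v hvS => by rw [hH']; exact if_neg (hvu hvS)
  have eM : ∀ v ∈ c.S, M' v = M v := fun v hvS => by rw [hM']; exact if_neg (hvu hvS)
  have eG1 : G' (lv u :: u) = M₀ \ H₀ := by rw [hG']; exact if_pos rfl
  have eH1 : H' (lv u :: u) = H₀ := by rw [hH']; exact if_pos rfl
  have eM1 : M' (lv u :: u) = M₀ := by rw [hM']; exact if_pos rfl
  have hmem : ∀ {v : List ℕ}, v ∈ c'.S → v = lv u :: u ∨ v ∈ c.S := fun hvS => by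
    rwa [hR.ext.S, Finset.mem_insert] at hvS
  have hold : ∀ {p' : ℕ} {u' : List ℕ}, p' :: u' ∈ c'.S → p' < lv u' → p' :: u' ∈ c.S := by
    intro p' u' hS hl
    refine (hmem hS).resolve_left fun e => ?_
    obtain ⟨rfl, rfl⟩ := List.cons.inj e
    exact lt_irrefl _ hl
  have hpv : pd (lv u :: u) = u := anc_self le_rfl
  have hpdS : ∀ v ∈ c.S, pd v ∈ c.S := fun v hvS => v4z_suffix hc (pd_suffix v) hvS
  refine ⟨c', G', H', M', ⟨hR.dyn, hR.stc, hR.loc_root hc hu hv h.loc eG0 (fun q => by rw [hΨ q, eG1]) hJ',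
    hR.blw h.blw (fun q hq => (hDh q hq).trans hDD) ?_, ?_, ?_, ?_, ?_, ?_, ?_⟩, hR.ext.keep,
    fun v hvS => ⟨eG v hvS, eH v hvS, eM v hvS⟩⟩
  · rw [anc_self le_rfl]
    exact hRu.trans hDD
  · rw [eG [] hc.nil]
    exact h.g0
  · intro v hvS
    rcases hmem hvS with rfl | hvS
    · rw [eG1]
      exact ⟨hM₀c.diff hH₀c, fun g hg => (h.gc _ hu).2 (hM₀G hg.1)⟩
    · rw [eG v hvS]
      exact h.gc v hvS
  · intro v hvS hne
    rcases hmem hvS with rfl | hvS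
    · rw [eG1, eH1, eM1, hR.Eh, hpv, eG u hu]
      exact ⟨hE'H, hH₀c, hM₀c, fun x hx y hy => hM₀a x (hH₀M hx) y (hH₀M hy), hH₀M, sdiff_subset,
        disjoint_sdiff_right, hM₀G⟩
    · rw [eG v hvS, eH v hvS, eM v hvS, hR.ext.Eh v hvS, eG _ (hpdS v hvS)]
      exact h.val v hvS hne
  · intro p₁ u₁ h₁ hl₁
    have h₁' := hold h₁ hl₁
    rw [eM _ h₁', eH _ (v4z_suffix hc (anc_suffix _ _) (hc.tl p₁ u₁ h₁'))]
    exact h.next p₁ u₁ h₁' hl₁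
  · intro p₁ u₁ p₂ u₂ h₁ h₂ hl₁ hl₂ ha hne
    have h₁' := hold h₁ hl₁
    have h₂' := hold h₂ hl₂
    rw [eM _ h₁', eM _ h₂']
    exact h.sib p₁ u₁ p₂ u₂ h₁' h₂' hl₁ hl₂ ha hne
  · intro p₁ u₁ h₁ hl₁
    have h₁' := hold h₁ hl₁
    rw [eM _ h₁']
    have hu₂ : u₁ ∈ c.S := hc.tl p₁ u₁ h₁'
    have hw₁ : anc u₁ (p₁ + 1) ∈ c.S := v4z_suffix hc (anc_suffix _ _) hu₂
    have hw₁n : anc u₁ (p₁ + 1) ≠ [] := anc_ne_nil (hc.nd _ hu₂) hl₁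
    exact (h.dy p₁ u₁ h₁' hl₁).mono_left (hR.ext.E _ hw₁ hw₁n)

/-- MODULE w5 (size 1). -/
theorem var5 (hs : s.Ok) (hD : IsClosed D₀) (hJ : IsClopen J₀) (h : ¬ s.Null J₀ D₀)
    (hn : Bel s (fun D J => ¬ Av s Top D J) D₀ J₀) (hC : Bel s (fun D J => ¬ CCn s D J) D₀ J₀)
    (hS : Bel s (ASpl s) D₀ J₀) : ∃ U Dh Eh Q G H M, Sch s U Dh Eh Q ∧ St5 s Eh G H M := by
  obtain ⟨c, hcS, hc, hst, hD0, hDh0, hJ0⟩ := exists_init hs hD hJ h
  obtain ⟨U, Dh, Eh, Q, L, hSch, hL⟩ := w_lim (s := s)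
    (Γ := Cfg × (List ℕ → Set CC) × (List ℕ → Set CC) × (List ℕ → Set CC))
    (Λ := Set CC × Set CC × Set CC) (fun g => g.1) (fun g w => (g.2.1 w, g.2.2.1 w, g.2.2.2 w))
    (fun g => Va5 s D₀ J₀ g.1 g.2.1 g.2.2.1 g.2.2.2) (fun g h => ⟨h.dyn, h.stc⟩)
    (c, fun _ => J₀, fun _ => ∅, fun _ => ∅) (by
      refine ⟨hc, hst, w_loc hcS hJ0 rfl, w_blw hcS hD0 hDh0, rfl, fun v _ => ⟨hJ, subset_rfl⟩,
        fun v hv hne => (w_no hcS hv hne).elim, ?_, ?_, ?_⟩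
      · intro p u hv
        exact (w_no hcS hv (List.cons_ne_nil _ _)).elim
      · intro p u p' u' hv
        exact (w_no hcS hv (List.cons_ne_nil _ _)).elim
      · intro p u hv
        exact (w_no hcS hv (List.cons_ne_nil _ _)).elim) (by
      intro g hg p u hu hp hv
      rcases hp.lt_or_eq with hp | rfl
      · obtain ⟨c', G', H', M', k1, k2, k3⟩ := step5a hs hn hC hS hg hu hp hv
        exact ⟨(c', G', H', M'), k1, k2, fun w hw => Prod.ext (k3 w hw).1 (Prod.ext (k3 w hw).2.1 (k3 w hw).2.2)⟩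
      · obtain ⟨c', G', H', M', k1, k2, k3⟩ := step5b hs hn hS hg hu hv
        exact ⟨(c', G', H', M'), k1, k2, fun w hw => Prod.ext (k3 w hw).1 (Prod.ext (k3 w hw).2.1 (k3 w hw).2.2)⟩)
  have hE : ∀ {g : Cfg × (List ℕ → Set CC) × (List ℕ → Set CC) × (List ℕ → Set CC)} {w : List ℕ},
      ((g.1).Eh w = Eh w ∧ (g.2.1 w, g.2.2.1 w, g.2.2.2 w) = L w) → (g.1).Eh w = Eh w ∧ g.2.1 w = (L w).1 ∧
        g.2.2.1 w = (L w).2.1 ∧ g.2.2.2 w = (L w).2.2 := fun h => ⟨h.1, congrArg Prod.fst h.2,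
          congrArg (fun t => t.2.1) h.2, congrArg (fun t => t.2.2) h.2⟩
  refine ⟨U, Dh, Eh, Q, fun w => (L w).1, fun w => (L w).2.1, fun w => (L w).2.2, hSch, ?_, ?_, ?_, ?_⟩
  · intro v hv hne
    obtain ⟨g, hg, hF, he⟩ := hL {v} (by simpa using hv)
    have hvS := hF (Finset.mem_singleton_self v)
    obtain ⟨e1, e2, e3, e4⟩ := hE (he v hvS)
    obtain ⟨k1, k2, -, k4, k5, k6, k7, -⟩ := hg.val v hvS hne
    have k8 := (hg.gc v hvS).1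
    rw [e1, e3] at k1
    rw [e3] at k2 k4
    rw [e3, e4] at k5
    rw [e2, e4] at k6
    rw [e3, e2] at k7
    rw [e2] at k8
    exact ⟨k1, k8, k2, k4, k5, k6, k7⟩
  · intro u hu
    have hv : Nd (lv u :: u) := ⟨le_rfl, hu⟩
    obtain ⟨g, hg, hF, he⟩ := hL {lv u :: u, u} (w_two hv hu)
    have hvS := hF (Finset.mem_insert_self _ _)
    have hvS' := hF (Finset.mem_insert_of_mem (Finset.mem_singleton_self _))
    obtain ⟨-, e2, e3, e4⟩ := hE (he _ hvS)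
    obtain ⟨-, e2', e3', e4'⟩ := hE (he _ hvS')
    have k := (hg.val _ hvS (List.cons_ne_nil _ _)).2.2.2.2.2.2.2
    have e : pd (lv u :: u) = u := anc_self le_rfl
    rw [e, e4, e2'] at k
    exact k
  · intro p u hv hp
    obtain ⟨g, hg, hF, he⟩ := hL {p :: u, anc u (p + 1)} (w_two hv (hv.2.anc _))
    have hvS := hF (Finset.mem_insert_self _ _)
    have hvS' := hF (Finset.mem_insert_of_mem (Finset.mem_singleton_self _))
    obtain ⟨-, e2, e3, e4⟩ := hE (he _ hvS)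
    obtain ⟨-, e2', e3', e4'⟩ := hE (he _ hvS')
    have k := hg.next p u hvS hp
    rw [e4, e3'] at k
    exact k
  · intro p u p' u' hv hv' hp hp' ha hne
    obtain ⟨g, hg, hF, he⟩ := hL {p :: u, p' :: u'} (w_two hv hv')
    have hvS := hF (Finset.mem_insert_self _ _)
    have hvS' := hF (Finset.mem_insert_of_mem (Finset.mem_singleton_self _))
    obtain ⟨-, e2, e3, e4⟩ := hE (he _ hvS)
    obtain ⟨-, e2', e3', e4'⟩ := hE (he _ hvS')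
    have k := hg.sib p u p' u' hvS hvS' hp hp' ha hne
    rw [e4, e4'] at k
    exact k

/-! ### `b7` -/

/-- Configurations in the case `b7`; `Ro v`, `Jo v`, `Eo v` are the data of the root `pd v`. -/
structure Va7 (s : Sys) (D₀ : Set NN) (J₀ : Set CC) (c : Cfg) (G : List ℕ → ℕ → Set CC) (H : List ℕ → Set CC)
    (Ro : List ℕ → Set NN) (Jo : List ℕ → Set CC) (Eo : List ℕ → Set NN) : Prop where
  dyn : Dyn s c
  stc : Stc s c
  blw : Blw c D₀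
  jr : ∀ v ∈ c.S, v ≠ [] → c.JR (pd v) = Jo v
  jd : ∀ p u, u ∈ c.S → p ≤ lv u → p :: u ∉ c.S → c.JD (p :: u) = G u p
  gc : ∀ u ∈ c.S, ∀ p ≤ lv u, IsClopen (G u p) ∧ G u p ⊆ J₀
  root : ∀ v ∈ c.S, v ≠ [] → IsClosed (Ro v) ∧ Ro v ⊆ D₀ ∧ IsClopen (Jo v) ∧ Jo v ⊆ J₀ ∧
    ¬ Spl s (Ro v) (Jo v) (Eo v) ∧ c.R (pd v) ⊆ Ro v ∧ c.E v ⊆ Eo v ∧ ∀ q ≤ lv v, c.Dh v q ⊆ Ro v
  same : ∀ v ∈ c.S, ∀ v' ∈ c.S, v ≠ [] → v' ≠ [] → pd v = pd v' → Ro v = Ro v' ∧ Jo v = Jo v' ∧ Eo v = Eo v'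
  val : ∀ v ∈ c.S, v ≠ [] → (∀ e ∈ c.Eh v, s.h e ∈ H v) ∧ IsClopen (H v) ∧ Agr v.length (H v) ∧ ∀ q ≤ lv v, G v q ⊆ H v
  sub : ∀ p u, p :: u ∈ c.S → H (p :: u) ⊆ G u p
  disj : ∀ u ∈ c.S, ∀ p q, p ≤ lv u → q ≤ lv u → p ≠ q → Disjoint (G u p) (G u q)
  below : ∀ u ∈ c.S, ∀ w, w ≠ [] → Tp w u → ∀ q ≤ lv u, G u q ⊆ Jo w

private theorem v7_suffix {c : Cfg} (hc : Dyn s c) : ∀ {v w : List ℕ}, w <:+ v → v ∈ c.S → w ∈ c.S := by
  intro v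
  induction v with
  | nil =>
    intro w h hv
    rw [List.suffix_nil] at h
    rw [h]
    exact hv
  | cons p u ih =>
    intro w h hv
    rcases List.suffix_cons_iff.1 h with h | h
    · rw [h]
      exact hv
    · exact ih h (hc.tl p u hv)

/-- MODULE v7a (size 2): `c.Dh u p` lies below every true predecessor `w ≠ []` of `u`. Induction along `pd` (`tp_iff`, `Stc.d5`, `Va7.root`). -/
theorem dh7 {c : Cfg} {G : List ℕ → ℕ → Set CC} {H : List ℕ → Set CC} {Ro : List ℕ → Set NN} {Jo : List ℕ → Set CC}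
    {Eo : List ℕ → Set NN} (h : Va7 s D₀ J₀ c G H Ro Jo Eo) {u w : List ℕ} (hu : u ∈ c.S) (hw : Tp w u) (hne : w ≠ [])
    {p : ℕ} (hp : p ≤ lv u) : c.Dh u p ⊆ Ro w ∩ s.k ⁻¹' c.Q w := by
  induction hn : u.length using Nat.strong_induction_on generalizing u p with
  | _ n ih =>
    subst hn
    have hune : u ≠ [] := by
      rintro rfl
      exact hne (by simpa using Tp.suffix hw)
    rcases (tp_iff (h.dyn.nd u hu) hune).1 hw with rfl | hw'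
    · exact fun z hz => ⟨(h.root _ hu hune).2.2.2.2.2.2.2 p hp hz, (h.stc.d5 _ hu hune p hp).2 z hz⟩
    · have hpS : pd u ∈ c.S := v7_suffix h.dyn (pd_suffix u) hu
      exact (h.stc.d5 u hu hune p hp).1.trans (ih _ (pd_length hune) hpS hw' le_rfl rfl)

/-- MODULE v7b (size 2): the key property of unsplittable cells.

Proof.  Let `D = c.D (p :: u)`, `J = G u p = c.JD (p :: u)`, `D` is `J`-perfect.  Suppose `z₀ ∈ D`, `a z₀ ∉ closure (b '' (c.E w ∩ h ⁻¹' J))`; let `V` be a clopen neighbourhood of `a z₀` disjoint from `b '' (c.E w ∩ h ⁻¹' J)`.  `E' = c.E w ∩ b ⁻¹' V` is nonempty (`Tc_sub`: `a z₀ ∈ closure (b '' c.E w)`), so good for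
`(c.R (pd w), Jo w)`, and `c.R (pd w) ⊆ Ro w \ k ⁻¹' c.Q w` (`Stc.q3`), so good for `(Ro w \ k ⁻¹' Q w, Jo w)`.  `h '' E' ⊆ Jᶜ =: H'`.  `D ∩ a ⁻¹' V` is not `J`-null (`Perf`), `J ⊆ Jo w` (`below`), so `J ⊆ Jo w \ H'`, and `D ∩ a ⁻¹' V ⊆ rs (Ro w ∩ k ⁻¹' Q w) E'` (`dh7`, `Stc.d2`, `mem_rs_piece`).  So
`Spl s (Ro w) (Jo w) (Eo w)` with `Q w`, `E'`, `H'`. Contradiction. -/
theorem key7 {c : Cfg} {G : List ℕ → ℕ → Set CC} {H : List ℕ → Set CC} {Ro : List ℕ → Set NN} {Jo : List ℕ → Set CC}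
    {Eo : List ℕ → Set NN} (h : Va7 s D₀ J₀ c G H Ro Jo Eo) {p : ℕ} {u w : List ℕ} (hu : u ∈ c.S) (hp : p ≤ lv u)
    (hv : p :: u ∉ c.S) (hw : Tp w u) (hne : w ≠ []) :
    c.D (p :: u) ⊆ s.a ⁻¹' closure (s.b '' (c.E w ∩ s.h ⁻¹' G u p)) := by
  obtain ⟨hperf, hTc, -⟩ := h.dyn.slot p u hu hp hv
  rw [h.jd p u hu hp hv] at hperf
  have hTw := Tc_sub (s := s) (E := c.E) (h.dyn.nd u hu) hw hne
  have hwS : w ∈ c.S := v7_suffix h.dyn hw.suffix hu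
  intro z₀ hz₀
  by_contra hcon
  obtain ⟨V, hV, hVs, hzV, -⟩ := exists_cyl (isClosed_closure.isOpen_compl) (x := s.a z₀) hcon 0
  have hbV : IsClopen (s.b ⁻¹' V) := hV.preimage s.cb
  obtain ⟨r1, r2, r3, r4, r5, r6, r7, r8⟩ := h.root w hwS hne
  have hgood := h.dyn.good w hwS hne
  rw [h.jr w hwS hne] at hgood
  have hn : (c.E w ∩ s.b ⁻¹' V).Nonempty := by
    have h1 : s.a z₀ ∈ closure (s.b '' c.E w) := hTw (hTc hz₀)
    obtain ⟨_, h2, e, he, rfl⟩ := mem_closure_iff.1 h1 V hV.isOpen hzV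
    exact ⟨e, he, h2⟩
  refine r5 ⟨c.Q w, c.E w ∩ s.b ⁻¹' V, (G u p)ᶜ, (h.stc.q1 w hwS hne).1, inter_subset_left.trans r7,
    (h.gc u hu p hp).1.compl, ?_, (hgood.piece hbV hn).mono ?_ Subset.rfl, ?_⟩
  · rintro e ⟨he, heV⟩ heG
    exact hVs heV (subset_closure ⟨e, ⟨he, heG⟩, rfl⟩)
  · intro z hz
    exact ⟨r6 hz, fun hk => (h.stc.q3 w hwS hne).le_bot ⟨hz, hk⟩⟩
  · intro h0
    refine hperf.2.2 (s.a ⁻¹' V) (hV.isOpen.preimage s.ca) ⟨z₀, hz₀, hzV⟩ (h0.mono ?_ ?_)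
    · exact fun y hy => ⟨h.below u hu w hne hw p hp hy, fun h' => h' hy⟩
    · rintro z ⟨hz, hza⟩
      refine Sys.mem_rs_piece hV.isOpen ?_ hza
      exact ⟨dh7 h hu hw hne hp (h.stc.d2 u hu p hp hv hz), hTw (hTc hz)⟩

/-- MODULE v7c (size 1): the common part.  `good_inter` (`J ∩ H = H`), `fc` for `(R, H)`, `Good.mono`. -/
theorem cell7 (hn : Bel s (fun D J => ¬ Av s Top D J) D₀ J₀) {R E₀ : Set NN} {J H : Set CC} (hR : IsClosed R)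
    (hRD : R ⊆ D₀) (hJ : IsClopen J) (hJJ : J ⊆ J₀) (hH : IsClopen H) (hHJ : H ⊆ J) (hE : s.Good R J E₀)
    (hh : ∀ e ∈ E₀, s.h e ∈ H) :
    ∃ Q E', IsClopen Q ∧ E' ⊆ E₀ ∧ s.Good (R \ s.k ⁻¹' Q) J E' ∧ ¬ s.Null H (s.rs (R ∩ s.k ⁻¹' Q) E') := by
  have h1 := good_inter hn hR hRD hJ hJJ hH hE fun e he => ⟨hHJ (hh e he), hh e he⟩
  rw [inter_eq_self_of_subset_right hHJ] at h1
  obtain ⟨Q, E', h2, h3, h4, h5⟩ := Sys.fc h1
  exact ⟨Q, E', h2, h3, h4.mono Subset.rfl hHJ, h5⟩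

private theorem v7_fin {c c' : Cfg} {G : List ℕ → ℕ → Set CC} {H : List ℕ → Set CC} {Ro : List ℕ → Set NN}
    {Jo : List ℕ → Set CC} {Eo : List ℕ → Set NN} (h : Va7 s D₀ J₀ c G H Ro Jo Eo) {p : ℕ} {u : List ℕ}
    (hu : u ∈ c.S) (hp : p ≤ lv u) (hv : p :: u ∉ c.S) {E' : Set NN} {K : ℕ → Set CC} (hR : Res s c c' p u E' K)
    (hblw : Blw c' D₀) {Hn : Set CC} (hK : ∀ q, IsClopen (K q) ∧ K q ⊆ Hn)
    (hKd : ∀ q q', q ≠ q' → Disjoint (K q) (K q')) (hHn : IsClopen Hn) (hHa : Agr (u.length + 1) Hn)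
    (hHG : Hn ⊆ G u p) (hEH : ∀ e ∈ E', s.h e ∈ Hn) {Rn : Set NN} {Jn : Set CC} {En : Set NN}
    (hroot : IsClosed Rn ∧ Rn ⊆ D₀ ∧ IsClopen Jn ∧ Jn ⊆ J₀ ∧ ¬ Spl s Rn Jn En ∧ c'.R (anc u p) ⊆ Rn ∧ E' ⊆ En ∧
      ∀ q ≤ p + 1, c'.Dh (p :: u) q ⊆ Rn) (hJR : c'.JR (anc u p) = Jn)
    (hsame : ∀ v ∈ c.S, v ≠ [] → pd v = anc u p → Ro v = Rn ∧ Jo v = Jn ∧ Eo v = En) (hHJ : Hn ⊆ Jn) :
    ∃ G' H' Ro' Jo' Eo', Va7 s D₀ J₀ c' G' H' Ro' Jo' Eo' ∧ ∀ w ∈ c.S, G' w = G w ∧ H' w = H w := by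
  have hc := h.dyn
  have hnu := hc.nd u hu
  have hvu : ∀ {v : List ℕ}, v ∈ c.S → v ≠ p :: u := fun hvS h => hv (h ▸ hvS)
  obtain ⟨G', hG'⟩ : ∃ G' : List ℕ → ℕ → Set CC, G' = fun v => if v = p :: u then K else G v := ⟨_, rfl⟩
  obtain ⟨H', hH'⟩ : ∃ H' : List ℕ → Set CC, H' = fun v => if v = p :: u then Hn else H v := ⟨_, rfl⟩
  obtain ⟨Ro', hRo'⟩ : ∃ Ro' : List ℕ → Set NN, Ro' = fun v => if v = p :: u then Rn else Ro v := ⟨_, rfl⟩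
  obtain ⟨Jo', hJo'⟩ : ∃ Jo' : List ℕ → Set CC, Jo' = fun v => if v = p :: u then Jn else Jo v := ⟨_, rfl⟩
  obtain ⟨Eo', hEo'⟩ : ∃ Eo' : List ℕ → Set NN, Eo' = fun v => if v = p :: u then En else Eo v := ⟨_, rfl⟩
  have eG : ∀ v ∈ c.S, G' v = G v := fun v hvS => by rw [hG']; exact if_neg (hvu hvS)
  have eH : ∀ v ∈ c.S, H' v = H v := fun v hvS => by rw [hH']; exact if_neg (hvu hvS)
  have eR : ∀ v ∈ c.S, Ro' v = Ro v := fun v hvS => by rw [hRo']; exact if_neg (hvu hvS)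
  have eJ : ∀ v ∈ c.S, Jo' v = Jo v := fun v hvS => by rw [hJo']; exact if_neg (hvu hvS)
  have eE : ∀ v ∈ c.S, Eo' v = Eo v := fun v hvS => by rw [hEo']; exact if_neg (hvu hvS)
  have eG1 : G' (p :: u) = K := by rw [hG']; exact if_pos rfl
  have eH1 : H' (p :: u) = Hn := by rw [hH']; exact if_pos rfl
  have eR1 : Ro' (p :: u) = Rn := by rw [hRo']; exact if_pos rfl
  have eJ1 : Jo' (p :: u) = Jn := by rw [hJo']; exact if_pos rfl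
  have eE1 : Eo' (p :: u) = En := by rw [hEo']; exact if_pos rfl
  have hmem : ∀ {v : List ℕ}, v ∈ c'.S → v = p :: u ∨ v ∈ c.S := fun hvS => by
    rwa [hR.ext.S, Finset.mem_insert] at hvS
  have hKJ : Hn ⊆ J₀ := hHJ.trans hroot.2.2.2.1
  refine ⟨G', H', Ro', Jo', Eo', ⟨hR.dyn, hR.stc, hblw, ?_, ?_, ?_, ?_, ?_, ?_, ?_, ?_, ?_⟩,
    fun v hvS => ⟨eG v hvS, eH v hvS⟩⟩
  · intro v hvS hne
    rcases hmem hvS with rfl | hvS
    · rw [eJ1]; exact hJR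
    · rw [eJ v hvS, hR.ext.JR v hvS hne]
      exact h.jr v hvS hne
  · intro q u' hu' hq hqu
    have hne : q :: u' ≠ p :: u := by
      intro e
      exact hqu (by rw [hR.ext.S, e]; exact Finset.mem_insert_self _ _)
    have hnS : q :: u' ∉ c.S := fun e => hqu (by rw [hR.ext.S]; exact Finset.mem_insert_of_mem e)
    rcases hmem hu' with rfl | hS
    · rw [eG1]
      exact hR.JD q hq
    · rw [eG u' hS, hR.ext.JD q u' hS hq hnS hne]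
      exact h.jd q u' hS hq hnS
  · intro u' hu' q hq
    rcases hmem hu' with rfl | hS
    · rw [eG1]
      exact ⟨(hK q).1, (hK q).2.trans hKJ⟩
    · rw [eG u' hS]
      exact h.gc u' hS q hq
  · intro v hvS hne
    rcases hmem hvS with rfl | hvS
    · rw [eR1, eJ1, eE1, hR.E]
      exact hroot
    · rw [eR v hvS, eJ v hvS, eE v hvS, hR.ext.Dh v hvS]
      obtain ⟨a1, a2, a3, a4, a5, a6, a7, a8⟩ := h.root v hvS hne
      exact ⟨a1, a2, a3, a4, a5, (hR.ext.R v hvS hne).trans a6, (hR.ext.E v hvS hne).trans a7, a8⟩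
  · intro v hvS v' hvS' hne hne' hpp
    rcases hmem hvS with rfl | hvS <;> rcases hmem hvS' with rfl | hvS'
    · exact ⟨rfl, rfl, rfl⟩
    · rw [eR1, eJ1, eE1, eR v' hvS', eJ v' hvS', eE v' hvS']
      obtain ⟨a1, a2, a3⟩ := hsame v' hvS' hne' hpp.symm
      exact ⟨a1.symm, a2.symm, a3.symm⟩
    · rw [eR1, eJ1, eE1, eR v hvS, eJ v hvS, eE v hvS]
      exact hsame v hvS hne hpp
    · rw [eR v hvS, eJ v hvS, eE v hvS, eR v' hvS', eJ v' hvS', eE v' hvS']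
      exact h.same v hvS v' hvS' hne hne' hpp
  · intro v hvS hne
    rcases hmem hvS with rfl | hvS
    · rw [eH1, eG1, hR.Eh]
      exact ⟨hEH, hHn, hHa, fun q _ => (hK q).2⟩
    · rw [eH v hvS, eG v hvS, hR.ext.Eh v hvS]
      exact h.val v hvS hne
  · intro p' u' hS
    rcases hmem hS with he | hS
    · obtain ⟨rfl, rfl⟩ := List.cons.inj he
      rw [eH1, eG _ hu]
      exact hHG
    · rw [eH _ hS, eG _ (hc.tl p' u' hS)]
      exact h.sub p' u' hS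
  · intro u' hu' q q' hq hq' hne
    rcases hmem hu' with rfl | hS
    · rw [eG1]
      exact hKd q q' hne
    · rw [eG u' hS]
      exact h.disj u' hS q q' hq hq' hne
  · intro u' hu' w' hw' hT q hq
    rcases hmem hu' with rfl | hS
    · rw [eG1]
      rcases (tp_iff (hR.dyn.nd _ hu') (List.cons_ne_nil _ _)).1 hT with rfl | hT'
      · rw [eJ1]
        exact (hK q).2.trans hHJ
      · have hT2 : Tp w' u := hT'.trans (tp_anc hnu hp)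
        rw [eJ w' (v7_suffix hc hT2.suffix hu)]
        exact ((hK q).2.trans hHG).trans (h.below u hu w' hw' hT2 p hp)
    · rw [eG u' hS, eJ w' (v7_suffix hc hT.suffix hS)]
      exact h.below u' hS w' hw' hT q hq

/-- MODULE v7d (size 3): `p < lv u`.

Proof.  `w = anc u (p + 1)`, `r = anc u p = pd w`, `Tp w u`.  By `key7` there is `e ∈ c.E w` with `h e ∈ G u p`, `b e ∈ c.U u p` (`c.D (p :: u)` nonempty, `a '' c.D (p :: u) ⊆ c.U u p` clopen).  `E₀ = c.E w ∩ (b ⁻¹' c.U u p ∩ h ⁻¹' G u p ∩ cylinders)`: good for `(c.R r, Jo w)`, `Agr n E₀`, `Agr n (h '' E₀)`, `n = u.length + 1`.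
`exists_clopen_agr`: `H' ⊇ h '' E₀`, `H' ⊆ G u p ⊆ Jo w` (`below`), `Agr n H'`.  `cell7`.  `cont` with all `Η i = ∅`, `Jn = H'`, `Φ _ E' Jn = (Jn = H' ∧ E' ⊆ E₀)`, `Ψ Jn K = ((∀ q, IsClopen (K q) ∧ K q ⊆ Jn) ∧ ∀ q q', q ≠ q' → Disjoint (K q) (K q'))` from `exists_many` (`two_of_not_av`).
Labels `H (p :: u) = H'`, `G (p :: u) = K`, `Ro`, `Jo`, `Eo` as at `w`.  `below` for `p :: u`: `tp_iff`, `anc_anc`/`Tp.trans` (`anc u p` is a true predecessor of `u`). -/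
theorem step7a (hs : s.Ok) (hst : s.Star) (hn : Bel s (fun D J => ¬ Av s Top D J) D₀ J₀) {c : Cfg}
    {G : List ℕ → ℕ → Set CC} {H : List ℕ → Set CC} {Ro : List ℕ → Set NN} {Jo : List ℕ → Set CC}
    {Eo : List ℕ → Set NN} (h : Va7 s D₀ J₀ c G H Ro Jo Eo) {p : ℕ} {u : List ℕ} (hu : u ∈ c.S) (hp : p < lv u)
    (hv : p :: u ∉ c.S) : ∃ c' G' H' Ro' Jo' Eo', Va7 s D₀ J₀ c' G' H' Ro' Jo' Eo' ∧ Keep c c' (p :: u) ∧
      ∀ w ∈ c.S, G' w = G w ∧ H' w = H w := by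
  have hc := h.dyn
  have hstc := h.stc
  have hnu := hc.nd u hu
  have hpw : pd (anc u (p + 1)) = anc u p := pd_anc_succ hnu hp
  have hwne : anc u (p + 1) ≠ [] := anc_ne_nil hnu hp
  have hwS : anc u (p + 1) ∈ c.S := v7_suffix hc (anc_suffix u (p + 1)) hu
  have hwT : Tp (anc u (p + 1)) u := tp_anc hnu hp
  have hkey := key7 h hu hp.le hv hwT hwne
  obtain ⟨hperf, hTc, -⟩ := hc.slot p u hu hp.le hv
  obtain ⟨w, hw⟩ : ∃ w, w = anc u (p + 1) := ⟨_, rfl⟩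
  rw [← hw] at hpw hwne hwS hwT hkey
  obtain ⟨r1, r2, r3, r4, r5, r6, r7, r8⟩ := h.root w hwS hwne
  obtain ⟨-, -, -, u1, -, u2⟩ := hstc.d1 u hu p hp.le
  obtain ⟨z₀, hz₀⟩ := hperf.2.1
  obtain ⟨_, h2, e₀, ⟨he₀, heG⟩, rfl⟩ := mem_closure_iff.1 (hkey hz₀) (c.U u p) u1.isOpen
    (u2 z₀ (hstc.d2 u hu p hp.le hv hz₀))
  obtain ⟨V, hV, -, heV, hVa⟩ := exists_cyl isOpen_univ (mem_univ e₀) (u.length + 1)
  obtain ⟨V', hV', hVG, heV', hVa'⟩ := exists_cyl (h.gc u hu p hp.le).1.isOpen heG (u.length + 1)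
  have hgood := hc.good w hwS hwne
  rw [h.jr w hwS hwne, hpw] at hgood
  have hW : IsClopen (s.b ⁻¹' c.U u p ∩ s.h ⁻¹' V' ∩ V) :=
    ((u1.preimage s.cb).inter (hV'.preimage s.ch)).inter hV
  have hg₀ := hgood.piece hW ⟨e₀, he₀, ⟨h2, heV'⟩, heV⟩
  obtain ⟨E₀, hE₀⟩ : ∃ E₀, E₀ = c.E w ∩ (s.b ⁻¹' c.U u p ∩ s.h ⁻¹' V' ∩ V) := ⟨_, rfl⟩
  rw [← hE₀] at hg₀
  have i1 : E₀ ⊆ c.E w := by rw [hE₀]; exact inter_subset_left
  have i2 : ∀ e ∈ E₀, s.b e ∈ c.U u p ∧ s.h e ∈ V' ∧ e ∈ V := by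
    rw [hE₀]
    exact fun e he => ⟨he.2.1.1, he.2.1.2, he.2.2⟩
  have hRD : c.R (anc u p) ⊆ D₀ := by
    rw [← hpw]
    exact h.blw.2.1 w hwS hwne
  have hRc : IsClosed (c.R (anc u p)) := by
    rw [← hpw]
    exact (hc.root w hwS hwne).1
  have hVJ : V' ⊆ Jo w := hVG.trans (h.below u hu w hwne hwT p hp.le)
  obtain ⟨Q, E', hQ, hE', hgE', hpos⟩ := cell7 hn hRc hRD r3 r4 hV' hVJ hg₀ fun e he => (i2 e he).2.1
  obtain ⟨Η, E₁, Jn, K, c', ⟨hΦ1, hΦ2⟩, ⟨hΨ1, hΨ2⟩, hR, -, hDh⟩ := cont hs hc hstc hu hp hv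
    (fun _ E' Jn => Jn = V' ∧ E' ⊆ E₀)
    (fun Jn K => (∀ q, IsClopen (K q) ∧ K q ⊆ Jn) ∧ ∀ q q', q ≠ q' → Disjoint (K q) (K q'))
    (fun N => ⟨fun _ => ∅, fun _ => isClopen_empty, fun _ _ _ => disjoint_bot_left, fun _ =>
      ⟨E', Q, V', ⟨rfl, hE'⟩, hQ, hV', by rw [← hw]; exact hE'.trans i1, fun e he => (i2 e (hE' he)).1,
        fun x hx y hy => hVa x (i2 x (hE' hx)).2.2 y (i2 y (hE' hy)).2.2, by
          rw [← hpw, h.jr w hwS hwne, hpw]; exact hgE', hpos⟩⟩)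
    (fun _ _ Jn D hΦ hJn hD hDR hDn => by
      obtain ⟨K, k1, k2, k3⟩ := exists_many (two_of_not_av hst hn) hD (hDR.trans hRD) hJn
        (by rw [hΦ.1]; exact hVJ.trans r4) hDn (p + 1)
      exact ⟨K, ⟨k1, k3⟩, fun q hq => ⟨(k1 q).1, k2 q hq⟩⟩)
  subst hΦ1
  have hcR : c'.R (anc u p) ⊆ c.R (anc u p) := by
    rw [← hpw]
    exact hR.ext.R w hwS hwne
  have hRR : c.R (anc u p) ⊆ Ro w := by
    rw [← hpw]
    exact r6
  obtain ⟨G', H', Ro', Jo', Eo', hVa, hlab⟩ := v7_fin h hu hp.le hv hR (hR.blw h.blw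
    (fun q hq => (hDh q hq).trans hRD) (hcR.trans hRD)) hΨ1 hΨ2 hV' hVa' hVG (fun e he => (i2 e (hΦ2 he)).2.1)
    (Rn := Ro w) (Jn := Jo w) (En := Eo w) ⟨r1, r2, r3, r4, r5, hcR.trans hRR, (hΦ2.trans i1).trans r7,
      fun q hq => (hDh q hq).trans hRR⟩ (by rw [← hpw, hR.ext.JR w hwS hwne]; exact h.jr w hwS hwne)
    (fun v hvS hvne hpd => h.same v hvS w hwS hvne hwne (by rw [hpd, hpw])) hVJ
  exact ⟨c', G', H', Ro', Jo', Eo', hVa, hR.ext.keep, hlab⟩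

/-- MODULE v7e (size 3): `p = lv u`.

Proof.  `hU` for `c.D (lv u :: u)`, `G u (lv u)`: `R`, `J'`, `E`.  `exists_piece_root` (`n = u.length + 1`), `exists_clopen_agr`: `H' ⊆ J'`; `cell7`; `newr` with `R₀ = R`, `J₀ = J'`, `Jn = H'`, `Ψ` as in `step7a`.  Labels `Ro (lv u :: u) = R`, `Jo = J'`, `Eo = E`. No old `v ≠ []` has `pd v = u`.  (`c'.R u ⊆ R`, `c'.Dh (lv u :: u) q ⊆ R`.) -/
theorem step7b (hs : s.Ok) (hst : s.Star) (hn : Bel s (fun D J => ¬ Av s Top D J) D₀ J₀) (hU : Bel s (USpl s) D₀ J₀)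
    {c : Cfg} {G : List ℕ → ℕ → Set CC} {H : List ℕ → Set CC} {Ro : List ℕ → Set NN} {Jo : List ℕ → Set CC}
    {Eo : List ℕ → Set NN} (h : Va7 s D₀ J₀ c G H Ro Jo Eo) {u : List ℕ} (hu : u ∈ c.S) (hv : lv u :: u ∉ c.S) :
    ∃ c' G' H' Ro' Jo' Eo', Va7 s D₀ J₀ c' G' H' Ro' Jo' Eo' ∧ Keep c c' (lv u :: u) ∧
      ∀ w ∈ c.S, G' w = G w ∧ H' w = H w := by
  have hc := h.dyn
  have hstc := h.stc
  have hnu := hc.nd u hu
  have hau : anc u (lv u) = u := anc_self le_rfl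
  obtain ⟨hperf, hTc, -⟩ := hc.slot (lv u) u hu le_rfl hv
  rw [h.jd (lv u) u hu le_rfl hv] at hperf
  have hDD : c.D (lv u :: u) ⊆ D₀ := h.blw.1 (lv u) u hu le_rfl hv
  obtain ⟨g1, g2⟩ := h.gc u hu (lv u) le_rfl
  obtain ⟨R, J', E, hRc, hRD, hJ', hJJ', hEJ, hgE, hns⟩ := hU _ _ hperf.1 hDD g1 g2 hperf.not_null
  obtain ⟨E₀, hE₀, hg₀, hb₀, ha₀, hh₀⟩ := exists_piece_root hc hstc hu hv hRD hgE (u.length + 1)
  obtain ⟨Hn, hHn, hTH, hHJ, hHa⟩ := exists_clopen_agr hh₀ hJ' (by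
    rintro _ ⟨e, he, rfl⟩
    exact hEJ e (hE₀ he))
  obtain ⟨Q, E', hQ, hE', hgE', hpos⟩ := cell7 hn hRc (hRD.trans hDD) hJ' (hJJ'.trans g2) hHn hHJ hg₀
    fun e he => hTH ⟨e, he, rfl⟩
  obtain ⟨K, c', ⟨hΨ1, hΨ2⟩, hR, hcR, hcJ, hDh⟩ := newr hs hc hstc hu hv
    (fun Jn K => (∀ q, IsClopen (K q) ∧ K q ⊆ Jn) ∧ ∀ q q', q ≠ q' → Disjoint (K q) (K q'))
    hRc hRD hJ' hQ hHn (fun e he => hb₀ e (hE' he)) (fun x hx y hy => ha₀ x (hE' hx) y (hE' hy)) hgE' hpos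
    (fun D hD hDR hDn => by
      obtain ⟨K, k1, k2, k3⟩ := exists_many (two_of_not_av hst hn) hD ((hDR.trans hRD).trans hDD) hHn
        (hHJ.trans (hJJ'.trans g2)) hDn (lv u + 1)
      exact ⟨K, ⟨k1, k3⟩, fun q hq => ⟨(k1 q).1, k2 q hq⟩⟩)
  obtain ⟨-, -, hpd⟩ := dyn_setR hc hstc hv univ univ
  obtain ⟨G', H', Ro', Jo', Eo', hVa, hlab⟩ := v7_fin h hu le_rfl hv hR (hR.blw h.blw
    (fun q hq => (hDh q hq).trans (hRD.trans hDD)) (by rw [hau]; exact hcR.trans (hRD.trans hDD))) hΨ1 hΨ2 hHn hHa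
    (hHJ.trans hJJ') (fun e he => hTH ⟨e, hE' he, rfl⟩)
    (Rn := R) (Jn := J') (En := E) ⟨hRc, hRD.trans hDD, hJ', hJJ'.trans g2, hns, by rw [hau]; exact hcR,
      hE'.trans hE₀, hDh⟩ (by rw [hau]; exact hcJ)
    (fun v hvS hvne hpv => absurd (hpv.trans hau) (hpd v hvS hvne)) hHJ
  exact ⟨c', G', H', Ro', Jo', Eo', hVa, hR.ext.keep, hlab⟩

/-- MODULE w7 (size 1). -/
theorem var7 (hs : s.Ok) (hst : s.Star) (hD : IsClosed D₀) (hJ : IsClopen J₀) (h : ¬ s.Null J₀ D₀)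
    (hn : Bel s (fun D J => ¬ Av s Top D J) D₀ J₀) (hU : Bel s (USpl s) D₀ J₀) :
    ∃ U Dh Eh Q G H, Sch s U Dh Eh Q ∧ St7 s Eh G H := by
  obtain ⟨c, hcS, hc, hst', hD0, hDh0, hJ0⟩ := exists_init hs hD hJ h
  obtain ⟨U, Dh, Eh, Q, L, hSch, hL⟩ := w_lim (s := s)
    (Γ := Cfg × (List ℕ → ℕ → Set CC) × (List ℕ → Set CC) × (List ℕ → Set NN) × (List ℕ → Set CC) × (List ℕ → Set NN))
    (Λ := (ℕ → Set CC) × Set CC) (fun g => g.1) (fun g w => (g.2.1 w, g.2.2.1 w))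
    (fun g => Va7 s D₀ J₀ g.1 g.2.1 g.2.2.1 g.2.2.2.1 g.2.2.2.2.1 g.2.2.2.2.2) (fun g h => ⟨h.dyn, h.stc⟩)
    (c, fun _ _ => J₀, fun _ => ∅, fun _ => ∅, fun _ => ∅, fun _ => ∅) (by
      refine ⟨hc, hst', w_blw hcS hD0 hDh0, fun v hv hne => (w_no hcS hv hne).elim, ?_,
        fun v _ _ _ => ⟨hJ, subset_rfl⟩,
        fun v hv hne => (w_no hcS hv hne).elim, fun v hv v' _ hne => (w_no hcS hv hne).elim,
        fun v hv hne => (w_no hcS hv hne).elim, ?_, ?_, ?_⟩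
      · intro p u hu hp _
        rw [hcS] at hu
        obtain rfl := Finset.mem_singleton.1 hu
        obtain rfl : p = 0 := Nat.le_zero.1 hp
        exact hJ0
      · intro p u hv
        exact (w_no hcS hv (List.cons_ne_nil _ _)).elim
      · intro u hu p q hp hq hpq
        rw [hcS] at hu
        obtain rfl := Finset.mem_singleton.1 hu
        exact absurd ((Nat.le_zero.1 hp).trans (Nat.le_zero.1 hq).symm) hpq
      · intro u hu w hne hw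
        rw [hcS] at hu
        obtain rfl := Finset.mem_singleton.1 hu
        exact absurd (List.suffix_nil.1 hw.suffix) hne) (by
      intro g hg p u hu hp hv
      rcases hp.lt_or_eq with hp | rfl
      · obtain ⟨c', G', H', R', J', E', k1, k2, k3⟩ := step7a hs hst hn hg hu hp hv
        exact ⟨(c', G', H', R', J', E'), k1, k2, fun w hw => Prod.ext (k3 w hw).1 (k3 w hw).2⟩
      · obtain ⟨c', G', H', R', J', E', k1, k2, k3⟩ := step7b hs hst hn hU hg hu hv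
        exact ⟨(c', G', H', R', J', E'), k1, k2, fun w hw => Prod.ext (k3 w hw).1 (k3 w hw).2⟩)
  have hE : ∀ {g : Cfg × (List ℕ → ℕ → Set CC) × (List ℕ → Set CC) × (List ℕ → Set NN) × (List ℕ → Set CC) ×
      (List ℕ → Set NN)} {w : List ℕ},
      ((g.1).Eh w = Eh w ∧ (g.2.1 w, g.2.2.1 w) = L w) → (g.1).Eh w = Eh w ∧ g.2.1 w = (L w).1 ∧
        g.2.2.1 w = (L w).2 := fun h => ⟨h.1, congrArg Prod.fst h.2, congrArg Prod.snd h.2⟩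
  refine ⟨U, Dh, Eh, Q, fun w => (L w).1, fun w => (L w).2, hSch, ?_, ?_, ?_⟩
  · intro v hv hne
    obtain ⟨g, hg, hF, he⟩ := hL {v} (by simpa using hv)
    have hvS := hF (Finset.mem_singleton_self v)
    obtain ⟨e1, e2, e3⟩ := hE (he v hvS)
    obtain ⟨k1, k2, k3, k4⟩ := hg.val v hvS hne
    rw [e1, e3] at k1
    rw [e3] at k2 k3
    rw [e2, e3] at k4
    exact ⟨k1, k2, k3, k4⟩
  · intro p u hv
    obtain ⟨g, hg, hF, he⟩ := hL {p :: u, u} (w_two hv hv.2)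
    have hvS := hF (Finset.mem_insert_self _ _)
    have hvS' := hF (Finset.mem_insert_of_mem (Finset.mem_singleton_self _))
    obtain ⟨-, e2, e3⟩ := hE (he _ hvS)
    obtain ⟨-, e2', e3'⟩ := hE (he _ hvS')
    have k := hg.sub p u hvS
    rw [e3, e2'] at k
    exact k
  · intro u hu p q hp hq hpq
    obtain ⟨g, hg, hF, he⟩ := hL {u} (by simpa using hu)
    have hvS := hF (Finset.mem_singleton_self u)
    obtain ⟨e1, e2, e3⟩ := hE (he u hvS)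
    have k := hg.disj u hvS p q hp hq hpq
    rw [e2] at k
    exact k

end Pool.Agent.Bs2
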