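import Pool.Agent.Bs2.Asd
import Pool.Agent.Bs2.Bc
import Pool.Agent.Bs2.VarB

/-!
# Types of functions on the branches, final assembly
-/

set_option autoImplicit false

open Set Filter Topology TopologicalSpace
open scoped Classical

namespace Pool.Agent.Bs2

/-- The convergence relations on the side of `AA`. -/
def RelA (i : Fin 3) (w : ℕ → ℕ → ℕ) (x : ℕ → ℕ) : Prop :=
  (i = 1 → Tendsto w atTop (𝓝 x)) ∧ (i = 2 → ∀ j st, Stab x j st → ∀ᶠ n in atTop, Stab (w n) j st)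

/-- The convergence relations on the side of the cells. -/
def RelB (j : Fin 6) (w : ℕ → ℕ → ℕ) (x : ℕ → ℕ) : Prop :=
  (j = 1 → ∀ r, x ∈ Cel r → ∀ᶠ n in atTop, w n ∈ Cel r) ∧
  (j = 2 → Tendsto w atTop (𝓝 x) ∧ ∀ r, x ∈ Cel r → ∀ᶠ n in atTop, w n ∈ Cel r) ∧
  (j = 3 → ∀ r, x ∈ Cel r → ∀ F : Finset (List ℕ), ∀ᶠ n in atTop, w n ∈ Cel r ∨
    ∃ r' t, w n ∈ Cel r' ∧ t ≠ [] ∧ pd t = r ∧ Tp t r' ∧ t ∉ F) ∧
  (j = 4 → ∀ r, x ∈ Cel r → ∀ m, pd (pre x (m + 1)) = r → ∀ᶠ n in atTop,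
    (w n ∈ Cel r ∧ pre (w n) (m + 1) = pre x (m + 1)) ∨
      ∃ r' t, w n ∈ Cel r' ∧ t ≠ [] ∧ pd t = r ∧ Tp t r' ∧ pre x (m + 1) <:+ t ∧ t ≠ pre x (m + 1)) ∧
  (j = 5 → Tendsto w atTop (𝓝 x))

/-- The function `g` on the branches has the type `(i, j)`. -/
structure Typ (i : Fin 3) (j : Fin 6) (g : Tr → CC) : Prop where
  clopen : ∃ V : Set CC, IsClopen V ∧ ∀ x : Tr, g x ∈ V ↔ (x : ℕ → ℕ) ∈ AA
  a : ∀ (w : ℕ → Tr) (x : Tr), (x : ℕ → ℕ) ∈ AA → (∀ n, (w n : ℕ → ℕ) ∈ AA) →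
    (Tendsto (fun n => g (w n)) atTop (𝓝 (g x)) ↔ RelA i (fun n => w n) x)
  b : ∀ (w : ℕ → Tr) (x : Tr), (x : ℕ → ℕ) ∉ AA → (∀ n, (w n : ℕ → ℕ) ∉ AA) →
    (Tendsto (fun n => g (w n)) atTop (𝓝 (g x)) ↔ RelB j (fun n => w n) x)

private theorem z1_tendsto {i : Fin 3} {j : Fin 6} {g g' : Tr → CC} (h : Typ i j g) (h' : Typ i j g') {w : ℕ → Tr}
    {x : Tr} (hw : Tendsto (fun n => g (w n)) atTop (𝓝 (g x))) : Tendsto (fun n => g' (w n)) atTop (𝓝 (g' x)) := by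
  obtain ⟨V, hV, hVA⟩ := h.clopen
  by_cases hx : (x : ℕ → ℕ) ∈ AA
  · have h1 : ∀ᶠ n in atTop, (w n : ℕ → ℕ) ∈ AA := by
      have h2 : ∀ᶠ n in atTop, g (w n) ∈ V := hw (hV.isOpen.mem_nhds ((hVA x).2 hx))
      exact h2.mono fun n hn => (hVA _).1 hn
    have h3 : ∀ᶠ n in atTop, (if (w n : ℕ → ℕ) ∈ AA then w n else x) = w n := h1.mono fun n hn => if_pos hn
    have h4 : ∀ n, ((if (w n : ℕ → ℕ) ∈ AA then w n else x : Tr) : ℕ → ℕ) ∈ AA := by
      intro n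
      by_cases hn : (w n : ℕ → ℕ) ∈ AA
      · rw [if_pos hn]
        exact hn
      · rw [if_neg hn]
        exact hx
    have h5 := (h.a (fun n => if (w n : ℕ → ℕ) ∈ AA then w n else x) x hx h4).1
      (hw.congr' (h3.mono fun n hn => (congrArg g hn).symm))
    have h6 := (h'.a (fun n => if (w n : ℕ → ℕ) ∈ AA then w n else x) x hx h4).2 h5
    exact h6.congr' (h3.mono fun n hn => congrArg g' hn)
  · have h1 : ∀ᶠ n in atTop, (w n : ℕ → ℕ) ∉ AA := by
      have h2 : ∀ᶠ n in atTop, g (w n) ∈ Vᶜ := hw (hV.compl.isOpen.mem_nhds fun hc => hx ((hVA x).1 hc))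
      exact h2.mono fun n hn hc => hn ((hVA _).2 hc)
    have h3 : ∀ᶠ n in atTop, (if (w n : ℕ → ℕ) ∉ AA then w n else x) = w n := h1.mono fun n hn => if_pos hn
    have h4 : ∀ n, ((if (w n : ℕ → ℕ) ∉ AA then w n else x : Tr) : ℕ → ℕ) ∉ AA := by
      intro n
      by_cases hn : (w n : ℕ → ℕ) ∉ AA
      · rw [if_pos hn]
        exact hn
      · rw [if_neg hn]
        exact hx
    have h5 := (h.b (fun n => if (w n : ℕ → ℕ) ∉ AA then w n else x) x hx h4).1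
      (hw.congr' (h3.mono fun n hn => (congrArg g hn).symm))
    have h6 := (h'.b (fun n => if (w n : ℕ → ℕ) ∉ AA then w n else x) x hx h4).2 h5
    exact h6.congr' (h3.mono fun n hn => congrArg g' hn)

private theorem z1_eq {i : Fin 3} {j : Fin 6} {g g' : Tr → CC} (h : Typ i j g) (h' : Typ i j g') {x x' : Tr}
    (hx : g x = g x') : g' x = g' x' := by
  have h1 : Tendsto (fun _ : ℕ => g x) atTop (𝓝 (g x')) := by
    rw [← hx]
    exact tendsto_const_nhds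
  have h2 := z1_tendsto h h' (w := fun _ => x) h1
  exact tendsto_nhds_unique tendsto_const_nhds h2

private theorem z1_map {i : Fin 3} {j : Fin 6} {g g' : Tr → CC} (h : Typ i j g) (h' : Typ i j g') :
    ∃ τ : range g → range g', Continuous τ ∧ ∀ x, (τ ⟨g x, mem_range_self x⟩ : CC) = g' x := by
  have hc : ∀ y : range g, ∃ x, g x = y := fun y => y.2
  choose c hc using hc
  refine ⟨fun y => ⟨g' (c y), mem_range_self _⟩, ?_, fun x => z1_eq h h' (hc ⟨g x, mem_range_self x⟩)⟩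
  rw [continuous_iff_seqContinuous]
  intro y x hy
  rw [tendsto_subtype_rng] at hy ⊢
  have h1 : Tendsto (fun n => g (c (y n))) atTop (𝓝 (g (c x))) := by
    simp only [hc]
    exact hy
  exact z1_tendsto h h' h1

/-- MODULE z1 (size 2): functions of the same type have homeomorphic images.

Proof.  Claim: `Tendsto (g ∘ w) (𝓝 (g x)) → Tendsto (g' ∘ w) (𝓝 (g' x))` for all `w : ℕ → Tr`, `x`: by `clopen` eventually `w n ∈ AA ↔ x ∈ AA`; replace the finitely many other `w n` by `x` and use `a` or `b` for `g` and `g'`.  With constant sequences: `g x = g x'` implies `g' x = g' x'`.  So `τ (g x) = g' x` is a well defined bijection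
`range g → range g'`, sequentially continuous in both directions, so a homeomorphism. -/
theorem Typ.homeo {i : Fin 3} {j : Fin 6} {g g' : Tr → CC} (h : Typ i j g) (h' : Typ i j g') :
    ∃ τ : range g → range g', IsEmbedding τ ∧ ∀ x, (τ ⟨g x, mem_range_self x⟩ : CC) = g' x := by
  obtain ⟨τ, hτ, hτe⟩ := z1_map h h'
  obtain ⟨τ', hτ', hτe'⟩ := z1_map h' h
  refine ⟨τ, ?_, hτe⟩
  have hl : Function.LeftInverse τ' τ := by
    rintro ⟨_, x, rfl⟩
    have h1 : τ ⟨g x, mem_range_self x⟩ = ⟨g' x, mem_range_self x⟩ := Subtype.ext (hτe x)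
    apply Subtype.ext
    show (τ' (τ ⟨g x, mem_range_self x⟩) : CC) = g x
    rw [h1]
    exact hτe' x
  exact hl.isEmbedding hτ' hτ

private theorem z2_lift {S : Set Tr} (h : Sig3 S) : ∃ G : Set (ℕ → ℕ), Sig3 G ∧ Subtype.val ⁻¹' G = S := by
  obtain ⟨G, hG, rfl⟩ := h
  have h1 : ∀ n, ∃ G' : Set (ℕ → ℕ), IsGδ G' ∧ Subtype.val ⁻¹' G' = G n := by
    intro n
    obtain ⟨T, hT, hTc, hTe⟩ := hG n
    have h2 : ∀ t : T, ∃ U : Set (ℕ → ℕ), IsOpen U ∧ Subtype.val ⁻¹' U = t.1 := fun t => hT t.1 t.2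
    choose U hU hUe using h2
    have : Countable T := hTc.to_subtype
    refine ⟨⋂ t, U t, IsGδ.iInter_of_isOpen hU, ?_⟩
    rw [preimage_iInter, hTe, sInter_eq_iInter]
    exact iInter_congr hUe
  choose G' hG' hGe using h1
  refine ⟨⋃ n, G' n, ⟨G', hG', rfl⟩, ?_⟩
  rw [preimage_iUnion]
  exact iUnion_congr hGe

private theorem z2_not {S : Set Tr} (hS : ∀ x : Tr, x ∈ S ↔ (x : ℕ → ℕ) ∈ AA) : ¬ Sig3 S := by
  intro h
  obtain ⟨G, hG, hGe⟩ := z2_lift h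
  refine AA_not_sig3 G hG fun x hx => ?_
  have h1 : (⟨x, hx⟩ : Tr) ∈ S ↔ x ∈ AA := hS ⟨x, hx⟩
  rw [← hGe] at h1
  exact h1

/-- MODULE z2 (size 1): `AA_not_sig3`, `sig3_of_baireClass`: `{x : Tr | x ∈ AA} = g ⁻¹' V`; the image under the closed embedding `Tr → (ℕ → ℕ)` of a countable union of `G_δ` sets is one. -/
theorem Typ.not_baireClass {i : Fin 3} {j : Fin 6} {g : Tr → CC} (h : Typ i j g) : ¬ BaireClass 2 g := by
  intro hb
  obtain ⟨V, hV, hVA⟩ := h.clopen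
  exact z2_not hVA (sig3_of_baireClass hb hV)

/-- MODULE z3 (size 1): the upper bound property: if `g` has a type and `(Tr, g)` embeds in `F` then `F.f` is not of Baire class 2.

Proof.  `AA = g ⁻¹' V = σ ⁻¹' (F.f ⁻¹' W)` where `W` is open in `F.Y` with `W ∩ τ (range g) = τ (V ∩ range g)` (`τ` embedding into `range F.f`); `sig3_of_baireClass_open`, `Sig3.preimage`. -/
theorem Typ.up {i : Fin 3} {j : Fin 6} {g : Tr → CC} (h : Typ i j g) {F : BorelFn} {σ : Tr → F.X}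
    {τ : range g → range F.f} (hσ : IsEmbedding σ) (hτ : IsEmbedding τ)
    (hc : ∀ x, (τ ⟨g x, mem_range_self x⟩ : F.Y) = F.f (σ x)) : ¬ BaireClass 2 F.f := by
  intro hb
  obtain ⟨V, hV, hVA⟩ := h.clopen
  have h1 : IsOpen (Subtype.val ⁻¹' V : Set (range g)) := hV.isOpen.preimage continuous_subtype_val
  obtain ⟨W', hW', hWe'⟩ := hτ.isInducing.isOpen_iff.1 h1
  obtain ⟨W, hW, rfl⟩ := isOpen_induced_iff.1 hW'
  have h2 : Sig3 (σ ⁻¹' (F.f ⁻¹' W)) := (sig3_of_baireClass_open F.zeroY hb hW).preimage hσ.continuous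
  refine z2_not (fun x => ?_) h2
  have h3 : (⟨g x, mem_range_self x⟩ : range g) ∈ τ ⁻¹' (Subtype.val ⁻¹' W) ↔ g x ∈ V := by
    rw [hWe']
    exact Iff.rfl
  rw [← hVA x, ← h3, mem_preimage, mem_preimage, mem_preimage, mem_preimage, hc x]

private theorem z4_cel {x : ℕ → ℕ} {r : List ℕ} (hx : x ∈ Cel r) {P : List ℕ → Prop} :
    (∀ r', x ∈ Cel r' → P r') ↔ P r :=
  ⟨fun h => h r hx, fun h r' hr' => by rw [Cel.unique hr' hx]; exact h⟩

/-- MODULE z4 (size 2): the values on the side of the cells for a system with `Star` or constant `h`.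

Proof.  Constant `h`: `var1`, `j = 0` (both sides true).  `Star`: `dich`, and for the five cases `var2` .. `var7`, `exists_rea`, `ty2` .. `ty7`. (`RelB` for a `w` with all `w n ∈ Tr`, `∉ AA`; `exists_cel`, `Cel.unique`.) -/
theorem exists_rea_typ {s : Sys} (hs : s.Ok) (hst : s.Star ∨ ∃ y, ∀ e, s.h e = y) :
    ∃ U Dh Eh Q ψ zz ee, Sch s U Dh Eh Q ∧ Rea s Dh Eh ψ zz ee ∧ ∃ j : Fin 6, ∀ (w : ℕ → ℕ → ℕ) (x : ℕ → ℕ), x ∈ Tr → x ∉ AA →
      (∀ n, w n ∈ Tr ∧ w n ∉ AA) → (Tendsto (fun n => s.h (ee (w n))) atTop (𝓝 (s.h (ee x))) ↔ RelB j w x) := by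
  rcases hst with hst | ⟨y, hy⟩
  · obtain ⟨D, J, hD, hJ, hn, hC⟩ := dich hs
    cases hC with
    | b2 hB =>
      obtain ⟨U, Dh, Eh, Q, G, y, hS, ht⟩ := var2 hs hD hJ hn hB
      obtain ⟨ψ, zz, ee, hR⟩ := exists_rea hS
      refine ⟨U, Dh, Eh, Q, ψ, zz, ee, hS, hR, 1, fun w x hx hxA hw => ?_⟩
      obtain ⟨r, -, hr⟩ := exists_cel hx hxA
      rw [ty2 hR ht hr hw]
      exact ⟨fun h => ⟨fun _ => (z4_cel hr (P := fun r => ∀ᶠ n in atTop, w n ∈ Cel r)).2 h,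
        fun e => absurd e (by decide), fun e => absurd e (by decide), fun e => absurd e (by decide),
        fun e => absurd e (by decide)⟩, fun h => h.1 rfl r hr⟩
    | b3 hB hB' =>
      obtain ⟨U, Dh, Eh, Q, G, H, hS, ht⟩ := var3 hs hD hJ hn hB hB'
      obtain ⟨ψ, zz, ee, hR⟩ := exists_rea hS
      refine ⟨U, Dh, Eh, Q, ψ, zz, ee, hS, hR, 2, fun w x hx hxA hw => ?_⟩
      obtain ⟨r, -, hr⟩ := exists_cel hx hxA
      rw [ty3 hR ht hr hw]
      exact ⟨fun h => ⟨fun e => absurd e (by decide),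
        fun _ => ⟨h.1, (z4_cel hr (P := fun r => ∀ᶠ n in atTop, w n ∈ Cel r)).2 h.2⟩,
        fun e => absurd e (by decide), fun e => absurd e (by decide), fun e => absurd e (by decide)⟩,
        fun h => ⟨(h.2.1 rfl).1, (h.2.1 rfl).2 r hr⟩⟩
    | b4 hB hC =>
      obtain ⟨U, Dh, Eh, Q, G, y, hS, ht⟩ := var4 hs hst hD hJ hn hB hC
      obtain ⟨ψ, zz, ee, hR⟩ := exists_rea hS
      refine ⟨U, Dh, Eh, Q, ψ, zz, ee, hS, hR, 3, fun w x hx hxA hw => ?_⟩
      obtain ⟨r, -, hr⟩ := exists_cel hx hxA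
      rw [ty4 hR ht hr hw]
      exact ⟨fun h => ⟨fun e => absurd e (by decide), fun e => absurd e (by decide),
        fun _ => (z4_cel hr (P := fun r => ∀ F : Finset (List ℕ), ∀ᶠ n in atTop, w n ∈ Cel r ∨
          ∃ r' t, w n ∈ Cel r' ∧ t ≠ [] ∧ pd t = r ∧ Tp t r' ∧ t ∉ F)).2 h,
        fun e => absurd e (by decide), fun e => absurd e (by decide)⟩, fun h => h.2.2.1 rfl r hr⟩
    | b5 hB hC hA =>
      obtain ⟨U, Dh, Eh, Q, G, H, M, hS, ht⟩ := var5 hs hD hJ hn hB hC hA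
      obtain ⟨ψ, zz, ee, hR⟩ := exists_rea hS
      refine ⟨U, Dh, Eh, Q, ψ, zz, ee, hS, hR, 4, fun w x hx hxA hw => ?_⟩
      obtain ⟨r, -, hr⟩ := exists_cel hx hxA
      rw [ty5 hR ht hr hw]
      exact ⟨fun h => ⟨fun e => absurd e (by decide), fun e => absurd e (by decide), fun e => absurd e (by decide),
        fun _ => (z4_cel hr (P := fun r => ∀ m, pd (pre x (m + 1)) = r → ∀ᶠ n in atTop,
          (w n ∈ Cel r ∧ pre (w n) (m + 1) = pre x (m + 1)) ∨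
            ∃ r' t, w n ∈ Cel r' ∧ t ≠ [] ∧ pd t = r ∧ Tp t r' ∧ pre x (m + 1) <:+ t ∧ t ≠ pre x (m + 1))).2 h,
        fun e => absurd e (by decide)⟩, fun h => h.2.2.2.1 rfl r hr⟩
    | b7 hB hU =>
      obtain ⟨U, Dh, Eh, Q, G, H, hS, ht⟩ := var7 hs hst hD hJ hn hB hU
      obtain ⟨ψ, zz, ee, hR⟩ := exists_rea hS
      refine ⟨U, Dh, Eh, Q, ψ, zz, ee, hS, hR, 5, fun w x hx hxA hw => ?_⟩
      obtain ⟨r, -, hr⟩ := exists_cel hx hxA
      rw [ty7 hR ht hr hw]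
      exact ⟨fun h => ⟨fun e => absurd e (by decide), fun e => absurd e (by decide), fun e => absurd e (by decide),
        fun e => absurd e (by decide), fun _ => h⟩, fun h => h.2.2.2.2 rfl⟩
  · obtain ⟨U, Dh, Eh, Q, hS⟩ := var1 hs
    obtain ⟨ψ, zz, ee, hR⟩ := exists_rea hS
    refine ⟨U, Dh, Eh, Q, ψ, zz, ee, hS, hR, 0, fun w x _ _ _ => ?_⟩
    simp only [hy]
    exact ⟨fun _ => ⟨fun e => absurd e (by decide), fun e => absurd e (by decide), fun e => absurd e (by decide),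
      fun e => absurd e (by decide), fun e => absurd e (by decide)⟩, fun _ => tendsto_const_nhds⟩

private theorem z5_fin (i : Fin 3) : i = 0 ∨ i = 1 ∨ i = 2 := by
  revert i
  decide

/-- MODULE z5 (size 2).

Proof.  `V` clopen with `F.f ⁻¹' V` not `Sig3` (`baireClass_two`); `ιX` from `exists_emb`, `ιY` from `exists_emb` with `ιY ⁻¹' V' = V`; `exists_itf`, `exists_rea_typ`.  For `x ∈ Tr` there is `φ x` with `ιX (φ x) = p 0 (ψ x)`, `φ x ∈ F.f ⁻¹' V ↔ x ∈ AA` (`Itf.a`, `Itf.b`); `ιX ∘ φ` is continuous and injective (`Rea.inj 0`), so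
`φ` is an embedding of the compact space `Tr`.  `g x = ιY (F.f (φ x))`: `clopen` with `V'`.  `a`: `i = 0`: `g` constant on `AA`, `i = 1`: `g x = p 1 (ψ x)`, `Rea.tendsto_p`; `i = 2`: `g x = k (zz x)`, `Rea.tendsto_k`.  `b`: `g x = h (ee x)` (`Itf.b`, injectivity of `ιX`). -/
theorem exists_typ (F : BorelFn) (h : ¬ BaireClass 2 F.f) : ∃ (i : Fin 3) (j : Fin 6) (φ : Tr → F.X) (ι : F.Y → CC),
    IsEmbedding φ ∧ IsEmbedding ι ∧ Typ i j fun x => ι (F.f (φ x)) := by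
  obtain ⟨V, hV, hVs⟩ : ∃ V : Set F.Y, IsClopen V ∧ ¬ Sig3 (F.f ⁻¹' V) := by
    by_contra hcon
    push Not at hcon
    exact h (baireClass_two F.zeroX F.zeroY hcon)
  obtain ⟨ιX, hX, -⟩ := exists_emb F.zeroX isClopen_univ
  obtain ⟨ιY, hY, V', hV', hVV⟩ := exists_emb F.zeroY hV
  obtain ⟨i, s, hI⟩ := exists_itf hX hY hV hVs
  obtain ⟨U, Dh, Eh, Q, ψ, zz, ee, hS, hR, j, hj⟩ := exists_rea_typ hI.ok hI.star
  have hφ : ∀ x : Tr, ∃ x' : F.X, ιX x' = s.p 0 (ψ x) ∧ (x' ∈ F.f ⁻¹' V ↔ (x : ℕ → ℕ) ∈ AA) ∧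
      ((x : ℕ → ℕ) ∉ AA → ιY (F.f x') = s.h (ee x)) := by
    rintro ⟨x, hx⟩
    by_cases hA : x ∈ AA
    · obtain ⟨x', h1, h2⟩ := hI.a (zz x)
      exact ⟨x', by rw [h2, hR.a x hA], ⟨fun _ => hA, fun _ => h1⟩, fun e => absurd hA e⟩
    · obtain ⟨r, -, hr⟩ := exists_cel hx hA
      obtain ⟨x', h1, h2, h3⟩ := hI.b (ee x)
      exact ⟨x', by rw [h2, hR.b r x hr], ⟨fun e => absurd e h1, fun e => absurd e hA⟩, fun _ => h3⟩
  choose φ h1 h2 h3 using hφ
  have hc : Continuous φ := by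
    rw [hX.continuous_iff]
    have e : ιX ∘ φ = fun x : Tr => s.p 0 (ψ x) := funext h1
    rw [e]
    exact (s.cp 0).comp (continuousOn_iff_continuous_domRestrict.1 hR.cont)
  have hinj : Function.Injective φ := by
    intro x y hxy
    refine Subtype.ext (hR.inj 0 x.2 y.2 ?_)
    show s.p 0 (ψ x) = s.p 0 (ψ y)
    rw [← h1 x, ← h1 y, hxy]
  have : CompactSpace Tr := isCompact_iff_compactSpace.1 isCompact_Tr
  have hAg : ∀ x : Tr, (x : ℕ → ℕ) ∈ AA → φ x ∈ F.f ⁻¹' V ∧ ιX (φ x) = s.p 0 (s.a (zz x)) := fun x hx =>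
    ⟨(h2 x).2 hx, by rw [h1 x, hR.a x hx]⟩
  refine ⟨i, j, φ, ιY, (hc.isClosedEmbedding hinj).isEmbedding, hY, ⟨⟨V', hV', fun x => ?_⟩, ?_, ?_⟩⟩
  · rw [← h2 x, ← hVV]
    rfl
  · intro w x hx hw
    rcases z5_fin i with hi | hi | hi
    · obtain ⟨y, hy⟩ := hI.a0 hi
      have e : ∀ x : Tr, (x : ℕ → ℕ) ∈ AA → F.f (φ x) = y := fun x hx => hy (zz x) _ (hAg x hx).1 (hAg x hx).2
      simp only [e x hx, fun n => e (w n) (hw n)]
      refine ⟨fun _ => ⟨fun e => absurd (hi.symm.trans e) (by decide), fun e => absurd (hi.symm.trans e) (by decide)⟩,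
        fun _ => tendsto_const_nhds⟩
    · have e : ∀ x : Tr, (x : ℕ → ℕ) ∈ AA → ιY (F.f (φ x)) = s.p 1 (ψ x) := fun x hx => by
        rw [hI.a1 hi (zz x) _ (hAg x hx).1 (hAg x hx).2, hR.a x hx]
      simp only [e x hx, fun n => e (w n) (hw n)]
      rw [hR.tendsto_p 1 (y := fun n => (w n : ℕ → ℕ)) (fun n => (w n).2) x.2]
      exact ⟨fun h => ⟨fun _ => h, fun e => absurd (hi.symm.trans e) (by decide)⟩, fun h => h.1 hi⟩
    · have e : ∀ x : Tr, (x : ℕ → ℕ) ∈ AA → ιY (F.f (φ x)) = s.k (zz x) := fun x hx =>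
        hI.a2 hi (zz x) _ (hAg x hx).1 (hAg x hx).2
      simp only [e x hx, fun n => e (w n) (hw n)]
      rw [hR.tendsto_k hS (y := fun n => (w n : ℕ → ℕ)) hw hx]
      exact ⟨fun h => ⟨fun e => absurd (hi.symm.trans e) (by decide), fun _ => h⟩, fun h => h.2 hi⟩
  · intro w x hx hw
    simp only [h3 x hx, fun n => h3 (w n) (hw n)]
    exact hj (fun n => w n) x x.2 hx fun n => ⟨(w n).2, hw n⟩

/-- The zero-dimensional Polish spaces `Tr` and `CC`. MODULE z6 (size 1). -/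
theorem zero_Tr : IsTopologicalBasis {U : Set Tr | IsClopen U} := by
  have : CompactSpace Tr := isCompact_iff_compactSpace.1 isCompact_Tr
  exact isTopologicalBasis_isClopen

theorem zero_CC : IsTopologicalBasis {U : Set CC | IsClopen U} := by
  exact isTopologicalBasis_isClopen

theorem polish_Tr : PolishSpace Tr := by
  exact isClosed_Tr.polishSpace

/-- MODULE z7 (size 2): the final theorem.

Proof.  Let `P` be the (finite) type of the pairs `(i, j)` for which there is a function `g : Tr → CC` of type `(i, j)` with Borel preimages of open sets; `n = card P ≤ 18`, `B` the chosen functions.  `←`: `Typ.up`.  `→`: `exists_typ`, `g' = ι ∘ F.f ∘ φ` is Borel, so `(i, j) ∈ P`; `Typ.homeo` for the chosen `g` and `g'`; `range g' ≃ range (F.f ∘ φ) ⊆ range F.f` by `ι`. -/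
theorem main : ∃ n ≤ 18, ∃ B : Fin n → BorelFn, (∀ i, ¬ BaireClass 2 (B i).f) ∧
    ∀ F : BorelFn, ¬ BaireClass 2 F.f ↔ ∃ i, (B i).Emb F := by
  let P : Finset (Fin 3 × Fin 6) := Finset.univ.filter fun q => ∃ g : Tr → CC, Typ q.1 q.2 g ∧
    ∀ V : Set CC, IsOpen V → @MeasurableSet Tr (borel Tr) (g ⁻¹' V)
  have hP : ∀ q : P, ∃ g : Tr → CC, Typ q.1.1 q.1.2 g ∧
      ∀ V : Set CC, IsOpen V → @MeasurableSet Tr (borel Tr) (g ⁻¹' V) := fun q => (Finset.mem_filter.1 q.2).2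
  choose g hg hgB using hP
  have := polish_Tr
  have : PolishSpace CC := { }
  let e := P.equivFin
  refine ⟨P.card, ?_, fun k => ⟨Tr, CC, zero_Tr, zero_CC, g (e.symm k), hgB (e.symm k)⟩, ?_, ?_⟩
  · exact P.card_le_univ.trans (by simp)
  · intro k
    exact (hg (e.symm k)).not_baireClass
  · intro F
    constructor
    · intro hF
      obtain ⟨i, j, φ, ι, hφ, hι, ht⟩ := exists_typ F hF
      have hq : (i, j) ∈ P := by
        refine Finset.mem_filter.2 ⟨Finset.mem_univ _, _, ht, fun V hV => ?_⟩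
        exact hφ.continuous.borel_measurable (F.borelf _ (hV.preimage hι.continuous))
      have key : ∀ q : P, q.1 = (i, j) → ∃ (σ : Tr → F.X) (τ : range (g q) → range F.f), IsEmbedding σ ∧
          IsEmbedding τ ∧ ∀ x, (τ ⟨g q x, mem_range_self x⟩ : F.Y) = F.f (σ x) := by
        intro q hq
        have hgq := hg q
        rw [hq] at hgq
        obtain ⟨τ, hτ, hτg⟩ := hgq.homeo ht
        choose ξ hξ using fun z : range (fun x => ι (F.f (φ x))) => z.2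
        let ρ : range (fun x => ι (F.f (φ x))) → range F.f := fun z => ⟨F.f (φ (ξ z)), mem_range_self _⟩
        have hj : IsEmbedding (fun w : range F.f => ι w.1) := hι.comp IsEmbedding.subtypeVal
        have hjρ : (fun w : range F.f => ι w.1) ∘ ρ = Subtype.val := funext hξ
        have hρ : IsEmbedding ρ := by
          rw [← hj.of_comp_iff, hjρ]
          exact IsEmbedding.subtypeVal
        refine ⟨φ, ρ ∘ τ, hφ, hρ.comp hτ, fun x => hι.injective ?_⟩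
        rw [← hτg x]
        exact congrFun hjρ (τ ⟨g q x, mem_range_self x⟩)
      obtain ⟨σ, τ, h1, h2, h3⟩ := key (e.symm (e ⟨(i, j), hq⟩)) (by rw [Equiv.symm_apply_apply])
      exact ⟨e ⟨(i, j), hq⟩, σ, τ, h1, h2, h3⟩
    · rintro ⟨k, σ, τ, hσ, hτ, hc⟩
      exact (hg (e.symm k)).up hσ hτ hc

end Pool.Agent.Bs2
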