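import Pool.Agent.Bs2.Step
import Pool.Agent.Bs2.Dich

/-!
# Opening a new root in the sum case
-/

set_option autoImplicit false

open Set Filter Topology TopologicalSpace
open scoped Classical

namespace Pool.Agent.Bs2

variable {s : Sys} {c : Cfg}

/-- MODULE h1 (size 1). -/
theorem fam_jo {J : Set CC} (hJ : IsClopen J) (hg : Glob c J) {Η : ℕ → Set CC} {I : Finset ℕ}
    (hH : ∀ i ∈ I, IsClopen (Η i)) (hd : ∀ i ∈ I, ∀ j ∈ I, i ≠ j → Disjoint (Η i) (Η j)) :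
    Fam c I fun i => jo (J \ Η i) := by
  have key : ∀ i ∈ I, ∀ j ∈ I, i ≠ j → J ⊆ (J \ Η i) ∪ (J \ Η j) := by
    intro i hi j hj hij y hy
    by_cases h : y ∈ Η i
    · exact .inr ⟨hy, fun h' => (hd i hi j hj hij).le_bot ⟨h, h'⟩⟩
    · exact .inl ⟨hy, h⟩
  exact {
    kRc := fun _ _ _ => isClosed_univ
    kEc := fun _ _ _ => isClopen_univ
    mR := fun _ _ _ _ _ _ => union_self _
    mE := fun _ _ _ _ _ _ => union_self _
    cJR := fun i hi _ _ _ => hJ.diff (hH i hi)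
    mJR := fun i hi j hj hij v hv hne => by rw [hg.1 v hv hne]; exact key i hi j hj hij
    cJD := fun i hi _ _ _ _ _ => hJ.diff (hH i hi)
    mJD := fun i hi j hj hij p u hu hp hv => by rw [hg.2 p u hu hp hv]; exact key i hi j hj hij }

/-- MODULE h2 (size 3).

Proof.  `D = c.D (lv u :: u) ⊆ Tc c.E u`, `t = tb (lv u)`; for clopen `Η` let `R^Η = D ∩ TO s c (jo (J \ Η)) u`.  Suppose the claim is wrong.  Construct `Η m`, `P m`, `R m`, `J m` (`m ≤ t + 1`; by induction on `m` prove the existence of a finite sequence, or of: closed `R ⊆ D`, clopen `J' ⊆ J₁`,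
disjoint `Η k` (`k < m`), closed `P k`, with `J' ∩ Η k = ∅`, `Η k ⊆ J₁`, `R ⊆ rs D (P k)` [so `R ∩ R^(Η k) ⊆ rs (R^(Η k)) (P k)`], `rs (R^(Η k)) (P k)` null for `J \ Η k`, and `R` not `J'`-null).  Step: `hav` for `(J', R)` gives `Η ⊆ J'`, `E`
with values in `Η`, `C E`, good for `(R, J' \ Η)`, so for `(D, J' \ Η)`.  If `E` is good for `(R^Η, J \ Η)` we have the claim with `J₂ = J' \ Η` (`D` is not `J₂`-null because `rs R E` is not). Otherwise `exists_null_piece`: clopen `W`, `P = E ∩ W` nonempty, `rs (R^Η) P` null for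
`J \ Η`; new `R' = rs R P`, `J'' = J' \ Η`; `R'` is not `J''`-null (`E` is good).  For `m = t + 1`: every `z ∈ R` is in one of the `R^(Η k)` (`mult_TO` for the family `fam_jo` on `range (t + 1)`), `R ∩ R^(Η k)` is `(J \ Η k)`-null so `J'`-null; so `R` is `J'`-null
(`null_biUnion`). Contradiction. -/
theorem av_step (hc : Dyn s c) {J : Set CC} (hJ : IsClopen J) (hg : Glob c J) {u : List ℕ}
    (hu : u ∈ c.S) (hv : lv u :: u ∉ c.S) {C : Set NN → Prop} (hC : ∀ E E', E' ⊆ E → C E → C E')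
    (hav : ∀ J' D, IsClopen J' → J' ⊆ J → IsClosed D → D ⊆ c.D (lv u :: u) → ¬ s.Null J' D → Av s C D J')
    {J₁ : Set CC} (hJ₁ : IsClopen J₁) (hJJ : J₁ ⊆ J) (hpos : ¬ s.Null J₁ (c.D (lv u :: u))) :
    ∃ Η J₂ E, IsClopen Η ∧ Η ⊆ J₁ ∧ IsClopen J₂ ∧ J₂ ⊆ J₁ \ Η ∧ ¬ s.Null J₂ (c.D (lv u :: u)) ∧
      (∀ e ∈ E, s.h e ∈ Η) ∧ C E ∧ s.Good (c.D (lv u :: u) ∩ TO s c (jo (J \ Η)) u) (J \ Η) E := by
  have hD := (hc.slot (lv u) u hu le_rfl hv).1.1
  have hDT := (hc.slot (lv u) u hu le_rfl hv).2.1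
  by_contra hcon
  have H : ∀ m : ℕ, ∃ (Η : ℕ → Set CC) (P : ℕ → Set NN) (R : Set NN) (J' : Set CC), IsClosed R ∧
      R ⊆ c.D (lv u :: u) ∧ IsClopen J' ∧ J' ⊆ J₁ ∧ ¬ s.Null J' R ∧
      (∀ k < m, IsClopen (Η k) ∧ Η k ⊆ J₁ ∧ Disjoint J' (Η k) ∧ R ⊆ s.rs (c.D (lv u :: u)) (P k) ∧
        s.Null (J \ Η k) (s.rs (c.D (lv u :: u) ∩ TO s c (jo (J \ Η k)) u) (P k))) ∧
      ∀ k < m, ∀ k' < m, k ≠ k' → Disjoint (Η k) (Η k') := by
    intro m
    induction m with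
    | zero =>
      exact ⟨fun _ => ∅, fun _ => ∅, c.D (lv u :: u), J₁, hD, Subset.rfl, hJ₁, Subset.rfl, hpos,
        fun k hk => absurd hk (Nat.not_lt_zero k), fun k hk => absurd hk (Nat.not_lt_zero k)⟩
    | succ m ih =>
      obtain ⟨Η, P, R, J', hR, hRD, hJ', hJ'1, hn, h1, h2⟩ := ih
      obtain ⟨Η₀, E, hH, hHJ, hE, hCE, hG⟩ := hav J' R hJ' (hJ'1.trans hJJ) hR hRD hn
      by_cases hgood : s.Good (c.D (lv u :: u) ∩ TO s c (jo (J \ Η₀)) u) (J \ Η₀) E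
      · refine absurd ⟨Η₀, J' \ Η₀, E, hH, hHJ.trans hJ'1, hJ'.diff hH, diff_subset_diff_left hJ'1, ?_, hE, hCE,
          hgood⟩ hcon
        intro h0
        exact hG.pos (h0.mono Subset.rfl (Sys.rs_sub.trans hRD))
      · obtain ⟨W, hW, hWn, hW0⟩ := Sys.exists_null_piece hG.isClosed hG.nonempty hgood
        refine ⟨fun k => if k = m then Η₀ else Η k, fun k => if k = m then E ∩ W else P k, s.rs R (E ∩ W), J' \ Η₀,
          Sys.isClosed_rs hR, Sys.rs_sub.trans hRD, hJ'.diff hH, diff_subset.trans hJ'1, (hG.piece hW hWn).pos,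
          fun k hk => ?_, fun k hk k' hk' hne => ?_⟩
        · rcases eq_or_ne k m with rfl | hkm
          · simp only [if_true]
            exact ⟨hH, hHJ.trans hJ'1, disjoint_sdiff_left, Sys.rs_mono hRD Subset.rfl, hW0⟩
          · simp only [if_neg hkm]
            obtain ⟨a1, a2, a3, a4, a5⟩ := h1 k (by omega)
            exact ⟨a1, a2, a3.mono_left diff_subset, Sys.rs_sub.trans a4, a5⟩
        · rcases eq_or_ne k m with rfl | hkm
          · simp only [if_true, if_neg hne.symm]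
            exact ((h1 k' (by omega)).2.2.1).mono_left hHJ
          · rcases eq_or_ne k' m with rfl | hkm'
            · simp only [if_true, if_neg hkm]
              exact (((h1 k (by omega)).2.2.1).mono_left hHJ).symm
            · simp only [if_neg hkm, if_neg hkm']
              exact h2 k (by omega) k' (by omega) hne
  obtain ⟨Η, P, R, J', hR, hRD, hJ', hJ'1, hn, h1, h2⟩ := H (tb (lv u) + 1)
  have hfam : Fam c (Finset.range (tb (lv u) + 1)) fun i => jo (J \ Η i) :=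
    fam_jo hJ hg (fun i hi => (h1 i (Finset.mem_range.1 hi)).1)
      fun i hi j hj hij => h2 i (Finset.mem_range.1 hi) j (Finset.mem_range.1 hj) hij
  have hcov : R ⊆ ⋃ i ∈ Finset.range (tb (lv u) + 1), (R ∩ TO s c (jo (J \ Η i)) u) := by
    intro z hz
    have h3 := mult_TO hc hfam hu (hDT (hRD hz))
    have h4 : ∃ i ∈ Finset.range (tb (lv u) + 1), z ∈ TO s c (jo (J \ Η i)) u := by
      by_contra h5
      push Not at h5
      rw [Finset.filter_true_of_mem h5, Finset.card_range] at h3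
      omega
    obtain ⟨i, hi, h5⟩ := h4
    exact mem_biUnion (show i ∈ (↑(Finset.range (tb (lv u) + 1)) : Set ℕ) from hi) ⟨hz, h5⟩
  refine hn (Sys.Null.mono (Sys.null_biUnion (Finset.range (tb (lv u) + 1)) fun i hi => ?_) Subset.rfl hcov)
  obtain ⟨a1, a2, a3, a4, a5⟩ := h1 i (Finset.mem_range.1 hi)
  refine a5.mono (fun y hy => ⟨hJJ (hJ'1 hy), fun h => a3.le_bot ⟨hy, h⟩⟩) fun z hz => ?_
  exact ⟨⟨hRD hz.1, hz.2⟩, (a4 hz.1).2⟩

/-- MODULE h3 (size 2).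

Proof.  `M` from `cascade hc`.  Iterate `av_step` starting with `J₁ = J` (`hc.slot`, `Perf.not_null`): disjoint `Η i`, `E i`, `i < M + 1`.  `cascade` for the family `fam_jo` on `range (M + 1)`: some `c₁ = shr s c (jo (J \ Η i))` is valid.  `c₁.D (lv u :: u) = ker (J \ Η) (c.D .. ∩ TO .. u)`,
`Good.ker`. `stc_shr`. -/
theorem jstep (hc : Dyn s c) (hst : Stc s c) {J : Set CC} (hJ : IsClopen J) (hg : Glob c J) {u : List ℕ}
    (hu : u ∈ c.S) (hv : lv u :: u ∉ c.S) {C : Set NN → Prop} (hC : ∀ E E', E' ⊆ E → C E → C E')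
    (hav : ∀ J' D, IsClopen J' → J' ⊆ J → IsClosed D → D ⊆ c.D (lv u :: u) → ¬ s.Null J' D → Av s C D J') :
    ∃ Η E c₁, c₁ = shr s c (jo (J \ Η)) ∧ IsClopen Η ∧ Η ⊆ J ∧ (∀ e ∈ E, s.h e ∈ Η) ∧ C E ∧ Dyn s c₁ ∧ Stc s c₁ ∧
      s.Good (c₁.D (lv u :: u)) (J \ Η) E := by
  obtain ⟨M, hM⟩ := cascade hc
  have H : ∀ m : ℕ, ∃ (Η : ℕ → Set CC) (E : ℕ → Set NN) (J₁ : Set CC), IsClopen J₁ ∧ J₁ ⊆ J ∧
      ¬ s.Null J₁ (c.D (lv u :: u)) ∧
      (∀ k < m, IsClopen (Η k) ∧ Η k ⊆ J ∧ Disjoint J₁ (Η k) ∧ (∀ e ∈ E k, s.h e ∈ Η k) ∧ C (E k) ∧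
        s.Good (c.D (lv u :: u) ∩ TO s c (jo (J \ Η k)) u) (J \ Η k) (E k)) ∧
      ∀ k < m, ∀ k' < m, k ≠ k' → Disjoint (Η k) (Η k') := by
    intro m
    induction m with
    | zero =>
      have h1 := (hc.slot (lv u) u hu le_rfl hv).1
      rw [hg.2 (lv u) u hu le_rfl hv] at h1
      exact ⟨fun _ => ∅, fun _ => ∅, J, hJ, Subset.rfl, h1.not_null, fun k hk => absurd hk (Nat.not_lt_zero k),
        fun k hk => absurd hk (Nat.not_lt_zero k)⟩
    | succ m ih =>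
      obtain ⟨Η, E, J₁, hJ₁, hJJ, hpos, h1, h2⟩ := ih
      obtain ⟨Η₀, J₂, E₀, b1, b2, b3, b4, b5, b6, b7, b8⟩ := av_step hc hJ hg hu hv hC hav hJ₁ hJJ hpos
      have b4' : J₂ ⊆ J₁ := b4.trans diff_subset
      refine ⟨fun k => if k = m then Η₀ else Η k, fun k => if k = m then E₀ else E k, J₂, b3, b4'.trans hJJ, b5,
        fun k hk => ?_, fun k hk k' hk' hne => ?_⟩
      · rcases eq_or_ne k m with rfl | hkm
        · simp only [if_true]
          exact ⟨b1, b2.trans hJJ, disjoint_sdiff_left.mono_left b4, b6, b7, b8⟩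
        · simp only [if_neg hkm]
          obtain ⟨a1, a2, a3, a4⟩ := h1 k (by omega)
          exact ⟨a1, a2, a3.mono_left b4', a4⟩
      · rcases eq_or_ne k m with rfl | hkm
        · simp only [if_true, if_neg hne.symm]
          exact ((h1 k' (by omega)).2.2.1).mono_left b2
        · rcases eq_or_ne k' m with rfl | hkm'
          · simp only [if_true, if_neg hkm]
            exact (((h1 k (by omega)).2.2.1).mono_left b2).symm
          · simp only [if_neg hkm, if_neg hkm']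
            exact h2 k (by omega) k' (by omega) hne
  obtain ⟨Η, E, J₁, _, _, _, h1, h2⟩ := H (M + 1)
  have hfam : Fam c (Finset.range (M + 1)) fun i => jo (J \ Η i) :=
    fam_jo hJ hg (fun i hi => (h1 i (Finset.mem_range.1 hi)).1)
      fun i hi j hj hij => h2 i (Finset.mem_range.1 hi) j (Finset.mem_range.1 hj) hij
  obtain ⟨i, hi, hdyn⟩ := hM (Finset.range (M + 1)) _ hfam (by rw [Finset.card_range]; omega)
  obtain ⟨a1, a2, a3, a4, a5, a6⟩ := h1 i (Finset.mem_range.1 hi)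
  exact ⟨Η i, E i, shr s c (jo (J \ Η i)), rfl, a1, a2, a4, a5, hdyn, stc_shr hc hst fun _ => isClosed_univ,
    a6.ker⟩

/-- MODULE h4 (size 1): what the shrunk configuration has in common with the old one. -/
theorem shr_jo (hc : Dyn s c) (J : Set CC) {c₁ : Cfg} (h : c₁ = shr s c (jo J)) :
    c₁.S = c.S ∧ Glob c₁ J ∧ (∀ v ∈ c.S, v ≠ [] → c₁.E v ⊆ c.E v) ∧ (∀ v ∈ c.S, v ≠ [] → c₁.R (pd v) ⊆ c.R (pd v)) ∧
      (∀ w, c₁.D w ⊆ c.D w) ∧ c₁.U = c.U ∧ c₁.Dh = c.Dh ∧ c₁.Eh = c.Eh ∧ c₁.Q = c.Q := by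
  subst h
  refine ⟨rfl, ⟨fun _ _ _ => rfl, fun _ _ _ _ _ => rfl⟩, fun v hv hne => ?_, fun v hv hne => ?_, fun w => ?_, rfl, rfl,
    rfl, rfl⟩
  · exact (shr_E_sub hc (fun _ => isClosed_univ) hv hne).trans inter_subset_left
  · exact inter_subset_left.trans inter_subset_left
  · exact Sys.ker_sub.trans inter_subset_left

end Pool.Agent.Bs2
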