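import Pool.Agent.Bs2.Sep

/-!
# Good sets, largest good subsets, perfect kernels
-/

set_option autoImplicit false

open Set Filter Topology TopologicalSpace

namespace Pool.Agent.Bs2.Sys

variable {s : Sys} {J J' : Set CC} {R R' E D P P' : Set NN}

/-- MODULE g1 (size 1; all theorems of this section). -/
theorem rs_mono (hR : R ⊆ R') (hP : P ⊆ P') : s.rs R P ⊆ s.rs R' P' := by
  exact inter_subset_inter hR (preimage_mono (closure_mono (image_mono hP)))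

theorem rs_sub : s.rs R P ⊆ R := by
  exact inter_subset_left

theorem isClosed_rs (h : IsClosed R) : IsClosed (s.rs R P) := by
  exact h.inter (isClosed_closure.preimage s.ca)

theorem rs_inter_left (T : Set NN) : s.rs (R ∩ T) P = s.rs R P ∩ T := by
  exact inter_right_comm R T _

/-- `a z ∈ closure (b '' P) ∩ U ⊆ closure (b '' P ∩ U)` for open `U`. -/
theorem mem_rs_piece {U : Set CC} (hU : IsOpen U) {z : NN} (hz : z ∈ s.rs R P) (hzU : s.a z ∈ U) :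
    z ∈ s.rs R (P ∩ s.b ⁻¹' U) := by
  refine ⟨hz.1, ?_⟩
  have h1 : s.a z ∈ closure (s.b '' P ∩ U) := hU.closure_inter ⟨hz.2, hzU⟩
  rwa [← image_inter_preimage] at h1

/-- `closure (b '' (P ∪ P')) = closure (b '' P) ∪ closure (b '' P')`. -/
theorem rs_biUnion {ι : Type} (B : Finset ι) (F : ι → Set NN) {z : NN} (hz : z ∈ s.rs R (⋃ i ∈ B, F i)) :
    ∃ i ∈ B, z ∈ s.rs R (F i) := by
  have h1 : s.a z ∈ closure (s.b '' ⋃ i ∈ B, F i) := hz.2
  rw [image_iUnion₂, Finset.closure_biUnion] at h1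
  simp only [mem_iUnion] at h1
  obtain ⟨i, hi, h2⟩ := h1
  exact ⟨i, hi, hz.1, h2⟩

theorem Good.isClosed (h : s.Good R J E) : IsClosed E := h.1

theorem Good.nonempty (h : s.Good R J E) : E.Nonempty := h.2.1

theorem Good.pos (h : s.Good R J E) : ¬ s.Null J (s.rs R E) := by
  have h1 := h.2.2 univ isOpen_univ (by rw [inter_univ]; exact h.2.1)
  rwa [inter_univ] at h1

theorem Good.mono (h : s.Good R J E) (hR : R ⊆ R') (hJ : J ⊆ J') : s.Good R' J' E := by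
  exact ⟨h.1, h.2.1, fun W hW hn hN => h.2.2 W hW hn (hN.mono hJ (rs_mono hR Subset.rfl))⟩

theorem Good.piece (h : s.Good R J E) {W : Set NN} (hW : IsClopen W) (hn : (E ∩ W).Nonempty) :
    s.Good R J (E ∩ W) := by
  refine ⟨h.1.inter hW.isClosed, hn, fun W' hW' hn' => ?_⟩
  rw [inter_assoc] at hn' ⊢
  exact h.2.2 _ (hW.isOpen.inter hW') hn'

/-- A closed nonempty set which is not good has a null piece (`exists_cyl`, take `W` clopen). -/
theorem exists_null_piece (hE : IsClosed E) (hn : E.Nonempty) (h : ¬ s.Good R J E) :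
    ∃ W, IsClopen W ∧ (E ∩ W).Nonempty ∧ s.Null J (s.rs R (E ∩ W)) := by
  have h1 : ∃ W, IsOpen W ∧ (E ∩ W).Nonempty ∧ s.Null J (s.rs R (E ∩ W)) := by
    by_contra hcon
    push Not at hcon
    exact h ⟨hE, hn, hcon⟩
  obtain ⟨W, hW, ⟨x, hxE, hxW⟩, hN⟩ := h1
  obtain ⟨V, hV, hVW, hxV, -⟩ := exists_cyl hW hxW 0
  exact ⟨V, hV, ⟨x, hxE, hxV⟩, hN.mono Subset.rfl (rs_mono Subset.rfl (inter_subset_inter_right _ hVW))⟩

/-- If `b (E ∩ W)` does not meet the open set `U ⊇ a '' R` for a piece then `rs R (E ∩ W)` is empty. -/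
theorem Good.b_mem (h : s.Good R J E) {U : Set CC} (hU : IsClopen U) (hR : ∀ z ∈ R, s.a z ∈ U) :
    ∀ e ∈ E, s.b e ∈ U := by
  intro e he
  by_contra hb
  have h0 : s.rs R (E ∩ s.b ⁻¹' Uᶜ) = ∅ := by
    refine eq_empty_of_forall_notMem fun z hz => ?_
    have h1 : s.a z ∈ closure (s.b '' (E ∩ s.b ⁻¹' Uᶜ)) := hz.2
    have h2 : s.b '' (E ∩ s.b ⁻¹' Uᶜ) ⊆ Uᶜ := by
      rintro y ⟨e', he', rfl⟩
      exact he'.2
    exact closure_minimal h2 hU.compl.isClosed h1 (hR z hz.1)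
  refine h.2.2 (s.b ⁻¹' Uᶜ) (hU.compl.isOpen.preimage s.cb) ⟨e, he, hb⟩ ?_
  rw [h0]
  exact null_empty

/-- MODULE g2 (size 1): the largest good subset. -/
theorem isClosed_mx : IsClosed (s.mx R J E) := isClosed_closure

theorem mx_sub (hE : IsClosed E) : s.mx R J E ⊆ E := by
  exact closure_minimal (sUnion_subset fun F hF => hF.1) hE

theorem sub_mx {F : Set NN} (hF : F ⊆ E) (h : s.Good R J F) : F ⊆ s.mx R J E := by
  exact (subset_sUnion_of_mem (show F ∈ {F | F ⊆ E ∧ s.Good R J F} from ⟨hF, h⟩)).trans subset_closure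

/-- A nonempty piece of the closure of the union meets a good `F ⊆ E` in a nonempty piece. -/
theorem mx_good (hn : (s.mx R J E).Nonempty) : s.Good R J (s.mx R J E) := by
  refine ⟨isClosed_closure, hn, fun W hW hnW => ?_⟩
  obtain ⟨x, hx, hxW⟩ := hnW
  obtain ⟨y, hyW, hy⟩ := mem_closure_iff.1 hx W hW hxW
  obtain ⟨F, hF, hyF⟩ := hy
  intro hN
  refine hF.2.2.2 W hW ⟨y, hyF, hyW⟩ (hN.mono Subset.rfl (rs_mono Subset.rfl (inter_subset_inter_left _ ?_)))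
  exact sub_mx hF.1 hF.2

theorem Good.mx_eq (h : s.Good R J E) : s.mx R J E = E := by
  exact Subset.antisymm (mx_sub h.1) (sub_mx Subset.rfl h)

/-- If `e ∈ E \ mx R J E` then there is a clopen `W` around `e` such that `E ∩ W` has no good subset. -/
theorem not_mem_mx {e : NN} (he : e ∉ s.mx R J E) : ∃ W, IsClopen W ∧ e ∈ W ∧ ∀ F ⊆ E ∩ W, ¬ s.Good R J F := by
  have h1 : (s.mx R J E)ᶜ ∈ 𝓝 e := isClosed_closure.isOpen_compl.mem_nhds he
  obtain ⟨V, hV, hVW, hxV, -⟩ := exists_cyl (W := (s.mx R J E)ᶜ) isClosed_closure.isOpen_compl he 0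
  refine ⟨V, hV, hxV, fun F hF hG => ?_⟩
  obtain ⟨x, hx⟩ := hG.2.1
  exact hVW (hF hx).2 (sub_mx (hF.trans inter_subset_left) hG hx)

/-- MODULE g3 (size 1): the perfect kernel (`null_of_local`). -/
theorem ker_sub : s.ker J D ⊆ D := fun _ h => h.1

theorem isClosed_ker (hD : IsClosed D) : IsClosed (s.ker J D) := by
  have h1 : s.ker J D = D ∩ (⋃₀ {W | IsOpen W ∧ s.Null J (D ∩ W)})ᶜ := by
    ext z
    constructor
    · rintro ⟨hz, h2⟩
      refine ⟨hz, ?_⟩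
      rintro ⟨W, ⟨hW, hN⟩, hzW⟩
      exact h2 W hW hzW hN
    · rintro ⟨hz, h2⟩
      exact ⟨hz, fun W hW hzW hN => h2 ⟨W, ⟨hW, hN⟩, hzW⟩⟩
  rw [h1]
  exact hD.inter (isOpen_sUnion fun W hW => hW.1).isClosed_compl

theorem null_diff_ker : s.Null J (D \ s.ker J D) := by
  refine null_of_local fun z hz => ?_
  have h1 : ∃ W, IsOpen W ∧ z ∈ W ∧ s.Null J (D ∩ W) := by
    by_contra hcon
    push Not at hcon
    exact hz.2 ⟨hz.1, hcon⟩
  obtain ⟨W, hW, hzW, hN⟩ := h1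
  exact ⟨W, hW, hzW, hN.mono Subset.rfl (inter_subset_inter_left _ sdiff_subset)⟩

theorem perf_ker (hD : IsClosed D) (h : ¬ s.Null J D) : s.Perf J (s.ker J D) := by
  refine ⟨isClosed_ker hD, ?_, fun W hW hn hN => ?_⟩
  · rw [nonempty_iff_ne_empty]
    intro h0
    have h1 : s.Null J (D \ s.ker J D) := null_diff_ker
    rw [h0, sdiff_empty] at h1
    exact h h1
  · obtain ⟨z, hz, hzW⟩ := hn
    refine hz.2 W hW hzW ((hN.union (null_diff_ker (s := s) (J := J) (D := D))).mono Subset.rfl ?_)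
    rintro y ⟨hy, hyW⟩
    by_cases hk : y ∈ s.ker J D
    · exact Or.inl ⟨hk, hyW⟩
    · exact Or.inr ⟨hy, hk⟩

theorem Perf.not_null (h : s.Perf J D) : ¬ s.Null J D := by
  have h1 := h.2.2 univ isOpen_univ (by rw [inter_univ]; exact h.2.1)
  rwa [inter_univ] at h1

theorem Perf.ker_eq (h : s.Perf J D) : s.ker J D = D := by
  exact Subset.antisymm ker_sub fun z hz => ⟨hz, fun W hW hzW => h.2.2 W hW ⟨z, hz, hzW⟩⟩

/-- A relatively open part of a perfect set which is null is empty. -/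
theorem Perf.empty_of_null (h : s.Perf J D) {W : Set NN} (hW : IsOpen W) (h0 : s.Null J (D ∩ W)) :
    D ∩ W = ∅ := by
  by_contra hne
  exact h.2.2 W hW (nonempty_iff_ne_empty.2 hne) h0

/-- `rs R P = rs (ker J R) P ∪ null`. -/
theorem Good.ker (h : s.Good R J E) : s.Good (s.ker J R) J E := by
  refine ⟨h.1, h.2.1, fun W hW hn hN => ?_⟩
  refine h.2.2 W hW hn ((hN.union (null_diff_ker (s := s) (J := J) (D := R))).mono Subset.rfl ?_)
  rintro y ⟨hy, hy2⟩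
  by_cases hk : y ∈ s.ker J R
  · exact Or.inl ⟨hk, hy2⟩
  · exact Or.inr ⟨hy, hk⟩

private def g4_Cov (s : Sys) (R : Set NN) (J : Set CC) (S : Set NN) : Prop :=
  ∃ Φ : ℕ → Set CC, (∀ n, IsClosed (Φ n)) ∧ s.b '' S ⊆ ⋃ n, Φ n ∧ ∀ n, s.Null J (R ∩ s.a ⁻¹' Φ n)

private theorem g4_iUnion {ι : Type} [Countable ι] [Nonempty ι] {S : ι → Set NN}
    (h : ∀ i, g4_Cov s R J (S i)) : g4_Cov s R J (⋃ i, S i) := by
  choose Φ h1 h2 h3 using h
  obtain ⟨f, hf⟩ := exists_surjective_nat (ι × ℕ)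
  refine ⟨fun n => Φ (f n).1 (f n).2, fun n => h1 _ _, ?_, fun n => h3 _ _⟩
  rintro y ⟨e, he, rfl⟩
  obtain ⟨i, hi⟩ := mem_iUnion.1 he
  obtain ⟨m, hm⟩ := mem_iUnion.1 (h2 i ⟨e, hi, rfl⟩)
  obtain ⟨n, hn⟩ := hf (i, m)
  refine mem_iUnion.2 ⟨n, ?_⟩
  rw [hn]
  exact hm

private theorem g4_mono {S S' : Set NN} (h : g4_Cov s R J S') (hS : S ⊆ S') : g4_Cov s R J S := by
  obtain ⟨Φ, h1, h2, h3⟩ := h
  exact ⟨Φ, h1, (image_mono hS).trans h2, h3⟩

private theorem g4_empty : g4_Cov s R J ∅ := by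
  refine ⟨fun _ => ∅, fun _ => isClosed_empty, ?_, fun _ => ?_⟩
  · rw [image_empty]
    exact empty_subset _
  · rw [preimage_empty, inter_empty]
    exact null_empty

private theorem g4_single {P : Set NN} (h : s.Null J (s.rs R P)) : g4_Cov s R J P :=
  ⟨fun _ => closure (s.b '' P), fun _ => isClosed_closure,
    subset_closure.trans (subset_iUnion (fun _ : ℕ => closure (s.b '' P)) 0), fun _ => h⟩

private theorem g4_main (hE : IsClosed E) (h : ∀ F ⊆ E, ¬ s.Good R J F) : g4_Cov s R J E := by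
  classical
  obtain ⟨C, hC, hC2⟩ := exists_cyl_seq ℕ
  set S : ℕ → Set NN := fun i => if g4_Cov s R J (E ∩ C i) then E ∩ C i else ∅ with hS
  have hcov : g4_Cov s R J (⋃ i, S i) := by
    refine g4_iUnion fun i => ?_
    rw [hS]
    by_cases hi : g4_Cov s R J (E ∩ C i)
    · simp only [if_pos hi]
      exact hi
    · simp only [if_neg hi]
      exact g4_empty
  set O : Set NN := ⋃ i ∈ {i | g4_Cov s R J (E ∩ C i)}, C i with hO
  have hOo : IsOpen O := isOpen_biUnion fun i _ => (hC i).isOpen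
  have hEO : g4_Cov s R J (E ∩ O) := by
    refine g4_mono hcov ?_
    rintro x ⟨hxE, hxO⟩
    rw [hO] at hxO
    simp only [mem_iUnion] at hxO
    obtain ⟨i, hi, hxi⟩ := hxO
    refine mem_iUnion.2 ⟨i, ?_⟩
    have hi' : g4_Cov s R J (E ∩ C i) := hi
    rw [hS]
    simp only [if_pos hi']
    exact ⟨hxE, hxi⟩
  by_cases hne : (E \ O).Nonempty
  · exfalso
    have hcl : IsClosed (E \ O) := hE.sdiff hOo
    obtain ⟨W, hW, ⟨x, hxEO, hxW⟩, hN⟩ := exists_null_piece hcl hne (h _ sdiff_subset)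
    obtain ⟨i, hxi, hiW, -⟩ := hC2 W x 0 hW.isOpen hxW
    have hi : g4_Cov s R J (E ∩ C i) := by
      have h1 : g4_Cov s R J (⋃ b : Bool, cond b (E ∩ O) ((E \ O) ∩ W)) := by
        refine g4_iUnion fun b => ?_
        cases b
        · exact g4_single hN
        · exact hEO
      refine g4_mono h1 ?_
      rintro y ⟨hyE, hyi⟩
      by_cases hyO : y ∈ O
      · exact mem_iUnion.2 ⟨true, hyE, hyO⟩
      · exact mem_iUnion.2 ⟨false, ⟨hyE, hyO⟩, hiW hyi⟩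
    refine hxEO.2 ?_
    rw [hO]
    exact mem_biUnion (show i ∈ {i | g4_Cov s R J (E ∩ C i)} from hi) hxi
  · refine g4_mono hEO fun x hx => ⟨hx, ?_⟩
    by_contra hxO
    exact hne ⟨x, hx, hxO⟩

/-- MODULE g4 (size 2).

Proof.  Let `(C i)` be the clopen sets of `exists_cyl_seq ℕ` and `I` the set of the `i` for which there is a sequence of closed sets `Φ` with
`b '' (E ∩ C i) ⊆ ⋃ Φ n` and `R ∩ a ⁻¹' Φ n` null.  `O = ⋃ i ∈ I, C i` is open and `b '' (E ∩ O)` is covered by countably many such sets (countable union of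
countable families).  If `E \ O` is nonempty it is not good, so by `exists_null_piece` there is a clopen `W` with `(E \ O) ∩ W` nonempty and
`rs R ((E \ O) ∩ W)` null; let `x` be a point of it and `C i ⊆ W` a neighbourhood of `x`: then `b '' (E ∩ C i)` is covered by the family for `E ∩ O` and
`closure (b '' ((E \ O) ∩ W))`, so `i ∈ I`, contradiction with `x ∉ O`. -/
theorem exists_cover (hE : IsClosed E) (h : ∀ F ⊆ E, ¬ s.Good R J F) :
    ∃ Φ : ℕ → Set CC, (∀ n, IsClosed (Φ n)) ∧ s.b '' E ⊆ ⋃ n, Φ n ∧ ∀ n, s.Null J (R ∩ s.a ⁻¹' Φ n) := by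
  exact g4_main hE h

/-- MODULE g5 (size 2).

Proof.  Otherwise `exists_cover` for every `C m` (with the same `J`): `Φ m n`.  Let `Θ m n` be the `Sig3` sets for the null sets `R ∩ a ⁻¹' Φ m n` and
`Θ = (⋃ m n, Φ m n)ᶜ ∪ ⋃ m n, Θ m n` (`Sig3.compl_iUnion` after `ℕ × ℕ ≃ ℕ`).  It contains `a '' R` and no `b e`, `e ∈ C m` (`h e ∈ J`). -/
theorem exists_good_of_fsigma {C : ℕ → Set NN} (hC : ∀ n, IsClosed (C n)) (hJ : ∀ n, ∀ e ∈ C n, s.h e ∈ J)
    (h : ¬ ∃ Θ, Sig3 Θ ∧ (∀ z ∈ R, s.a z ∈ Θ) ∧ ∀ n, ∀ e ∈ C n, s.b e ∉ Θ) :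
    ∃ n, ∃ F ⊆ C n, s.Good R J F := by
  by_contra hcon
  push Not at hcon
  have h1 := fun m => exists_cover (s := s) (J := J) (R := R) (hC m) (hcon m)
  choose Φ hΦc hΦ hN using h1
  choose Θ hΘ hΘ1 hΘ2 using hN
  refine h ⟨(⋃ q : ℕ × ℕ, Φ q.1 q.2)ᶜ ∪ ⋃ q : ℕ × ℕ, Θ q.1 q.2, ?_, ?_, ?_⟩
  · refine Sig3.union ?_ (Sig3.iUnion fun q => hΘ q.1 q.2)
    obtain ⟨f, hf⟩ := exists_surjective_nat (ℕ × ℕ)
    have h2 : (⋃ q : ℕ × ℕ, Φ q.1 q.2) = ⋃ n, Φ (f n).1 (f n).2 := (hf.iUnion_comp fun q : ℕ × ℕ => Φ q.1 q.2).symm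
    rw [h2]
    exact Sig3.compl_iUnion fun n => hΦc _ _
  · intro z hz
    by_cases hz2 : s.a z ∈ ⋃ q : ℕ × ℕ, Φ q.1 q.2
    · right
      obtain ⟨q, hq⟩ := mem_iUnion.1 hz2
      exact mem_iUnion.2 ⟨q, hΘ1 q.1 q.2 z ⟨hz, hq⟩⟩
    · left
      exact hz2
  · rintro n e he (hb | hb)
    · obtain ⟨m, hm⟩ := mem_iUnion.1 (hΦ n ⟨e, he, rfl⟩)
      exact hb (mem_iUnion.2 ⟨(n, m), hm⟩)
    · obtain ⟨q, hq⟩ := mem_iUnion.1 hb
      exact hΘ2 q.1 q.2 e (hJ n e he) hq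

/-- The case of one closed set `h ⁻¹' J` (`J` clopen). -/
theorem exists_good (hJ : IsClopen J) (h : ¬ s.Null J R) : ∃ F, (∀ e ∈ F, s.h e ∈ J) ∧ s.Good R J F := by
  have h1 : ¬ ∃ Θ, Sig3 Θ ∧ (∀ z ∈ R, s.a z ∈ Θ) ∧ ∀ n : ℕ, ∀ e ∈ (fun _ : ℕ => s.h ⁻¹' J) n, s.b e ∉ Θ := by
    rintro ⟨Θ, hΘ, h2, h3⟩
    exact h ⟨Θ, hΘ, h2, fun e he => h3 0 e he⟩
  obtain ⟨n, F, hF, hG⟩ := exists_good_of_fsigma (C := fun _ => s.h ⁻¹' J) (fun _ => hJ.isClosed.preimage s.ch)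
    (fun _ e he => he) h1
  exact ⟨F, fun e he => hF he, hG⟩

/-- MODULE g6 (size 2).  The case of an open set: `G` clopen, `y ∈ G`; `{y}ᶜ ∩ G` is a countable union of clopen sets.

Proof.  `G \ {y} = ⋃ n, G n`, `G n = G ∩ {y' | y' n ≠ y n, y' i = y i for i < n}` clopen (a set difference of cylinders; disjointness is not needed, so `G n = G ∩
{y' | y' n ≠ y n}` is good enough).  `C n = h ⁻¹' G n`.  If `Θ` separates `a '' R` from the `b e`, `e ∈ C n`, and `Θ'` witnesses `Null {y} univ` then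
`Θ ∩ Θ'` witnesses `Null G R`.  So `exists_good_of_fsigma` (with `J = G`). -/
theorem exists_good_off {G : Set CC} (hG : IsClopen G) (hs : s.Star) (y : CC) (h : ¬ s.Null G R) :
    ∃ G' F, IsClopen G' ∧ G' ⊆ G ∧ y ∉ G' ∧ (∀ e ∈ F, s.h e ∈ G') ∧ s.Good R G F := by
  obtain ⟨Θ', hΘ', h1', h2'⟩ := hs y
  have hGn : ∀ n, IsClopen (G ∩ (fun y' : CC => y' n) ⁻¹' {y n}ᶜ) := fun n =>
    hG.inter ((isClopen_discrete {y n}ᶜ).preimage (continuous_apply n))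
  have h1 : ¬ ∃ Θ, Sig3 Θ ∧ (∀ z ∈ R, s.a z ∈ Θ) ∧
      ∀ n : ℕ, ∀ e ∈ (fun n : ℕ => s.h ⁻¹' (G ∩ (fun y' : CC => y' n) ⁻¹' {y n}ᶜ)) n, s.b e ∉ Θ := by
    rintro ⟨Θ, hΘ, h2, h3⟩
    refine h ⟨Θ ∩ Θ', hΘ.inter hΘ', fun z hz => ⟨h2 z hz, h1' z (mem_univ z)⟩, ?_⟩
    rintro e he ⟨hb, hb'⟩
    by_cases hy : s.h e = y
    · exact h2' e hy hb'
    · obtain ⟨n, hn⟩ := Function.ne_iff.1 hy
      exact h3 n e ⟨he, hn⟩ hb
  obtain ⟨n, F, hF, hGd⟩ := exists_good_of_fsigma (J := G) (fun n => (hGn n).isClosed.preimage s.ch)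
    (fun n e he => he.1) h1
  refine ⟨G ∩ (fun y' : CC => y' n) ⁻¹' {y n}ᶜ, F, hGn n, inter_subset_left, fun hy => hy.2 rfl,
    fun e he => hF he, hGd⟩

end Pool.Agent.Bs2.Sys
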