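import Pool.Agent.Bs2.Step

/-!
# The limit of a sequence of configurations; schemes and their branches
-/

set_option autoImplicit false

open Set Filter Topology TopologicalSpace
open scoped Classical

namespace Pool.Agent.Bs2

/-- MODULE l1 (size 2).

Proof.  For `g` with `V g` and a list `v` let `nxt g v` be a `g'` given by `step` if `v = p :: u`, `u ∈ S g`, `p ≤ lv u`, `v ∉ S g`, and `g` otherwise.  Sequence `g 0 = g0`, `g (n + 1) = nxt (g n) (ν n)` where `ν : ℕ → List ℕ` takes every value infinitely often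
(`Encodable`/`Denumerable (List ℕ)`, `ν n = decode of (Nat.unpair n).1`).  `S (g n)` is increasing and `lab (g m) w = lab (g n) w` for `w ∈ S (g n)`, `n ≤ m`.  Every node is in some `S (g n)` (induction on the length: `u ∈ S (g n)`; there is `m ≥ n` with `ν m = p :: u`).  `L w` = the eventual value.  For a finite set `F` of nodes take `n` large. -/
theorem lim {Γ Λ : Type} [Inhabited Λ] (S : Γ → Finset (List ℕ)) (V : Γ → Prop) (lab : Γ → List ℕ → Λ) (g0 : Γ) (h0 : V g0)
    (hnil : ∀ g, V g → [] ∈ S g)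
    (step : ∀ g, V g → ∀ p u, u ∈ S g → p ≤ lv u → p :: u ∉ S g →
      ∃ g', V g' ∧ S g' = insert (p :: u) (S g) ∧ ∀ w ∈ S g, lab g' w = lab g w) :
    ∃ L : List ℕ → Λ, ∀ F : Finset (List ℕ), (∀ v ∈ F, Nd v) → ∃ g, V g ∧ F ⊆ S g ∧ ∀ w ∈ S g, lab g w = L w := by
  classical
  have hstep : ∀ (g : {g // V g}) (v : List ℕ), ∃ g' : {g // V g}, S g.1 ⊆ S g'.1 ∧
      (∀ w ∈ S g.1, lab g'.1 w = lab g.1 w) ∧ ∀ p u, v = p :: u → u ∈ S g.1 → p ≤ lv u → v ∈ S g'.1 := by
    intro g v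
    by_cases hv : ∃ p u, v = p :: u ∧ u ∈ S g.1 ∧ p ≤ lv u ∧ v ∉ S g.1
    · obtain ⟨p, u, rfl, h2, h3, h4⟩ := hv
      obtain ⟨g', h5, h6, h7⟩ := step g.1 g.2 p u h2 h3 h4
      refine ⟨⟨g', h5⟩, ?_, h7, fun p' u' _ _ _ => ?_⟩
      · rw [h6]
        exact Finset.subset_insert _ _
      · rw [h6]
        exact Finset.mem_insert_self _ _
    · refine ⟨g, Finset.Subset.refl _, fun _ _ => rfl, fun p u h1 h2 h3 => ?_⟩
      by_contra h4
      exact hv ⟨p, u, h1, h2, h3, h4⟩
  choose nxt hn1 hn2 hn3 using hstep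
  let ν : ℕ → List ℕ := fun n => (Encodable.decode (α := List ℕ) (Nat.unpair n).1).getD []
  have hν : ∀ (v : List ℕ) (k : ℕ), ∃ n, k ≤ n ∧ ν n = v := by
    intro v k
    refine ⟨Nat.pair (Encodable.encode v) k, Nat.right_le_pair _ _, ?_⟩
    simp [ν]
  let G : ℕ → {g // V g} := fun n => Nat.rec ⟨g0, h0⟩ (fun n g => nxt g (ν n)) n
  have hG : ∀ n, G (n + 1) = nxt (G n) (ν n) := fun n => rfl
  have hmono : ∀ n m, n ≤ m → S (G n).1 ⊆ S (G m).1 ∧ ∀ w ∈ S (G n).1, lab (G m).1 w = lab (G n).1 w := by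
    intro n m hnm
    induction m, hnm using Nat.le_induction with
    | base => exact ⟨Finset.Subset.refl _, fun _ _ => rfl⟩
    | succ m hm ih =>
      rw [hG]
      exact ⟨ih.1.trans (hn1 _ _), fun w hw => by rw [hn2 _ _ w (ih.1 hw), ih.2 w hw]⟩
  have hall : ∀ v, Nd v → ∃ n, v ∈ S (G n).1 := by
    intro v
    induction v with
    | nil => exact fun _ => ⟨0, hnil _ (G 0).2⟩
    | cons p u ih =>
      intro hv
      obtain ⟨n, hn⟩ := ih hv.2
      obtain ⟨m, hm, hm'⟩ := hν (p :: u) n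
      refine ⟨m + 1, ?_⟩
      rw [hG, ← hm']
      exact hn3 (G m) (ν m) p u hm' ((hmono n m hm).1 hn) hv.1
  refine ⟨fun w => if h : ∃ n, w ∈ S (G n).1 then lab (G (Nat.find h)).1 w else default, fun F hF => ?_⟩
  obtain ⟨n, hn⟩ : ∃ n, F ⊆ S (G n).1 := by
    induction F using Finset.induction_on with
    | empty => exact ⟨0, Finset.empty_subset _⟩
    | insert a F _ ih =>
      obtain ⟨n, hn⟩ := ih fun v hv => hF v (Finset.mem_insert_of_mem hv)
      obtain ⟨m, hm⟩ := hall a (hF a (Finset.mem_insert_self _ _))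
      refine ⟨max n m, Finset.insert_subset ((hmono m _ (le_max_right _ _)).1 hm) ?_⟩
      exact hn.trans (hmono n _ (le_max_left _ _)).1
  refine ⟨(G n).1, (G n).2, hn, fun w hw => ?_⟩
  have hex : ∃ n, w ∈ S (G n).1 := ⟨n, hw⟩
  have : (if h : ∃ n, w ∈ S (G n).1 then lab (G (Nat.find h)).1 w else default) = lab (G (Nat.find hex)).1 w :=
    dif_pos hex
  exact ((hmono _ n (Nat.find_min' hex hw)).2 w (Nat.find_spec hex)).trans this.symm

/-- Schemes: the static data on the whole tree. -/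
structure Sch (s : Sys) (U : List ℕ → ℕ → Set CC) (Dh : List ℕ → ℕ → Set NN) (Eh : List ℕ → Set NN)
    (Q : List ℕ → Set CC) : Prop where
  e1 : ∀ v, Nd v → v ≠ [] → IsClosed (Eh v) ∧ (Eh v).Nonempty ∧ Agr v.length (Eh v)
  e2 : ∀ p u, Nd (p :: u) → ∀ e ∈ Eh (p :: u), s.b e ∈ U u p
  e3 : ∀ p u, Nd (p :: u) → p < lv u → Eh (p :: u) ⊆ Eh (anc u (p + 1))
  d1 : ∀ u, Nd u → ∀ p ≤ lv u, IsClosed (Dh u p) ∧ (Dh u p).Nonempty ∧ Agr u.length (Dh u p) ∧
    IsClopen (U u p) ∧ Agr u.length (U u p) ∧ ∀ z ∈ Dh u p, s.a z ∈ U u p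
  d4 : ∀ p u, Nd (p :: u) → ∀ q ≤ p + 1, U (p :: u) q ⊆ U u p
  d5 : ∀ v, Nd v → v ≠ [] → ∀ q ≤ lv v, Dh v q ⊆ Dh (pd v) (lv (pd v)) ∧ ∀ z ∈ Dh v q, s.k z ∈ Q v
  dj : ∀ u, Nd u → ∀ p q, p ≤ lv u → q ≤ lv u → p ≠ q → ∀ i, ∀ y ∈ U u p, ∀ y' ∈ U u q, s.p i y ≠ s.p i y'
  q1 : ∀ v, Nd v → v ≠ [] → IsClopen (Q v) ∧ Agr v.length (Q v)
  q2 : ∀ v v', Nd v → Nd v' → v ≠ [] → v' ≠ [] → pd v = pd v' → v ≠ v' → Disjoint (Q v) (Q v')

/-- MODULE l2 (size 1): a scheme from a limit of configurations (each clause of `Sch` involves finitely many nodes `F`: take `g` with `F ⊆ S g`; note `pd v`, `anc u i` are in `S` by `suffix`, put them into `F`). -/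
theorem sch_of_lim {s : Sys} {Γ : Type} (cf : Γ → Cfg) (V : Γ → Prop)
    (hV : ∀ g, V g → Dyn s (cf g) ∧ Stc s (cf g)) {U : List ℕ → ℕ → Set CC} {Dh : List ℕ → ℕ → Set NN}
    {Eh : List ℕ → Set NN} {Q : List ℕ → Set CC}
    (h : ∀ F : Finset (List ℕ), (∀ v ∈ F, Nd v) → ∃ g, V g ∧ F ⊆ (cf g).S ∧
      ∀ w ∈ (cf g).S, (cf g).U w = U w ∧ (cf g).Dh w = Dh w ∧ (cf g).Eh w = Eh w ∧ (cf g).Q w = Q w) :
    Sch s U Dh Eh Q := by
  constructor
  · intro v hv hne
    obtain ⟨g, hg, hF, he⟩ := h {v} (by simpa using hv)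
    have hv' : v ∈ (cf g).S := hF (Finset.mem_singleton_self v)
    have h1 := (hV g hg).2.e1 v hv' hne
    rw [(he v hv').2.2.1] at h1
    exact h1.2
  · intro p u hv e hee
    obtain ⟨g, hg, hF, he⟩ := h {p :: u, u} (by
      intro v hv'
      rcases Finset.mem_insert.1 hv' with rfl | h1
      · exact hv
      · rw [Finset.mem_singleton.1 h1]
        exact hv.2)
    have h1 : p :: u ∈ (cf g).S := hF (Finset.mem_insert_self _ _)
    have h2 : u ∈ (cf g).S := hF (Finset.mem_insert_of_mem (Finset.mem_singleton_self _))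
    have h3 := (hV g hg).2.e2 p u h1
    rw [(he _ h1).2.2.1, (he _ h2).1] at h3
    exact h3 e hee
  · intro p u hv hp
    obtain ⟨g, hg, hF, he⟩ := h {p :: u, anc u (p + 1)} (by
      intro v hv'
      rcases Finset.mem_insert.1 hv' with rfl | h1
      · exact hv
      · rw [Finset.mem_singleton.1 h1]
        exact hv.2.anc _)
    have h1 : p :: u ∈ (cf g).S := hF (Finset.mem_insert_self _ _)
    have h2 : anc u (p + 1) ∈ (cf g).S := hF (Finset.mem_insert_of_mem (Finset.mem_singleton_self _))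
    have h3 := (hV g hg).2.e3 p u h1 hp
    rw [(he _ h1).2.2.1, (he _ h2).2.2.1] at h3
    exact h3
  · intro u hu p hp
    obtain ⟨g, hg, hF, he⟩ := h {u} (by simpa using hu)
    have hu' : u ∈ (cf g).S := hF (Finset.mem_singleton_self u)
    have h1 := (hV g hg).2.d1 u hu' p hp
    rw [(he u hu').1, (he u hu').2.1] at h1
    exact h1
  · intro p u hv q hq
    obtain ⟨g, hg, hF, he⟩ := h {p :: u, u} (by
      intro v hv'
      rcases Finset.mem_insert.1 hv' with rfl | h1
      · exact hv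
      · rw [Finset.mem_singleton.1 h1]
        exact hv.2)
    have h1 : p :: u ∈ (cf g).S := hF (Finset.mem_insert_self _ _)
    have h2 : u ∈ (cf g).S := hF (Finset.mem_insert_of_mem (Finset.mem_singleton_self _))
    have h3 := (hV g hg).2.d4 p u h1 q hq
    rw [(he _ h1).1, (he _ h2).1] at h3
    exact h3
  · intro v hv hne q hq
    obtain ⟨g, hg, hF, he⟩ := h {v, pd v} (by
      intro w hw
      rcases Finset.mem_insert.1 hw with rfl | h1
      · exact hv
      · rw [Finset.mem_singleton.1 h1]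
        exact hv.of_suffix (pd_suffix v))
    have h1 : v ∈ (cf g).S := hF (Finset.mem_insert_self _ _)
    have h2 : pd v ∈ (cf g).S := hF (Finset.mem_insert_of_mem (Finset.mem_singleton_self _))
    have h3 := (hV g hg).2.d5 v h1 hne q hq
    rw [(he _ h1).2.1, (he _ h2).2.1, (he _ h1).2.2.2] at h3
    exact h3
  · intro u hu p q hp hq hpq i y hy y' hy'
    obtain ⟨g, hg, hF, he⟩ := h {u} (by simpa using hu)
    have hu' : u ∈ (cf g).S := hF (Finset.mem_singleton_self u)
    have h1 := (hV g hg).2.dj u hu' p q hp hq hpq i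
    rw [(he u hu').1] at h1
    exact h1 y hy y' hy'
  · intro v hv hne
    obtain ⟨g, hg, hF, he⟩ := h {v} (by simpa using hv)
    have hv' : v ∈ (cf g).S := hF (Finset.mem_singleton_self v)
    have h1 := (hV g hg).2.q1 v hv' hne
    rw [(he v hv').2.2.2] at h1
    exact h1
  · intro v v' hv hv' hne hne' hp hvv
    obtain ⟨g, hg, hF, he⟩ := h {v, v'} (by
      intro w hw
      rcases Finset.mem_insert.1 hw with rfl | h1
      · exact hv
      · rw [Finset.mem_singleton.1 h1]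
        exact hv')
    have h1 : v ∈ (cf g).S := hF (Finset.mem_insert_self _ _)
    have h2 : v' ∈ (cf g).S := hF (Finset.mem_insert_of_mem (Finset.mem_singleton_self _))
    have h3 := (hV g hg).2.q2 v h1 v' h2 hne hne' hp hvv
    rw [(he _ h1).2.2.2, (he _ h2).2.2.2] at h3
    exact h3

variable {s : Sys} {U : List ℕ → ℕ → Set CC} {Dh : List ℕ → ℕ → Set NN} {Eh : List ℕ → Set NN} {Q : List ℕ → Set CC}

private theorem l3_len {u : List ℕ} (h : Nd u) : lv u ≤ u.length := by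
  induction u with
  | nil => exact le_rfl
  | cons p u ih => exact Nat.succ_le_succ (h.1.trans (ih h.2))

private theorem l3_agr {α : Type} {m n : ℕ} {S : Set (ℕ → α)} (h : m ≤ n) (hS : Agr n S) : Agr m S :=
  fun x hx y hy i hi => hS x hx y hy i (hi.trans_le h)

/-- MODULE l3 (size 1).  Proof.  For `x ∈ AA` choose `st i` with `Stab x i (st i)` (`exists_stab`), `pd (st (i+1)) = st i`, `lv (st i) = i`, so the sets `Dh (st i) i` are decreasing closed nonempty (`d5`, `d1`), and `Agr (st i).length` with `(st i).length ≥ i`: `nested_ne`. -/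
theorem exists_zz (h : Sch s U Dh Eh Q) {x : ℕ → ℕ} (hx : x ∈ AA) :
    ∃ z, ∀ i st, Stab x i st → z ∈ Dh st i := by
  choose st hst using fun i => exists_stab hx i
  have hlv : ∀ i, lv (st i) = i := fun i => (hst i).lv hx
  have hnd : ∀ i, Nd (st i) := fun i => (hst i).nd hx.1
  obtain ⟨z, hz⟩ := nested_ne (F := fun i => Dh (st i) i)
    (fun i => (h.d1 (st i) (hnd i) i (hlv i).ge).1) (fun i => (h.d1 (st i) (hnd i) i (hlv i).ge).2.1)
    (fun i => by
      obtain ⟨h1, h2⟩ := (hst i).pd hx (hst (i + 1))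
      have h3 := (h.d5 (st (i + 1)) (hnd (i + 1)) h1 (i + 1) (hlv (i + 1)).ge).1
      rw [h2, hlv i] at h3
      exact h3)
    (fun i => l3_agr (by
      have := l3_len (hnd i)
      rwa [hlv i] at this) (h.d1 (st i) (hnd i) i (hlv i).ge).2.2.1)
  refine ⟨z, fun i st' hst' => ?_⟩
  rw [hst'.unique (hst i)]
  exact hz i

private theorem l4_lv {x : ℕ → ℕ} (hx : x ∈ Tr) (n : ℕ) : lv (pd (pre x (n + 1))) = x n := by
  have h := lv_pd (nd_pre hx (n + 1)) (List.cons_ne_nil _ _)
  have h1 : lv (pre x (n + 1)) = x n + 1 := rfl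
  omega

private theorem l4_suf {s w : List ℕ} {i : ℕ} (hs : s <:+ w) (hl : lv s ≤ i) : s <:+ anc w i := by
  induction w with
  | nil => exact hs
  | cons p u ih =>
    unfold anc
    split_ifs with hp
    · exact hs
    · rcases List.suffix_cons_iff.1 hs with rfl | h1
      · simp only [lv] at hl
        omega
      · exact ih h1

/-- MODULE l4 (size 1).  Proof.  For `x ∈ Cel r` the visits `pre x (n+1)`, `pd (pre x (n+1)) = r` are infinitely many (`h.2`), the next one has the previous one as previous sibling (`Cel.next_visit`), so `Eh` is decreasing along them (`e3`): `nested_ne`.  The first visit is the first child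
(`Cel.first`); every visit is reached by iterating `Cel.next_visit` from the first one (or: `prev_visit` and strong induction shows that the `Eh` are decreasing). -/
theorem exists_ee (h : Sch s U Dh Eh Q) {x : ℕ → ℕ} {r : List ℕ} (hx : x ∈ Cel r) :
    ∃ e, ∀ n, pd (pre x (n + 1)) = r → e ∈ Eh (pre x (n + 1)) := by
  have h' := hx
  have hvis : ∀ n, pd (pre x (n + 1)) = r → x n = lv r := fun n hn => by rw [← hn, l4_lv h'.1]
  have next : ∀ n, pd (pre x (n + 1)) = r → ∃ m, n < m ∧ pd (pre x (m + 1)) = r ∧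
      Eh (pre x (m + 1)) ⊆ Eh (pre x (n + 1)) ∧ ∀ k, n < k → pd (pre x (k + 1)) = r → m ≤ k := by
    intro n hn
    obtain ⟨m, h1, h2, h3, h4⟩ := Cel.next_visit h' hn
    refine ⟨m, h1, h2, ?_, fun k hk hk' => ?_⟩
    · have h5 := h.e3 (x m) (pre x m) (nd_pre h'.1 (m + 1)) h3
      rw [h4] at h5
      exact h5
    · by_contra hcon
      have h5 : pre x (k + 1) <:+ pre x m := suffix_pre_iff.2 ⟨k + 1, not_le.1 hcon, rfl⟩
      have h6 : lv (pre x (k + 1)) ≤ x m + 1 := by
        show x k + 1 ≤ x m + 1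
        rw [hvis k hk', hvis m h2]
      have h7 := (l4_suf h5 h6).length_le
      rw [h4, length_pre, length_pre] at h7
      omega
  have mono : ∀ d n m, m - n ≤ d → n ≤ m → pd (pre x (n + 1)) = r → pd (pre x (m + 1)) = r →
      Eh (pre x (m + 1)) ⊆ Eh (pre x (n + 1)) := by
    intro d
    induction d with
    | zero =>
      intro n m h1 h2 _ _
      have : m = n := by omega
      rw [this]
    | succ d ih =>
      intro n m h1 h2 h3 h4
      rcases h2.eq_or_lt with h5 | h5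
      · rw [h5]
      · obtain ⟨k, k1, k2, k3, k4⟩ := next n h3
        exact (ih k m (by omega) (k4 m h5 h4) k2 h4).trans k3
  have hfirst : pd (pre x (r.length + 1)) = r := by
    rw [Cel.first h']
    exact anc_self le_rfl
  choose! f hf1 hf2 hf3 hf4 using next
  let N : ℕ → ℕ := fun k => Nat.rec r.length (fun _ n => f n) k
  have hN : ∀ k, N (k + 1) = f (N k) := fun _ => rfl
  have hNv : ∀ k, pd (pre x (N k + 1)) = r := by
    intro k
    induction k with
    | zero => exact hfirst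
    | succ k ih => rw [hN]; exact hf2 _ ih
  have hNk : ∀ k, k ≤ N k := by
    intro k
    induction k with
    | zero => exact Nat.zero_le _
    | succ k ih => rw [hN]; exact (Nat.succ_le_succ ih).trans (hf1 _ (hNv k))
  obtain ⟨e, he⟩ := nested_ne (F := fun k => Eh (pre x (N k + 1)))
    (fun k => (h.e1 (pre x (N k + 1)) (nd_pre h'.1 _) (List.cons_ne_nil _ _)).1)
    (fun k => (h.e1 (pre x (N k + 1)) (nd_pre h'.1 _) (List.cons_ne_nil _ _)).2.1)
    (fun k => hf3 _ (hNv k))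
    (fun k => l3_agr (by rw [length_pre]; have := hNk k; omega)
      (h.e1 _ (nd_pre h'.1 (N k + 1)) (List.cons_ne_nil _ _)).2.2)
  exact ⟨e, fun n hn => mono _ n (N n) le_rfl (hNk n) hn (hNv n) (he n)⟩

/-- The realisation of a scheme. -/
structure Rea (s : Sys) (Dh : List ℕ → ℕ → Set NN) (Eh : List ℕ → Set NN) (ψ : (ℕ → ℕ) → CC)
    (zz ee : (ℕ → ℕ) → NN) : Prop where
  cont : ContinuousOn ψ Tr
  a : ∀ x ∈ AA, ψ x = s.a (zz x)
  zz : ∀ x ∈ AA, ∀ i st, Stab x i st → zz x ∈ Dh st i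
  b : ∀ r x, x ∈ Cel r → ψ x = s.b (ee x)
  ee : ∀ r x, x ∈ Cel r → ∀ n, pd (pre x (n + 1)) = r → ee x ∈ Eh (pre x (n + 1))
  inj : ∀ i, InjOn (fun x => s.p i (ψ x)) Tr

/-- MODULE l5 (size 2).

Proof.  `zz`, `ee` by choice from `exists_zz`, `exists_ee`, `ψ x = a (zz x)` if `x ∈ AA`, `b (ee x)` otherwise (`exists_cel`, `Cel.unique`).  Claim: `ψ x ∈ U (pre x n) (x n)` for all `x ∈ Tr`, `n`.  `x ∈ AA`: take `i` large, `st` with `Stab x i st`, `st.length ≥ n + 1` (`lv st = i`, length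
`≥ i`); `a (zz x) ∈ U st i`, and by `d4` along the initial segments of `st` (`pre x m`, `m ≤ st.length`) `U st i ⊆ U (pre x n) (x n)`.  `x ∈ Cel r`: a visit `m ≥ n`: `b (ee x) ∈ U (pre x m) (x m)` (`e2`), `d4`.  Continuity: if `x, y ∈ Tr` agree below `n + 1` then `ψ x, ψ y ∈ U (pre x n) (x n)`, `Agr n`.
Injectivity: if `n` is the first place where `x`, `y` differ then `ψ x ∈ U (pre x n) (x n)`, `ψ y ∈ U (pre x n) (y n)`: `dj`. -/
theorem exists_rea (h : Sch s U Dh Eh Q) : ∃ ψ zz ee, Rea s Dh Eh ψ zz ee := by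
  classical
  let zz : (ℕ → ℕ) → NN := fun x => if hx : x ∈ AA then Classical.choose (exists_zz h hx) else fun _ => 0
  have hzz : ∀ x ∈ AA, ∀ i st, Stab x i st → zz x ∈ Dh st i := by
    intro x hx
    have : zz x = Classical.choose (exists_zz h hx) := dif_pos hx
    rw [this]
    exact Classical.choose_spec (exists_zz h hx)
  let ee : (ℕ → ℕ) → NN := fun x =>
    if hx : ∃ r, x ∈ Cel r then Classical.choose (exists_ee h (Classical.choose_spec hx)) else fun _ => 0
  have hee : ∀ r x, x ∈ Cel r → ∀ n, pd (pre x (n + 1)) = r → ee x ∈ Eh (pre x (n + 1)) := by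
    intro r x hx
    have hex : ∃ r, x ∈ Cel r := ⟨r, hx⟩
    have h1 : ee x = Classical.choose (exists_ee h (Classical.choose_spec hex)) := dif_pos hex
    have h2 : r = Classical.choose hex := Cel.unique hx (Classical.choose_spec hex)
    rw [h1]
    intro n hn
    exact Classical.choose_spec (exists_ee h (Classical.choose_spec hex)) n (hn.trans h2)
  let ψ : (ℕ → ℕ) → CC := fun x => if x ∈ AA then s.a (zz x) else s.b (ee x)
  have ha : ∀ x ∈ AA, ψ x = s.a (zz x) := fun x hx => if_pos hx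
  have hb : ∀ r x, x ∈ Cel r → ψ x = s.b (ee x) := fun r x hx => if_neg (Cel.not_AA hx)
  have hdec : ∀ x ∈ Tr, ∀ n m, n ≤ m → U (pre x m) (x m) ⊆ U (pre x n) (x n) := by
    intro x hx n m hnm
    induction m, hnm using Nat.le_induction with
    | base => exact subset_rfl
    | succ m hm ih => exact (h.d4 (x m) (pre x m) (nd_pre hx (m + 1)) (x (m + 1)) (hx.2 m)).trans ih
  have hmem : ∀ x ∈ Tr, ∀ n, ψ x ∈ U (pre x n) (x n) := by
    intro x hx n
    by_cases hA : x ∈ AA
    · obtain ⟨st, hst⟩ := exists_stab hA (n + 1)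
      have h1 := hst.lv hA
      have h2 := hst.nd hx
      have h3 := hst.pre
      have h4 := l3_len h2
      obtain ⟨m, hm⟩ : ∃ m, st.length = m + 1 := ⟨st.length - 1, by omega⟩
      rw [hm] at h3
      have h5 := (h.d1 st h2 (n + 1) h1.ge).2.2.2.2.2 _ (hzz x hA _ _ hst)
      rw [← ha x hA, ← h3] at h5
      have h6 : n + 1 ≤ x m + 1 := by
        have : lv (pre x (m + 1)) = x m + 1 := rfl
        rw [← this, h3, h1]
      exact hdec x hx n m (by omega) (h.d4 (x m) (pre x m) (nd_pre hx (m + 1)) (n + 1) h6 h5)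
    · obtain ⟨r, -, hr⟩ := exists_cel hx hA
      obtain ⟨m, hm, h1⟩ := (Filter.frequently_atTop.1 hr.2) n
      have h2 := h.e2 (x m) (pre x m) (nd_pre hx (m + 1)) (ee x) (hee r x hr m h1)
      rw [← hb r x hr] at h2
      exact hdec x hx n m hm h2
  have hle : ∀ x ∈ Tr, ∀ n, x n ≤ lv (pre x n) := fun x hx n => (nd_pre hx (n + 1)).1
  refine ⟨ψ, zz, ee, ?_, ha, hzz, hb, hee, ?_⟩
  · refine continuousOn_pi.2 fun i => ?_
    intro x hx
    have hev : ∀ᶠ y in 𝓝[Tr] x, ψ y i = ψ x i := by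
      have hop : IsOpen {y : ℕ → ℕ | ∀ j ∈ Finset.range (i + 2), y j = x j} := by
        have : {y : ℕ → ℕ | ∀ j ∈ Finset.range (i + 2), y j = x j} =
            ⋂ j ∈ Finset.range (i + 2), {y : ℕ → ℕ | y j = x j} := by
          ext y
          simp
        rw [this]
        refine isOpen_biInter_finset fun j _ => ?_
        exact (isOpen_discrete ({x j} : Set ℕ)).preimage (continuous_apply (A := fun _ : ℕ => ℕ) j)
      have h1 : {y : ℕ → ℕ | ∀ j ∈ Finset.range (i + 2), y j = x j} ∈ 𝓝 x := hop.mem_nhds fun _ _ => rfl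
      filter_upwards [mem_nhdsWithin_of_mem_nhds h1, self_mem_nhdsWithin] with y hy hyT
      have h2 : pre y (i + 1) = pre x (i + 1) := pre_congr fun j hj => hy j (Finset.mem_range.2 (by omega))
      have h3 : y (i + 1) = x (i + 1) := hy (i + 1) (Finset.mem_range.2 (by omega))
      have h4 := hmem y hyT (i + 1)
      rw [h2, h3] at h4
      have h5 := (h.d1 (pre x (i + 1)) (nd_pre hx _) (x (i + 1)) (hle x hx _)).2.2.2.2.1
      rw [length_pre] at h5
      exact h5 _ h4 _ (hmem x hx (i + 1)) i (Nat.lt_succ_self i)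
    exact tendsto_const_nhds.congr' (hev.mono fun y hy => hy.symm)
  · intro i x hx y hy hxy
    by_contra hne
    have hex : ∃ n, x n ≠ y n := by
      by_contra hcon
      push Not at hcon
      exact hne (funext hcon)
    have h1 : pre x (Nat.find hex) = pre y (Nat.find hex) :=
      pre_congr fun j hj => not_not.1 (Nat.find_min hex hj)
    have h2 := hmem y hy (Nat.find hex)
    rw [← h1] at h2
    have h3 := hle y hy (Nat.find hex)
    rw [← h1] at h3
    exact h.dj (pre x (Nat.find hex)) (nd_pre hx _) _ _ (hle x hx _) h3 (Nat.find_spec hex) i _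
      (hmem x hx _) _ h2 hxy

/-! ### the types on the side of `AA` -/

variable {ψ : (ℕ → ℕ) → CC} {zz ee : (ℕ → ℕ) → NN}

/-- MODULE l6 (size 1): `p i ∘ ψ` is an embedding of the compact space `Tr`. -/
theorem Rea.tendsto_p (h : Rea s Dh Eh ψ zz ee) (i : Fin 2) {y : ℕ → ℕ → ℕ} {x : ℕ → ℕ} (hy : ∀ n, y n ∈ Tr)
    (hx : x ∈ Tr) : Tendsto (fun n => s.p i (ψ (y n))) atTop (𝓝 (s.p i (ψ x))) ↔ Tendsto y atTop (𝓝 x) := by
  have : CompactSpace Tr := isCompact_iff_compactSpace.1 isCompact_Tr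
  have hc : Continuous fun x : Tr => s.p i (ψ x.1) := (s.cp i).comp (continuousOn_iff_continuous_domRestrict.1 h.cont)
  have hi : Function.Injective fun x : Tr => s.p i (ψ x.1) := fun x y hxy => Subtype.ext (h.inj i x.2 y.2 hxy)
  have he := hc.isClosedEmbedding hi
  have h1 := he.isEmbedding.tendsto_nhds_iff (f := fun n => (⟨y n, hy n⟩ : Tr)) (l := atTop) (y := (⟨x, hx⟩ : Tr))
  have h2 : Tendsto (fun n => (⟨y n, hy n⟩ : Tr)) atTop (𝓝 (⟨x, hx⟩ : Tr)) ↔ Tendsto y atTop (𝓝 x) :=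
    tendsto_subtype_rng
  rw [← h2, h1]
  rfl

/-- MODULE l7 (size 2): the fine topology.

Proof.  `←`: `Stab (y n) i st` gives `zz (y n), zz x ∈ Dh st i`; for `i ≥ 1` (`st ≠ []`) `k (zz ..) ∈ Q st`, `Agr st.length (Q st)`, `st.length ≥ i`.  `→`: induction on `i`: `i = 0`: `st = []`.  `i + 1`: `st' = pd st`, `Stab x i st'`, so eventually `Stab (y n) i st'`; let `t n` with `Stab (y n) (i+1) (t n)`, `pd (t n) = st'`;
`k (zz (y n)) ∈ Q (t n)`, `k (zz x) ∈ Q st` open, so eventually `k (zz (y n)) ∈ Q st`, so `t n = st` (`q2`). -/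
theorem Rea.tendsto_k (h : Rea s Dh Eh ψ zz ee) (hS : Sch s U Dh Eh Q) {y : ℕ → ℕ → ℕ} {x : ℕ → ℕ}
    (hy : ∀ n, y n ∈ AA) (hx : x ∈ AA) : Tendsto (fun n => s.k (zz (y n))) atTop (𝓝 (s.k (zz x))) ↔
      ∀ i st, Stab x i st → ∀ᶠ n in atTop, Stab (y n) i st := by
  have hkQ : ∀ x ∈ AA, ∀ i st, Stab x (i + 1) st → s.k (zz x) ∈ Q st ∧ st ≠ [] ∧ Nd st ∧ i < st.length := by
    intro x hx i st hst
    have h1 := hst.lv hx
    have h2 := hst.nd hx.1
    have h3 : st ≠ [] := fun h0 => by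
      rw [h0] at h1
      exact absurd h1 (Nat.succ_ne_zero i).symm
    exact ⟨(hS.d5 st h2 h3 (i + 1) h1.ge).2 _ (h.zz x hx _ _ hst), h3, h2, by
      have := l3_len h2
      omega⟩
  constructor
  · intro ht i
    induction i with
    | zero =>
      intro st hst
      have h1 : st = [] := hst.unique (stab_zero hx.1)
      subst h1
      exact Filter.Eventually.of_forall fun n => stab_zero (hy n).1
    | succ i ih =>
      intro st hst
      obtain ⟨st', hst'⟩ := exists_stab hx i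
      obtain ⟨h1, h2⟩ := hst'.pd hx hst
      obtain ⟨h3, -, h4, -⟩ := hkQ x hx i st hst
      have h5 : ∀ᶠ n in atTop, s.k (zz (y n)) ∈ Q st :=
        ht.eventually ((hS.q1 st h4 h1).1.isOpen.mem_nhds h3)
      filter_upwards [ih st' hst', h5] with n hn1 hn2
      obtain ⟨t, ht'⟩ := exists_stab (hy n) (i + 1)
      obtain ⟨g1, g2⟩ := hn1.pd (hy n) ht'
      obtain ⟨g3, -, g4, -⟩ := hkQ (y n) (hy n) i t ht'
      by_cases hts : t = st
      · rw [← hts]
        exact ht'
      · exact absurd hn2 (Set.disjoint_left.1 (hS.q2 t st g4 h4 g1 h1 (g2.trans h2.symm) hts) g3)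
  · intro hev
    rw [tendsto_iff_agr]
    intro i
    obtain ⟨st, hst⟩ := exists_stab hx (i + 1)
    obtain ⟨h1, h2, h3, h4⟩ := hkQ x hx i st hst
    filter_upwards [hev _ _ hst] with n hn
    exact (hS.q1 st h3 h2).2 _ (hkQ (y n) (hy n) i st hn).1 _ h1 i h4

end Pool.Agent.Bs2
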