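import Pool.Agent.Bs2.Defs

/-!
# Countable unions of `G_δ` sets; the ideals of null sets
-/

set_option autoImplicit false

open Set Filter Topology TopologicalSpace

namespace Pool.Agent.Bs2

section sig

variable {Z Z' : Type} [TopologicalSpace Z] [TopologicalSpace Z']

/-- MODULE s1 (size 1; all theorems of this section). -/
theorem Sig3.of_isGδ {S : Set Z} (h : IsGδ S) : Sig3 S := by
  exact ⟨fun _ => S, fun _ => h, (iUnion_const S).symm⟩

theorem Sig3.of_isOpen {S : Set Z} (h : IsOpen S) : Sig3 S := by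
  exact Sig3.of_isGδ h.isGδ

theorem Sig3.of_isClosed [MetrizableSpace Z] {S : Set Z} (h : IsClosed S) : Sig3 S := by
  let _ := metrizableSpaceMetric Z
  exact Sig3.of_isGδ h.isGδ

theorem Sig3.iUnion {ι : Type} [Countable ι] {S : ι → Set Z} (h : ∀ i, Sig3 (S i)) : Sig3 (⋃ i, S i) := by
  rcases isEmpty_or_nonempty ι with hι | hι
  · rw [iUnion_of_empty]
    exact Sig3.of_isOpen isOpen_empty
  · choose G hG hSG using h
    obtain ⟨f, hf⟩ := exists_surjective_nat (ι × ℕ)
    refine ⟨fun n => G (f n).1 (f n).2, fun n => hG _ _, ?_⟩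
    ext x
    simp only [mem_iUnion]
    constructor
    · rintro ⟨i, hi⟩
      rw [hSG i] at hi
      obtain ⟨m, hm⟩ := mem_iUnion.1 hi
      obtain ⟨n, hn⟩ := hf (i, m)
      refine ⟨n, ?_⟩
      rw [hn]
      exact hm
    · rintro ⟨n, hn⟩
      refine ⟨(f n).1, ?_⟩
      rw [hSG]
      exact mem_iUnion.2 ⟨(f n).2, hn⟩

theorem Sig3.union {S S' : Set Z} (h : Sig3 S) (h' : Sig3 S') : Sig3 (S ∪ S') := by
  have h1 : S ∪ S' = ⋃ b : Bool, cond b S S' := by
    rw [union_eq_iUnion]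
  rw [h1]
  refine Sig3.iUnion fun b => ?_
  cases b
  · exact h'
  · exact h

theorem Sig3.inter {S S' : Set Z} (h : Sig3 S) (h' : Sig3 S') : Sig3 (S ∩ S') := by
  obtain ⟨G, hG, rfl⟩ := h
  obtain ⟨G', hG', rfl⟩ := h'
  have h1 : (⋃ n, G n) ∩ (⋃ n, G' n) = ⋃ q : ℕ × ℕ, G q.1 ∩ G' q.2 := by
    ext x
    simp only [mem_inter_iff, mem_iUnion, Prod.exists]
    constructor
    · rintro ⟨⟨a, ha⟩, b, hb⟩
      exact ⟨a, b, ha, hb⟩
    · rintro ⟨a, b, ha, hb⟩
      exact ⟨⟨a, ha⟩, b, hb⟩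
  rw [h1]
  exact Sig3.iUnion fun q => Sig3.of_isGδ ((hG q.1).inter (hG' q.2))

theorem Sig3.preimage {g : Z → Z'} (hg : Continuous g) {S : Set Z'} (h : Sig3 S) : Sig3 (g ⁻¹' S) := by
  obtain ⟨G, hG, rfl⟩ := h
  refine ⟨fun n => g ⁻¹' G n, fun n => (hG n).preimage hg, preimage_iUnion⟩

/-- The complement of a countable union of closed sets is a `G_δ` set. -/
theorem Sig3.compl_iUnion {F : ℕ → Set Z} (h : ∀ n, IsClosed (F n)) : Sig3 (⋃ n, F n)ᶜ := by
  rw [Set.compl_iUnion]
  exact Sig3.of_isGδ (IsGδ.iInter_of_isOpen fun n => (h n).isOpen_compl)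

end sig

/-! ### clopen sets of sequence spaces -/

private theorem s2_clopen {α : Type} [TopologicalSpace α] [DiscreteTopology α] (x : ℕ → α) (m : ℕ) :
    IsClopen {y : ℕ → α | ∀ i < m, y i = x i} := by
  have h1 : {y : ℕ → α | ∀ i < m, y i = x i} = ⋂ i ∈ Finset.range m, (fun y : ℕ → α => y i) ⁻¹' {x i} := by
    ext y
    simp only [mem_ofPred_eq, mem_iInter, Finset.mem_range, mem_preimage, mem_singleton_iff]
  rw [h1]
  exact isClopen_biInter_finset fun i _ => (isClopen_discrete {x i}).preimage (continuous_apply i)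

private theorem s2_basis {α : Type} [TopologicalSpace α] [DiscreteTopology α] {W : Set (ℕ → α)} (hW : IsOpen W)
    {x : ℕ → α} (hx : x ∈ W) (n : ℕ) : ∃ m, n ≤ m ∧ {y : ℕ → α | ∀ i < m, y i = x i} ⊆ W := by
  obtain ⟨v, ⟨y, m, rfl⟩, hxv, hvW⟩ :=
    (PiNat.isTopologicalBasis_cylinders (fun _ : ℕ => α)).exists_subset_of_mem_open hx hW
  refine ⟨max n m, le_max_left _ _, fun z hz => hvW ?_⟩
  rw [PiNat.mem_cylinder_iff] at hxv ⊢
  intro i hi
  rw [hz i (lt_of_lt_of_le hi (le_max_right _ _)), hxv i hi]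

/-- MODULE s2 (size 1; all theorems of this section; `α = ℕ` or `Bool` with the discrete topology).
The cylinder `{y | ∀ i < n, y i = x i}` is clopen (finite intersection of preimages of points under continuous maps to a discrete space) and
`{W | ∃ x n, W = cylinder}` is a neighbourhood basis (`PiNat`: `PiNat.cylinder`, `PiNat.isOpen_cylinder`, ... may be used). -/
theorem exists_cyl {α : Type} [TopologicalSpace α] [DiscreteTopology α] {W : Set (ℕ → α)} (hW : IsOpen W) {x : ℕ → α}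
    (hx : x ∈ W) (n : ℕ) : ∃ V, IsClopen V ∧ V ⊆ W ∧ x ∈ V ∧ Agr n V := by
  obtain ⟨m, hm, hsub⟩ := s2_basis hW hx n
  refine ⟨_, s2_clopen x m, hsub, fun i _ => rfl, ?_⟩
  intro y hy z hz i hi
  rw [hy i (hi.trans_le hm), hz i (hi.trans_le hm)]

/-- A countable family of clopen sets which contains every clopen neighbourhood basis. -/
theorem exists_cyl_seq (α : Type) [TopologicalSpace α] [DiscreteTopology α] [Countable α] [Nonempty α] :
    ∃ C : ℕ → Set (ℕ → α), (∀ i, IsClopen (C i)) ∧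
      ∀ (W : Set (ℕ → α)) (x : ℕ → α) (n : ℕ), IsOpen W → x ∈ W → ∃ i, x ∈ C i ∧ C i ⊆ W ∧ Agr n (C i) := by
  obtain ⟨f, hf⟩ := exists_surjective_nat (List α)
  refine ⟨fun i => {y : ℕ → α | ∀ j < (f i).length, (f i)[j]? = some (y j)}, fun i => ?_, ?_⟩
  · beta_reduce
    by_cases hne : {y : ℕ → α | ∀ j < (f i).length, (f i)[j]? = some (y j)} = ∅
    · rw [hne]
      exact isClopen_empty
    · obtain ⟨x, hx⟩ := nonempty_iff_ne_empty.2 hne
      have h1 : {y : ℕ → α | ∀ j < (f i).length, (f i)[j]? = some (y j)} =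
          {y : ℕ → α | ∀ j < (f i).length, y j = x j} := by
        ext y
        simp only [mem_ofPred_eq]
        refine forall₂_congr fun j hj => ?_
        rw [hx j hj, Option.some.injEq, eq_comm]
      rw [h1]
      exact s2_clopen x _
  · intro W x n hW hx
    obtain ⟨m, hm, hsub⟩ := s2_basis hW hx n
    obtain ⟨i, hi⟩ := hf ((List.range m).map x)
    have hlen : (f i).length = m := by rw [hi, List.length_map, List.length_range]
    have hget : ∀ j < m, (f i)[j]? = some (x j) := by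
      intro j hj
      rw [hi, List.getElem?_map, List.getElem?_range hj]
      rfl
    have hmem : ∀ y : ℕ → α, (∀ j < (f i).length, (f i)[j]? = some (y j)) → ∀ j < m, y j = x j := by
      intro y hy j hj
      have h1 := hy j (by rw [hlen]; exact hj)
      rw [hget j hj, Option.some.injEq] at h1
      exact h1.symm
    refine ⟨i, ?_, ?_, ?_⟩
    · intro j hj
      rw [hlen] at hj
      exact hget j hj
    · intro y hy
      exact hsub (hmem y hy)
    · intro y hy z hz j hj
      rw [hmem y hy j (hj.trans_le hm), hmem z hz j (hj.trans_le hm)]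

/-- Nested closed nonempty sets of small diameter in a product of discrete spaces have a common point. -/
theorem nested_ne {α : Type} [TopologicalSpace α] [DiscreteTopology α] {F : ℕ → Set (ℕ → α)}
    (hc : ∀ n, IsClosed (F n)) (hn : ∀ n, (F n).Nonempty) (hm : ∀ n, F (n + 1) ⊆ F n) (ha : ∀ n, Agr n (F n)) :
    ∃ x, ∀ n, x ∈ F n := by
  choose y hy using hn
  have hanti : ∀ m n, m ≤ n → F n ⊆ F m := by
    intro m n hmn
    induction n, hmn using Nat.le_induction with
    | base => exact Subset.rfl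
    | succ n _ ih => exact (hm n).trans ih
  have hlim : Tendsto y atTop (𝓝 (fun i => y (i + 1) i)) := by
    rw [tendsto_pi_nhds]
    intro i
    refine tendsto_const_nhds.congr' ?_
    refine eventually_atTop.2 ⟨i + 1, fun n hn => ?_⟩
    exact ha (i + 1) _ (hy (i + 1)) _ (hanti _ _ hn (hy n)) i (Nat.lt_succ_self i)
  refine ⟨fun i => y (i + 1) i, fun n => ?_⟩
  refine (hc n).mem_of_tendsto hlim (eventually_atTop.2 ⟨n, fun m hmn => hanti _ _ hmn (hy m)⟩)

/-- Convergence in a product of discrete spaces. -/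
theorem tendsto_iff_agr {α : Type} [TopologicalSpace α] [DiscreteTopology α] {y : ℕ → (ℕ → α)} {x : ℕ → α} :
    Tendsto y atTop (𝓝 x) ↔ ∀ i, ∀ᶠ n in atTop, y n i = x i := by
  rw [tendsto_pi_nhds]
  refine forall_congr' fun i => ?_
  rw [nhds_discrete, tendsto_pure]

namespace Sys

variable {s : Sys} {J J' : Set CC} {S S' : Set NN}

/-- MODULE s3 (size 1; all theorems of this section). -/
theorem Null.mono (h : s.Null J' S') (hJ : J ⊆ J') (hS : S ⊆ S') : s.Null J S := by
  obtain ⟨Θ, hΘ, h1, h2⟩ := h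
  exact ⟨Θ, hΘ, fun z hz => h1 z (hS hz), fun e he => h2 e (hJ he)⟩

theorem null_empty : s.Null J ∅ := by
  exact ⟨∅, Sig3.of_isOpen isOpen_empty, fun z hz => absurd hz (notMem_empty z), fun e _ => notMem_empty _⟩

theorem null_iUnion {ι : Type} [Countable ι] {S : ι → Set NN} (h : ∀ i, s.Null J (S i)) : s.Null J (⋃ i, S i) := by
  choose Θ hΘ h1 h2 using h
  refine ⟨⋃ i, Θ i, Sig3.iUnion hΘ, ?_, ?_⟩
  · intro z hz
    obtain ⟨i, hi⟩ := mem_iUnion.1 hz
    exact mem_iUnion.2 ⟨i, h1 i z hi⟩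
  · intro e he hb
    obtain ⟨i, hi⟩ := mem_iUnion.1 hb
    exact h2 i e he hi

theorem Null.union (h : s.Null J S) (h' : s.Null J S') : s.Null J (S ∪ S') := by
  have h1 : S ∪ S' = ⋃ b : Bool, cond b S S' := by
    rw [union_eq_iUnion]
  rw [h1]
  refine null_iUnion fun b => ?_
  cases b
  · exact h'
  · exact h

/-- `Sig3.inter`. -/
theorem Null.union_J (h : s.Null J S) (h' : s.Null J' S) : s.Null (J ∪ J') S := by
  obtain ⟨Θ, hΘ, h1, h2⟩ := h
  obtain ⟨Θ', hΘ', h1', h2'⟩ := h'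
  refine ⟨Θ ∩ Θ', hΘ.inter hΘ', fun z hz => ⟨h1 z hz, h1' z hz⟩, ?_⟩
  rintro e (he | he) hb
  · exact h2 e he hb.1
  · exact h2' e he hb.2

theorem null_biUnion {ι : Type} (B : Finset ι) {S : ι → Set NN} (h : ∀ i ∈ B, s.Null J (S i)) :
    s.Null J (⋃ i ∈ B, S i) := by
  have h1 : ⋃ i ∈ B, S i = ⋃ i : B, S i := by
    ext z
    simp only [mem_iUnion, Subtype.exists]
  rw [h1]
  exact null_iUnion fun i => h i i.2

/-- A locally null set is null (`exists_cyl_seq`, countable subcover). -/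
theorem null_of_local (h : ∀ z ∈ S, ∃ W, IsOpen W ∧ z ∈ W ∧ s.Null J (S ∩ W)) : s.Null J S := by
  obtain ⟨C, hC, hC2⟩ := exists_cyl_seq ℕ
  have h1 : s.Null J (⋃ i : {i : ℕ // s.Null J (S ∩ C i)}, S ∩ C i) := null_iUnion fun i => i.2
  refine h1.mono Subset.rfl ?_
  intro z hz
  obtain ⟨W, hW, hzW, hN⟩ := h z hz
  obtain ⟨i, hi, hiW, -⟩ := hC2 W z 0 hW hzW
  exact mem_iUnion.2 ⟨⟨i, hN.mono Subset.rfl (inter_subset_inter_right _ hiW)⟩, hz, hi⟩

/-- If `S` is covered by countably many sets `T i` and is not null then some `S ∩ T i` is not null. -/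
theorem exists_not_null {ι : Type} [Countable ι] {T : ι → Set NN} (h : ¬ s.Null J S) (hS : S ⊆ ⋃ i, T i) :
    ∃ i, ¬ s.Null J (S ∩ T i) := by
  by_contra hcon
  push Not at hcon
  refine h ((null_iUnion hcon).mono Subset.rfl ?_)
  intro z hz
  obtain ⟨i, hi⟩ := mem_iUnion.1 (hS hz)
  exact mem_iUnion.2 ⟨i, hz, hi⟩

/-- A clopen `J` which is the union of countably many / finitely many: if `S` is null for two sets whose union
contains `J` it is `J`-null. -/
theorem null_of_cover (h : s.Null J S) (h' : s.Null J' S) {J₀ : Set CC} (hJ : J₀ ⊆ J ∪ J') : s.Null J₀ S := by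
  exact (h.union_J h').mono hJ Subset.rfl

end Sys

end Pool.Agent.Bs2
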