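import Pool.Agent.Bs2.Casc
import Pool.Agent.Bs2.FC

/-!
# Adding nodes to a configuration
-/

set_option autoImplicit false

open Set Filter Topology TopologicalSpace
open scoped Classical

namespace Pool.Agent.Bs2

variable {s : Sys} {c : Cfg}

/-- The configuration with the new node `v`. -/
noncomputable def addN (c : Cfg) (v : List ℕ) (E₀ : Set NN) (Q₀ : Set CC) (D₀ : ℕ → Set NN) (K₀ U₀ : ℕ → Set CC) :
    Cfg where
  S := insert v c.S
  E := fun w => if w = v then E₀ else c.E w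
  R := c.R
  D := fun w => if w.tail = v ∧ w ≠ [] then D₀ w.headI else c.D w
  JR := c.JR
  JD := fun w => if w.tail = v ∧ w ≠ [] then K₀ w.headI else c.JD w
  U := fun w => if w = v then U₀ else c.U w
  Dh := fun w => if w = v then D₀ else c.Dh w
  Eh := fun w => if w = v then E₀ else c.Eh w
  Q := fun w => if w = v then Q₀ else c.Q w

/-- The configuration with new data for the root `r`. -/
noncomputable def setR (c : Cfg) (r : List ℕ) (R₀ : Set NN) (J₀ : Set CC) : Cfg :=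
  { c with
    R := fun w => if w = r then R₀ else c.R w
    JR := fun w => if w = r then J₀ else c.JR w }

private theorem d6_suffix {c : Cfg} (hc : Dyn s c) : ∀ {v w : List ℕ}, w <:+ v → v ∈ c.S → w ∈ c.S := by
  intro v
  induction v with
  | nil =>
    intro w h hv
    rw [List.suffix_nil] at h
    rw [h]
    exact hv
  | cons p u ih =>
    intro w h hv
    rcases List.suffix_cons_iff.1 h with h | h
    · rw [h]
      exact hv
    · exact ih h (hc.tl p u hv)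

/-- MODULE d1 (size 1): `setR` at a node without children does not matter (no `v ∈ S`, `v ≠ []` has `pd v = r`, by `first_suffix` and `hc.tl`). -/
theorem dyn_setR (hc : Dyn s c) (hst : Stc s c) {r : List ℕ} (hr : lv r :: r ∉ c.S) (R₀ : Set NN) (J₀ : Set CC) :
    Dyn s (setR c r R₀ J₀) ∧ Stc s (setR c r R₀ J₀) ∧ ∀ v ∈ c.S, v ≠ [] → pd v ≠ r := by
  have hp : ∀ v ∈ c.S, v ≠ [] → pd v ≠ r := by
    intro v hv hne e
    apply hr
    rw [← e]
    exact d6_suffix hc (first_suffix (hc.nd v hv) hne) hv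
  have hR : ∀ v ∈ c.S, v ≠ [] → (setR c r R₀ J₀).R (pd v) = c.R (pd v) := fun v hv hne => if_neg (hp v hv hne)
  have hJ : ∀ v ∈ c.S, v ≠ [] → (setR c r R₀ J₀).JR (pd v) = c.JR (pd v) := fun v hv hne => if_neg (hp v hv hne)
  refine ⟨?_, ?_, hp⟩
  · refine ⟨hc.nil, hc.nd, hc.tl, ?_, ?_, hc.slot⟩
    · intro v hv hne
      rw [hR v hv hne, hJ v hv hne]
      exact hc.good v hv hne
    · intro v hv hne
      rw [hR v hv hne, hJ v hv hne]
      exact hc.root v hv hne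
  · refine ⟨hst.e1, hst.e2, hst.e3, hst.d1, hst.d2, ?_, hst.d4, hst.d5, hst.dj, hst.q1, hst.q2, ?_⟩
    · intro v hv hne
      rw [hR v hv hne]
      exact hst.d3 v hv hne
    · intro v hv hne
      rw [hR v hv hne]
      exact hst.q3 v hv hne

/-- The hypotheses for a new node. -/
structure AddOk (s : Sys) (c : Cfg) (p : ℕ) (u : List ℕ) (E₀ : Set NN) (Q₀ : Set CC) (D₀ : ℕ → Set NN)
    (K₀ U₀ : ℕ → Set CC) : Prop where
  hu : u ∈ c.S
  hp : p ≤ lv u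
  hv : p :: u ∉ c.S
  Rc : IsClosed (c.R (anc u p))
  RT : c.R (anc u p) ⊆ s.Tc c.E (anc u p)
  JR : IsClopen (c.JR (anc u p))
  RD : c.R (anc u p) ⊆ c.Dh (anc u p) (lv (anc u p))
  good : s.Good (c.R (anc u p)) (c.JR (anc u p)) E₀
  Es : p < lv u → E₀ ⊆ c.Eh (anc u (p + 1))
  EU : ∀ e ∈ E₀, s.b e ∈ c.U u p
  Ea : Agr (u.length + 1) E₀
  Qc : IsClopen Q₀
  Qa : Agr (u.length + 1) Q₀
  QR : Disjoint (c.R (anc u p)) (s.k ⁻¹' Q₀)
  Q2 : ∀ w ∈ c.S, w ≠ [] → pd w = anc u p → Disjoint Q₀ (c.Q w)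
  K : ∀ q ≤ p + 1, IsClopen (K₀ q) ∧ s.Perf (K₀ q) (D₀ q) ∧ D₀ q ⊆ c.Dh (anc u p) (lv (anc u p)) ∧
    D₀ q ⊆ s.Tc c.E (anc u p) ∧ D₀ q ⊆ s.a ⁻¹' closure (s.b '' E₀) ∧ Agr (u.length + 1) (D₀ q) ∧
    (∀ z ∈ D₀ q, s.k z ∈ Q₀)
  U : ∀ q ≤ p + 1, IsClopen (U₀ q) ∧ U₀ q ⊆ c.U u p ∧ Agr (u.length + 1) (U₀ q) ∧ ∀ z ∈ D₀ q, s.a z ∈ U₀ q
  dj : ∀ q ≤ p + 1, ∀ q' ≤ p + 1, q ≠ q' → ∀ i, ∀ y ∈ U₀ q, ∀ y' ∈ U₀ q', s.p i y ≠ s.p i y'

/-- MODULE d2 (size 2): the dynamic part.  `Tc` of an old node does not change (`Tc_congr`, the initial segments of nodes of `S` are in `S`, `p :: u ∉ S`); `Tc_cons` for the new one (`pd (p :: u) = anc u p`). -/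
theorem dyn_add (hc : Dyn s c) {p : ℕ} {u : List ℕ} {E₀ : Set NN} {Q₀ : Set CC} {D₀ : ℕ → Set NN}
    {K₀ U₀ : ℕ → Set CC} (h : AddOk s c p u E₀ Q₀ D₀ K₀ U₀) : Dyn s (addN c (p :: u) E₀ Q₀ D₀ K₀ U₀) := by
  have hne : ∀ {w}, w ∈ c.S → w ≠ p :: u := fun hw e => h.hv (e ▸ hw)
  have hE : ∀ {w}, w ∈ c.S → (addN c (p :: u) E₀ Q₀ D₀ K₀ U₀).E w = c.E w := fun hw => if_neg (hne hw)
  have hT : ∀ {w}, w ∈ c.S → s.Tc (addN c (p :: u) E₀ Q₀ D₀ K₀ U₀).E w = s.Tc c.E w := fun hw =>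
    Tc_congr fun w' hw' _ => hE (d6_suffix hc hw' hw)
  have hEv : (addN c (p :: u) E₀ Q₀ D₀ K₀ U₀).E (p :: u) = E₀ := if_pos rfl
  have hap : anc u p ∈ c.S := d6_suffix hc (anc_suffix u p) h.hu
  refine ⟨Finset.mem_insert_of_mem hc.nil, ?_, ?_, ?_, ?_, ?_⟩
  · intro w hw
    rcases Finset.mem_insert.1 hw with rfl | hw
    · exact ⟨h.hp, hc.nd u h.hu⟩
    · exact hc.nd w hw
  · intro p' u' hw
    rcases Finset.mem_insert.1 hw with hw | hw
    · rw [(List.cons.inj hw).2]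
      exact Finset.mem_insert_of_mem h.hu
    · exact Finset.mem_insert_of_mem (hc.tl p' u' hw)
  · intro w hw hwn
    rcases Finset.mem_insert.1 hw with rfl | hw
    · rw [hEv]
      exact h.good
    · rw [hE hw]
      exact hc.good w hw hwn
  · intro w hw hwn
    rcases Finset.mem_insert.1 hw with rfl | hw
    · refine ⟨h.Rc, ?_, h.JR⟩
      show c.R (anc u p) ⊆ s.Tc (addN c (p :: u) E₀ Q₀ D₀ K₀ U₀).E (anc u p)
      rw [hT hap]
      exact h.RT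
    · rw [hT (d6_suffix hc (pd_suffix w) hw)]
      exact hc.root w hw hwn
  · intro q u' hu' hq hv'
    rcases Finset.mem_insert.1 hu' with rfl | hu'
    · obtain ⟨k1, k2, -, k4, k5, -⟩ := h.K q hq
      have e1 : (addN c (p :: u) E₀ Q₀ D₀ K₀ U₀).D (q :: p :: u) = D₀ q :=
        if_pos ⟨rfl, List.cons_ne_nil _ _⟩
      have e2 : (addN c (p :: u) E₀ Q₀ D₀ K₀ U₀).JD (q :: p :: u) = K₀ q :=
        if_pos ⟨rfl, List.cons_ne_nil _ _⟩
      rw [e1, e2]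
      refine ⟨k2, ?_, k1⟩
      rw [Tc_cons, hEv, hT hap]
      exact subset_inter k5 k4
    · have hn : ¬ ((q :: u').tail = p :: u ∧ q :: u' ≠ []) := fun e => hne hu' e.1
      have e1 : (addN c (p :: u) E₀ Q₀ D₀ K₀ U₀).D (q :: u') = c.D (q :: u') := if_neg hn
      have e2 : (addN c (p :: u) E₀ Q₀ D₀ K₀ U₀).JD (q :: u') = c.JD (q :: u') := if_neg hn
      rw [e1, e2, hT hu']
      exact hc.slot q u' hu' hq fun e => hv' (Finset.mem_insert_of_mem e)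

/-- MODULE d3 (size 2): the static part (`u` is not `p :: u`, `anc u i` neither; `lv (p :: u) = p + 1`). -/
theorem stc_add (hc : Dyn s c) (hst : Stc s c) {p : ℕ} {u : List ℕ} {E₀ : Set NN} {Q₀ : Set CC} {D₀ : ℕ → Set NN}
    {K₀ U₀ : ℕ → Set CC} (h : AddOk s c p u E₀ Q₀ D₀ K₀ U₀) : Stc s (addN c (p :: u) E₀ Q₀ D₀ K₀ U₀) := by
  have hne : ∀ {w}, w ∈ c.S → w ≠ p :: u := fun hw e => h.hv (e ▸ hw)
  have hE : ∀ {w}, w ∈ c.S → (addN c (p :: u) E₀ Q₀ D₀ K₀ U₀).E w = c.E w := fun hw => if_neg (hne hw)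
  have hU : ∀ {w}, w ∈ c.S → (addN c (p :: u) E₀ Q₀ D₀ K₀ U₀).U w = c.U w := fun hw => if_neg (hne hw)
  have hDh : ∀ {w}, w ∈ c.S → (addN c (p :: u) E₀ Q₀ D₀ K₀ U₀).Dh w = c.Dh w := fun hw => if_neg (hne hw)
  have hEh : ∀ {w}, w ∈ c.S → (addN c (p :: u) E₀ Q₀ D₀ K₀ U₀).Eh w = c.Eh w := fun hw => if_neg (hne hw)
  have hQ : ∀ {w}, w ∈ c.S → (addN c (p :: u) E₀ Q₀ D₀ K₀ U₀).Q w = c.Q w := fun hw => if_neg (hne hw)
  have hEv : (addN c (p :: u) E₀ Q₀ D₀ K₀ U₀).E (p :: u) = E₀ := if_pos rfl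
  have hUv : (addN c (p :: u) E₀ Q₀ D₀ K₀ U₀).U (p :: u) = U₀ := if_pos rfl
  have hDhv : (addN c (p :: u) E₀ Q₀ D₀ K₀ U₀).Dh (p :: u) = D₀ := if_pos rfl
  have hEhv : (addN c (p :: u) E₀ Q₀ D₀ K₀ U₀).Eh (p :: u) = E₀ := if_pos rfl
  have hQv : (addN c (p :: u) E₀ Q₀ D₀ K₀ U₀).Q (p :: u) = Q₀ := if_pos rfl
  have hap : anc u p ∈ c.S := d6_suffix hc (anc_suffix u p) h.hu
  have hpd : ∀ {w}, w ∈ c.S → pd w ∈ c.S := fun {w} hw => d6_suffix hc (pd_suffix w) hw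
  refine ⟨?_, ?_, ?_, ?_, ?_, ?_, ?_, ?_, ?_, ?_, ?_, ?_⟩
  · intro w hw hwn
    rcases Finset.mem_insert.1 hw with rfl | hw
    · rw [hEv, hEhv]
      exact ⟨subset_rfl, h.good.1, h.good.2.1, h.Ea⟩
    · rw [hE hw, hEh hw]
      exact hst.e1 w hw hwn
  · intro p' u' hw
    rcases Finset.mem_insert.1 hw with hw | hw
    · obtain ⟨rfl, rfl⟩ := List.cons.inj hw
      rw [hEhv, hU h.hu]
      exact h.EU
    · rw [hEh hw, hU (hc.tl p' u' hw)]
      exact hst.e2 p' u' hw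
  · intro p' u' hw hp'
    rcases Finset.mem_insert.1 hw with hw | hw
    · obtain ⟨rfl, rfl⟩ := List.cons.inj hw
      rw [hEhv, hEh (d6_suffix hc (anc_suffix _ _) h.hu)]
      exact h.Es hp'
    · rw [hEh hw, hEh (d6_suffix hc (anc_suffix _ _) (hc.tl p' u' hw))]
      exact hst.e3 p' u' hw hp'
  · intro u' hu' q hq
    rcases Finset.mem_insert.1 hu' with rfl | hu'
    · obtain ⟨-, k2, -, -, -, k6, -⟩ := h.K q hq
      obtain ⟨u1, -, u3, u4⟩ := h.U q hq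
      rw [hDhv, hUv]
      exact ⟨k2.1, k2.2.1, k6, u1, u3, u4⟩
    · rw [hDh hu', hU hu']
      exact hst.d1 u' hu' q hq
  · intro u' hu' q hq hv'
    rcases Finset.mem_insert.1 hu' with rfl | hu'
    · have e1 : (addN c (p :: u) E₀ Q₀ D₀ K₀ U₀).D (q :: p :: u) = D₀ q :=
        if_pos ⟨rfl, List.cons_ne_nil _ _⟩
      rw [e1, hDhv]
    · have hn : ¬ ((q :: u').tail = p :: u ∧ q :: u' ≠ []) := fun e => hne hu' e.1
      have e1 : (addN c (p :: u) E₀ Q₀ D₀ K₀ U₀).D (q :: u') = c.D (q :: u') := if_neg hn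
      rw [e1, hDh hu']
      exact hst.d2 u' hu' q hq fun e => hv' (Finset.mem_insert_of_mem e)
  · intro w hw hwn
    rcases Finset.mem_insert.1 hw with rfl | hw
    · show c.R (anc u p) ⊆ (addN c (p :: u) E₀ Q₀ D₀ K₀ U₀).Dh (anc u p) (lv (anc u p))
      rw [hDh hap]
      exact h.RD
    · rw [hDh (hpd hw)]
      exact hst.d3 w hw hwn
  · intro p' u' hw q hq
    rcases Finset.mem_insert.1 hw with hw | hw
    · obtain ⟨rfl, rfl⟩ := List.cons.inj hw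
      rw [hUv, hU h.hu]
      exact (h.U q hq).2.1
    · rw [hU hw, hU (hc.tl p' u' hw)]
      exact hst.d4 p' u' hw q hq
  · intro w hw hwn q hq
    rcases Finset.mem_insert.1 hw with rfl | hw
    · show (addN c (p :: u) E₀ Q₀ D₀ K₀ U₀).Dh (p :: u) q ⊆
        (addN c (p :: u) E₀ Q₀ D₀ K₀ U₀).Dh (anc u p) (lv (anc u p)) ∧
        ∀ z ∈ (addN c (p :: u) E₀ Q₀ D₀ K₀ U₀).Dh (p :: u) q, s.k z ∈ (addN c (p :: u) E₀ Q₀ D₀ K₀ U₀).Q (p :: u)
      rw [hDh hap, hDhv, hQv]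
      obtain ⟨-, -, k3, -, -, -, k7⟩ := h.K q hq
      exact ⟨k3, k7⟩
    · rw [hDh (hpd hw), hDh hw, hQ hw]
      exact hst.d5 w hw hwn q hq
  · intro u' hu' q q' hq hq' hqq
    rcases Finset.mem_insert.1 hu' with rfl | hu'
    · rw [hUv]
      exact h.dj q hq q' hq' hqq
    · rw [hU hu']
      exact hst.dj u' hu' q q' hq hq' hqq
  · intro w hw hwn
    rcases Finset.mem_insert.1 hw with rfl | hw
    · rw [hQv]
      exact ⟨h.Qc, h.Qa⟩
    · rw [hQ hw]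
      exact hst.q1 w hw hwn
  · intro w hw w' hw' hwn hwn' hpp hww
    rcases Finset.mem_insert.1 hw with rfl | hw
    · rcases Finset.mem_insert.1 hw' with rfl | hw'
      · exact absurd rfl hww
      · rw [hQv, hQ hw']
        exact h.Q2 w' hw' hwn' hpp.symm
    · rcases Finset.mem_insert.1 hw' with rfl | hw'
      · rw [hQv, hQ hw]
        exact (h.Q2 w hw hwn hpp).symm
      · rw [hQ hw, hQ hw']
        exact hst.q2 w hw w' hw' hwn hwn' hpp hww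
  · intro w hw hwn
    rcases Finset.mem_insert.1 hw with rfl | hw
    · rw [hQv]
      exact h.QR
    · rw [hQ hw]
      exact hst.q3 w hw hwn

/-- The properties of the result of a step. -/
structure Res (s : Sys) (c c' : Cfg) (p : ℕ) (u : List ℕ) (E' : Set NN) (K : ℕ → Set CC) : Prop where
  dyn : Dyn s c'
  stc : Stc s c'
  ext : Ext c c' (p :: u)
  E : c'.E (p :: u) = E'
  Eh : c'.Eh (p :: u) = E'
  JD : ∀ q ≤ p + 1, c'.JD (q :: p :: u) = K q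

private theorem d4_suffix (hc : Dyn s c) : ∀ {v w : List ℕ}, w <:+ v → v ∈ c.S → w ∈ c.S := by
  intro v
  induction v with
  | nil =>
    intro w h hv
    rw [List.suffix_nil] at h
    rw [h]
    exact hv
  | cons p u ih =>
    intro w h hv
    rcases List.suffix_cons_iff.1 h with h | h
    · rw [h]
      exact hv
    · exact ih h (hc.tl p u hv)

/-- The option which removes `k ⁻¹' Q` from `R r` and `h ⁻¹' H` from `E w`. -/
private noncomputable def d4_opt (s : Sys) (c : Cfg) (r w : List ℕ) (Q H : Set CC) : Opt where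
  kR := fun x => if x = r then (s.k ⁻¹' Q)ᶜ else univ
  kE := fun x => if x = w then (s.h ⁻¹' H)ᶜ else univ
  JR := c.JR
  JD := c.JD

private theorem d4_fam (hc : Dyn s c) {r w : List ℕ} {I : Finset ℕ} {Q H : ℕ → Set CC}
    (hQ : ∀ i ∈ I, IsClopen (Q i)) (hH : ∀ i ∈ I, IsClopen (H i))
    (hQd : ∀ i ∈ I, ∀ j ∈ I, i ≠ j → Disjoint (Q i) (Q j)) (hHd : ∀ i ∈ I, ∀ j ∈ I, i ≠ j → Disjoint (H i) (H j)) :
    Fam c I fun i => d4_opt s c r w (Q i) (H i) where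
  kRc := by
    intro i hi x
    show IsClosed (if x = r then (s.k ⁻¹' Q i)ᶜ else univ)
    split_ifs
    · exact ((hQ i hi).preimage s.ck).isOpen.isClosed_compl
    · exact isClosed_univ
  kEc := by
    intro i hi x
    show IsClopen (if x = w then (s.h ⁻¹' H i)ᶜ else univ)
    split_ifs
    · exact ((hH i hi).preimage s.ch).compl
    · exact isClopen_univ
  mR := by
    intro i hi j hj hij x
    show (if x = r then (s.k ⁻¹' Q i)ᶜ else univ) ∪ (if x = r then (s.k ⁻¹' Q j)ᶜ else univ) = univ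
    split_ifs
    · rw [← compl_inter, ← preimage_inter, (hQd i hi j hj hij).inter_eq]
      simp
    · simp
  mE := by
    intro i hi j hj hij x
    show (if x = w then (s.h ⁻¹' H i)ᶜ else univ) ∪ (if x = w then (s.h ⁻¹' H j)ᶜ else univ) = univ
    split_ifs
    · rw [← compl_inter, ← preimage_inter, (hHd i hi j hj hij).inter_eq]
      simp
    · simp
  cJR := fun i _ v hv hne => (hc.root v hv hne).2.2
  mJR := fun i _ j _ _ v _ _ => subset_union_left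
  cJD := fun i _ p u hu hp hv => (hc.slot p u hu hp hv).2.2
  mJD := fun i _ j _ _ p u _ _ _ => subset_union_left

/-- MODULE d4 (size 3): a new node which is not the first child.

Proof.  Let `r = anc u p`, `w = anc u (p + 1)` (`pd w = r`, `w ≠ []`, `w ∈ S`), `M` from `cascade hc`, `N = M + 1`, `Η`, `E'`, `Q`, `Jn` from `hopt N`.  Replace `Q i` by `Q i \ ⋃ (v ∈ S, v ≠ [], pd v = r), c.Q v`: by `hst.q3` this
does not change `c.R r \ k ⁻¹' Q i` and `c.R r ∩ k ⁻¹' Q i`.  `disj` (with `n = u.length + 1`) gives disjoint small `Q' i ⊆ Q i`; `E' i` is good for `(c.R r \ k ⁻¹' Q' i, c.JR r)` (`Good.mono`).  Options `o i`: `kR r = (k ⁻¹' Q' i)ᶜ`, `kR = univ` elsewhere, `kE w = (h ⁻¹' Η i)ᶜ`,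
`kE = univ` elsewhere, `JR = c.JR`, `JD = c.JD` : a `Fam` on `Finset.range N`.  `cascade`: some `i` with `c₁ = shr s c (o i)` valid.  `TO_eq` at `r` (`w` is not a true predecessor of `r`: it is longer): `TO = Tc c.E r`, so `c₁.R r = c.R r \ k ⁻¹' Q' i`, `Tc c₁.E r = Tc c.E r`.
`D = rs (c.R r ∩ k ⁻¹' Q' i) (E' i)` is not `Jn i`-null, `a '' D ⊆ c.U u p` (clopen); `hsl` gives `K`, `slots` (with `m = p + 1`, `n = u.length + 1`) gives `D₀`, `U₀`.  `c' = addN c₁ (p :: u) (E' i) (Q' i) D₀ K U₀`; `AddOk` from the above (`Es`: `c.E w ⊆ c.Eh w`).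
`c'.E w = c₁.E w ⊆ c.E w ∩ (h ⁻¹' Η i)ᶜ` (`shr_E_sub`). -/
theorem cont (hs : s.Ok) (hc : Dyn s c) (hst : Stc s c) {p : ℕ} {u : List ℕ} (hu : u ∈ c.S) (hp : p < lv u)
    (hv : p :: u ∉ c.S) (Φ : Set CC → Set NN → Set CC → Prop) (Ψ : Set CC → (ℕ → Set CC) → Prop)
    (hopt : ∀ N : ℕ, ∃ Η : Fin N → Set CC, (∀ i, IsClopen (Η i)) ∧ (∀ i j, i ≠ j → Disjoint (Η i) (Η j)) ∧
      ∀ i, ∃ E' Q Jn, Φ (Η i) E' Jn ∧ IsClopen Q ∧ IsClopen Jn ∧ E' ⊆ c.E (anc u (p + 1)) ∧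
        (∀ e ∈ E', s.b e ∈ c.U u p) ∧ Agr (u.length + 1) E' ∧
        s.Good (c.R (anc u p) \ s.k ⁻¹' Q) (c.JR (anc u p)) E' ∧
        ¬ s.Null Jn (s.rs (c.R (anc u p) ∩ s.k ⁻¹' Q) E'))
    (hsl : ∀ Η E' Jn D, Φ Η E' Jn → IsClopen Jn → IsClosed D → D ⊆ c.R (anc u p) → ¬ s.Null Jn D →
      ∃ K, Ψ Jn K ∧ ∀ q ≤ p + 1, IsClopen (K q) ∧ ¬ s.Null (K q) D) :
    ∃ Η E' Jn K c', Φ Η E' Jn ∧ Ψ Jn K ∧ Res s c c' p u E' K ∧ c'.E (anc u (p + 1)) ⊆ (s.h ⁻¹' Η)ᶜ ∧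
      (∀ q ≤ p + 1, c'.Dh (p :: u) q ⊆ c.R (anc u p)) := by
  have hnu : Nd u := hc.nd u hu
  have hpw : pd (anc u (p + 1)) = anc u p := pd_anc_succ hnu hp
  have hwne : anc u (p + 1) ≠ [] := anc_ne_nil hnu hp
  have hwS : anc u (p + 1) ∈ c.S := d4_suffix hc (anc_suffix u (p + 1)) hu
  obtain ⟨r, hr⟩ : ∃ r, r = anc u p := ⟨_, rfl⟩
  obtain ⟨w, hw⟩ : ∃ w, w = anc u (p + 1) := ⟨_, rfl⟩
  rw [← hr] at hpw
  rw [← hw] at hpw hwne hwS
  have hrS : r ∈ c.S := by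
    rw [hr]
    exact d4_suffix hc (anc_suffix u p) hu
  obtain ⟨hRc, hRT, hJRc⟩ := hc.root w hwS hwne
  rw [hpw] at hRc hRT hJRc
  obtain ⟨M, hM⟩ := cascade hc
  obtain ⟨Η, hΗc, hΗd, hopt⟩ := hopt (M + 1)
  rw [← hr, ← hw] at hopt
  choose E' Q Jn hΦ hQc hJc hEw hEU hEa hEg hEp using hopt
  obtain ⟨T, hT⟩ : ∃ T, T = ⋃ v ∈ c.S.filter (fun v => v ≠ [] ∧ pd v = r), c.Q v := ⟨_, rfl⟩
  have hTc : IsClopen T := by
    rw [hT]
    refine isClopen_biUnion_finset fun v hv => ?_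
    rw [Finset.mem_filter] at hv
    exact (hst.q1 v hv.1 hv.2.1).1
  have hRT' : ∀ z ∈ c.R r, s.k z ∉ T := by
    intro z hz hzT
    rw [hT] at hzT
    simp only [mem_iUnion, Finset.mem_filter] at hzT
    obtain ⟨v, ⟨hvS, hvne, hvr⟩, hzv⟩ := hzT
    have := hst.q3 v hvS hvne
    rw [hvr] at this
    exact this.le_bot ⟨hz, hzv⟩
  have e1 : ∀ i, c.R r ∩ s.k ⁻¹' (Q i \ T) = c.R r ∩ s.k ⁻¹' Q i := by
    intro i
    ext z
    constructor
    · rintro ⟨h1, h2⟩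
      exact ⟨h1, h2.1⟩
    · rintro ⟨h1, h2⟩
      exact ⟨h1, h2, hRT' z h1⟩
  obtain ⟨Q', hQ', hQd⟩ := Sys.disj hs (u.length + 1) (R := c.R r) (E := E') (Q := fun i => Q i \ T) (J := Jn)
    (fun i => (hQc i).diff hTc) (fun i => by rw [e1]; exact hEp i)
  obtain ⟨QQ, hQQ⟩ : ∃ QQ : ℕ → Set CC, QQ = fun j => if h : j < M + 1 then Q' ⟨j, h⟩ else ∅ := ⟨_, rfl⟩
  obtain ⟨HH, hHH⟩ : ∃ HH : ℕ → Set CC, HH = fun j => if h : j < M + 1 then Η ⟨j, h⟩ else ∅ := ⟨_, rfl⟩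
  have eQ : ∀ j (h : j < M + 1), QQ j = Q' ⟨j, h⟩ := fun j h => by rw [hQQ]; exact dif_pos h
  have eH : ∀ j (h : j < M + 1), HH j = Η ⟨j, h⟩ := fun j h => by rw [hHH]; exact dif_pos h
  have hF : Fam c (Finset.range (M + 1)) fun j => d4_opt s c r w (QQ j) (HH j) := by
    refine d4_fam hc ?_ ?_ ?_ ?_
    · intro i hi
      rw [eQ i (Finset.mem_range.1 hi)]
      exact (hQ' _).1
    · intro i hi
      rw [eH i (Finset.mem_range.1 hi)]
      exact hΗc _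
    · intro i hi j hj hij
      rw [eQ i (Finset.mem_range.1 hi), eQ j (Finset.mem_range.1 hj)]
      exact hQd _ _ fun h => hij (congrArg Fin.val h)
    · intro i hi j hj hij
      rw [eH i (Finset.mem_range.1 hi), eH j (Finset.mem_range.1 hj)]
      exact hΗd _ _ fun h => hij (congrArg Fin.val h)
  obtain ⟨j, hj, hd⟩ := hM (Finset.range (M + 1)) _ hF (by rw [Finset.card_range]; exact Nat.lt_succ_self M)
  have hjM := Finset.mem_range.1 hj
  have hkE : ∀ v, IsClosed ((d4_opt s c r w (QQ j) (HH j)).kE v) := fun v => (hF.kEc j hj v).isClosed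
  have hstc := stc_shr (o := d4_opt s c r w (QQ j) (HH j)) hc hst hkE
  have hsub : ∀ v ∈ c.S, v ≠ [] → (shr s c (d4_opt s c r w (QQ j) (HH j))).E v ⊆
      c.E v ∩ (d4_opt s c r w (QQ j) (HH j)).kE v := fun v hv hne => shr_E_sub hc hkE hv hne
  have hTO : TO s c (d4_opt s c r w (QQ j) (HH j)) r = s.Tc c.E r := by
    refine TO_eq hc hrS ?_ ?_
    · intro w' _ hne
      exact ⟨if_neg hne, rfl⟩
    · intro w' htp _
      refine if_neg fun h => ?_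
      have h1 := (Tp.suffix htp).length_le
      rw [h] at h1
      have h2 := pd_length hwne
      rw [hpw] at h2
      omega
  obtain ⟨c₁, hc₁⟩ : ∃ c₁, c₁ = shr s c (d4_opt s c r w (QQ j) (HH j)) := ⟨_, rfl⟩
  rw [← hc₁] at hd hstc hsub
  obtain ⟨i, hi⟩ : ∃ i : Fin (M + 1), i = ⟨j, hjM⟩ := ⟨_, rfl⟩
  have hR₁ : c₁.R r = c.R r \ s.k ⁻¹' Q' i := by
    rw [hc₁]
    show c.R r ∩ (if r = r then (s.k ⁻¹' QQ j)ᶜ else univ) ∩ TO s c _ r = _
    rw [hTO, if_pos rfl, eQ j hjM, ← hi]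
    ext z
    constructor
    · rintro ⟨⟨h1, h2⟩, _⟩
      exact ⟨h1, h2⟩
    · rintro ⟨h1, h2⟩
      exact ⟨⟨h1, h2⟩, hRT h1⟩
  have hTc₁ : s.Tc c₁.E r = s.Tc c.E r := by rw [hc₁, Tc_shr, hTO]
  have hS₁ : c₁.S = c.S := by rw [hc₁]; rfl
  have hJR₁ : c₁.JR = c.JR := by rw [hc₁]; rfl
  have hJD₁ : c₁.JD = c.JD := by rw [hc₁]; rfl
  have hU₁ : c₁.U = c.U := by rw [hc₁]; rfl
  have hDh₁ : c₁.Dh = c.Dh := by rw [hc₁]; rfl
  have hEh₁ : c₁.Eh = c.Eh := by rw [hc₁]; rfl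
  have hQ₁ : c₁.Q = c.Q := by rw [hc₁]; rfl
  have hEg' : s.Good (c.R r \ s.k ⁻¹' Q' i) (c.JR r) (E' i) :=
    (hEg i).mono (fun z hz => ⟨hz.1, fun h => hz.2 ((hQ' i).2.1 h).1⟩) le_rfl
  obtain ⟨D, hD⟩ : ∃ D, D = s.rs (c.R r ∩ s.k ⁻¹' Q' i) (E' i) := ⟨_, rfl⟩
  have hDc : IsClosed D := by
    rw [hD]
    exact Sys.isClosed_rs (hRc.inter ((hQ' i).1.isClosed.preimage s.ck))
  have hDR : D ⊆ c.R r := by
    rw [hD]
    exact Sys.rs_sub.trans inter_subset_left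
  have hDk : ∀ z ∈ D, s.k z ∈ Q' i := by
    intro z hz
    rw [hD] at hz
    exact (Sys.rs_sub hz).2
  have hDa : D ⊆ s.a ⁻¹' closure (s.b '' E' i) := by
    rw [hD]
    exact fun z hz => hz.2
  have hDp : ¬ s.Null (Jn i) D := by
    rw [hD]
    exact (hQ' i).2.2.2
  have hUu := hst.d1 u hu p hp.le
  have hDU : ∀ z ∈ D, s.a z ∈ c.U u p := by
    intro z hz
    have h1 : closure (s.b '' E' i) ⊆ c.U u p := by
      refine closure_minimal ?_ hUu.2.2.2.1.isClosed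
      rintro _ ⟨e, he, rfl⟩
      exact hEU i e he
    exact h1 (hDa hz)
  obtain ⟨K, hΨ, hK⟩ := hsl _ _ _ D (hΦ i) (hJc i) hDc (by rw [← hr]; exact hDR) hDp
  obtain ⟨D₀, U₀, hDU₀, hdj⟩ := Sys.slots hs hDc (p + 1) (u.length + 1) hK hUu.2.2.2.1 hDU
  have hadd : AddOk s c₁ p u (E' i) (Q' i) D₀ K U₀ := by
    refine ⟨?_, hp.le, ?_, ?_, ?_, ?_, ?_, ?_, ?_, ?_, hEa i, (hQ' i).1, (hQ' i).2.2.1, ?_, ?_, ?_, ?_, ?_⟩
    · rw [hS₁]
      exact hu
    · rw [hS₁]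
      exact hv
    · rw [← hr, hR₁]
      exact hRc.sdiff ((hQ' i).1.isOpen.preimage s.ck)
    · rw [← hr, hR₁, hTc₁]
      exact sdiff_subset.trans hRT
    · rw [← hr, hJR₁]
      exact hJRc
    · rw [← hr, hR₁, hDh₁]
      refine sdiff_subset.trans ?_
      have := hst.d3 w hwS hwne
      rw [hpw] at this
      exact this
    · rw [← hr, hR₁, hJR₁]
      exact hEg'
    · intro _
      rw [hEh₁, ← hw]
      exact (hEw i).trans (hst.e1 w hwS hwne).1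
    · intro e he
      rw [hU₁]
      exact hEU i e he
    · rw [← hr, hR₁]
      exact disjoint_sdiff_left
    · intro v hvS hvne hvr
      rw [hS₁] at hvS
      rw [hQ₁]
      refine disjoint_left.2 fun y hy hyv => ((hQ' i).2.1 hy).2 ?_
      rw [hT]
      simp only [mem_iUnion, Finset.mem_filter]
      exact ⟨v, ⟨hvS, hvne, by rw [hvr, hr]⟩, hyv⟩
    · intro q hq
      obtain ⟨h1, h2, h3, h4⟩ := hDU₀ q hq
      refine ⟨(hK q hq).1, h1, ?_, ?_, ?_, h3, ?_⟩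
      · rw [hDh₁, ← hr]
        have := hst.d3 w hwS hwne
        rw [hpw] at this
        exact (h2.trans hDR).trans this
      · rw [← hr, hTc₁]
        exact (h2.trans hDR).trans hRT
      · exact h2.trans hDa
      · intro z hz
        exact hDk z (h2 hz)
    · intro q hq
      obtain ⟨h1, h2, h3, h4, h5, h6, h7⟩ := hDU₀ q hq
      rw [hU₁]
      exact ⟨h4, h5, h6, h7⟩
    · exact hdj
  have hvu : ∀ {v : List ℕ}, v ∈ c.S → v ≠ p :: u := fun hvS h => hv (h ▸ hvS)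
  have hnt : ∀ {q : ℕ} {u' : List ℕ}, u' ∈ c.S → ¬ ((q :: u').tail = p :: u ∧ q :: u' ≠ []) :=
    fun hu' h => hvu hu' h.1
  refine ⟨Η i, E' i, Jn i, K, addN c₁ (p :: u) (E' i) (Q' i) D₀ K U₀, hΦ i, hΨ,
    ⟨dyn_add hd hadd, stc_add hd hstc hadd, ?_, if_pos rfl, if_pos rfl, ?_⟩, ?_, ?_⟩
  · refine ⟨?_, ?_, ?_, ?_, ?_, ?_, ?_, ?_, ?_, ?_⟩
    · show insert (p :: u) c₁.S = _
      rw [hS₁]
    · intro v hvS hvne
      show (if v = p :: u then E' i else c₁.E v) ⊆ _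
      rw [if_neg (hvu hvS)]
      exact (hsub v hvS hvne).trans inter_subset_left
    · intro v hvS hvne
      show c₁.R (pd v) ⊆ _
      rw [hc₁]
      exact inter_subset_left.trans inter_subset_left
    · intro v hvS hvne
      show c₁.JR (pd v) = _
      rw [hJR₁]
    · intro q u' hu' hq hqu hne
      show (if (q :: u').tail = p :: u ∧ q :: u' ≠ [] then D₀ (q :: u').headI else c₁.D (q :: u')) ⊆ _
      rw [if_neg (hnt hu'), hc₁]
      exact Sys.ker_sub.trans inter_subset_left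
    · intro q u' hu' hq hqu hne
      show (if (q :: u').tail = p :: u ∧ q :: u' ≠ [] then K (q :: u').headI else c₁.JD (q :: u')) = _
      rw [if_neg (hnt hu'), hJD₁]
    · intro v hvS
      show (if v = p :: u then U₀ else c₁.U v) = _
      rw [if_neg (hvu hvS), hU₁]
    · intro v hvS
      show (if v = p :: u then D₀ else c₁.Dh v) = _
      rw [if_neg (hvu hvS), hDh₁]
    · intro v hvS
      show (if v = p :: u then E' i else c₁.Eh v) = _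
      rw [if_neg (hvu hvS), hEh₁]
    · intro v hvS
      show (if v = p :: u then Q' i else c₁.Q v) = _
      rw [if_neg (hvu hvS), hQ₁]
  · intro q hq
    show (if (q :: p :: u).tail = p :: u ∧ q :: p :: u ≠ [] then K (q :: p :: u).headI else c₁.JD (q :: p :: u)) = _
    rw [if_pos ⟨rfl, List.cons_ne_nil _ _⟩]
    rfl
  · rw [← hw]
    show (if w = p :: u then E' i else c₁.E w) ⊆ _
    rw [if_neg (hvu hwS)]
    refine (hsub w hwS hwne).trans ?_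
    show c.E w ∩ (if w = w then (s.h ⁻¹' HH j)ᶜ else univ) ⊆ _
    rw [if_pos rfl, eH j hjM, ← hi]
    exact inter_subset_right
  · intro q hq
    rw [← hr]
    show (if p :: u = p :: u then D₀ else c₁.Dh (p :: u)) q ⊆ _
    rw [if_pos rfl]
    exact (hDU₀ q hq).2.1.trans hDR

/-- MODULE d5 (size 2): the first child of a new root.

Proof.  `disj` for one set (`N = 1`) gives a small `Q' ⊆ Q`; `E'` is good for `(R₀ \ k ⁻¹' Q', J₀)`.  `D = rs (R₀ ∩ k ⁻¹' Q') E'`, `hsl`, `slots` (`anc u (lv u) = u`).  `c₁ = setR c u (R₀ \ k ⁻¹' Q') J₀` (`dyn_setR`), `c' = addN c₁ ..`.  `R₀ ⊆ c.D (lv u :: u) ⊆ Tc c.E u`, `⊆ c.Dh u (lv u)` (`hc.slot`, `hst.d2`).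
`Q2` is void (`dyn_setR`). `Ext.R`: `c'.R (pd w) = c.R (pd w)` because `pd w ≠ u`. -/
theorem newr (hs : s.Ok) (hc : Dyn s c) (hst : Stc s c) {u : List ℕ} (hu : u ∈ c.S) (hv : lv u :: u ∉ c.S)
    (Ψ : Set CC → (ℕ → Set CC) → Prop) {R₀ E' : Set NN} {J₀ Q Jn : Set CC} (hR : IsClosed R₀)
    (hRD : R₀ ⊆ c.D (lv u :: u)) (hJ : IsClopen J₀) (hQ : IsClopen Q) (hJn : IsClopen Jn)
    (hEU : ∀ e ∈ E', s.b e ∈ c.U u (lv u)) (hEa : Agr (u.length + 1) E')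
    (hE : s.Good (R₀ \ s.k ⁻¹' Q) J₀ E') (hpos : ¬ s.Null Jn (s.rs (R₀ ∩ s.k ⁻¹' Q) E'))
    (hsl : ∀ D, IsClosed D → D ⊆ R₀ → ¬ s.Null Jn D → ∃ K, Ψ Jn K ∧ ∀ q ≤ lv u + 1, IsClopen (K q) ∧ ¬ s.Null (K q) D) :
    ∃ K c', Ψ Jn K ∧ Res s c c' (lv u) u E' K ∧ c'.R u ⊆ R₀ ∧ c'.JR u = J₀ ∧
      (∀ q ≤ lv u + 1, c'.Dh (lv u :: u) q ⊆ R₀) := by
  have hau : anc u (lv u) = u := anc_self le_rfl
  obtain ⟨Q₁, hQ₁, -⟩ := Sys.disj (N := 1) hs (u.length + 1) (R := R₀) (E := fun _ => E') (Q := fun _ => Q)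
    (J := fun _ => Jn) (fun _ => hQ) (fun _ => hpos)
  obtain ⟨Q', hQ'⟩ : ∃ Q', Q' = Q₁ 0 := ⟨_, rfl⟩
  have hQ' : IsClopen Q' ∧ Q' ⊆ Q ∧ Agr (u.length + 1) Q' ∧ ¬ s.Null Jn (s.rs (R₀ ∩ s.k ⁻¹' Q') E') := by
    rw [hQ']
    exact hQ₁ 0
  have hE' : s.Good (R₀ \ s.k ⁻¹' Q') J₀ E' := hE.mono (fun z hz => ⟨hz.1, fun h => hz.2 (hQ'.2.1 h)⟩) le_rfl
  obtain ⟨D, hD⟩ : ∃ D, D = s.rs (R₀ ∩ s.k ⁻¹' Q') E' := ⟨_, rfl⟩
  have hDc : IsClosed D := by
    rw [hD]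
    exact Sys.isClosed_rs (hR.inter (hQ'.1.isClosed.preimage s.ck))
  have hDR : D ⊆ R₀ := by
    rw [hD]
    exact Sys.rs_sub.trans inter_subset_left
  have hDk : ∀ z ∈ D, s.k z ∈ Q' := by
    intro z hz
    rw [hD] at hz
    exact (Sys.rs_sub hz).2
  have hDa : D ⊆ s.a ⁻¹' closure (s.b '' E') := by
    rw [hD]
    exact fun z hz => hz.2
  have hDp : ¬ s.Null Jn D := by
    rw [hD]
    exact hQ'.2.2.2
  have hUu := hst.d1 u hu (lv u) le_rfl
  have hDU : ∀ z ∈ D, s.a z ∈ c.U u (lv u) := by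
    intro z hz
    have h1 : closure (s.b '' E') ⊆ c.U u (lv u) := by
      refine closure_minimal ?_ hUu.2.2.2.1.isClosed
      rintro _ ⟨e, he, rfl⟩
      exact hEU e he
    exact h1 (hDa hz)
  have hslot := hc.slot (lv u) u hu le_rfl hv
  obtain ⟨K, hΨ, hK⟩ := hsl D hDc hDR hDp
  obtain ⟨D₀, U₀, hDU₀, hdj⟩ := Sys.slots hs hDc (lv u + 1) (u.length + 1) hK hUu.2.2.2.1 hDU
  obtain ⟨hc₁, hst₁, hpd⟩ := dyn_setR hc hst hv (R₀ \ s.k ⁻¹' Q') J₀
  obtain ⟨c₁, hcc⟩ : ∃ c₁, c₁ = setR c u (R₀ \ s.k ⁻¹' Q') J₀ := ⟨_, rfl⟩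
  rw [← hcc] at hc₁ hst₁
  have hR₁ : c₁.R u = R₀ \ s.k ⁻¹' Q' := by
    rw [hcc]
    exact if_pos rfl
  have hJR₁ : c₁.JR u = J₀ := by
    rw [hcc]
    exact if_pos rfl
  have hRn : ∀ v, v ≠ u → c₁.R v = c.R v := by
    intro v hne
    rw [hcc]
    exact if_neg hne
  have hJRn : ∀ v, v ≠ u → c₁.JR v = c.JR v := by
    intro v hne
    rw [hcc]
    exact if_neg hne
  have hS₁ : c₁.S = c.S := by rw [hcc]; rfl
  have hE₁ : c₁.E = c.E := by rw [hcc]; rfl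
  have hD₁ : c₁.D = c.D := by rw [hcc]; rfl
  have hJD₁ : c₁.JD = c.JD := by rw [hcc]; rfl
  have hU₁ : c₁.U = c.U := by rw [hcc]; rfl
  have hDh₁ : c₁.Dh = c.Dh := by rw [hcc]; rfl
  have hEh₁ : c₁.Eh = c.Eh := by rw [hcc]; rfl
  have hQ₁ : c₁.Q = c.Q := by rw [hcc]; rfl
  have hDD : c.D (lv u :: u) ⊆ c.Dh u (lv u) := hst.d2 u hu (lv u) le_rfl hv
  have hadd : AddOk s c₁ (lv u) u E' Q' D₀ K U₀ := by
    refine ⟨?_, le_rfl, ?_, ?_, ?_, ?_, ?_, ?_, ?_, ?_, hEa, hQ'.1, hQ'.2.2.1, ?_, ?_, ?_, ?_, ?_⟩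
    · rw [hS₁]
      exact hu
    · rw [hS₁]
      exact hv
    · rw [hau, hR₁]
      exact hR.sdiff (hQ'.1.isOpen.preimage s.ck)
    · rw [hau, hR₁, hE₁]
      exact (sdiff_subset.trans hRD).trans hslot.2.1
    · rw [hau, hJR₁]
      exact hJ
    · rw [hau, hR₁, hDh₁]
      exact (sdiff_subset.trans hRD).trans hDD
    · rw [hau, hR₁, hJR₁]
      exact hE'
    · intro h
      exact absurd h (lt_irrefl _)
    · intro e he
      rw [hU₁]
      exact hEU e he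
    · rw [hau, hR₁]
      exact disjoint_sdiff_left
    · intro v hvS hvne hvr
      rw [hS₁] at hvS
      rw [hau] at hvr
      exact absurd hvr (hpd v hvS hvne)
    · intro q hq
      obtain ⟨h1, h2, h3, h4⟩ := hDU₀ q hq
      refine ⟨(hK q hq).1, h1, ?_, ?_, ?_, h3, ?_⟩
      · rw [hDh₁, hau]
        exact ((h2.trans hDR).trans hRD).trans hDD
      · rw [hau, hE₁]
        exact ((h2.trans hDR).trans hRD).trans hslot.2.1
      · exact h2.trans hDa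
      · intro z hz
        exact hDk z (h2 hz)
    · intro q hq
      obtain ⟨h1, h2, h3, h4, h5, h6, h7⟩ := hDU₀ q hq
      rw [hU₁]
      exact ⟨h4, h5, h6, h7⟩
    · exact hdj
  have hvu : ∀ {v : List ℕ}, v ∈ c.S → v ≠ lv u :: u := fun hvS h => hv (h ▸ hvS)
  have hnt : ∀ {q : ℕ} {u' : List ℕ}, u' ∈ c.S → ¬ ((q :: u').tail = lv u :: u ∧ q :: u' ≠ []) :=
    fun hu' h => hvu hu' h.1
  refine ⟨K, addN c₁ (lv u :: u) E' Q' D₀ K U₀, hΨ,
    ⟨dyn_add hc₁ hadd, stc_add hc₁ hst₁ hadd, ?_, if_pos rfl, if_pos rfl, ?_⟩, ?_, ?_, ?_⟩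
  · refine ⟨?_, ?_, ?_, ?_, ?_, ?_, ?_, ?_, ?_, ?_⟩
    · show insert (lv u :: u) c₁.S = _
      rw [hS₁]
    · intro v hvS hvne
      show (if v = lv u :: u then E' else c₁.E v) ⊆ _
      rw [if_neg (hvu hvS), hE₁]
    · intro v hvS hvne
      show c₁.R (pd v) ⊆ _
      rw [hRn _ (hpd v hvS hvne)]
    · intro v hvS hvne
      show c₁.JR (pd v) = _
      rw [hJRn _ (hpd v hvS hvne)]
    · intro q u' hu' hq hqu hne
      show (if (q :: u').tail = lv u :: u ∧ q :: u' ≠ [] then D₀ (q :: u').headI else c₁.D (q :: u')) ⊆ _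
      rw [if_neg (hnt hu'), hD₁]
    · intro q u' hu' hq hqu hne
      show (if (q :: u').tail = lv u :: u ∧ q :: u' ≠ [] then K (q :: u').headI else c₁.JD (q :: u')) = _
      rw [if_neg (hnt hu'), hJD₁]
    · intro v hvS
      show (if v = lv u :: u then U₀ else c₁.U v) = _
      rw [if_neg (hvu hvS), hU₁]
    · intro v hvS
      show (if v = lv u :: u then D₀ else c₁.Dh v) = _
      rw [if_neg (hvu hvS), hDh₁]
    · intro v hvS
      show (if v = lv u :: u then E' else c₁.Eh v) = _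
      rw [if_neg (hvu hvS), hEh₁]
    · intro v hvS
      show (if v = lv u :: u then Q' else c₁.Q v) = _
      rw [if_neg (hvu hvS), hQ₁]
  · intro q hq
    show (if (q :: lv u :: u).tail = lv u :: u ∧ q :: lv u :: u ≠ [] then K (q :: lv u :: u).headI else
      c₁.JD (q :: lv u :: u)) = _
    rw [if_pos ⟨rfl, List.cons_ne_nil _ _⟩]
    rfl
  · show c₁.R u ⊆ R₀
    rw [hR₁]
    exact sdiff_subset
  · show c₁.JR u = J₀
    exact hJR₁
  · intro q hq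
    show (if lv u :: u = lv u :: u then D₀ else c₁.Dh (lv u :: u)) q ⊆ _
    rw [if_pos rfl]
    exact (hDU₀ q hq).2.1.trans hDR

/-- MODULE d6 (size 1): small pieces. Proof.  `D = c.D (p :: u)` is nonempty, `D ⊆ Tc c.E u ⊆ a ⁻¹' closure (b '' c.E w)`, `w = anc u (p + 1)` (`Tc_sub`, `tp_anc`), `a '' D ⊆ c.U u p` (clopen), so there is `e ∈ c.E w` with `b e ∈ c.U u p`.
`E₀ = c.E w ∩ (b ⁻¹' c.U u p ∩ V ∩ h ⁻¹' V')` with cylinders `V ∋ e`, `V' ∋ h e` (`exists_cyl`), `Good.piece`. -/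
theorem exists_piece (hc : Dyn s c) (hst : Stc s c) {p : ℕ} {u : List ℕ} (hu : u ∈ c.S) (hp : p < lv u)
    (hv : p :: u ∉ c.S) (n : ℕ) :
    ∃ E₀ ⊆ c.E (anc u (p + 1)), s.Good (c.R (anc u p)) (c.JR (anc u p)) E₀ ∧ (∀ e ∈ E₀, s.b e ∈ c.U u p) ∧
      Agr n E₀ ∧ Agr n (s.h '' E₀) := by
  have hnu := hc.nd u hu
  have hwne : anc u (p + 1) ≠ [] := anc_ne_nil hnu hp
  have hwS : anc u (p + 1) ∈ c.S := d6_suffix hc (anc_suffix u (p + 1)) hu
  have hpw : pd (anc u (p + 1)) = anc u p := pd_anc_succ hnu hp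
  have hg := hc.good _ hwS hwne
  rw [hpw] at hg
  obtain ⟨⟨-, ⟨z, hz⟩, -⟩, hT, -⟩ := hc.slot p u hu hp.le hv
  have hU := hst.d1 u hu p hp.le
  have hza : s.a z ∈ c.U u p := hU.2.2.2.2.2 z (hst.d2 u hu p hp.le hv hz)
  have hzc : s.a z ∈ closure (s.b '' c.E (anc u (p + 1))) := Tc_sub hnu (tp_anc hnu hp) hwne (hT hz)
  obtain ⟨-, hy, ⟨e, he, rfl⟩⟩ := mem_closure_iff.1 hzc _ hU.2.2.2.1.isOpen hza
  obtain ⟨V, hV, -, heV, hVa⟩ := exists_cyl (α := ℕ) isOpen_univ (mem_univ e) n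
  obtain ⟨V', hV', -, heV', hVa'⟩ := exists_cyl (α := Bool) isOpen_univ (mem_univ (s.h e)) n
  refine ⟨c.E (anc u (p + 1)) ∩ (s.b ⁻¹' c.U u p ∩ (V ∩ s.h ⁻¹' V')), inter_subset_left, hg.piece
    ((hU.2.2.2.1.preimage s.cb).inter (hV.inter (hV'.preimage s.ch))) ⟨e, he, hy, heV, heV'⟩, ?_, ?_, ?_⟩
  · exact fun x hx => hx.2.1
  · exact fun x hx y hy => hVa x hx.2.2.1 y hy.2.2.1
  · rintro _ ⟨x, hx, rfl⟩ _ ⟨y, hy, rfl⟩
    exact hVa' _ hx.2.2.2 _ hy.2.2.2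

/-- The same for a cell of a new root. -/
theorem exists_piece_root (hc : Dyn s c) (hst : Stc s c) {u : List ℕ} (hu : u ∈ c.S) (hv : lv u :: u ∉ c.S)
    {R E : Set NN} {J : Set CC} (hR : R ⊆ c.D (lv u :: u)) (hE : s.Good R J E) (n : ℕ) :
    ∃ E₀ ⊆ E, s.Good R J E₀ ∧ (∀ e ∈ E₀, s.b e ∈ c.U u (lv u)) ∧ Agr n E₀ ∧ Agr n (s.h '' E₀) := by
  have hU := hst.d1 u hu (lv u) le_rfl
  have hb : ∀ e ∈ E, s.b e ∈ c.U u (lv u) :=
    hE.b_mem hU.2.2.2.1 fun z hz => hU.2.2.2.2.2 z (hst.d2 u hu (lv u) le_rfl hv (hR hz))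
  obtain ⟨e, he⟩ := hE.2.1
  obtain ⟨V, hV, -, heV, hVa⟩ := exists_cyl (α := ℕ) isOpen_univ (mem_univ e) n
  obtain ⟨V', hV', -, heV', hVa'⟩ := exists_cyl (α := Bool) isOpen_univ (mem_univ (s.h e)) n
  refine ⟨E ∩ (V ∩ s.h ⁻¹' V'), inter_subset_left, hE.piece (hV.inter (hV'.preimage s.ch)) ⟨e, he, heV, heV'⟩,
    ?_, ?_, ?_⟩
  · exact fun x hx => hb x hx.1
  · exact fun x hx y hy => hVa x hx.2.1 y hy.2.1
  · rintro _ ⟨x, hx, rfl⟩ _ ⟨y, hy, rfl⟩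
    exact hVa' _ hx.2.2 _ hy.2.2

/-- A set with `Agr n` is contained in a clopen set with `Agr n`, inside a given clopen set. -/
theorem exists_clopen_agr {T V : Set CC} {n : ℕ} (hT : Agr n T) (hV : IsClopen V) (hTV : T ⊆ V) :
    ∃ H, IsClopen H ∧ T ⊆ H ∧ H ⊆ V ∧ Agr n H := by
  rcases T.eq_empty_or_nonempty with rfl | ⟨x, hx⟩
  · exact ⟨∅, isClopen_empty, subset_rfl, empty_subset _, fun x hx => absurd hx (notMem_empty x)⟩
  · refine ⟨V ∩ ⋂ i ∈ Finset.range n, (fun y : CC => y i) ⁻¹' {x i}, hV.inter ?_, ?_, inter_subset_left, ?_⟩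
    · exact isClopen_biInter_finset fun i _ => (isClopen_discrete {x i}).preimage (continuous_apply i)
    · intro y hy
      refine ⟨hTV hy, ?_⟩
      rw [mem_iInter₂]
      intro i hi
      exact hT y hy x hx i (Finset.mem_range.1 hi)
    · intro y hy y' hy' i hi
      have h1 := mem_iInter₂.1 hy.2 i (Finset.mem_range.2 hi)
      have h2 := mem_iInter₂.1 hy'.2 i (Finset.mem_range.2 hi)
      exact (show y i = x i from h1).trans (show y' i = x i from h2).symm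

/-- MODULE d7 (size 1): the initial configuration. `slots` with `m = n = 0`, `V = univ`. -/
theorem exists_init (hs : s.Ok) {D₀ : Set NN} {J₀ : Set CC} (hD : IsClosed D₀) (hJ : IsClopen J₀)
    (h : ¬ s.Null J₀ D₀) : ∃ c : Cfg, c.S = {[]} ∧ Dyn s c ∧ Stc s c ∧ c.D [0] ⊆ D₀ ∧ c.Dh [] 0 ⊆ D₀ ∧
      c.JD [0] = J₀ := by
  obtain ⟨D', U, h1, -⟩ := Sys.slots hs hD 0 0 (K := fun _ => J₀) (fun _ _ => ⟨hJ, h⟩) isClopen_univ
    (fun z _ => mem_univ (s.a z))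
  obtain ⟨k1, k2, k3, k4, -, k6, k7⟩ := h1 0 le_rfl
  have hno : ∀ {v : List ℕ}, v ∈ ({[]} : Finset (List ℕ)) → v ≠ [] → False := fun hv hne =>
    hne (Finset.mem_singleton.1 hv)
  have hno' : ∀ {p : ℕ} {u : List ℕ}, p :: u ∈ ({[]} : Finset (List ℕ)) → False := fun hv =>
    List.cons_ne_nil _ _ (Finset.mem_singleton.1 hv)
  refine ⟨⟨{[]}, fun _ => ∅, fun _ => ∅, fun _ => D' 0, fun _ => univ, fun _ => J₀, fun _ => U, fun _ => D',
    fun _ => ∅, fun _ => ∅⟩, rfl, ?_, ?_, k2, k2, rfl⟩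
  · refine ⟨Finset.mem_singleton_self _, ?_, ?_, ?_, ?_, ?_⟩
    · intro v hv
      rw [Finset.mem_singleton.1 hv]
      trivial
    · intro p u hv
      exact (hno' hv).elim
    · intro v hv hne
      exact (hno hv hne).elim
    · intro v hv hne
      exact (hno hv hne).elim
    · intro p u hu _ _
      obtain rfl := Finset.mem_singleton.1 hu
      refine ⟨k1, ?_, hJ⟩
      rw [Tc_nil]
      exact subset_univ _
  · refine ⟨?_, ?_, ?_, ?_, ?_, ?_, ?_, ?_, ?_, ?_, ?_, ?_⟩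
    · intro v hv hne
      exact (hno hv hne).elim
    · intro p u hv
      exact (hno' hv).elim
    · intro p u hv
      exact (hno' hv).elim
    · intro u hu p hp
      obtain rfl := Finset.mem_singleton.1 hu
      obtain rfl : p = 0 := Nat.le_zero.1 hp
      exact ⟨k1.1, k1.2.1, k3, k4, k6, k7⟩
    · intro u hu p hp _
      obtain rfl := Finset.mem_singleton.1 hu
      obtain rfl : p = 0 := Nat.le_zero.1 hp
      exact subset_rfl
    · intro v hv hne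
      exact (hno hv hne).elim
    · intro p u hv
      exact (hno' hv).elim
    · intro v hv hne
      exact (hno hv hne).elim
    · intro u hu p q hp hq hpq
      obtain rfl := Finset.mem_singleton.1 hu
      exact absurd ((Nat.le_zero.1 hp).trans (Nat.le_zero.1 hq).symm) hpq
    · intro v hv hne
      exact (hno hv hne).elim
    · intro v hv v' _ hne
      exact (hno hv hne).elim
    · intro v hv hne
      exact (hno hv hne).elim

/-! ### the global cascade -/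

/-- The option which replaces all `J`'s by `J`. -/
def jo (J : Set CC) : Opt where
  kR := fun _ => univ
  kE := fun _ => univ
  JR := fun _ => J
  JD := fun _ => J

/-- All `J`'s of the configuration are `J`. -/
def Glob (c : Cfg) (J : Set CC) : Prop :=
  (∀ v ∈ c.S, v ≠ [] → c.JR (pd v) = J) ∧ ∀ p u, u ∈ c.S → p ≤ lv u → p :: u ∉ c.S → c.JD (p :: u) = J

end Pool.Agent.Bs2
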