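import Mathlib

/-!
# Borel functions between zero-dimensional Polish spaces, Baire classes, embeddability

The definitions of the statement: `BaireClass`, `BorelFn`, `BorelFn.Emb`.
-/

set_option autoImplicit false

open Set Filter Topology TopologicalSpace

namespace Pool.Agent.Bs2

/-- The Baire classes: class `0` = continuous functions; a function is of class `α > 0` if it is the pointwise limit
of a sequence of functions of classes less than `α`. -/
inductive BaireClass {X Y : Type} [TopologicalSpace X] [TopologicalSpace Y] : Ordinal.{0} → (X → Y) → Prop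
  | zero {f : X → Y} : Continuous f → BaireClass 0 f
  | lim {α : Ordinal.{0}} {f : X → Y} (g : ℕ → X → Y) (β : ℕ → Ordinal.{0}) : (∀ n, β n < α) →
      (∀ n, BaireClass (β n) (g n)) → (∀ x, Tendsto (fun n => g n x) atTop (𝓝 (f x))) → BaireClass α f

/-- A Borel function between zero-dimensional Polish spaces. -/
structure BorelFn where
  /-- the domain -/
  X : Type
  /-- the codomain -/
  Y : Type
  [topX : TopologicalSpace X]
  [topY : TopologicalSpace Y]
  /-- the domain is Polish -/
  [polX : PolishSpace X]
  /-- the codomain is Polish -/
  [polY : PolishSpace Y]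
  /-- the domain is zero-dimensional -/
  zeroX : IsTopologicalBasis {U : Set X | IsClopen U}
  /-- the codomain is zero-dimensional -/
  zeroY : IsTopologicalBasis {U : Set Y | IsClopen U}
  /-- the function -/
  f : X → Y
  /-- it is Borel -/
  borelf : ∀ V : Set Y, IsOpen V → @MeasurableSet X (borel X) (f ⁻¹' V)

attribute [instance] BorelFn.topX BorelFn.topY BorelFn.polX BorelFn.polY

/-- `F` embeds in `G`: there are topological embeddings `σ` of the domains and `τ` of the images with
`τ ∘ F = G ∘ σ`. -/
def BorelFn.Emb (F G : BorelFn) : Prop :=
  ∃ (σ : F.X → G.X) (τ : range F.f → range G.f), IsEmbedding σ ∧ IsEmbedding τ ∧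
    ∀ x, (τ ⟨F.f x, mem_range_self x⟩ : G.Y) = G.f (σ x)

end Pool.Agent.Bs2
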