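import Pool.Agent.Bs2.Lim

/-!
# The types on the side of the cells
-/

set_option autoImplicit false

open Set Filter Topology TopologicalSpace
open scoped Classical

namespace Pool.Agent.Bs2

variable {s : Sys} {U : List ℕ → ℕ → Set CC} {Dh : List ℕ → ℕ → Set NN} {Eh : List ℕ → Set NN} {Q : List ℕ → Set CC}

/-- Static data in the case `b2`: the region `G v` and the value `y v` of the cell of `pd v`. -/
structure St2 (s : Sys) (Eh : List ℕ → Set NN) (G : List ℕ → Set CC) (y : List ℕ → CC) : Prop where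
  val : ∀ v, Nd v → v ≠ [] → (∀ e ∈ Eh v, s.h e = y v) ∧ y v ∈ G v ∧ IsClopen (G v)
  same : ∀ v v', Nd v → Nd v' → v ≠ [] → v' ≠ [] → pd v = pd v' → y v = y v' ∧ G v = G v'
  disj : ∀ v v', Nd v → Nd v' → v ≠ [] → v' ≠ [] → pd v ≠ pd v' → Disjoint (G v) (G v')

/-- The case `b3`: the region `G v` of the cell of `pd v`, the neighbourhoods `H v`. -/
structure St3 (s : Sys) (Eh : List ℕ → Set NN) (G H : List ℕ → Set CC) : Prop where
  val : ∀ v, Nd v → v ≠ [] → (∀ e ∈ Eh v, s.h e ∈ H v) ∧ H v ⊆ G v ∧ IsClopen (G v) ∧ IsClopen (H v) ∧ Agr v.length (H v)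
  same : ∀ v v', Nd v → Nd v' → v ≠ [] → v' ≠ [] → pd v = pd v' → G v = G v'
  disj : ∀ v v', Nd v → Nd v' → v ≠ [] → v' ≠ [] → pd v ≠ pd v' → Disjoint (G v) (G v')
  sib : ∀ p u p' u', Nd (p :: u) → Nd (p' :: u') → p < lv u → p' < lv u' → anc u (p + 1) = anc u' (p' + 1) →
    p :: u ≠ p' :: u' → Disjoint (H (p :: u)) (H (p' :: u'))

/-- The case `b4`: `y v` is the value of the cell of `pd v`, `G v` contains the values of the cells above `v`. -/
structure St4 (s : Sys) (Eh : List ℕ → Set NN) (G : List ℕ → Set CC) (y : List ℕ → CC) : Prop where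
  val : ∀ v, Nd v → v ≠ [] → (∀ e ∈ Eh v, s.h e = y v) ∧ IsClopen (G v) ∧ y v ∉ G v ∧ ∀ g ∈ G v, ∀ i < v.length, g i = y v i
  mem : ∀ v, Nd v → v ≠ [] → y v ∈ G (pd v) ∧ G v ⊆ G (pd v)
  same : ∀ v v', Nd v → Nd v' → v ≠ [] → v' ≠ [] → pd v = pd v' → y v = y v'
  disj : ∀ v v', Nd v → Nd v' → v ≠ [] → v' ≠ [] → pd v = pd v' → v ≠ v' → Disjoint (G v) (G v')

/-- The case `b5`. -/
structure St5 (s : Sys) (Eh : List ℕ → Set NN) (G H M : List ℕ → Set CC) : Prop where
  val : ∀ v, Nd v → v ≠ [] → (∀ e ∈ Eh v, s.h e ∈ H v) ∧ IsClopen (G v) ∧ IsClopen (H v) ∧ Agr v.length (H v) ∧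
    H v ⊆ M v ∧ G v ⊆ M v ∧ Disjoint (H v) (G v)
  first : ∀ u, Nd u → M (lv u :: u) ⊆ G u
  next : ∀ p u, Nd (p :: u) → p < lv u → M (p :: u) ⊆ H (anc u (p + 1))
  sib : ∀ p u p' u', Nd (p :: u) → Nd (p' :: u') → p < lv u → p' < lv u' → anc u (p + 1) = anc u' (p' + 1) →
    p :: u ≠ p' :: u' → Disjoint (M (p :: u)) (M (p' :: u'))

/-- The case `b7`: `G u p` the regions of the slots. -/
structure St7 (s : Sys) (Eh : List ℕ → Set NN) (G : List ℕ → ℕ → Set CC) (H : List ℕ → Set CC) : Prop where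
  val : ∀ v, Nd v → v ≠ [] → (∀ e ∈ Eh v, s.h e ∈ H v) ∧ IsClopen (H v) ∧ Agr v.length (H v) ∧ ∀ q ≤ lv v, G v q ⊆ H v
  sub : ∀ p u, Nd (p :: u) → H (p :: u) ⊆ G u p
  disj : ∀ u, Nd u → ∀ p q, p ≤ lv u → q ≤ lv u → p ≠ q → Disjoint (G u p) (G u q)

variable {ψ : (ℕ → ℕ) → CC} {zz ee : (ℕ → ℕ) → NN} {x : ℕ → ℕ} {w : ℕ → ℕ → ℕ} {r : List ℕ}

private theorem y2_pd_first (r : List ℕ) : pd (lv r :: r) = r := anc_self le_rfl

private theorem y2_nd_first (hx : x ∈ Cel r) : Nd (lv r :: r) := ⟨le_rfl, (Cel.nd hx)⟩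

private theorem y2_ee_first (h : Rea s Dh Eh ψ zz ee) (hx : x ∈ Cel r) : ee x ∈ Eh (lv r :: r) := by
  have h1 := h.ee r x hx r.length (by rw [(Cel.first hx)]; exact y2_pd_first r)
  rwa [(Cel.first hx)] at h1

private theorem y2_visit (hx : x ∈ Cel r) (N : ℕ) : ∃ m, N ≤ m ∧ pd (pre x (m + 1)) = r :=
  frequently_atTop.1 hx.2 N

private theorem y2_nd_pre (hx : x ∈ Cel r) (m : ℕ) : Nd (pre x m) := nd_pre hx.1 m

private theorem y2_pre_ne (x : ℕ → ℕ) (m : ℕ) : pre x (m + 1) ≠ [] := List.cons_ne_nil _ _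

private theorem y2_le (hx : x ∈ Cel r) (m : ℕ) : x m ≤ lv (pre x m) := (y2_nd_pre hx (m + 1)).1

private theorem y2_ev_agr (h : Tendsto w atTop (𝓝 x)) (N : ℕ) : ∀ᶠ n in atTop, pre (w n) N = pre x N := by
  rw [tendsto_iff_agr] at h
  have h1 : ∀ᶠ n in atTop, ∀ i ∈ Finset.range N, w n i = x i :=
    (Filter.eventually_all_finset _).2 fun i _ => h i
  filter_upwards [h1] with n hn
  exact pre_congr fun i hi => hn i (Finset.mem_range.2 hi)

private theorem y2_tendsto (h : ∀ N, ∀ᶠ n in atTop, pre (w n) N = pre x N) : Tendsto w atTop (𝓝 x) := by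
  rw [tendsto_iff_agr]
  intro i
  filter_upwards [h (i + 1)] with n hn
  exact pre_inj hn i (Nat.lt_succ_self i)

/-- MODULE y2 (size 1): `x ∈ Cel r`, all `w n` not in `AA`. `h (ee x) = y (lv r :: r)`. -/
theorem ty2 {G : List ℕ → Set CC} {y : List ℕ → CC} (h : Rea s Dh Eh ψ zz ee) (ht : St2 s Eh G y) (hx : x ∈ Cel r)
    (hw : ∀ n, w n ∈ Tr ∧ w n ∉ AA) : Tendsto (fun n => s.h (ee (w n))) atTop (𝓝 (s.h (ee x))) ↔
      ∀ᶠ n in atTop, w n ∈ Cel r := by
  have hval : ∀ {x' : ℕ → ℕ} {r' : List ℕ}, x' ∈ Cel r' → s.h (ee x') = y (lv r' :: r') := by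
    intro x' r' hx'
    exact (ht.val _ (y2_nd_first hx') (List.cons_ne_nil _ _)).1 _ (y2_ee_first h hx')
  have hG := ht.val _ (y2_nd_first hx) (List.cons_ne_nil _ _)
  constructor
  · intro hT
    have h1 : s.h (ee x) ∈ G (lv r :: r) := by
      rw [hval hx]
      exact hG.2.1
    filter_upwards [hT.eventually (hG.2.2.isOpen.mem_nhds h1)] with n hn
    obtain ⟨r', hr', hx'⟩ := exists_cel (hw n).1 (hw n).2
    by_cases hrr : r' = r
    · rwa [hrr] at hx'
    · exfalso
      have h2 : Disjoint (G (lv r' :: r')) (G (lv r :: r)) :=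
        ht.disj _ _ (y2_nd_first hx') (y2_nd_first hx) (List.cons_ne_nil _ _) (List.cons_ne_nil _ _)
          (by rw [y2_pd_first, y2_pd_first]; exact hrr)
      refine Set.disjoint_left.1 h2 ?_ hn
      rw [hval hx']
      exact (ht.val _ (y2_nd_first hx') (List.cons_ne_nil _ _)).2.1
  · intro hE
    refine tendsto_const_nhds.congr' ?_
    filter_upwards [hE] with n hn
    rw [hval hx, hval hn]

private theorem y3_val {G H : List ℕ → Set CC} (h : Rea s Dh Eh ψ zz ee) (ht : St3 s Eh G H) (hx : x ∈ Cel r)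
    {m : ℕ} (hm : pd (pre x (m + 1)) = r) : s.h (ee x) ∈ H (pre x (m + 1)) :=
  (ht.val _ (y2_nd_pre hx _) (y2_pre_ne x m)).1 _ (h.ee r x hx m hm)

private theorem y3_valG {G H : List ℕ → Set CC} (h : Rea s Dh Eh ψ zz ee) (ht : St3 s Eh G H) (hx : x ∈ Cel r) :
    s.h (ee x) ∈ G (lv r :: r) :=
  (ht.val _ (y2_nd_first hx) (List.cons_ne_nil _ _)).2.1
    ((ht.val _ (y2_nd_first hx) (List.cons_ne_nil _ _)).1 _ (y2_ee_first h hx))

private theorem y3_ind {G H : List ℕ → Set CC} (h : Rea s Dh Eh ψ zz ee) (ht : St3 s Eh G H) (hx : x ∈ Cel r)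
    (hT : Tendsto (fun n => s.h (ee (w n))) atTop (𝓝 (s.h (ee x)))) (hC : ∀ᶠ n in atTop, w n ∈ Cel r) (m : ℕ) :
    pd (pre x (m + 1)) = r → ∀ᶠ n in atTop, pre (w n) (m + 1) = pre x (m + 1) := by
  induction m using Nat.strong_induction_on with
  | _ m ih =>
    intro hm
    rcases (y2_le hx m).lt_or_eq with hlt | heq
    · obtain ⟨m', hm', h1, h2⟩ := prev_visit hx.1 hlt
      rw [hm] at h2
      have h3 := (ht.val _ (y2_nd_pre hx (m + 1)) (y2_pre_ne x m)).2.2.2.1
      filter_upwards [ih m' hm' h2, hC, hT.eventually (h3.isOpen.mem_nhds (y3_val h ht hx hm))] with n hn1 hn2 hn3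
      obtain ⟨m'', hm'', h4, h5, h6⟩ := Cel.next_visit (n' := m') hn2 (by rw [hn1]; exact h2)
      have h7 : pre (w n) (m'' + 1) = pre x (m + 1) := by
        by_contra hne
        have h8 := ht.sib (w n m'') (pre (w n) m'') (x m) (pre x m) (y2_nd_pre hn2 (m'' + 1)) (y2_nd_pre hx (m + 1))
          h5 hlt (by rw [h6, h1, hn1]) hne
        exact Set.disjoint_left.1 h8 (y3_val h ht hn2 h4) hn3
      have h8 : m'' = m := by
        have h9 := congrArg List.length h7
        rw [length_pre, length_pre] at h9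
        exact Nat.succ_injective h9
      rw [h8] at h7
      exact h7
    · have h1 : pre x m = r := by
        have h2 : pd (pre x (m + 1)) = pre x m := anc_self heq.ge
        rw [← h2, hm]
      have h2 : m = r.length := by rw [← h1, length_pre]
      filter_upwards [hC] with n hn
      rw [h2, (Cel.first hx), (Cel.first hn)]

/-- MODULE y3 (size 2).

Proof.  `←`: for a visit `v = pre x (m+1)` of `x` eventually `pre (w n) (m+1) = v`, so `ee (w n) ∈ Eh v` and both values are in `H v`, `Agr`; there are arbitrarily long visits.  `→`: the value of `x` is in the clopen set `G (lv r :: r)`, so eventually that of `w n` too, so `w n ∈ Cel r` (`disj`, `exists_cel`).  Then by strong induction on `m`: for each visit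
`m` of `x` eventually `pre (w n) (m+1) = pre x (m+1)`: if `x m = lv (pre x m)` then `pre x m = r` (first child; `Cel.first` for `x` and `w n`); otherwise `prev_visit`: `m' < m` with `anc (pre x m) (x m + 1) = pre x (m'+1)`, a visit; eventually `pre (w n) (m'+1) = pre x (m'+1)`, `Cel.next_visit` for `w n` and `m'` gives a visit `m''` of
`w n` whose previous sibling is `pre x (m'+1)`; eventually the value of `w n` is in the clopen set `H (pre x (m+1))`, and it is in `H (pre (w n) (m''+1))`, so by `sib` the two nodes are equal. Arbitrarily long visits give convergence (`pre_inj`). -/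
theorem ty3 {G H : List ℕ → Set CC} (h : Rea s Dh Eh ψ zz ee) (ht : St3 s Eh G H) (hx : x ∈ Cel r)
    (hw : ∀ n, w n ∈ Tr ∧ w n ∉ AA) : Tendsto (fun n => s.h (ee (w n))) atTop (𝓝 (s.h (ee x))) ↔
      Tendsto w atTop (𝓝 x) ∧ ∀ᶠ n in atTop, w n ∈ Cel r := by
  constructor
  · intro hT
    have hG := ht.val _ (y2_nd_first hx) (List.cons_ne_nil _ _)
    have hC : ∀ᶠ n in atTop, w n ∈ Cel r := by
      filter_upwards [hT.eventually (hG.2.2.1.isOpen.mem_nhds (y3_valG h ht hx))] with n hn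
      obtain ⟨r', hr', hx'⟩ := exists_cel (hw n).1 (hw n).2
      by_cases hrr : r' = r
      · rwa [hrr] at hx'
      · exfalso
        have h2 : Disjoint (G (lv r' :: r')) (G (lv r :: r)) :=
          ht.disj _ _ (y2_nd_first hx') (y2_nd_first hx) (List.cons_ne_nil _ _) (List.cons_ne_nil _ _)
            (by rw [y2_pd_first, y2_pd_first]; exact hrr)
        exact Set.disjoint_left.1 h2 (y3_valG h ht hx') hn
    refine ⟨y2_tendsto fun N => ?_, hC⟩
    obtain ⟨m, hNm, hm⟩ := y2_visit hx N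
    filter_upwards [y3_ind h ht hx hT hC m hm] with n hn
    exact pre_congr fun i hi => pre_inj hn i (by omega)
  · rintro ⟨hT, hC⟩
    rw [tendsto_iff_agr]
    intro i
    obtain ⟨m, him, hm⟩ := y2_visit hx i
    filter_upwards [hC, y2_ev_agr hT (m + 1)] with n hn1 hn2
    have h1 := y3_val h ht hx hm
    have h2 := y3_val h ht hn1 (m := m) (by rw [hn2]; exact hm)
    rw [hn2] at h2
    exact (ht.val _ (y2_nd_pre hx (m + 1)) (y2_pre_ne x m)).2.2.2.2 _ h2 _ h1 i (by rw [length_pre]; omega)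

private theorem y4_val {G : List ℕ → Set CC} {y : List ℕ → CC} (h : Rea s Dh Eh ψ zz ee) (ht : St4 s Eh G y)
    (hx : x ∈ Cel r) : s.h (ee x) = y (lv r :: r) :=
  (ht.val _ (y2_nd_first hx) (List.cons_ne_nil _ _)).1 _ (y2_ee_first h hx)

private theorem y4_dec {G : List ℕ → Set CC} {y : List ℕ → CC} (ht : St4 s Eh G y) (n : ℕ) :
    ∀ u : List ℕ, u.length = n → Nd u → ∀ v, Tp v u → G u ⊆ G v := by
  induction n using Nat.strong_induction_on with
  | _ n ih =>
    intro u hn hu v hv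
    by_cases hvu : v = u
    · rw [hvu]
    · have hne : u ≠ [] := by
        rintro rfl
        exact hvu (List.suffix_nil.1 hv.suffix)
      rcases (tp_iff hu hne).1 hv with h1 | h1
      · exact absurd h1 hvu
      · have h2 := pd_length hne
        exact (ht.mem u hu hne).2.trans (ih _ (by rw [← hn]; exact h2) (pd u) rfl (hu.of_suffix (pd_suffix u)) v h1)

private theorem y4_mem' {G : List ℕ → Set CC} {y : List ℕ → CC} (h : Rea s Dh Eh ψ zz ee) (ht : St4 s Eh G y)
    (hx : x ∈ Cel r) {v : List ℕ} (hv : Tp v r) : s.h (ee x) ∈ G v := by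
  refine y4_dec ht _ r rfl (Cel.nd hx) v hv ?_
  have h1 := (ht.mem _ (y2_nd_first hx) (List.cons_ne_nil _ _)).1
  rw [y2_pd_first] at h1
  rw [y4_val h ht hx]
  exact h1

private theorem y4_mem {G : List ℕ → Set CC} {y : List ℕ → CC} (h : Rea s Dh Eh ψ zz ee) (ht : St4 s Eh G y)
    (hx : x ∈ Cel r) (n : ℕ) : ∀ v : List ℕ, v.length = n → Nd v → v ≠ [] → s.h (ee x) ∈ G v → Tp v r := by
  induction n using Nat.strong_induction_on with
  | _ n ih =>
    intro v hn hv hne hm
    have h1 := (ht.mem v hv hne).2 hm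
    have h2 : Tp (pd v) r := by
      by_cases h0 : pd v = []
      · rw [h0]
        exact tp_nil.2 trivial
      · exact ih _ (by rw [← hn]; exact pd_length hne) (pd v) rfl (hv.of_suffix (pd_suffix v)) h0 h1
    have h3 : pd v ≠ r := by
      intro h3
      have h4 := ht.same v (lv r :: r) hv (y2_nd_first hx) hne (List.cons_ne_nil _ _) (by rw [y2_pd_first, h3])
      refine (ht.val v hv hne).2.2.1 ?_
      rw [h4, ← y4_val h ht hx]
      exact hm
    obtain ⟨t', ht1, ht2, ht3⟩ := h2.next (Cel.nd hx) h3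
    by_contra hcon
    have h5 : t' ≠ v := by
      rintro rfl
      exact hcon ht3
    exact Set.disjoint_left.1 (ht.disj t' v ((Cel.nd hx).of_suffix ht3.suffix) hv ht1 hne ht2 h5)
      (y4_mem' h ht hx ht3) hm

private theorem y4_fin (i : ℕ) : ∃ F : Finset (List ℕ), ∀ t, Nd t → t.length ≤ i → t ∈ F := by
  induction i with
  | zero =>
    refine ⟨{[]}, fun t _ hl => ?_⟩
    rw [Finset.mem_singleton]
    exact List.length_eq_zero_iff.1 (Nat.le_zero.1 hl)
  | succ i ih =>
    obtain ⟨F, hF⟩ := ih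
    refine ⟨F ∪ F.biUnion (fun u => (Finset.range (lv u + 1)).image (fun p => p :: u)), fun t ht hl => ?_⟩
    cases t with
    | nil => exact Finset.mem_union_left _ (hF [] ht (Nat.zero_le _))
    | cons p u =>
      refine Finset.mem_union_right _ (Finset.mem_biUnion.2 ⟨u, hF u ht.2 ?_, ?_⟩)
      · rw [List.length_cons] at hl
        omega
      · exact Finset.mem_image.2 ⟨p, Finset.mem_range.2 (Nat.lt_succ_of_le ht.1), rfl⟩

/-- MODULE y4a (size 2).  Proof.  Claim for `v ≠ []` by induction on the length of `v`: if `h (ee x) ∈ G v`, `x ∈ Cel r`, then `Tp v r`.  Let `t = pd v`; `h (ee x) ∈ G t` (`mem`), so `Tp t r` (induction, or `t = []`).  If `t = r` then `h (ee x) = y v` (`same`, a visit of `x`), not in `G v`.  So `Tp.next`: `t' ≠ []`, `pd t' = t`,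
`Tp t' r`, and `h (ee x) ∈ G t'` (next claim), so `t' = v` by `disj`. -/
theorem st4_mem {G : List ℕ → Set CC} {y : List ℕ → CC} (h : Rea s Dh Eh ψ zz ee) (ht : St4 s Eh G y)
    (hx : x ∈ Cel r) {v : List ℕ} (hv : Nd v) (hne : v ≠ []) (hm : s.h (ee x) ∈ G v) : Tp v r := by
  exact y4_mem h ht hx _ v rfl hv hne hm

/-- Conversely: `Tp v r` implies `h (ee x) ∈ G v`: `h (ee x) = y (lv r :: r) ∈ G r`, and `G` is decreasing along true predecessors. -/
theorem st4_mem' {G : List ℕ → Set CC} {y : List ℕ → CC} (h : Rea s Dh Eh ψ zz ee) (ht : St4 s Eh G y)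
    (hx : x ∈ Cel r) {v : List ℕ} (hv : Tp v r) : s.h (ee x) ∈ G v := by
  exact y4_mem' h ht hx hv

/-- MODULE y4 (size 2).

Proof.  `→`: let `F` be finite; `V = G r ∩ ⋂ t ∈ F, t ≠ [], pd t = r, (G t)ᶜ` is an open neighbourhood of `h (ee x) = y t` (`val`, `mem`, `same`).  If `h (ee (w n)) ∈ V`, `w n ∈ Cel r'`: `Tp r r'` (`st4_mem`; trivial if `r = []`), so `r' = r` or `Tp.next` gives `t` with `pd t = r`, `Tp t r'`; `h (ee (w n)) ∈ G t` (`st4_mem'`), so `t ∉ F`.
`←`: for `i` let `F` be the finite set of the nodes of length `≤ i`: if `w n ∈ Cel r` the values are equal, otherwise `h (ee (w n)) ∈ G t`, `t.length > i`, agrees with `y t = h (ee x)` below `t.length`. -/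
theorem ty4 {G : List ℕ → Set CC} {y : List ℕ → CC} (h : Rea s Dh Eh ψ zz ee) (ht : St4 s Eh G y) (hx : x ∈ Cel r)
    (hw : ∀ n, w n ∈ Tr ∧ w n ∉ AA) : Tendsto (fun n => s.h (ee (w n))) atTop (𝓝 (s.h (ee x))) ↔
      ∀ F : Finset (List ℕ), ∀ᶠ n in atTop, w n ∈ Cel r ∨
        ∃ r' t, w n ∈ Cel r' ∧ t ≠ [] ∧ pd t = r ∧ Tp t r' ∧ t ∉ F := by
  constructor
  · intro hT F
    have h1 : ∀ᶠ n in atTop, ∀ t ∈ F, Nd t → t ≠ [] → pd t = r → s.h (ee (w n)) ∉ G t := by
      refine (Filter.eventually_all_finset _).2 fun t _ => ?_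
      by_cases hc : Nd t ∧ t ≠ [] ∧ pd t = r
      · obtain ⟨hc1, hc2, hc3⟩ := hc
        have h2 := ht.val t hc1 hc2
        have h3 : s.h (ee x) ∈ (G t)ᶜ := by
          rw [y4_val h ht hx, ← ht.same t (lv r :: r) hc1 (y2_nd_first hx) hc2 (List.cons_ne_nil _ _)
            (by rw [y2_pd_first, hc3])]
          exact h2.2.2.1
        filter_upwards [hT.eventually (h2.2.1.isClosed.isOpen_compl.mem_nhds h3)] with n hn _ _ _
        exact hn
      · exact Eventually.of_forall fun n h5 h6 h7 => absurd ⟨h5, h6, h7⟩ hc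
    have h2 : ∀ᶠ n in atTop, r ≠ [] → s.h (ee (w n)) ∈ G r := by
      by_cases hr : r = []
      · exact Eventually.of_forall fun n h5 => absurd hr h5
      · have h3 : s.h (ee x) ∈ G r := y4_mem' h ht hx (Tp.refl r)
        filter_upwards [hT.eventually ((ht.val r (Cel.nd hx) hr).2.1.isOpen.mem_nhds h3)] with n hn _
        exact hn
    filter_upwards [h1, h2] with n hn1 hn2
    obtain ⟨r', hr', hx'⟩ := exists_cel (hw n).1 (hw n).2
    by_cases hrr : r = r'
    · left
      rw [hrr]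
      exact hx'
    · right
      have h3 : Tp r r' := by
        by_cases hr : r = []
        · rw [hr]
          exact tp_nil.2 trivial
        · exact st4_mem h ht hx' (Cel.nd hx) hr (hn2 hr)
      obtain ⟨t, ht1, ht2, ht3⟩ := h3.next hr' hrr
      refine ⟨r', t, hx', ht1, ht2, ht3, fun hF => ?_⟩
      exact hn1 t hF (hr'.of_suffix ht3.suffix) ht1 ht2 (st4_mem' h ht hx' ht3)
  · intro hF
    rw [tendsto_iff_agr]
    intro i
    obtain ⟨F, hF2⟩ := y4_fin i
    filter_upwards [hF F] with n hn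
    rcases hn with hn | ⟨r', t, hx', ht1, ht2, ht3, ht4⟩
    · rw [y4_val h ht hx, y4_val h ht hn]
    · have hnt : Nd t := (Cel.nd hx').of_suffix ht3.suffix
      have hlt : i < t.length := by
        by_contra hcon
        exact ht4 (hF2 t hnt (not_lt.1 hcon))
      rw [y4_val h ht hx, ← ht.same t (lv r :: r) hnt (y2_nd_first hx) ht1 (List.cons_ne_nil _ _)
            (by rw [y2_pd_first, ht2])]
      exact (ht.val t hnt ht1).2.2.2 _ (st4_mem' h ht hx' ht3) i hlt

/-- MODULE y5a (size 3; three theorems).  `M v ⊆ H (previous sibling) ⊆ M (previous sibling)`: induction with `exists_imm`. -/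
theorem st5_ext {G H M : List ℕ → Set CC} (ht : St5 s Eh G H M) {v t : List ℕ} (hn : Nd t) (hv : v ≠ [])
    (hp : pd v = pd t) (hs : v <:+ t) (hne : v ≠ t) : M t ⊆ H v := by
  obtain ⟨n, hlen⟩ : ∃ n, t.length - v.length = n := ⟨_, rfl⟩
  induction n using Nat.strong_induction_on generalizing v with
  | _ n ih =>
    obtain ⟨p, u, h1, h2, h3, h4⟩ := exists_imm hn hv hp hs hne
    have hnv : Nd (p :: u) := hn.of_suffix h3
    have h5 := ht.next p u hnv h1
    rw [h2] at h5
    by_cases h6 : p :: u = t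
    · rw [← h6]
      exact h5
    · have hl1 : v.length ≤ u.length := by
        rw [← h2]
        exact anc_len u (p + 1)
      have hl2 := h3.length_le
      rw [List.length_cons] at hl2
      have h7 := ih (t.length - (p :: u).length) (by rw [List.length_cons]; omega) (List.cons_ne_nil p u)
        (by rw [h4, hp]) h3 h6 rfl
      exact h7.trans ((ht.val _ hnv (List.cons_ne_nil p u)).2.2.2.2.1.trans h5)

private theorem y5_monoM {G H M : List ℕ → Set CC} (ht : St5 s Eh G H M) {v t : List ℕ} (hn : Nd t) (hv : v ≠ [])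
    (hp : pd v = pd t) (hs : v <:+ t) : M t ⊆ M v := by
  by_cases hne : v = t
  · rw [hne]
  · exact (st5_ext ht hn hv hp hs hne).trans (ht.val v (hn.of_suffix hs) hv).2.2.2.2.1

private theorem y5_dec {G H M : List ℕ → Set CC} (ht : St5 s Eh G H M) (n : ℕ) :
    ∀ u : List ℕ, u.length = n → Nd u → ∀ t, t ≠ [] → Tp t u → G u ⊆ G t := by
  induction n using Nat.strong_induction_on with
  | _ n ih =>
    intro u hn hu t hnt htu
    by_cases htu' : t = u
    · rw [htu']
    · have hne : u ≠ [] := by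
        rintro rfl
        exact htu' (List.suffix_nil.1 htu.suffix)
      rcases (tp_iff hu hne).1 htu with h1 | h1
      · exact absurd h1 htu'
      · have h2 := pd_length hne
        have h3 : M u ⊆ M (lv (pd u) :: pd u) :=
          y5_monoM ht hu (List.cons_ne_nil _ _) (y2_pd_first _) (first_suffix hu hne)
        have h4 := ht.first (pd u) (hu.of_suffix (pd_suffix u))
        exact ((ht.val u hu hne).2.2.2.2.2.1.trans (h3.trans h4)).trans
          (ih _ (by rw [← hn]; exact h2) (pd u) rfl (hu.of_suffix (pd_suffix u)) t hnt h1)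

private theorem y5_visit {G H M : List ℕ → Set CC} (h : Rea s Dh Eh ψ zz ee) (ht : St5 s Eh G H M) (hx : x ∈ Cel r)
    {m : ℕ} (hm : pd (pre x (m + 1)) = r) : s.h (ee x) ∈ H (pre x (m + 1)) :=
  (ht.val _ (y2_nd_pre hx _) (y2_pre_ne x m)).1 _ (h.ee r x hx m hm)

/-- `h (ee x) ∈ H (lv r :: r) ⊆ M (lv r :: r) ⊆ G r`, and `G t ⊆ M t ⊆ .. ⊆ M (lv (pd t) :: pd t) ⊆ G (pd t)`. -/
theorem st5_tp {G H M : List ℕ → Set CC} (h : Rea s Dh Eh ψ zz ee) (ht : St5 s Eh G H M) (hx : x ∈ Cel r)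
    {t : List ℕ} (hne : t ≠ []) (hp : Tp t r) : s.h (ee x) ∈ G t := by
  refine y5_dec ht _ r rfl (Cel.nd hx) t hne hp (ht.first r (Cel.nd hx) ?_)
  have h1 := ht.val _ (y2_nd_first hx) (List.cons_ne_nil _ _)
  exact h1.2.2.2.2.1 (h1.1 _ (y2_ee_first h hx))

/-- The claim (M) implies the claims (H), (G). -/
private theorem y5_H {G H M : List ℕ → Set CC} (h : Rea s Dh Eh ψ zz ee) (ht : St5 s Eh G H M) (hx : x ∈ Cel r)
    {v : List ℕ} (hv : Nd v) (hne : v ≠ [])
    (hM : s.h (ee x) ∈ M v → (pd v = r ∧ pre x v.length = v) ∨ ∃ t, t ≠ [] ∧ pd t = pd v ∧ Tp t r ∧ v <:+ t)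
    (hm : s.h (ee x) ∈ H v) : (pd v = r ∧ pre x v.length = v) ∨
      ∃ t, t ≠ [] ∧ pd t = pd v ∧ Tp t r ∧ v <:+ t ∧ t ≠ v := by
  have hval := ht.val v hv hne
  rcases hM (hval.2.2.2.2.1 hm) with h1 | ⟨t, h1, h2, h3, h4⟩
  · exact Or.inl h1
  · refine Or.inr ⟨t, h1, h2, h3, h4, ?_⟩
    rintro rfl
    exact Set.disjoint_left.1 hval.2.2.2.2.2.2 hm (st5_tp h ht hx hne h3)

private theorem y5_G {G H M : List ℕ → Set CC} (h : Rea s Dh Eh ψ zz ee) (ht : St5 s Eh G H M) (hx : x ∈ Cel r)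
    {v : List ℕ} (hv : Nd v) (hne : v ≠ [])
    (hM : s.h (ee x) ∈ M v → (pd v = r ∧ pre x v.length = v) ∨ ∃ t, t ≠ [] ∧ pd t = pd v ∧ Tp t r ∧ v <:+ t)
    (hm : s.h (ee x) ∈ G v) : Tp v r := by
  have hval := ht.val v hv hne
  rcases hM (hval.2.2.2.2.2.1 hm) with ⟨h1, h2⟩ | ⟨t, h1, h2, h3, h4⟩
  · exfalso
    obtain ⟨m, hm'⟩ : ∃ m, v.length = m + 1 :=
      Nat.exists_eq_succ_of_ne_zero fun h0 => hne (List.length_eq_zero_iff.1 h0)
    rw [hm'] at h2
    have h3 := y5_visit h ht hx (m := m) (by rw [h2]; exact h1)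
    rw [h2] at h3
    exact Set.disjoint_left.1 hval.2.2.2.2.2.2 h3 hm
  · by_cases htv : v = t
    · rw [htv]
      exact h3
    · exfalso
      have h5 := st5_ext ht ((Cel.nd hx).of_suffix h3.suffix) hne h2.symm h4 htv
      have h6 := (ht.val t ((Cel.nd hx).of_suffix h3.suffix) h1).2.2.2.2.2.1 (st5_tp h ht hx h1 h3)
      exact Set.disjoint_left.1 hval.2.2.2.2.2.2 (h5 h6) hm

private theorem y5_M {G H M : List ℕ → Set CC} (h : Rea s Dh Eh ψ zz ee) (ht : St5 s Eh G H M) (hx : x ∈ Cel r)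
    (n : ℕ) : ∀ v : List ℕ, v.length = n → Nd v → v ≠ [] → s.h (ee x) ∈ M v →
      (pd v = r ∧ pre x v.length = v) ∨ ∃ t, t ≠ [] ∧ pd t = pd v ∧ Tp t r ∧ v <:+ t := by
  induction n using Nat.strong_induction_on with
  | _ n ih =>
    intro v hn hv hne hm
    cases v with
    | nil => exact absurd rfl hne
    | cons p u =>
      rw [List.length_cons] at hn
      rcases hv.1.lt_or_eq with hlt | heq
      · have hq1 := anc_ne_nil hv.2 hlt
        have hq2 : Nd (anc u (p + 1)) := hv.2.anc _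
        have hq3 : pd (anc u (p + 1)) = pd (p :: u) := pd_anc_succ hv.2 hlt
        have hq4 := ht.next p u hv hlt hm
        have hq5 : (anc u (p + 1)).length < n := by
          have h1 := anc_len u (p + 1)
          omega
        have hsib : ∀ p' u', Nd (p' :: u') → p' < lv u' → anc u' (p' + 1) = anc u (p + 1) →
            s.h (ee x) ∈ M (p' :: u') → p' :: u' = p :: u := by
          intro p' u' h1 h2 h3 h4
          by_contra hcon
          exact Set.disjoint_left.1 (ht.sib p' u' p u h1 hv h2 hlt h3 hcon) h4 hm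
        rcases y5_H h ht hx hq2 hq1 (ih _ hq5 _ rfl hq2 hq1) hq4 with ⟨h1, h2⟩ | ⟨t, h1, h2, h3, h4, h5⟩
        · left
          obtain ⟨n', hn'⟩ : ∃ m, (anc u (p + 1)).length = m + 1 :=
            Nat.exists_eq_succ_of_ne_zero fun h0 => hq1 (List.length_eq_zero_iff.1 h0)
          rw [hn'] at h2
          obtain ⟨m, hm1, hm2, hm3, hm4⟩ := Cel.next_visit (n' := n') hx (by rw [h2]; exact h1)
          have h6 := y5_visit h ht hx hm2
          have h7 := (ht.val _ (y2_nd_pre hx (m + 1)) (y2_pre_ne x m)).2.2.2.2.1 h6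
          have h8 : pre x (m + 1) = p :: u := hsib (x m) (pre x m) (y2_nd_pre hx (m + 1)) hm3 (by rw [hm4, h2]) h7
          refine ⟨?_, ?_⟩
          · rw [← h8]
            exact hm2
          · rw [← h8, length_pre]
        · right
          have hnt : Nd t := (Cel.nd hx).of_suffix h3.suffix
          obtain ⟨p', u', h6, h7, h8, h9⟩ := exists_imm hnt hq1 h2.symm h4 (Ne.symm h5)
          have h10 : s.h (ee x) ∈ M (p' :: u') := by
            refine y5_monoM ht hnt (List.cons_ne_nil _ _) (by rw [h9, h2]) h8 ?_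
            exact (ht.val t hnt h1).2.2.2.2.2.1 (st5_tp h ht hx h1 h3)
          have h11 := hsib p' u' (hnt.of_suffix h8) h6 h7 h10
          refine ⟨t, h1, by rw [h2, hq3], h3, ?_⟩
          rw [← h11]
          exact h8
      · subst heq
        have h1 := ht.first u hv.2 hm
        have h2 : Tp u r := by
          by_cases hu0 : u = []
          · rw [hu0]
            exact tp_nil.2 trivial
          · exact y5_G h ht hx hv.2 hu0 (ih _ (by omega) u rfl hv.2 hu0) h1
        by_cases hur : u = r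
        · left
          refine ⟨?_, ?_⟩
          · rw [y2_pd_first]
            exact hur
          · rw [hur, List.length_cons]
            exact (Cel.first hx)
        · right
          obtain ⟨t, ht1, ht2, ht3⟩ := h2.next (Cel.nd hx) hur
          refine ⟨t, ht1, by rw [y2_pd_first, ht2], ht3, ?_⟩
          have h3 := first_suffix ((Cel.nd hx).of_suffix ht3.suffix) ht1
          rwa [ht2] at h3

/-- Proof.  First the converse inclusions: if `x ∈ Cel r` then `h (ee x) ∈ H v` for the visits `v` of `x`, and `h (ee x) ∈ G t` for every true predecessor `t` of `r` (`h (ee x) ∈ H (lv r :: r) ⊆ M (lv r :: r) ⊆ G r`; and `G t ⊆ M t ⊆ .. ⊆ M (lv (pd t) :: pd t) ⊆ G (pd t)` because `M v ⊆ H (previous sibling) ⊆ M (previous sibling)`).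
Now by strong induction on the length of `v ≠ []` (with `t = pd v`) the three claims: (M) `h (ee x) ∈ M v` implies `(t = r ∧ pre x v.length = v) ∨ ∃ s', pd s' = t ∧ s' ≠ [] ∧ Tp s' r ∧ v <:+ s'`; (H) `h (ee x) ∈ H v` implies `(t = r ∧ pre x v.length = v) ∨ ∃ s', .. ∧ v <:+ s' ∧ s' ≠ v`; (G) `h (ee x) ∈ G v` implies `Tp v r`.
(M), `v = lv t :: t` first child: `h (ee x) ∈ G t`, so `Tp t r` by (G) for `t` (or `t = []`): `t = r`: `Cel.first`; `t ≠ r`: `Tp.next` gives `s'`, and `v <:+ s'` by `first_suffix`.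
(M), `v = p :: u`, `p < lv u`, `q = anc u (p + 1)`: `h (ee x) ∈ H q`; (H) for `q`: either `x ∈ Cel t` passes through `q`: the next visit `v'` of `x` (`Cel.next_visit`) has previous sibling `q` and `h (ee x) ∈ H v' ⊆ M v'`: `v' = v` by `sib`; or `q <:+ s'`, `q ≠ s'`, `Tp s' r`, `pd s' = t`: `exists_imm`: `v'` with previous sibling `q`,
`v' <:+ s'`, and `h (ee x) ∈ G s' ⊆ M s' ⊆ M v'`, so `v' = v` by `sib`.
(H), (G) from (M) by `Disjoint (H v) (G v)`: in the first alternative `h (ee x) ∈ H v` (`v` is a visit), in the second with `s' = v` `h (ee x) ∈ G v`, in the second with `s' ≠ v`: `h (ee x) ∈ G s' ⊆ M s' ⊆ M v' ⊆ H v` (`exists_imm`). -/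
theorem st5_M {G H M : List ℕ → Set CC} (h : Rea s Dh Eh ψ zz ee) (ht : St5 s Eh G H M) (hx : x ∈ Cel r)
    {v : List ℕ} (hv : Nd v) (hne : v ≠ []) (hm : s.h (ee x) ∈ H v) : (pd v = r ∧ pre x v.length = v) ∨
      ∃ t, t ≠ [] ∧ pd t = pd v ∧ Tp t r ∧ v <:+ t ∧ t ≠ v := by
  exact y5_H h ht hx hv hne (y5_M h ht hx _ v rfl hv hne) hm

/-- MODULE y5 (size 2).

Proof.  `→`: for a visit `v = pre x (m+1)` the set `H v` is a neighbourhood of `h (ee x)`, `st5_M` for `w n`.  `←`: for a visit `v`: if `w n ∈ Cel r` passes through `v` then both values are in `H v`; in the second case (`t` a proper extension of `v`, `pd t = pd v = r`, `Tp t r'`, `w n ∈ Cel r'`) `h (ee (w n)) ∈ G t ⊆ M t ⊆ M v' ⊆ H v`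
(`exists_imm`, iterated `next`; the facts in the proof of `st5_M`).  `Agr v.length (H v)` and arbitrarily long visits. -/
theorem ty5 {G H M : List ℕ → Set CC} (h : Rea s Dh Eh ψ zz ee) (ht : St5 s Eh G H M) (hx : x ∈ Cel r)
    (hw : ∀ n, w n ∈ Tr ∧ w n ∉ AA) : Tendsto (fun n => s.h (ee (w n))) atTop (𝓝 (s.h (ee x))) ↔
      ∀ m, pd (pre x (m + 1)) = r → ∀ᶠ n in atTop, (w n ∈ Cel r ∧ pre (w n) (m + 1) = pre x (m + 1)) ∨
        ∃ r' t, w n ∈ Cel r' ∧ t ≠ [] ∧ pd t = r ∧ Tp t r' ∧ pre x (m + 1) <:+ t ∧ t ≠ pre x (m + 1) := by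
  constructor
  · intro hT m hm
    have h1 := ht.val _ (y2_nd_pre hx (m + 1)) (y2_pre_ne x m)
    filter_upwards [hT.eventually (h1.2.2.1.isOpen.mem_nhds (y5_visit h ht hx hm))] with n hn
    obtain ⟨r', hr', hx'⟩ := exists_cel (hw n).1 (hw n).2
    rcases st5_M h ht hx' (y2_nd_pre hx (m + 1)) (y2_pre_ne x m) hn with ⟨h2, h3⟩ | ⟨t, h2, h3, h4, h5, h6⟩
    · left
      rw [hm] at h2
      rw [length_pre] at h3
      rw [h2]
      exact ⟨hx', h3⟩
    · right
      exact ⟨r', t, hx', h2, by rw [h3, hm], h4, h5, h6⟩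
  · intro hE
    rw [tendsto_iff_agr]
    intro i
    obtain ⟨m, him, hm⟩ := y2_visit hx i
    filter_upwards [hE m hm] with n hn
    have h1 := y5_visit h ht hx hm
    have h2 : s.h (ee (w n)) ∈ H (pre x (m + 1)) := by
      rcases hn with ⟨h2, h3⟩ | ⟨r', t, h2, h3, h4, h5, h6, h7⟩
      · have h4 := y5_visit h ht h2 (m := m) (by rw [h3]; exact hm)
        rwa [h3] at h4
      · have hnt : Nd t := (Cel.nd h2).of_suffix h5.suffix
        refine st5_ext ht hnt (y2_pre_ne x m) (by rw [hm, h4]) h6 (Ne.symm h7) ?_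
        exact (ht.val t hnt h3).2.2.2.2.2.1 (st5_tp h ht h2 h3 h5)
    exact (ht.val _ (y2_nd_pre hx (m + 1)) (y2_pre_ne x m)).2.2.2.1 _ h2 _ h1 i (by rw [length_pre]; omega)

private theorem y7_H {G : List ℕ → ℕ → Set CC} {H : List ℕ → Set CC} (h : Rea s Dh Eh ψ zz ee) (ht : St7 s Eh G H)
    (hx : x ∈ Cel r) (m : ℕ) : s.h (ee x) ∈ H (pre x (m + 1)) := by
  obtain ⟨k, hmk, hk⟩ := y2_visit hx m
  have h1 : s.h (ee x) ∈ H (pre x (k + 1)) :=
    (ht.val _ (y2_nd_pre hx _) (y2_pre_ne x k)).1 _ (h.ee r x hx k hk)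
  have h2 : ∀ j, H (pre x (m + j + 1)) ⊆ H (pre x (m + 1)) := by
    intro j
    induction j with
    | zero => exact Subset.rfl
    | succ j ih =>
      have h3 := ht.sub (x (m + j + 1)) (pre x (m + j + 1)) (y2_nd_pre hx (m + j + 1 + 1))
      have h4 := (ht.val _ (y2_nd_pre hx (m + j + 1)) (y2_pre_ne x (m + j))).2.2.2 _ (y2_le hx (m + j + 1))
      exact (h3.trans h4).trans ih
  obtain ⟨j, rfl⟩ := Nat.exists_eq_add_of_le hmk
  exact h2 j h1

/-- MODULE y7 (size 2).

Proof.  For `x ∈ Tr \ AA` and every `m ≥ 1`: `h (ee x) ∈ H (pre x m)`: there is a visit `m' + 1 ≥ m` with `h (ee x) ∈ H (pre x (m'+1))`, and `H (p :: u) ⊆ G u p ⊆ H u`.  So as for `exists_rea`. -/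
theorem ty7 {G : List ℕ → ℕ → Set CC} {H : List ℕ → Set CC} (h : Rea s Dh Eh ψ zz ee) (ht : St7 s Eh G H)
    (hx : x ∈ Cel r) (hw : ∀ n, w n ∈ Tr ∧ w n ∉ AA) :
    Tendsto (fun n => s.h (ee (w n))) atTop (𝓝 (s.h (ee x))) ↔ Tendsto w atTop (𝓝 x) := by
  have hG : ∀ {x' : ℕ → ℕ} {r' : List ℕ}, x' ∈ Cel r' → ∀ m, s.h (ee x') ∈ G (pre x' m) (x' m) := by
    intro x' r' hx' m
    exact ht.sub (x' m) (pre x' m) (y2_nd_pre hx' (m + 1)) (y7_H h ht hx' m)
  constructor
  · intro hT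
    refine y2_tendsto fun N => ?_
    induction N with
    | zero => exact Eventually.of_forall fun n => rfl
    | succ N ih =>
      have h1 := ht.val _ (y2_nd_pre hx (N + 1)) (y2_pre_ne x N)
      filter_upwards [ih, hT.eventually (h1.2.1.isOpen.mem_nhds (y7_H h ht hx N))] with n hn1 hn2
      obtain ⟨r', hr', hx'⟩ := exists_cel (hw n).1 (hw n).2
      have h2 := ht.sub (x N) (pre x N) (y2_nd_pre hx (N + 1)) hn2
      have h3 := hG hx' N
      rw [hn1] at h3
      have h4 : w n N = x N := by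
        by_contra hne
        have h5 := y2_le hx' N
        rw [hn1] at h5
        exact Set.disjoint_left.1 (ht.disj (pre x N) (y2_nd_pre hx N) _ _ h5 (y2_le hx N) hne) h3 h2
      change w n N :: pre (w n) N = x N :: pre x N
      rw [h4, hn1]
  · intro hT
    rw [tendsto_iff_agr]
    intro i
    filter_upwards [y2_ev_agr hT (i + 1)] with n hn
    obtain ⟨r', hr', hx'⟩ := exists_cel (hw n).1 (hw n).2
    have h1 := y7_H h ht hx i
    have h2 := y7_H h ht hx' i
    rw [hn] at h2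
    exact (ht.val _ (y2_nd_pre hx (i + 1)) (y2_pre_ne x i)).2.2.1 _ h2 _ h1 i (by rw [length_pre]; omega)

end Pool.Agent.Bs2
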