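import Pool.Agent.Bs2.Glb
import Pool.Agent.Bs2.Ty

/-!
# The constructions `b1`, `b2`, `b3`
-/

set_option autoImplicit false

open Set Filter Topology TopologicalSpace
open scoped Classical

namespace Pool.Agent.Bs2

variable {s : Sys} {D₀ : Set NN} {J₀ : Set CC}

/-- The static labels of the old nodes are kept, the node `v` is new. -/
def Keep (c c' : Cfg) (v : List ℕ) : Prop :=
  c'.S = insert v c.S ∧ ∀ w ∈ c.S, c'.U w = c.U w ∧ c'.Dh w = c.Dh w ∧ c'.Eh w = c.Eh w ∧ c'.Q w = c.Q w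

theorem Ext.keep {c c' : Cfg} {v : List ℕ} (h : Ext c c' v) : Keep c c' v :=
  ⟨h.S, fun w hw => ⟨h.U w hw, h.Dh w hw, h.Eh w hw, h.Q w hw⟩⟩

/-- All sets of the configuration are below `D₀`. -/
def Blw (c : Cfg) (D₀ : Set NN) : Prop :=
  (∀ p u, u ∈ c.S → p ≤ lv u → p :: u ∉ c.S → c.D (p :: u) ⊆ D₀) ∧ (∀ v ∈ c.S, v ≠ [] → c.R (pd v) ⊆ D₀) ∧
    ∀ u ∈ c.S, ∀ p ≤ lv u, c.Dh u p ⊆ D₀

/-- MODULE v0 (size 1; all theorems of this section): bookkeeping after a step. `c'.D (q :: p :: u) ⊆ c'.Dh (p :: u) q` (`Stc.d2` for `c'`), new slots, old slots. -/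
theorem Res.blw {c c' : Cfg} {p : ℕ} {u : List ℕ} {E' : Set NN} {K : ℕ → Set CC} (h : Res s c c' p u E' K)
    (hb : Blw c D₀) (hD : ∀ q ≤ p + 1, c'.Dh (p :: u) q ⊆ D₀) (hR : c'.R (anc u p) ⊆ D₀) : Blw c' D₀ := by
  obtain ⟨h1, h2, h3⟩ := hb
  refine ⟨?_, ?_, ?_⟩
  · intro q u' hu' hq hqu
    have hS := hu'
    rw [h.ext.S, Finset.mem_insert] at hS
    rcases hS with rfl | hS
    · exact (h.stc.d2 _ hu' q hq hqu).trans (hD q hq)
    · have hne : q :: u' ≠ p :: u := by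
        intro e
        exact hqu (by rw [h.ext.S, e]; exact Finset.mem_insert_self _ _)
      have hnS : q :: u' ∉ c.S := fun e => hqu (by rw [h.ext.S]; exact Finset.mem_insert_of_mem e)
      exact (h.ext.D q u' hS hq hnS hne).trans (h1 q u' hS hq hnS)
  · intro w hw hne
    rw [h.ext.S, Finset.mem_insert] at hw
    rcases hw with rfl | hw
    · exact hR
    · exact (h.ext.R w hw hne).trans (h2 w hw hne)
  · intro u' hu' q hq
    rw [h.ext.S, Finset.mem_insert] at hu'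
    rcases hu' with rfl | hu'
    · exact hD q hq
    · rw [h.ext.Dh u' hu']
      exact h3 u' hu' q hq

private theorem v0_suffix {c : Cfg} (hc : Dyn s c) : ∀ {v w : List ℕ}, w <:+ v → v ∈ c.S → w ∈ c.S := by
  intro v
  induction v with
  | nil =>
    intro w h hv
    rw [List.suffix_nil] at h
    rw [h]
    exact hv
  | cons p u ih =>
    intro w h hv
    rcases List.suffix_cons_iff.1 h with h | h
    · rw [h]
      exact hv
    · exact ih h (hc.tl p u hv)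

private theorem v0_glob {c c' : Cfg} {p : ℕ} {u : List ℕ} {E' : Set NN} {K : ℕ → Set CC} {J : Set CC}
    (h : Res s c c' p u E' K) (hJ : c'.JR (pd (p :: u)) = J) (hg : Glob c J) (hK : ∀ q, K q = J) : Glob c' J := by
  refine ⟨?_, ?_⟩
  · intro w hw hne
    rw [h.ext.S, Finset.mem_insert] at hw
    rcases hw with rfl | hw
    · exact hJ
    · rw [h.ext.JR w hw hne]
      exact hg.1 w hw hne
  · intro q u' hu' hq hqu
    rw [h.ext.S, Finset.mem_insert] at hu'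
    rcases hu' with rfl | hS
    · rw [h.JD q hq]
      exact hK q
    · have hne : q :: u' ≠ p :: u := by
        intro e
        exact hqu (by rw [h.ext.S, e]; exact Finset.mem_insert_self _ _)
      have hnS : q :: u' ∉ c.S := fun e => hqu (by rw [h.ext.S]; exact Finset.mem_insert_of_mem e)
      rw [h.ext.JD q u' hS hq hnS hne]
      exact hg.2 q u' hS hq hnS

theorem Res.glob_cont {c c' : Cfg} {p : ℕ} {u : List ℕ} {E' : Set NN} {K : ℕ → Set CC} {J : Set CC}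
    (h : Res s c c' p u E' K) (hc : Dyn s c) (hu : u ∈ c.S) (hp : p < lv u) (hg : Glob c J) (hK : ∀ q, K q = J) : Glob c' J := by
  refine v0_glob h ?_ hg hK
  show c'.JR (anc u p) = J
  have hnu := hc.nd u hu
  have h1 := anc_ne_nil hnu hp
  have h2 : anc u (p + 1) ∈ c.S := v0_suffix hc (anc_suffix u (p + 1)) hu
  rw [← pd_anc_succ hnu hp, h.ext.JR _ h2 h1]
  exact hg.1 _ h2 h1

theorem Res.glob_root {c c' : Cfg} {u : List ℕ} {E' : Set NN} {K : ℕ → Set CC} {J : Set CC}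
    (h : Res s c c' (lv u) u E' K) (hu : u ∈ c.S) (hg : Glob c J) (hK : ∀ q, K q = J) (hJ : c'.JR u = J) : Glob c' J := by
  refine v0_glob h ?_ hg hK
  show c'.JR (anc u (lv u)) = J
  rw [anc_self le_rfl]
  exact hJ

/-- `shr_jo` keeps `Blw` (`c.Dh` is not changed). -/
theorem blw_shr_jo {c c₁ : Cfg} (hc : Dyn s c) {J : Set CC} (h : c₁ = shr s c (jo J)) (hb : Blw c D₀) : Blw c₁ D₀ := by
  obtain ⟨hS, -, -, hR, hD, -, hDh, -, -⟩ := shr_jo hc J h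
  obtain ⟨h1, h2, h3⟩ := hb
  refine ⟨?_, ?_, ?_⟩
  · intro q u' hu' hq hqu
    rw [hS] at hu' hqu
    exact (hD _).trans (h1 q u' hu' hq hqu)
  · intro w hw hne
    rw [hS] at hw
    exact (hR w hw hne).trans (h2 w hw hne)
  · intro u' hu' q hq
    rw [hS] at hu'
    rw [hDh]
    exact h3 u' hu' q hq

/-- If `h` is not constant on any piece of `E` it has arbitrarily many disjoint clopen sets of values. Proof.  `h '' E` is infinite (if it is finite, a clopen `V` isolates one value and `E ∩ h ⁻¹' V` is a constant piece); `N` different values are separated by cylinders. -/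
theorem many_values {E : Set NN} (hn : E.Nonempty) (h : ∀ W, IsClopen W → (E ∩ W).Nonempty → ¬ Cst s (E ∩ W))
    (N : ℕ) : ∃ Η : Fin N → Set CC, (∀ i, IsClopen (Η i)) ∧ (∀ i j, i ≠ j → Disjoint (Η i) (Η j)) ∧
      ∀ i, (E ∩ s.h ⁻¹' Η i).Nonempty := by
  have hinf : (s.h '' E).Infinite := by
    intro hf
    obtain ⟨e, he⟩ := hn
    have hc : IsClosed (s.h '' E \ {s.h e}) := (hf.subset sdiff_subset).isClosed
    obtain ⟨V, hV, hVs, hVe, -⟩ := exists_cyl hc.isOpen_compl (x := s.h e) (fun h => h.2 rfl) 0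
    refine h (s.h ⁻¹' V) (hV.preimage s.ch) ⟨e, he, hVe⟩ ⟨s.h e, ?_⟩
    rintro e' ⟨he', hV'⟩
    by_contra hne
    exact hVs hV' ⟨⟨e', he', rfl⟩, hne⟩
  obtain ⟨g, hg, hge⟩ : ∃ g : Fin N → CC, Function.Injective g ∧ ∀ i, g i ∈ s.h '' E := by
    obtain ⟨T, hT, hTc⟩ := hinf.exists_subset_card_eq N
    refine ⟨fun i => (T.equivFin.symm (Fin.cast hTc.symm i) : CC), ?_, ?_⟩
    · intro i j hij
      have := T.equivFin.symm.injective (Subtype.ext hij)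
      exact Fin.cast_injective _ this
    · intro i
      exact hT (T.equivFin.symm (Fin.cast hTc.symm i)).2
  obtain ⟨m, hm⟩ : ∃ m, ∀ i j, i ≠ j → ∃ k < m, g i k ≠ g j k := by
    have h1 : ∀ i j, ∃ k, i ≠ j → g i k ≠ g j k := by
      intro i j
      by_cases hij : i = j
      · exact ⟨0, fun h => absurd hij h⟩
      · obtain ⟨k, hk⟩ := Function.ne_iff.1 (hg.ne hij)
        exact ⟨k, fun _ => hk⟩
    choose k hk using h1
    refine ⟨(Finset.univ.sup fun i => Finset.univ.sup fun j => k i j) + 1, fun i j hij => ⟨k i j, ?_, hk i j hij⟩⟩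
    have h2 : k i j ≤ Finset.univ.sup fun j => k i j := Finset.le_sup (f := fun j => k i j) (Finset.mem_univ j)
    have h3 : (Finset.univ.sup fun j => k i j) ≤ Finset.univ.sup fun i => Finset.univ.sup fun j => k i j :=
      Finset.le_sup (f := fun i => Finset.univ.sup fun j => k i j) (Finset.mem_univ i)
    exact Nat.lt_succ_of_le (h2.trans h3)
  have h4 : ∀ i, ∃ V, IsClopen V ∧ V ⊆ univ ∧ g i ∈ V ∧ Agr m V := fun i => exists_cyl isOpen_univ (mem_univ _) m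
  choose V hV1 hV2 hV3 hV4 using h4
  refine ⟨V, hV1, ?_, ?_⟩
  · intro i j hij
    refine disjoint_left.2 fun y hy hy' => ?_
    obtain ⟨k, hk, hne⟩ := hm i j hij
    exact hne ((hV4 i _ (hV3 i) _ hy k hk).trans (hV4 j _ hy' _ (hV3 j) k hk))
  · intro i
    obtain ⟨e, he, hee⟩ := hge i
    exact ⟨e, he, by show s.h e ∈ V i; rw [hee]; exact hV3 i⟩

/-! ### `b1` -/

/-- MODULE v1 (size 2): a step of `b1`.

Proof.  `p < lv u`: `exists_piece` (`n = u.length + 1`), `fc`, `cont` with all `Η i = ∅`, `Jn = univ`, `Φ _ _ Jn = (Jn = univ)`, `Ψ Jn K = ∀ q, K q = Jn`.  `p = lv u`: `exists_good` for `c.D (lv u :: u)` and `univ`, `exists_piece_root`, `fc`, `newr` with `J₀ = univ`. `Res.glob_cont`, `Res.glob_root`. -/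
theorem step1 (hs : s.Ok) {c : Cfg} (hc : Dyn s c) (hst : Stc s c) (hg : Glob c univ) {p : ℕ} {u : List ℕ}
    (hu : u ∈ c.S) (hp : p ≤ lv u) (hv : p :: u ∉ c.S) : ∃ c', Dyn s c' ∧ Stc s c' ∧ Glob c' univ ∧ Keep c c' (p :: u) := by
  rcases hp.lt_or_eq with hp | rfl
  · obtain ⟨E₀, hE₀, hg₀, hb₀, ha₀, -⟩ := exists_piece hc hst hu hp hv (u.length + 1)
    obtain ⟨Q, E', hQ, hE', hgE', hpos⟩ := Sys.fc hg₀
    have hJR : c.JR (anc u p) = univ := by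
      have h1 := anc_ne_nil (hc.nd u hu) hp
      rw [← pd_anc_succ (hc.nd u hu) hp]
      exact hg.1 _ (v0_suffix hc (anc_suffix u (p + 1)) hu) h1
    rw [hJR] at hpos
    obtain ⟨Η, E₁, Jn, K, c', hΦ, hΨ, hR, -, -⟩ := cont hs hc hst hu hp hv (fun _ _ Jn => Jn = univ)
      (fun Jn K => ∀ q, K q = Jn)
      (fun N => ⟨fun _ => ∅, fun _ => isClopen_empty, fun _ _ _ => disjoint_bot_left, fun _ =>
        ⟨E', Q, univ, rfl, hQ, isClopen_univ, hE'.trans hE₀, fun e he => hb₀ e (hE' he),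
          fun x hx y hy => ha₀ x (hE' hx) y (hE' hy), hgE', hpos⟩⟩)
      (fun _ _ Jn D hΦ hJn _ _ hD => ⟨fun _ => Jn, fun _ => rfl, fun _ _ => ⟨hJn, hD⟩⟩)
    exact ⟨c', hR.dyn, hR.stc, hR.glob_cont hc hu hp hg fun q => by rw [hΨ q]; exact hΦ, hR.ext.keep⟩
  · have hslot := hc.slot (lv u) u hu le_rfl hv
    have hJD : c.JD (lv u :: u) = univ := hg.2 (lv u) u hu le_rfl hv
    rw [hJD] at hslot
    obtain ⟨E, -, hE⟩ := Sys.exists_good isClopen_univ hslot.1.not_null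
    obtain ⟨E₀, hE₀, hg₀, hb₀, ha₀, -⟩ := exists_piece_root hc hst hu hv subset_rfl hE (u.length + 1)
    obtain ⟨Q, E', hQ, hE', hgE', hpos⟩ := Sys.fc hg₀
    obtain ⟨K, c', hΨ, hR, -, hJ', -⟩ := newr hs hc hst hu hv (fun Jn K => ∀ q, K q = Jn) hslot.1.1 subset_rfl
      isClopen_univ hQ isClopen_univ (fun e he => hb₀ e (hE' he)) (fun x hx y hy => ha₀ x (hE' hx) y (hE' hy))
      hgE' hpos (fun D _ _ hD => ⟨fun _ => univ, fun _ => rfl, fun _ _ => ⟨isClopen_univ, hD⟩⟩)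
    exact ⟨c', hR.dyn, hR.stc, hR.glob_root hu hg hΨ hJ', hR.ext.keep⟩

/-- The limit, for configurations with labels. -/
theorem w_lim {Γ Λ : Type} [Inhabited Λ] (cf : Γ → Cfg) (lb : Γ → List ℕ → Λ) (V : Γ → Prop)
    (hV : ∀ g, V g → Dyn s (cf g) ∧ Stc s (cf g)) (g0 : Γ) (h0 : V g0)
    (step : ∀ g, V g → ∀ p u, u ∈ (cf g).S → p ≤ lv u → p :: u ∉ (cf g).S →
      ∃ g', V g' ∧ Keep (cf g) (cf g') (p :: u) ∧ ∀ w ∈ (cf g).S, lb g' w = lb g w) :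
    ∃ (U : List ℕ → ℕ → Set CC) (Dh : List ℕ → ℕ → Set NN) (Eh : List ℕ → Set NN) (Q : List ℕ → Set CC)
      (L : List ℕ → Λ), Sch s U Dh Eh Q ∧ ∀ F : Finset (List ℕ), (∀ v ∈ F, Nd v) → ∃ g, V g ∧ F ⊆ (cf g).S ∧
      ∀ w ∈ (cf g).S, (cf g).Eh w = Eh w ∧ lb g w = L w := by
  obtain ⟨L, hL⟩ := lim (fun g => (cf g).S) V
    (fun g w => ((cf g).U w, (cf g).Dh w, (cf g).Eh w, (cf g).Q w, lb g w)) g0 h0 (fun g hg => (hV g hg).1.nil) (by
      intro g hg p u hu hp hv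
      obtain ⟨g', hg', hk, hlb⟩ := step g hg p u hu hp hv
      refine ⟨g', hg', hk.1, fun w hw => ?_⟩
      obtain ⟨e1, e2, e3, e4⟩ := hk.2 w hw
      show ((cf g').U w, (cf g').Dh w, (cf g').Eh w, (cf g').Q w, lb g' w) = _
      rw [e1, e2, e3, e4, hlb w hw])
  refine ⟨fun w => (L w).1, fun w => (L w).2.1, fun w => (L w).2.2.1, fun w => (L w).2.2.2.1,
    fun w => (L w).2.2.2.2, ?_, ?_⟩
  · refine sch_of_lim cf V hV fun F hF => ?_
    obtain ⟨g, hg, hFg, he⟩ := hL F hF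
    refine ⟨g, hg, hFg, fun w hw => ?_⟩
    rw [← he w hw]
    exact ⟨rfl, rfl, rfl, rfl⟩
  · intro F hF
    obtain ⟨g, hg, hFg, he⟩ := hL F hF
    exact ⟨g, hg, hFg, fun w hw => ⟨congrArg (fun t => t.2.2.1) (he w hw), congrArg (fun t => t.2.2.2.2) (he w hw)⟩⟩

theorem w_glob {c : Cfg} {J : Set CC} (hS : c.S = {[]}) (hJ : c.JD [0] = J) : Glob c J := by
  refine ⟨?_, ?_⟩
  · intro v hv hne
    rw [hS] at hv
    exact absurd (Finset.mem_singleton.1 hv) hne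
  · intro p u hu hp _
    rw [hS] at hu
    obtain rfl := Finset.mem_singleton.1 hu
    obtain rfl : p = 0 := Nat.le_zero.1 hp
    exact hJ

theorem w_blw {c : Cfg} (hS : c.S = {[]}) (hD : c.D [0] ⊆ D₀) (hDh : c.Dh [] 0 ⊆ D₀) : Blw c D₀ := by
  refine ⟨?_, ?_, ?_⟩
  · intro p u hu hp _
    rw [hS] at hu
    obtain rfl := Finset.mem_singleton.1 hu
    obtain rfl : p = 0 := Nat.le_zero.1 hp
    exact hD
  · intro v hv hne
    rw [hS] at hv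
    exact absurd (Finset.mem_singleton.1 hv) hne
  · intro u hu p hp
    rw [hS] at hu
    obtain rfl := Finset.mem_singleton.1 hu
    obtain rfl : p = 0 := Nat.le_zero.1 hp
    exact hDh

theorem w_no {c : Cfg} (hS : c.S = {[]}) {v : List ℕ} (hv : v ∈ c.S) (hne : v ≠ []) : False := by
  rw [hS] at hv
  exact hne (Finset.mem_singleton.1 hv)

/-- MODULE w1 (size 1).  `exists_init`, `lim` with `Λ = (ℕ → Set CC) × (ℕ → Set NN) × Set NN × Set CC`, `sch_of_lim`. -/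
theorem var1 (hs : s.Ok) : ∃ U Dh Eh Q, Sch s U Dh Eh Q := by
  obtain ⟨c, hS, hc, hst, -, -, hJ⟩ := exists_init hs isClosed_univ isClopen_univ hs.pos
  obtain ⟨U, Dh, Eh, Q, L, hSch, -⟩ := w_lim (s := s) (Γ := Cfg) (Λ := Unit) id (fun _ _ => ())
    (fun c => Dyn s c ∧ Stc s c ∧ Glob c univ) (fun g h => ⟨h.1, h.2.1⟩) c ⟨hc, hst, w_glob hS hJ⟩ (by
      rintro g ⟨h1, h2, h3⟩ p u hu hp hv
      obtain ⟨c', k1, k2, k3, k4⟩ := step1 hs h1 h2 h3 hu hp hv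
      exact ⟨c', ⟨k1, k2, k3⟩, k4, fun _ _ => rfl⟩)
  exact ⟨U, Dh, Eh, Q, hSch⟩

/-! ### `b2` -/

/-- Configurations in the case `b2`. -/
structure Va2 (s : Sys) (D₀ : Set NN) (J₀ : Set CC) (c : Cfg) (G : List ℕ → Set CC) (y : List ℕ → CC)
    (J : Set CC) : Prop where
  dyn : Dyn s c
  stc : Stc s c
  Jc : IsClopen J
  JJ : J ⊆ J₀
  glob : Glob c J
  blw : Blw c D₀
  val : ∀ v ∈ c.S, v ≠ [] → (∀ e ∈ c.Eh v, s.h e = y v) ∧ y v ∈ G v ∧ IsClopen (G v) ∧ Disjoint (G v) J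
  same : ∀ v ∈ c.S, ∀ v' ∈ c.S, v ≠ [] → v' ≠ [] → pd v = pd v' → y v = y v' ∧ G v = G v'
  disj : ∀ v ∈ c.S, ∀ v' ∈ c.S, v ≠ [] → v' ≠ [] → pd v ≠ pd v' → Disjoint (G v) (G v')

/-- MODULE v2a (size 2): `p < lv u`.

Proof.  `w = anc u (p + 1) ∈ S`, `w ≠ []`, `pd w = anc u p`, `c.JR (anc u p) = J`.  `exists_piece`, `fc`, `cont` with all `Η i = ∅`, `Jn = J`, `Φ _ E' Jn = (Jn = J ∧ E' ⊆ c.E w)`, `Ψ Jn K = ∀ q, K q = Jn`. New labels `G (p :: u) = G w`, `y (p :: u) = y w` (`Function.update` or if-then-else);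
`c'.Eh (p :: u) = E' ⊆ c.E w ⊆ c.Eh w`. -/
theorem step2a (hs : s.Ok) {c : Cfg} {G : List ℕ → Set CC} {y : List ℕ → CC} {J : Set CC}
    (h : Va2 s D₀ J₀ c G y J) {p : ℕ} {u : List ℕ} (hu : u ∈ c.S) (hp : p < lv u) (hv : p :: u ∉ c.S) :
    ∃ c' G' y' J', Va2 s D₀ J₀ c' G' y' J' ∧ Keep c c' (p :: u) ∧ ∀ w ∈ c.S, G' w = G w ∧ y' w = y w := by
  have hc := h.dyn
  have hst := h.stc
  have hnu := hc.nd u hu
  have hpw : pd (anc u (p + 1)) = anc u p := pd_anc_succ hnu hp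
  have hwne : anc u (p + 1) ≠ [] := anc_ne_nil hnu hp
  have hwS : anc u (p + 1) ∈ c.S := v0_suffix hc (anc_suffix u (p + 1)) hu
  obtain ⟨w, hw⟩ : ∃ w, w = anc u (p + 1) := ⟨_, rfl⟩
  rw [← hw] at hpw hwne hwS
  have hJR : c.JR (anc u p) = J := by
    rw [← hpw]
    exact h.glob.1 _ hwS hwne
  obtain ⟨E₀, hE₀, hg₀, hb₀, ha₀, -⟩ := exists_piece hc hst hu hp hv (u.length + 1)
  obtain ⟨Q, E', hQ, hE', hgE', hpos⟩ := Sys.fc hg₀
  rw [hJR] at hpos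
  rw [← hw] at hE₀
  obtain ⟨Η, E₁, Jn, K, c', hΦ, hΨ, hR, -, hDh⟩ := cont hs hc hst hu hp hv (fun _ E' Jn => Jn = J ∧ E' ⊆ c.E w)
    (fun Jn K => ∀ q, K q = Jn)
    (fun N => ⟨fun _ => ∅, fun _ => isClopen_empty, fun _ _ _ => disjoint_bot_left, fun _ =>
      ⟨E', Q, J, ⟨rfl, hE'.trans hE₀⟩, hQ, h.Jc, by rw [← hw]; exact hE'.trans hE₀, fun e he => hb₀ e (hE' he),
        fun x hx y hy => ha₀ x (hE' hx) y (hE' hy), hgE', hpos⟩⟩)
    (fun _ _ Jn D hΦ hJn _ _ hD => ⟨fun _ => Jn, fun _ => rfl, fun _ _ => ⟨hJn, hD⟩⟩)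
  have hvu : ∀ {v : List ℕ}, v ∈ c.S → v ≠ p :: u := fun hvS h => hv (h ▸ hvS)
  have hRD : c.R (anc u p) ⊆ D₀ := by
    rw [← hpw]
    exact h.blw.2.1 w hwS hwne
  have hRR : c'.R (anc u p) ⊆ D₀ := by
    rw [← hpw]
    exact (hR.ext.R w hwS hwne).trans (by rw [hpw]; exact hRD)
  -- the labels
  obtain ⟨G', hG'⟩ : ∃ G' : List ℕ → Set CC, G' = fun v => if v = p :: u then G w else G v := ⟨_, rfl⟩
  obtain ⟨y', hy'⟩ : ∃ y' : List ℕ → CC, y' = fun v => if v = p :: u then y w else y v := ⟨_, rfl⟩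
  have eG : ∀ v ∈ c.S, G' v = G v := fun v hvS => by rw [hG']; exact if_neg (hvu hvS)
  have ey : ∀ v ∈ c.S, y' v = y v := fun v hvS => by rw [hy']; exact if_neg (hvu hvS)
  have eG1 : G' (p :: u) = G w := by rw [hG']; exact if_pos rfl
  have ey1 : y' (p :: u) = y w := by rw [hy']; exact if_pos rfl
  have hmem : ∀ {v : List ℕ}, v ∈ c'.S → v = p :: u ∨ v ∈ c.S := fun hvS => by
    rwa [hR.ext.S, Finset.mem_insert] at hvS
  refine ⟨c', G', y', J, ⟨hR.dyn, hR.stc, h.Jc, h.JJ, hR.glob_cont hc hu hp h.glob fun q => by rw [hΨ q]; exact hΦ.1,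
    hR.blw h.blw (fun q hq => (hDh q hq).trans hRD) hRR, ?_, ?_, ?_⟩, hR.ext.keep, fun v hvS => ⟨eG v hvS, ey v hvS⟩⟩
  · intro v hvS hne
    rcases hmem hvS with rfl | hvS
    · rw [eG1, ey1, hR.Eh]
      obtain ⟨h1, h2, h3, h4⟩ := h.val w hwS hwne
      exact ⟨fun e he => h1 e ((hst.e1 w hwS hwne).1 (hΦ.2 he)), h2, h3, h4⟩
    · rw [eG v hvS, ey v hvS, hR.ext.Eh v hvS]
      exact h.val v hvS hne
  · have key : ∀ v ∈ c'.S, v ≠ [] → ∃ v₁ ∈ c.S, v₁ ≠ [] ∧ pd v₁ = pd v ∧ G' v = G v₁ ∧ y' v = y v₁ := by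
      intro v hvS hne
      rcases hmem hvS with rfl | hvS
      · exact ⟨w, hwS, hwne, hpw, eG1, ey1⟩
      · exact ⟨v, hvS, hne, rfl, eG v hvS, ey v hvS⟩
    intro v hvS v' hvS' hne hne' hpd
    obtain ⟨v₁, a1, a2, a3, a4, a5⟩ := key v hvS hne
    obtain ⟨v₂, b1, b2, b3, b4, b5⟩ := key v' hvS' hne'
    rw [a4, a5, b4, b5]
    exact h.same v₁ a1 v₂ b1 a2 b2 (by rw [a3, b3, hpd])
  · have key : ∀ v ∈ c'.S, v ≠ [] → ∃ v₁ ∈ c.S, v₁ ≠ [] ∧ pd v₁ = pd v ∧ G' v = G v₁ := by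
      intro v hvS hne
      rcases hmem hvS with rfl | hvS
      · exact ⟨w, hwS, hwne, hpw, eG1⟩
      · exact ⟨v, hvS, hne, rfl, eG v hvS⟩
    intro v hvS v' hvS' hne hne' hpd
    obtain ⟨v₁, a1, a2, a3, a4⟩ := key v hvS hne
    obtain ⟨v₂, b1, b2, b3, b4⟩ := key v' hvS' hne'
    rw [a4, b4]
    exact h.disj v₁ a1 v₂ b1 a2 b2 (by rw [a3, b3]; exact hpd)

/-- MODULE v2b (size 2): `p = lv u`.

Proof.  `jstep` with `C = Cst s` (hypothesis from `hB`, `h.blw`, `h.JJ`) : `Η`, `E`, `c₁ = shr s c (jo (J \ Η))`; `shr_jo`, `blw_shr_jo`.  `exists_piece_root` for `c₁`, `R = c₁.D (lv u :: u)`, `J \ Η`; `fc`; `newr` for `c₁` with `J₀ = Jn = J \ Η`.  `G (lv u :: u) = Η`, `y (lv u :: u)` = the constant value of `h` on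
`E` (in `Η` because `E` is nonempty).  No old `v ≠ []` has `pd v = u` (`dyn_setR`). `Η ⊆ J` is disjoint from the old `G v`. -/
theorem step2b (hs : s.Ok) (hB : Bel s (Av s (Cst s)) D₀ J₀) {c : Cfg} {G : List ℕ → Set CC} {y : List ℕ → CC}
    {J : Set CC} (h : Va2 s D₀ J₀ c G y J) {u : List ℕ} (hu : u ∈ c.S) (hv : lv u :: u ∉ c.S) :
    ∃ c' G' y' J', Va2 s D₀ J₀ c' G' y' J' ∧ Keep c c' (lv u :: u) ∧ ∀ w ∈ c.S, G' w = G w ∧ y' w = y w := by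
  have hc := h.dyn
  have hst := h.stc
  have hDD : c.D (lv u :: u) ⊆ D₀ := h.blw.1 (lv u) u hu le_rfl hv
  obtain ⟨Η, E, c₁, hc₁, hHc, hHJ, hEH, ⟨y₀, hy₀⟩, hd₁, hs₁, hE⟩ := jstep hc hst h.Jc h.glob hu hv (C := Cst s)
    (fun E E' hE' ⟨y, hy⟩ => ⟨y, fun e he => hy e (hE' he)⟩)
    (fun J' D hJ' hJJ hD hDD' hpos => hB D J' hD (hDD'.trans hDD) hJ' (hJJ.trans h.JJ) hpos)
  obtain ⟨hS₁, hG₁, hE₁, hR₁, hD₁, hU₁, hDh₁, hEh₁, hQ₁⟩ := shr_jo hc _ hc₁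
  have hJc : IsClopen (J \ Η) := h.Jc.diff hHc
  have hu₁ : u ∈ c₁.S := by rw [hS₁]; exact hu
  have hv₁ : lv u :: u ∉ c₁.S := by rw [hS₁]; exact hv
  have hslot := hd₁.slot (lv u) u hu₁ le_rfl hv₁
  obtain ⟨E₀, hE₀, hg₀, hb₀, ha₀, -⟩ := exists_piece_root hd₁ hs₁ hu₁ hv₁ subset_rfl hE (u.length + 1)
  obtain ⟨Q, E', hQ, hE', hgE', hpos⟩ := Sys.fc hg₀
  obtain ⟨K, c', hΨ, hR, hRu, hJ', hDh⟩ := newr hs hd₁ hs₁ hu₁ hv₁ (fun Jn K => ∀ q, K q = Jn) hslot.1.1 subset_rfl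
    hJc hQ hJc (fun e he => hb₀ e (hE' he)) (fun x hx y hy => ha₀ x (hE' hx) y (hE' hy))
    hgE' hpos (fun D _ _ hD => ⟨fun _ => J \ Η, fun _ => rfl, fun _ _ => ⟨hJc, hD⟩⟩)
  have hb₁ : Blw c₁ D₀ := blw_shr_jo hc hc₁ h.blw
  have hDD₁ : c₁.D (lv u :: u) ⊆ D₀ := (hD₁ _).trans hDD
  have hvu : ∀ {v : List ℕ}, v ∈ c.S → v ≠ lv u :: u := fun hvS h => hv (h ▸ hvS)
  obtain ⟨-, -, hpd⟩ := dyn_setR hc hst hv univ univ
  obtain ⟨G', hG'⟩ : ∃ G' : List ℕ → Set CC, G' = fun v => if v = lv u :: u then Η else G v := ⟨_, rfl⟩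
  obtain ⟨y', hy'⟩ : ∃ y' : List ℕ → CC, y' = fun v => if v = lv u :: u then y₀ else y v := ⟨_, rfl⟩
  have eG : ∀ v ∈ c.S, G' v = G v := fun v hvS => by rw [hG']; exact if_neg (hvu hvS)
  have ey : ∀ v ∈ c.S, y' v = y v := fun v hvS => by rw [hy']; exact if_neg (hvu hvS)
  have eG1 : G' (lv u :: u) = Η := by rw [hG']; exact if_pos rfl
  have ey1 : y' (lv u :: u) = y₀ := by rw [hy']; exact if_pos rfl
  have hmem : ∀ {v : List ℕ}, v ∈ c'.S → v = lv u :: u ∨ v ∈ c.S := fun hvS => by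
    rwa [hR.ext.S, Finset.mem_insert, hS₁] at hvS
  have hpv : pd (lv u :: u) = u := anc_self le_rfl
  have hk₁ := hR.ext.keep
  refine ⟨c', G', y', J \ Η, ⟨hR.dyn, hR.stc, hJc, sdiff_subset.trans h.JJ, hR.glob_root hu₁ hG₁ hΨ hJ',
    hR.blw hb₁ (fun q hq => (hDh q hq).trans hDD₁) ?_, ?_, ?_, ?_⟩, ?_, fun v hvS => ⟨eG v hvS, ey v hvS⟩⟩
  · rw [anc_self le_rfl]
    exact hRu.trans hDD₁
  · intro v hvS hne
    rcases hmem hvS with rfl | hvS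
    · rw [eG1, ey1, hR.Eh]
      obtain ⟨e, he⟩ := hgE'.nonempty
      have h1 : ∀ e ∈ E', s.h e = y₀ := fun e he => hy₀ e (hE₀ (hE' he))
      refine ⟨h1, ?_, hHc, disjoint_sdiff_right⟩
      rw [← h1 e he]
      exact hEH e (hE₀ (hE' he))
    · rw [eG v hvS, ey v hvS, hR.ext.Eh v (by rw [hS₁]; exact hvS), hEh₁]
      obtain ⟨h1, h2, h3, h4⟩ := h.val v hvS hne
      exact ⟨h1, h2, h3, h4.mono_right sdiff_subset⟩
  · intro v hvS v' hvS' hne hne' hpp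
    rcases hmem hvS with rfl | hvS <;> rcases hmem hvS' with rfl | hvS'
    · exact ⟨rfl, rfl⟩
    · exact absurd (hpp.symm.trans hpv) (hpd v' hvS' hne')
    · exact absurd (hpp.trans hpv) (hpd v hvS hne)
    · rw [eG v hvS, eG v' hvS', ey v hvS, ey v' hvS']
      exact h.same v hvS v' hvS' hne hne' hpp
  · intro v hvS v' hvS' hne hne' hpp
    rcases hmem hvS with rfl | hvS <;> rcases hmem hvS' with rfl | hvS'
    · exact absurd rfl hpp
    · rw [eG1, eG v' hvS']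
      exact ((h.val v' hvS' hne').2.2.2.mono_right hHJ).symm
    · rw [eG1, eG v hvS]
      exact (h.val v hvS hne).2.2.2.mono_right hHJ
    · rw [eG v hvS, eG v' hvS']
      exact h.disj v hvS v' hvS' hne hne' hpp
  · refine ⟨?_, ?_⟩
    · rw [hk₁.1, hS₁]
    · intro v hvS
      have := hk₁.2 v (by rw [hS₁]; exact hvS)
      rw [hU₁, hDh₁, hEh₁, hQ₁] at this
      exact this

/-- MODULE w2 (size 1).  `exists_init`, `lim` with `Γ = Cfg × (List ℕ → Set CC) × (List ℕ → CC)`, `sch_of_lim`; each clause of `St2` involves finitely many nodes. -/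
theorem var2 (hs : s.Ok) (hD : IsClosed D₀) (hJ : IsClopen J₀) (h : ¬ s.Null J₀ D₀)
    (hB : Bel s (Av s (Cst s)) D₀ J₀) : ∃ U Dh Eh Q G y, Sch s U Dh Eh Q ∧ St2 s Eh G y := by
  obtain ⟨c, hS, hc, hst, hD0, hDh0, hJ0⟩ := exists_init hs hD hJ h
  obtain ⟨U, Dh, Eh, Q, L, hSch, hL⟩ := w_lim (s := s) (Γ := Cfg × (List ℕ → Set CC) × (List ℕ → CC) × Set CC)
    (Λ := Set CC × CC) (fun g => g.1) (fun g w => (g.2.1 w, g.2.2.1 w))
    (fun g => Va2 s D₀ J₀ g.1 g.2.1 g.2.2.1 g.2.2.2) (fun g h => ⟨h.dyn, h.stc⟩)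
    (c, fun _ => ∅, fun _ _ => false, J₀) (by
      exact ⟨hc, hst, hJ, subset_rfl, w_glob hS hJ0, w_blw hS hD0 hDh0, fun v hv hne => (w_no hS hv hne).elim,
        fun v hv v' _ hne => (w_no hS hv hne).elim, fun v hv v' _ hne => (w_no hS hv hne).elim⟩) (by
      intro g hg p u hu hp hv
      rcases hp.lt_or_eq with hp | rfl
      · obtain ⟨c', G', y', J', k1, k2, k3⟩ := step2a hs hg hu hp hv
        exact ⟨(c', G', y', J'), k1, k2, fun w hw => Prod.ext (k3 w hw).1 (k3 w hw).2⟩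
      · obtain ⟨c', G', y', J', k1, k2, k3⟩ := step2b hs hB hg hu hv
        exact ⟨(c', G', y', J'), k1, k2, fun w hw => Prod.ext (k3 w hw).1 (k3 w hw).2⟩)
  · have hE : ∀ {g : Cfg × (List ℕ → Set CC) × (List ℕ → CC) × Set CC} {w : List ℕ},
        ((g.1).Eh w = Eh w ∧ (g.2.1 w, g.2.2.1 w) = L w) → (g.1).Eh w = Eh w ∧ g.2.1 w = (L w).1 ∧
          g.2.2.1 w = (L w).2 := fun h => ⟨h.1, congrArg Prod.fst h.2, congrArg Prod.snd h.2⟩
    refine ⟨U, Dh, Eh, Q, fun w => (L w).1, fun w => (L w).2, hSch, ?_, ?_, ?_⟩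
    · intro v hv hne
      obtain ⟨g, hg, hF, he⟩ := hL {v} (by simpa using hv)
      have hvS := hF (Finset.mem_singleton_self v)
      obtain ⟨e1, e2, e3⟩ := hE (he v hvS)
      obtain ⟨k1, k2, k3, -⟩ := hg.val v hvS hne
      rw [e1, e3] at k1
      rw [e2, e3] at k2
      rw [e2] at k3
      exact ⟨k1, k2, k3⟩
    · intro v v' hv hv' hne hne' hp
      obtain ⟨g, hg, hF, he⟩ := hL {v, v'} (by
        intro w hw
        rcases Finset.mem_insert.1 hw with rfl | hw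
        · exact hv
        · rw [Finset.mem_singleton.1 hw]
          exact hv')
      have hvS := hF (Finset.mem_insert_self v _)
      have hvS' := hF (Finset.mem_insert_of_mem (Finset.mem_singleton_self v'))
      obtain ⟨-, e2, e3⟩ := hE (he v hvS)
      obtain ⟨-, e2', e3'⟩ := hE (he v' hvS')
      obtain ⟨k1, k2⟩ := hg.same v hvS v' hvS' hne hne' hp
      rw [e3, e3'] at k1
      rw [e2, e2'] at k2
      exact ⟨k1, k2⟩
    · intro v v' hv hv' hne hne' hp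
      obtain ⟨g, hg, hF, he⟩ := hL {v, v'} (by
        intro w hw
        rcases Finset.mem_insert.1 hw with rfl | hw
        · exact hv
        · rw [Finset.mem_singleton.1 hw]
          exact hv')
      have hvS := hF (Finset.mem_insert_self v _)
      have hvS' := hF (Finset.mem_insert_of_mem (Finset.mem_singleton_self v'))
      obtain ⟨-, e2, e3⟩ := hE (he v hvS)
      obtain ⟨-, e2', e3'⟩ := hE (he v' hvS')
      have k := hg.disj v hvS v' hvS' hne hne' hp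
      rw [e2, e2'] at k
      exact k

/-! ### `b3` -/

/-- Configurations in the case `b3`. -/
structure Va3 (s : Sys) (D₀ : Set NN) (J₀ : Set CC) (c : Cfg) (G H : List ℕ → Set CC) (J : Set CC) : Prop where
  dyn : Dyn s c
  stc : Stc s c
  Jc : IsClopen J
  JJ : J ⊆ J₀
  glob : Glob c J
  blw : Blw c D₀
  val : ∀ v ∈ c.S, v ≠ [] → (∀ e ∈ c.Eh v, s.h e ∈ H v) ∧ H v ⊆ G v ∧ IsClopen (G v) ∧ IsClopen (H v) ∧
    Agr v.length (H v) ∧ G v ⊆ J₀ ∧ Disjoint (G v) J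
  same : ∀ v ∈ c.S, ∀ v' ∈ c.S, v ≠ [] → v' ≠ [] → pd v = pd v' → G v = G v'
  disj : ∀ v ∈ c.S, ∀ v' ∈ c.S, v ≠ [] → v' ≠ [] → pd v ≠ pd v' → Disjoint (G v) (G v')
  sib : ∀ p u p' u', p :: u ∈ c.S → p' :: u' ∈ c.S → p < lv u → p' < lv u' → anc u (p + 1) = anc u' (p' + 1) →
    p :: u ≠ p' :: u' → Disjoint (H (p :: u)) (H (p' :: u'))
  dy : ∀ p u, p :: u ∈ c.S → p < lv u → Disjoint (c.E (anc u (p + 1))) (s.h ⁻¹' H (p :: u))

/-- MODULE v3a (size 1): no constant pieces.  Proof.  Let `P = E₀ ∩ W` be constant.  It is good for `(c.R r, J)`, `r = pd w`, so for `(c.R r, (J ∪ G w) \ G w)` and has values in `G w`: `Av s (Cst s) (c.R r) (J ∪ G w)`, contradiction with `hB` (`c.R r` is not null for `J ∪ G w`). -/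
theorem nonconst3 (hB : Bel s (fun D J => ¬ Av s (Cst s) D J) D₀ J₀) {c : Cfg} {G H : List ℕ → Set CC} {J : Set CC}
    (h : Va3 s D₀ J₀ c G H J) {w : List ℕ} (hw : w ∈ c.S) (hne : w ≠ []) {E₀ : Set NN} (hE : E₀ ⊆ c.E w)
    (hg : s.Good (c.R (pd w)) J E₀) : ∀ W, IsClopen W → (E₀ ∩ W).Nonempty → ¬ Cst s (E₀ ∩ W) := by
  intro W hW hWn hcst
  have hgP : s.Good (c.R (pd w)) J (E₀ ∩ W) := hg.piece hW hWn
  obtain ⟨v1, v2, v3, -, -, v6, v7⟩ := h.val w hw hne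
  refine hB (c.R (pd w)) (J ∪ G w) (h.dyn.root w hw hne).1 (h.blw.2.1 w hw hne) (h.Jc.union v3)
    (union_subset h.JJ v6) (fun hn => hgP.pos (hn.mono subset_union_left Sys.rs_sub)) ?_
  refine ⟨G w, E₀ ∩ W, v3, subset_union_right, ?_, hcst, hgP.mono subset_rfl ?_⟩
  · intro e he
    exact v2 (v1 e ((h.stc.e1 w hw hne).1 (hE he.1)))
  · intro y hy
    exact ⟨Or.inl hy, fun hy' => disjoint_left.1 v7 hy' hy⟩

private theorem v3_suffix {c : Cfg} (hc : Dyn s c) : ∀ {v w : List ℕ}, w <:+ v → v ∈ c.S → w ∈ c.S := by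
  intro v
  induction v with
  | nil =>
    intro w h hv
    rw [List.suffix_nil] at h
    rw [h]
    exact hv
  | cons p u ih =>
    intro w h hv
    rcases List.suffix_cons_iff.1 h with h | h
    · rw [h]
      exact hv
    · exact ih h (hc.tl p u hv)

/-- MODULE v3b (size 3): `p < lv u`.

Proof.  `w = anc u (p + 1)`, `r = anc u p`.  `exists_piece` (`n = u.length + 1`): `E₀`.  `exists_clopen_agr`: `H' ⊇ h '' E₀`, `H' ⊆ G w`, `Agr n H'`; `H'' = H' \ ⋃ (older siblings `v' = p' :: u' ∈ S`, `p' < lv u'`, `anc u' (p' + 1) = w`), H v'` still contains `h '' E₀` (`h.dy`).  For `N`: `many_values` (`nonconst3`) gives `Η i`; replace by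
`Η i ∩ H''`; `E₀ ∩ h ⁻¹' Η i` is good for `(c.R r, J)`; `fc`.  `cont` with `Φ Η E' Jn = (Η ⊆ H'' ∧ IsClopen Η ∧ (∀ e ∈ E', h e ∈ Η) ∧ Jn = J)`, `Ψ Jn K = ∀ q, K q = Jn`.  Labels `H (p :: u) = Η`, `G (p :: u) = G w`. -/
theorem step3a (hs : s.Ok) (hB : Bel s (fun D J => ¬ Av s (Cst s) D J) D₀ J₀) {c : Cfg} {G H : List ℕ → Set CC}
    {J : Set CC} (h : Va3 s D₀ J₀ c G H J) {p : ℕ} {u : List ℕ} (hu : u ∈ c.S) (hp : p < lv u) (hv : p :: u ∉ c.S) :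
    ∃ c' G' H' J', Va3 s D₀ J₀ c' G' H' J' ∧ Keep c c' (p :: u) ∧ ∀ w ∈ c.S, G' w = G w ∧ H' w = H w := by
  have hc := h.dyn
  have hst := h.stc
  have hnu := hc.nd u hu
  have hpw : pd (anc u (p + 1)) = anc u p := pd_anc_succ hnu hp
  have hwne : anc u (p + 1) ≠ [] := anc_ne_nil hnu hp
  have hwS : anc u (p + 1) ∈ c.S := v3_suffix hc (anc_suffix u (p + 1)) hu
  obtain ⟨w, hw⟩ : ∃ w, w = anc u (p + 1) := ⟨_, rfl⟩
  rw [← hw] at hpw hwne hwS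
  have hJR : c.JR (anc u p) = J := by
    rw [← hpw]
    exact h.glob.1 _ hwS hwne
  obtain ⟨E₀, hE₀, hg₀, hb₀, ha₀, hh₀⟩ := exists_piece hc hst hu hp hv (u.length + 1)
  rw [hJR] at hg₀
  rw [← hw] at hE₀
  obtain ⟨w1, w2, w3, w4, w5, w6, w7⟩ := h.val w hwS hwne
  have hE₀G : s.h '' E₀ ⊆ G w := by
    rintro _ ⟨e, he, rfl⟩
    exact w2 (w1 e ((hst.e1 w hwS hwne).1 (hE₀ he)))
  obtain ⟨H₁, hH₁c, hH₁s, hH₁G, hH₁a⟩ := exists_clopen_agr hh₀ w3 hE₀G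
  -- the older siblings with the same previous sibling
  obtain ⟨Sb, hSb⟩ : ∃ Sb : Finset (List ℕ), Sb = c.S.filter
      (fun v' => ∃ p' u', v' = p' :: u' ∧ p' < lv u' ∧ anc u' (p' + 1) = w) := ⟨_, rfl⟩
  obtain ⟨H₂, hH₂⟩ : ∃ H₂ : Set CC, H₂ = H₁ \ ⋃ v' ∈ Sb, H v' := ⟨_, rfl⟩
  have hSbc : IsClopen (⋃ v' ∈ Sb, H v') := by
    refine isClopen_biUnion_finset fun v' hv' => ?_
    rw [hSb, Finset.mem_filter] at hv'
    obtain ⟨hv'S, p', u', e, -, -⟩ := hv'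
    exact (h.val v' hv'S (by rw [e]; exact List.cons_ne_nil _ _)).2.2.2.1
  have hH₂c : IsClopen H₂ := by rw [hH₂]; exact hH₁c.diff hSbc
  have hE₀H : ∀ e ∈ E₀, s.h e ∈ H₂ := by
    intro e he
    rw [hH₂]
    refine ⟨hH₁s ⟨e, he, rfl⟩, ?_⟩
    intro hm
    obtain ⟨v', hv', hm'⟩ := mem_iUnion₂.1 hm
    rw [hSb, Finset.mem_filter] at hv'
    obtain ⟨hv'S, p', u', e', hp', ha'⟩ := hv'
    rw [e'] at hv'S hm'
    have hdy := h.dy p' u' hv'S hp'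
    rw [ha'] at hdy
    exact disjoint_left.1 hdy (hE₀ he) hm'
  have hnc := nonconst3 hB h hwS hwne hE₀ (by rw [hpw]; exact hg₀)
  obtain ⟨Η, E₁, Jn, K, c', hΦ, hΨ, hR, hEw, hDh⟩ := cont hs hc hst hu hp hv
    (fun Η E' Jn => Jn = J ∧ Η ⊆ H₂ ∧ IsClopen Η ∧ ∀ e ∈ E', s.h e ∈ Η)
    (fun Jn K => ∀ q, K q = Jn)
    (fun N => by
      obtain ⟨Η, hΗc, hΗd, hΗn⟩ := many_values hg₀.nonempty hnc N
      refine ⟨fun i => Η i ∩ H₂, fun i => (hΗc i).inter hH₂c,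
        fun i j hij => (hΗd i j hij).mono inter_subset_left inter_subset_left, fun i => ?_⟩
      have hgi : s.Good (c.R (anc u p)) J (E₀ ∩ s.h ⁻¹' Η i) := hg₀.piece ((hΗc i).preimage s.ch) (hΗn i)
      obtain ⟨Q, E', hQ, hE', hgE', hpos⟩ := Sys.fc hgi
      refine ⟨E', Q, J, ⟨rfl, inter_subset_right, (hΗc i).inter hH₂c, fun e he => ⟨(hE' he).2, hE₀H e (hE' he).1⟩⟩,
        hQ, h.Jc, ?_, fun e he => hb₀ e (hE' he).1, fun x hx y hy => ha₀ x (hE' hx).1 y (hE' hy).1, ?_, hpos⟩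
      · rw [← hw]
        exact fun e he => hE₀ (hE' he).1
      · rw [hJR]
        exact hgE')
    (fun _ _ Jn D hΦ hJn _ _ hD => ⟨fun _ => Jn, fun _ => rfl, fun _ _ => ⟨hJn, hD⟩⟩)
  obtain ⟨hJn, hΗ2, hΗc, hΗE⟩ := hΦ
  rw [← hw] at hEw
  have hvu : ∀ {v : List ℕ}, v ∈ c.S → v ≠ p :: u := fun hvS h => hv (h ▸ hvS)
  have hRD : c.R (anc u p) ⊆ D₀ := by
    rw [← hpw]
    exact h.blw.2.1 w hwS hwne
  have hRR : c'.R (anc u p) ⊆ D₀ := by
    rw [← hpw]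
    exact (hR.ext.R w hwS hwne).trans (by rw [hpw]; exact hRD)
  -- the labels
  obtain ⟨G', hG'⟩ : ∃ G' : List ℕ → Set CC, G' = fun v => if v = p :: u then G w else G v := ⟨_, rfl⟩
  obtain ⟨H', hH'⟩ : ∃ H' : List ℕ → Set CC, H' = fun v => if v = p :: u then Η else H v := ⟨_, rfl⟩
  have eG : ∀ v ∈ c.S, G' v = G v := fun v hvS => by rw [hG']; exact if_neg (hvu hvS)
  have eH : ∀ v ∈ c.S, H' v = H v := fun v hvS => by rw [hH']; exact if_neg (hvu hvS)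
  have eG1 : G' (p :: u) = G w := by rw [hG']; exact if_pos rfl
  have eH1 : H' (p :: u) = Η := by rw [hH']; exact if_pos rfl
  have hmem : ∀ {v : List ℕ}, v ∈ c'.S → v = p :: u ∨ v ∈ c.S := fun hvS => by
    rwa [hR.ext.S, Finset.mem_insert] at hvS
  have hΗ1 : Η ⊆ H₁ := fun y hy => by
    have := hΗ2 hy
    rw [hH₂] at this
    exact this.1
  have hnew : ∀ p' u', p' :: u' ∈ c.S → p' < lv u' → anc u' (p' + 1) = w → Disjoint Η (H (p' :: u')) := by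
    intro p' u' hS hlt ha
    refine disjoint_left.2 fun y hy hy' => ?_
    have := hΗ2 hy
    rw [hH₂] at this
    refine this.2 (mem_iUnion₂.2 ⟨p' :: u', ?_, hy'⟩)
    rw [hSb, Finset.mem_filter]
    exact ⟨hS, p', u', rfl, hlt, ha⟩
  refine ⟨c', G', H', J, ⟨hR.dyn, hR.stc, h.Jc, h.JJ, hR.glob_cont hc hu hp h.glob fun q => by rw [hΨ q]; exact hJn,
    hR.blw h.blw (fun q hq => (hDh q hq).trans hRD) hRR, ?_, ?_, ?_, ?_, ?_⟩, hR.ext.keep,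
    fun v hvS => ⟨eG v hvS, eH v hvS⟩⟩
  · intro v hvS hne
    rcases hmem hvS with rfl | hvS
    · rw [eG1, eH1, hR.Eh]
      exact ⟨hΗE, hΗ1.trans hH₁G, w3, hΗc, fun x hx y hy => hH₁a x (hΗ1 hx) y (hΗ1 hy), w6, w7⟩
    · rw [eG v hvS, eH v hvS, hR.ext.Eh v hvS]
      exact h.val v hvS hne
  · have key : ∀ v ∈ c'.S, v ≠ [] → ∃ v₁ ∈ c.S, v₁ ≠ [] ∧ pd v₁ = pd v ∧ G' v = G v₁ := by
      intro v hvS hne
      rcases hmem hvS with rfl | hvS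
      · exact ⟨w, hwS, hwne, hpw, eG1⟩
      · exact ⟨v, hvS, hne, rfl, eG v hvS⟩
    intro v hvS v' hvS' hne hne' hpd
    obtain ⟨v₁, a1, a2, a3, a4⟩ := key v hvS hne
    obtain ⟨v₂, b1, b2, b3, b4⟩ := key v' hvS' hne'
    rw [a4, b4]
    exact h.same v₁ a1 v₂ b1 a2 b2 (by rw [a3, b3, hpd])
  · have key : ∀ v ∈ c'.S, v ≠ [] → ∃ v₁ ∈ c.S, v₁ ≠ [] ∧ pd v₁ = pd v ∧ G' v = G v₁ := by
      intro v hvS hne
      rcases hmem hvS with rfl | hvS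
      · exact ⟨w, hwS, hwne, hpw, eG1⟩
      · exact ⟨v, hvS, hne, rfl, eG v hvS⟩
    intro v hvS v' hvS' hne hne' hpd
    obtain ⟨v₁, a1, a2, a3, a4⟩ := key v hvS hne
    obtain ⟨v₂, b1, b2, b3, b4⟩ := key v' hvS' hne'
    rw [a4, b4]
    exact h.disj v₁ a1 v₂ b1 a2 b2 (by rw [a3, b3]; exact hpd)
  · intro p₁ u₁ p₂ u₂ h₁ h₂ hl₁ hl₂ ha hne
    by_cases e₁ : p₁ :: u₁ = p :: u
    · by_cases e₂ : p₂ :: u₂ = p :: u
      · exact absurd (e₁.trans e₂.symm) hne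
      · have h₂' : p₂ :: u₂ ∈ c.S := (hmem h₂).resolve_left e₂
        rw [e₁, eH1, eH _ h₂']
        refine hnew p₂ u₂ h₂' hl₂ ?_
        obtain ⟨rfl, rfl⟩ := List.cons.inj e₁
        rw [← ha, hw]
    · have h₁' : p₁ :: u₁ ∈ c.S := (hmem h₁).resolve_left e₁
      by_cases e₂ : p₂ :: u₂ = p :: u
      · rw [e₂, eH1, eH _ h₁']
        refine (hnew p₁ u₁ h₁' hl₁ ?_).symm
        obtain ⟨rfl, rfl⟩ := List.cons.inj e₂
        rw [ha, hw]
      · have h₂' : p₂ :: u₂ ∈ c.S := (hmem h₂).resolve_left e₂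
        rw [eH _ h₁', eH _ h₂']
        exact h.sib p₁ u₁ p₂ u₂ h₁' h₂' hl₁ hl₂ ha hne
  · intro p₁ u₁ h₁ hl₁
    by_cases e₁ : p₁ :: u₁ = p :: u
    · rw [e₁, eH1]
      obtain ⟨rfl, rfl⟩ := List.cons.inj e₁
      rw [← hw]
      exact disjoint_left.2 fun x hx hx' => hEw hx hx'
    · have h₁' : p₁ :: u₁ ∈ c.S := (hmem h₁).resolve_left e₁
      rw [eH _ h₁']
      have hu₁ : u₁ ∈ c.S := hc.tl p₁ u₁ h₁'
      have hw₁ : anc u₁ (p₁ + 1) ∈ c.S := v3_suffix hc (anc_suffix _ _) hu₁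
      have hw₁n : anc u₁ (p₁ + 1) ≠ [] := anc_ne_nil (hc.nd _ hu₁) hl₁
      exact (h.dy p₁ u₁ h₁' hl₁).mono_left (hR.ext.E _ hw₁ hw₁n)

/-- MODULE v3c (size 2): `p = lv u`.  As `step2b` with `C = Top`; `exists_piece_root` with `n = u.length + 1`, `H (lv u :: u)` from `exists_clopen_agr` inside `Η`, `G (lv u :: u) = Η`. -/
theorem step3b (hs : s.Ok) (hB : Bel s (Av s Top) D₀ J₀) {c : Cfg} {G H : List ℕ → Set CC} {J : Set CC}
    (h : Va3 s D₀ J₀ c G H J) {u : List ℕ} (hu : u ∈ c.S) (hv : lv u :: u ∉ c.S) :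
    ∃ c' G' H' J', Va3 s D₀ J₀ c' G' H' J' ∧ Keep c c' (lv u :: u) ∧ ∀ w ∈ c.S, G' w = G w ∧ H' w = H w := by
  have hc := h.dyn
  have hst := h.stc
  have hDD : c.D (lv u :: u) ⊆ D₀ := h.blw.1 (lv u) u hu le_rfl hv
  obtain ⟨Η, E, c₁, hc₁, hHc, hHJ, hEH, -, hd₁, hs₁, hE⟩ := jstep hc hst h.Jc h.glob hu hv (C := Top)
    (fun E E' hE' hT => hT)
    (fun J' D hJ' hJJ hD hDD' hpos => hB D J' hD (hDD'.trans hDD) hJ' (hJJ.trans h.JJ) hpos)
  obtain ⟨hS₁, hG₁, hE₁, hR₁, hD₁, hU₁, hDh₁, hEh₁, hQ₁⟩ := shr_jo hc _ hc₁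
  have hJc : IsClopen (J \ Η) := h.Jc.diff hHc
  have hu₁ : u ∈ c₁.S := by rw [hS₁]; exact hu
  have hv₁ : lv u :: u ∉ c₁.S := by rw [hS₁]; exact hv
  have hslot := hd₁.slot (lv u) u hu₁ le_rfl hv₁
  obtain ⟨E₀, hE₀, hg₀, hb₀, ha₀, hh₀⟩ := exists_piece_root hd₁ hs₁ hu₁ hv₁ subset_rfl hE (u.length + 1)
  have hE₀Η : s.h '' E₀ ⊆ Η := by
    rintro _ ⟨e, he, rfl⟩
    exact hEH e (hE₀ he)
  obtain ⟨H₀, hH₀c, hH₀s, hH₀G, hH₀a⟩ := exists_clopen_agr hh₀ hHc hE₀Η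
  obtain ⟨Q, E', hQ, hE', hgE', hpos⟩ := Sys.fc hg₀
  obtain ⟨K, c', hΨ, hR, hRu, hJ', hDh⟩ := newr hs hd₁ hs₁ hu₁ hv₁ (fun Jn K => ∀ q, K q = Jn) hslot.1.1 subset_rfl
    hJc hQ hJc (fun e he => hb₀ e (hE' he)) (fun x hx y hy => ha₀ x (hE' hx) y (hE' hy))
    hgE' hpos (fun D _ _ hD => ⟨fun _ => J \ Η, fun _ => rfl, fun _ _ => ⟨hJc, hD⟩⟩)
  have hb₁ : Blw c₁ D₀ := blw_shr_jo hc hc₁ h.blw
  have hDD₁ : c₁.D (lv u :: u) ⊆ D₀ := (hD₁ _).trans hDD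
  have hvu : ∀ {v : List ℕ}, v ∈ c.S → v ≠ lv u :: u := fun hvS h => hv (h ▸ hvS)
  obtain ⟨-, -, hpd⟩ := dyn_setR hc hst hv univ univ
  obtain ⟨G', hG'⟩ : ∃ G' : List ℕ → Set CC, G' = fun v => if v = lv u :: u then Η else G v := ⟨_, rfl⟩
  obtain ⟨H', hH'⟩ : ∃ H' : List ℕ → Set CC, H' = fun v => if v = lv u :: u then H₀ else H v := ⟨_, rfl⟩
  have eG : ∀ v ∈ c.S, G' v = G v := fun v hvS => by rw [hG']; exact if_neg (hvu hvS)
  have eH : ∀ v ∈ c.S, H' v = H v := fun v hvS => by rw [hH']; exact if_neg (hvu hvS)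
  have eG1 : G' (lv u :: u) = Η := by rw [hG']; exact if_pos rfl
  have eH1 : H' (lv u :: u) = H₀ := by rw [hH']; exact if_pos rfl
  have hmem : ∀ {v : List ℕ}, v ∈ c'.S → v = lv u :: u ∨ v ∈ c.S := fun hvS => by
    rwa [hR.ext.S, Finset.mem_insert, hS₁] at hvS
  have hold : ∀ {p' : ℕ} {u' : List ℕ}, p' :: u' ∈ c'.S → p' < lv u' → p' :: u' ∈ c.S := by
    intro p' u' hS hl
    refine (hmem hS).resolve_left fun e => ?_
    obtain ⟨rfl, rfl⟩ := List.cons.inj e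
    exact lt_irrefl _ hl
  have hpv : pd (lv u :: u) = u := anc_self le_rfl
  have hk₁ := hR.ext.keep
  refine ⟨c', G', H', J \ Η, ⟨hR.dyn, hR.stc, hJc, sdiff_subset.trans h.JJ, hR.glob_root hu₁ hG₁ hΨ hJ',
    hR.blw hb₁ (fun q hq => (hDh q hq).trans hDD₁) ?_, ?_, ?_, ?_, ?_, ?_⟩, ?_, fun v hvS => ⟨eG v hvS, eH v hvS⟩⟩
  · rw [anc_self le_rfl]
    exact hRu.trans hDD₁
  · intro v hvS hne
    rcases hmem hvS with rfl | hvS
    · rw [eG1, eH1, hR.Eh]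
      exact ⟨fun e he => hH₀s ⟨e, hE' he, rfl⟩, hH₀G, hHc, hH₀c, hH₀a, hHJ.trans h.JJ, disjoint_sdiff_right⟩
    · rw [eG v hvS, eH v hvS, hR.ext.Eh v (by rw [hS₁]; exact hvS), hEh₁]
      obtain ⟨h1, h2, h3, h4, h5, h6, h7⟩ := h.val v hvS hne
      exact ⟨h1, h2, h3, h4, h5, h6, h7.mono_right sdiff_subset⟩
  · intro v hvS v' hvS' hne hne' hpp
    rcases hmem hvS with rfl | hvS <;> rcases hmem hvS' with rfl | hvS'
    · rfl
    · exact absurd (hpp.symm.trans hpv) (hpd v' hvS' hne')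
    · exact absurd (hpp.trans hpv) (hpd v hvS hne)
    · rw [eG v hvS, eG v' hvS']
      exact h.same v hvS v' hvS' hne hne' hpp
  · intro v hvS v' hvS' hne hne' hpp
    rcases hmem hvS with rfl | hvS <;> rcases hmem hvS' with rfl | hvS'
    · exact absurd rfl hpp
    · rw [eG1, eG v' hvS']
      exact ((h.val v' hvS' hne').2.2.2.2.2.2.mono_right hHJ).symm
    · rw [eG1, eG v hvS]
      exact (h.val v hvS hne).2.2.2.2.2.2.mono_right hHJ
    · rw [eG v hvS, eG v' hvS']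
      exact h.disj v hvS v' hvS' hne hne' hpp
  · intro p₁ u₁ p₂ u₂ h₁ h₂ hl₁ hl₂ ha hne
    have h₁' := hold h₁ hl₁
    have h₂' := hold h₂ hl₂
    rw [eH _ h₁', eH _ h₂']
    exact h.sib p₁ u₁ p₂ u₂ h₁' h₂' hl₁ hl₂ ha hne
  · intro p₁ u₁ h₁ hl₁
    have h₁' := hold h₁ hl₁
    rw [eH _ h₁']
    have hu₂ : u₁ ∈ c.S := hc.tl p₁ u₁ h₁'
    have hw₁ : anc u₁ (p₁ + 1) ∈ c.S := v3_suffix hc (anc_suffix _ _) hu₂
    have hw₁n : anc u₁ (p₁ + 1) ≠ [] := anc_ne_nil (hc.nd _ hu₂) hl₁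
    refine (h.dy p₁ u₁ h₁' hl₁).mono_left ((hR.ext.E _ ?_ hw₁n).trans (hE₁ _ hw₁ hw₁n))
    rw [hS₁]
    exact hw₁
  · refine ⟨?_, ?_⟩
    · rw [hk₁.1, hS₁]
    · intro v hvS
      have := hk₁.2 v (by rw [hS₁]; exact hvS)
      rw [hU₁, hDh₁, hEh₁, hQ₁] at this
      exact this

/-- MODULE w3 (size 1).  As `var2`. -/
theorem var3 (hs : s.Ok) (hD : IsClosed D₀) (hJ : IsClopen J₀) (h : ¬ s.Null J₀ D₀) (hB : Bel s (Av s Top) D₀ J₀)
    (hB' : Bel s (fun D J => ¬ Av s (Cst s) D J) D₀ J₀) :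
    ∃ U Dh Eh Q G H, Sch s U Dh Eh Q ∧ St3 s Eh G H := by
  obtain ⟨c, hS, hc, hst, hD0, hDh0, hJ0⟩ := exists_init hs hD hJ h
  obtain ⟨U, Dh, Eh, Q, L, hSch, hL⟩ := w_lim (s := s) (Γ := Cfg × (List ℕ → Set CC) × (List ℕ → Set CC) × Set CC)
    (Λ := Set CC × Set CC) (fun g => g.1) (fun g w => (g.2.1 w, g.2.2.1 w))
    (fun g => Va3 s D₀ J₀ g.1 g.2.1 g.2.2.1 g.2.2.2) (fun g h => ⟨h.dyn, h.stc⟩)
    (c, fun _ => ∅, fun _ => ∅, J₀) (by
      refine ⟨hc, hst, hJ, subset_rfl, w_glob hS hJ0, w_blw hS hD0 hDh0, fun v hv hne => (w_no hS hv hne).elim,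
        fun v hv v' _ hne => (w_no hS hv hne).elim, fun v hv v' _ hne => (w_no hS hv hne).elim, ?_, ?_⟩
      · intro p u p' u' hv
        exact (w_no hS hv (List.cons_ne_nil _ _)).elim
      · intro p u hv
        exact (w_no hS hv (List.cons_ne_nil _ _)).elim) (by
      intro g hg p u hu hp hv
      rcases hp.lt_or_eq with hp | rfl
      · obtain ⟨c', G', y', J', k1, k2, k3⟩ := step3a hs hB' hg hu hp hv
        exact ⟨(c', G', y', J'), k1, k2, fun w hw => Prod.ext (k3 w hw).1 (k3 w hw).2⟩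
      · obtain ⟨c', G', y', J', k1, k2, k3⟩ := step3b hs hB hg hu hv
        exact ⟨(c', G', y', J'), k1, k2, fun w hw => Prod.ext (k3 w hw).1 (k3 w hw).2⟩)
  · have hE : ∀ {g : Cfg × (List ℕ → Set CC) × (List ℕ → Set CC) × Set CC} {w : List ℕ},
        ((g.1).Eh w = Eh w ∧ (g.2.1 w, g.2.2.1 w) = L w) → (g.1).Eh w = Eh w ∧ g.2.1 w = (L w).1 ∧
          g.2.2.1 w = (L w).2 := fun h => ⟨h.1, congrArg Prod.fst h.2, congrArg Prod.snd h.2⟩
    have h2 : ∀ {v v' : List ℕ}, Nd v → Nd v' → ∀ w ∈ ({v, v'} : Finset (List ℕ)), Nd w := by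
      intro v v' hv hv' w hw
      rcases Finset.mem_insert.1 hw with rfl | hw
      · exact hv
      · rw [Finset.mem_singleton.1 hw]
        exact hv'
    refine ⟨U, Dh, Eh, Q, fun w => (L w).1, fun w => (L w).2, hSch, ?_, ?_, ?_, ?_⟩
    · intro v hv hne
      obtain ⟨g, hg, hF, he⟩ := hL {v} (by simpa using hv)
      have hvS := hF (Finset.mem_singleton_self v)
      obtain ⟨e1, e2, e3⟩ := hE (he v hvS)
      obtain ⟨k1, k2, k3, k4, k5, -, -⟩ := hg.val v hvS hne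
      rw [e1, e3] at k1
      rw [e2, e3] at k2
      rw [e2] at k3
      rw [e3] at k4 k5
      exact ⟨k1, k2, k3, k4, k5⟩
    · intro v v' hv hv' hne hne' hp
      obtain ⟨g, hg, hF, he⟩ := hL {v, v'} (h2 hv hv')
      have hvS := hF (Finset.mem_insert_self v _)
      have hvS' := hF (Finset.mem_insert_of_mem (Finset.mem_singleton_self v'))
      obtain ⟨-, e2, e3⟩ := hE (he v hvS)
      obtain ⟨-, e2', e3'⟩ := hE (he v' hvS')
      have k1 := hg.same v hvS v' hvS' hne hne' hp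
      rw [e2, e2'] at k1
      exact k1
    · intro v v' hv hv' hne hne' hp
      obtain ⟨g, hg, hF, he⟩ := hL {v, v'} (h2 hv hv')
      have hvS := hF (Finset.mem_insert_self v _)
      have hvS' := hF (Finset.mem_insert_of_mem (Finset.mem_singleton_self v'))
      obtain ⟨-, e2, e3⟩ := hE (he v hvS)
      obtain ⟨-, e2', e3'⟩ := hE (he v' hvS')
      have k := hg.disj v hvS v' hvS' hne hne' hp
      rw [e2, e2'] at k
      exact k
    · intro p u p' u' hv hv' hp hp' ha hne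
      obtain ⟨g, hg, hF, he⟩ := hL {p :: u, p' :: u'} (h2 hv hv')
      have hvS := hF (Finset.mem_insert_self _ _)
      have hvS' := hF (Finset.mem_insert_of_mem (Finset.mem_singleton_self _))
      obtain ⟨-, e2, e3⟩ := hE (he _ hvS)
      obtain ⟨-, e2', e3'⟩ := hE (he _ hvS')
      have k := hg.sib p u p' u' hvS hvS' hp hp' ha hne
      rw [e3, e3'] at k
      exact k

end Pool.Agent.Bs2
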